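import Pool.Agent.Lib.MP_5de7bf_an.Linf

/-!
# Averaging operators on essentially bounded functions
-/

set_option autoImplicit false

namespace Pool.Agent.MP_5de7bf_an

open Filter Topology MeasureTheory
open scoped ENNReal

namespace Linf

variable {α : Type*} [MeasurableSpace α] {μ : Measure α}

lemma measurable (f : Linf μ) : Measurable (f : α → ℝ) := (AEEqFun.stronglyMeasurable f.val).measurable

section Finite

variable [IsFiniteMeasure μ]

lemma integrable (f : Linf μ) : Integrable (f : α → ℝ) μ := (memLp f).integrable le_top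

/-- The characteristic function of a measurable set. -/
noncomputable def chi (A : Set α) (hA : MeasurableSet A) : Linf μ :=
  mk (A.indicator fun _ => 1) ((memLp_top_const (1 : ℝ)).indicator hA)

/-- The average over a set. -/
noncomputable def avg (A : Set α) : Linf μ →L[ℝ] ℝ :=
  LinearMap.mkContinuous
    { toFun := fun f => (μ.real A)⁻¹ * ∫ x in A, f x ∂μ
      map_add' := fun f g => by
        rw [← mul_add, ← integral_add (integrable f).restrict (integrable g).restrict]
        congr 1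
        exact integral_congr_ae (ae_restrict_of_ae (coeFn_add f g))
      map_smul' := fun c f => by
        have : ∫ x in A, (c • f) x ∂μ = c * ∫ x in A, f x ∂μ := by
          rw [← integral_const_mul]
          exact integral_congr_ae (ae_restrict_of_ae (coeFn_smul c f))
        simp only [RingHom.id_apply, smul_eq_mul]
        rw [this]
        ring }
    1 (fun f => by
      simp only [LinearMap.coe_mk, AddHom.coe_mk, one_mul, norm_mul]
      have h1 : ‖∫ x in A, f x ∂μ‖ ≤ ‖f‖ * μ.real A :=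
        norm_setIntegral_le_of_norm_le_const_ae' (measure_lt_top _ _) (by
          filter_upwards [ae_le_norm f] with x hx _
          exact hx)
      rcases eq_or_ne (μ.real A) 0 with h0 | h0
      · rw [h0]; simp
      · have h2 : 0 < μ.real A := lt_of_le_of_ne measureReal_nonneg (Ne.symm h0)
        rw [norm_inv, Real.norm_of_nonneg h2.le]
        rw [inv_mul_le_iff₀ h2]
        linarith)

lemma avg_apply (A : Set α) (f : Linf μ) : avg A f = (μ.real A)⁻¹ * ∫ x in A, f x ∂μ := rfl

lemma norm_avg_le (A : Set α) (f : Linf μ) : |avg A f| ≤ ‖f‖ := by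
  have h := (avg (μ := μ) A).le_opNorm f
  have h2 : ‖avg (μ := μ) A‖ ≤ 1 := LinearMap.mkContinuous_norm_le _ zero_le_one _
  calc |avg A f| ≤ ‖avg (μ := μ) A‖ * ‖f‖ := h
    _ ≤ 1 * ‖f‖ := by gcongr
    _ = ‖f‖ := one_mul _

lemma avg_mem {A : Set α} (hA : MeasurableSet A) (hpos : 0 < μ.real A) {f : Linf μ} {a b : ℝ}
    (h : ∀ x ∈ A, a ≤ f x ∧ f x ≤ b) : a ≤ avg A f ∧ avg A f ≤ b := by
  rw [avg_apply, le_inv_mul_iff₀ hpos, inv_mul_le_iff₀ hpos]
  have h1 : ∫ _ in A, a ∂μ = μ.real A * a := by simp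
  have h2 : ∫ _ in A, b ∂μ = μ.real A * b := by simp
  rw [← h1, ← h2]
  exact ⟨setIntegral_mono_on (integrable_const _).restrict (integrable f).restrict hA
    (fun x hx => (h x hx).1), setIntegral_mono_on (integrable f).restrict
      (integrable_const _).restrict hA (fun x hx => (h x hx).2)⟩

/-- Finite rank contractions approximating the identity on a finite set. -/
lemma exists_avg (T : Finset (Linf μ)) {η : ℝ} (hη : 0 < η) :
    ∃ E : Linf μ →L[ℝ] Linf μ, FiniteDimensional ℝ (LinearMap.range (E : Linf μ →ₗ[ℝ] Linf μ)) ∧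
      (∀ f, ‖E f‖ ≤ ‖f‖) ∧ ∀ f ∈ T, ‖E f - f‖ ≤ η := by
  classical
  -- cells
  let c : α → (T → ℤ) := fun x f => ⌊(f : Linf μ) x / η⌋
  have hc : Measurable c := by
    refine measurable_pi_lambda _ (fun f => ?_)
    exact Int.measurable_floor.comp ((measurable (f : Linf μ)).div_const η)
  obtain ⟨L, hL⟩ : ∃ L : ℤ, ∀ᵐ x ∂μ, ∀ f : T, c x f ∈ Finset.Icc (-L) L := by
    obtain ⟨R, hR⟩ : ∃ R : ℝ, ∀ f : T, ‖(f : Linf μ)‖ ≤ R := by
      refine ⟨∑ f : T, ‖(f : Linf μ)‖, fun f => ?_⟩
      exact Finset.single_le_sum (f := fun f : T => ‖(f : Linf μ)‖)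
        (fun _ _ => norm_nonneg _) (Finset.mem_univ f)
    refine ⟨⌈R / η⌉ + 1, ?_⟩
    have h1 : ∀ᵐ x ∂μ, ∀ f : T, |(f : Linf μ) x| ≤ ‖(f : Linf μ)‖ := by
      rw [ae_all_iff]
      exact fun f => ae_le_norm _
    filter_upwards [h1] with x hx f
    have h2 := abs_le.mp ((hx f).trans (hR f))
    rw [Finset.mem_Icc]
    have h3 : R / η ≤ ⌈R / η⌉ := Int.le_ceil _
    constructor
    · rw [Int.le_floor]
      push_cast
      rw [le_div_iff₀ hη]
      rw [div_le_iff₀ hη] at h3
      nlinarith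
    · have h4 : c x f ≤ ⌈R / η⌉ := by
        refine (Int.floor_mono (?_ : (f : Linf μ) x / η ≤ R / η)).trans ?_
        · gcongr
          exact h2.2
        · exact Int.floor_le_ceil _
      linarith
  let J : Finset (T → ℤ) := Fintype.piFinset (fun _ => Finset.Icc (-L) L)
  have hJ : ∀ᵐ x ∂μ, c x ∈ J := by
    filter_upwards [hL] with x hx
    exact Fintype.mem_piFinset.mpr hx
  let A : (T → ℤ) → Set α := fun j => c ⁻¹' {j}
  have hA : ∀ j, MeasurableSet (A j) := fun j => hc (measurableSet_singleton j)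
  let E : Linf μ →L[ℝ] Linf μ := ∑ j ∈ J, (avg (A j)).smulRight (chi (A j) (hA j))
  have hE : ∀ f, ∀ᵐ x ∂μ, E f x = avg (A (c x)) f := by
    intro f
    have h1 : E f = ∑ j ∈ J, (avg (A j) f) • chi (A j) (hA j) := by
      simp [E]
    have h2 : ∀ᵐ x ∂μ, ∀ j ∈ J, ((avg (A j) f) • chi (μ := μ) (A j) (hA j)) x =
        avg (A j) f * (A j).indicator (fun _ => (1 : ℝ)) x := by
      rw [Finset.eventually_all]
      intro j _
      filter_upwards [coeFn_smul (avg (A j) f) (chi (A j) (hA j)),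
        coeFn_mk (μ := μ) ((A j).indicator fun _ => (1 : ℝ))
          ((memLp_top_const (1 : ℝ)).indicator (hA j))] with x h3 h4
      rw [h3]
      congr 1
    filter_upwards [coeFn_sum J (fun j => (avg (A j) f) • chi (A j) (hA j)), h2, hJ]
      with x h3 h4 h5
    rw [h1, h3, Finset.sum_congr rfl h4, Finset.sum_eq_single (c x)]
    · rw [Set.indicator_of_mem (by simp [A]), mul_one]
    · intro j _ hj
      rw [Set.indicator_of_notMem (by simpa [A] using hj.symm), mul_zero]
    · intro h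
      exact absurd h5 h
  refine ⟨E, ?_, ?_, ?_⟩
  · have h1 : LinearMap.range (E : Linf μ →ₗ[ℝ] Linf μ) ≤
        Submodule.span ℝ ((fun j => chi (μ := μ) (A j) (hA j)) '' (J : Set (T → ℤ))) := by
      rintro _ ⟨f, rfl⟩
      have h1 : E f = ∑ j ∈ J, (avg (A j) f) • chi (A j) (hA j) := by
        simp [E]
      change E f ∈ _
      rw [h1]
      refine Submodule.sum_mem _ (fun j hj => Submodule.smul_mem _ _ (Submodule.subset_span ?_))
      exact ⟨j, hj, rfl⟩
    have h2 : FiniteDimensional ℝ (Submodule.span ℝ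
        ((fun j => chi (μ := μ) (A j) (hA j)) '' (J : Set (T → ℤ)))) :=
      FiniteDimensional.span_of_finite ℝ ((Finset.finite_toSet J).image _)
    exact Submodule.finiteDimensional_of_le h1
  · intro f
    refine norm_le_of_ae (norm_nonneg _) ?_
    filter_upwards [hE f] with x hx
    rw [hx]
    exact norm_avg_le _ _
  · intro f hf
    refine norm_le_of_ae hη.le ?_
    have h1 : ∀ᵐ x ∂μ, ∀ j ∈ J, μ (A j) = 0 → x ∉ A j := by
      rw [Finset.eventually_all]
      intro j _
      by_cases h : μ (A j) = 0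
      · have : ∀ᵐ x ∂μ, x ∉ A j := measure_eq_zero_iff_ae_notMem.mp h
        filter_upwards [this] with x hx _
        exact hx
      · exact Eventually.of_forall fun x hx => absurd hx h
    filter_upwards [hE f, coeFn_sub (E f) f, hJ, h1] with x h2 h3 h4 h5
    rw [h3, h2]
    have hxA : x ∈ A (c x) := by simp [A]
    have hpos : 0 < μ.real (A (c x)) := by
      have h6 : μ (A (c x)) ≠ 0 := fun h => h5 (c x) h4 h hxA
      exact ENNReal.toReal_pos h6 (measure_ne_top _ _)
    have h7 : ∀ y ∈ A (c x), η * c x ⟨f, hf⟩ ≤ f y ∧ f y ≤ η * c x ⟨f, hf⟩ + η := by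
      intro y hy
      have h8 : c y = c x := hy
      have h9 : c y ⟨f, hf⟩ = c x ⟨f, hf⟩ := by rw [h8]
      rw [← h9]
      have h10 := Int.floor_le (f y / η)
      have h11 := (Int.lt_floor_add_one (f y / η)).le
      rw [le_div_iff₀ hη] at h10
      rw [div_le_iff₀ hη] at h11
      simp only [c]
      constructor
      · linarith
      · linarith
    have h8 := avg_mem (hA _) hpos h7
    have h9 := h7 x hxA
    rw [abs_le]
    constructor <;> linarith [h8.1, h8.2, h9.1, h9.2]

end Finite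

end Linf

/-- Finite rank approximation of operators with totally bounded image of the unit ball. -/
lemma exists_finite_rank {α : Type*} [MeasurableSpace α] {μ : Measure α} [IsFiniteMeasure μ]
    (P : Linf μ →L[ℝ] Linf μ)
    (hP : ∀ η : ℝ, 0 < η → ∃ T : Finset (Linf μ), ∀ f, ‖f‖ ≤ 1 → ∃ h ∈ T, ‖P f - h‖ ≤ η)
    {η : ℝ} (hη : 0 < η) :
    ∃ Pf : Linf μ →L[ℝ] Linf μ,
      FiniteDimensional ℝ (LinearMap.range (Pf : Linf μ →ₗ[ℝ] Linf μ)) ∧ ‖P - Pf‖ ≤ η := by
  obtain ⟨T, hT⟩ := hP (η / 3) (by positivity)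
  obtain ⟨E, hE1, hE2, hE3⟩ := Linf.exists_avg T (η := η / 3) (by positivity)
  refine ⟨E.comp P, ?_, ?_⟩
  · have h1 : LinearMap.range ((E.comp P : Linf μ →L[ℝ] Linf μ) : Linf μ →ₗ[ℝ] Linf μ) ≤
        LinearMap.range (E : Linf μ →ₗ[ℝ] Linf μ) := by
      rintro _ ⟨f, rfl⟩
      exact ⟨P f, rfl⟩
    exact Submodule.finiteDimensional_of_le h1
  · refine ContinuousLinearMap.opNorm_le_of_unit_norm hη.le (fun f hf => ?_)
    obtain ⟨h, hh, hfh⟩ := hT f hf.le
    have h1 : (P - E.comp P) f = (P f - h) + (h - E h) + E (h - P f) := by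
      rw [map_sub]
      simp
    rw [h1]
    have h2 : ‖h - E h‖ ≤ η / 3 := by rw [norm_sub_rev]; exact hE3 h hh
    have h3 : ‖E (h - P f)‖ ≤ η / 3 := (hE2 _).trans (by rw [norm_sub_rev]; exact hfh)
    calc _ ≤ ‖P f - h‖ + ‖h - E h‖ + ‖E (h - P f)‖ := norm_add₃_le
      _ ≤ η / 3 + η / 3 + η / 3 := by gcongr
      _ = η := by ring

end Pool.Agent.MP_5de7bf_an
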