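import Pool.Agent.Lib.MP_5de7bf_an.Crit4

/-!
# Solutions of `exp v = P (exp (p v))` in a commutative Banach algebra
-/

set_option autoImplicit false

namespace Pool.Agent.MP_5de7bf_an

open Filter Topology NormedSpace

section Inverse

variable {E F : Type*} [NormedAddCommGroup E] [NormedSpace ℝ E] [CompleteSpace E]
  [NormedAddCommGroup F] [NormedSpace ℝ F]

/-- The analytic local inverse. -/
lemma exists_local_inverse {Θ : E → F} (hΘ : AnalyticAt ℝ Θ 0) (i : E ≃L[ℝ] F)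
    (hi : fderiv ℝ Θ 0 = i) :
    ∃ Ψ : F → E, AnalyticAt ℝ Ψ (Θ 0) ∧ ∀ᶠ x in 𝓝 0, Ψ (Θ x) = x := by
  have hfd : HasStrictFDerivAt Θ (i : E →L[ℝ] F) 0 := by
    rw [← hi]
    exact hΘ.hasStrictFDerivAt
  let R : OpenPartialHomeomorph E F := hfd.toOpenPartialHomeomorph Θ
  have hx : (0 : E) ∈ R.source := hfd.mem_toOpenPartialHomeomorph_source
  obtain ⟨p, hp⟩ := hΘ
  have hp' : HasFPowerSeriesAt R p 0 := hp
  have h1 : p 1 = (continuousMultilinearCurryFin1 ℝ E F).symm i := by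
    rw [← hi, hp.fderiv_eq]
    simp
  exact ⟨R.symm, (R.hasFPowerSeriesAt_symm hx hp' h1).analyticAt, R.eventually_left_inverse hx⟩

end Inverse

section Main

variable {A : Type*} [NormedCommRing A] [NormedAlgebra ℝ A] [CompleteSpace A]

lemma hasFDerivAt_exp_smul (c : ℝ) (v : A) :
    HasFDerivAt (fun v : A => exp (c • v)) ((c • exp (c • v)) • (1 : A →L[ℝ] A)) v := by
  have h1 : HasFDerivAt (fun v : A => c • v) (c • (1 : A →L[ℝ] A)) v :=
    (hasFDerivAt_id v).const_smul c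
  have h2 := (hasFDerivAt_exp (𝕂 := ℝ) (x := c • v)).comp v h1
  refine h2.congr_fderiv ?_
  ext h
  simp

lemma analyticAt_exp_smul (c : ℝ) (v : A) : AnalyticAt ℝ (fun v : A => exp (c • v)) v :=
  AnalyticAt.comp_of_eq (g := exp) (f := fun v : A => c • v) (exp_analytic (𝕂 := ℝ) (c • v))
    (analyticAt_const.fun_smul analyticAt_id) rfl

/-- The functional whose critical points are the solutions. -/
noncomputable def JJ (p : ℝ) (P : A →L[ℝ] A) (l : A →L[ℝ] ℝ) (v : A) : ℝ :=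
  p / (p + 1) * l (exp ((p + 1) • v)) - 1 / 2 * l (P (exp (p • v)) * exp (p • v))

lemma analyticAt_JJ (p : ℝ) (P : A →L[ℝ] A) (l : A →L[ℝ] ℝ) (v : A) :
    AnalyticAt ℝ (JJ p P l) v := by
  have h1 : AnalyticAt ℝ (fun v : A => l (exp ((p + 1) • v))) v :=
    (l.analyticAt _).fun_comp (analyticAt_exp_smul _ v)
  have h2 : AnalyticAt ℝ (fun v : A => P (exp (p • v))) v :=
    (P.analyticAt _).fun_comp (analyticAt_exp_smul _ v)
  have h3 : AnalyticAt ℝ (fun v : A => l (P (exp (p • v)) * exp (p • v))) v :=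
    (l.analyticAt _).fun_comp (h2.fun_mul (analyticAt_exp_smul _ v))
  exact (analyticAt_const.fun_mul h1).fun_sub (analyticAt_const.fun_mul h3)

lemma exp_add_one_smul (p : ℝ) (v : A) : exp ((p + 1) • v) = exp (p • v) * exp v := by
  let _ : NormedAlgebra ℚ A := NormedAlgebra.restrictScalars ℚ ℝ A
  rw [add_smul, one_smul, exp_add_of_commute (Commute.all _ _)]

lemma fderiv_JJ {p : ℝ} (hp : p + 1 ≠ 0) {P : A →L[ℝ] A} {l : A →L[ℝ] ℝ}
    (hsym : ∀ f g, l (P f * g) = l (f * P g)) {v : A} (hv : exp v = P (exp (p • v))) :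
    fderiv ℝ (JJ p P l) v = 0 := by
  have h1 : HasFDerivAt (fun v : A => l (exp ((p + 1) • v)))
      (l.comp (((p + 1) • exp ((p + 1) • v)) • (1 : A →L[ℝ] A))) v :=
    l.hasFDerivAt.comp v (hasFDerivAt_exp_smul _ v)
  have h2 : HasFDerivAt (fun v : A => P (exp (p • v)))
      (P.comp ((p • exp (p • v)) • (1 : A →L[ℝ] A))) v :=
    P.hasFDerivAt.comp v (hasFDerivAt_exp_smul _ v)
  have h3 := h2.fun_mul (hasFDerivAt_exp_smul p v)
  have h4 : HasFDerivAt (fun v : A => l (P (exp (p • v)) * exp (p • v))) (l.comp _) v :=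
    l.hasFDerivAt.comp v h3
  have h5 : HasFDerivAt (JJ p P l) _ v := (h1.const_mul (p / (p + 1))).fun_sub
    (h4.const_mul (1 / 2))
  rw [h5.fderiv]
  ext h
  have h6 := hsym (exp (p • v) * h) (exp (p • v))
  rw [← hv] at h6
  have h7 : exp ((p + 1) • v) = exp (p • v) * exp v := exp_add_one_smul p v
  simp only [sub_apply, smul_apply, ContinuousLinearMap.comp_apply, add_apply, smul_eq_mul,
    one_apply_eq_self, zero_apply, ← hv, map_add, h7, smul_mul_assoc, map_smul, mul_smul_comm]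
  rw [mul_comm (exp (p • v)) (P (exp (p • v) * h)), h6]
  have h8 : l (exp v * (exp (p • v) * h)) = l (exp (p • v) * exp v * h) := by
    congr 1; ring
  have h9 : l (exp (p • v) * h * exp v) = l (exp (p • v) * exp v * h) := by
    congr 1; ring
  rw [h8, h9]
  field_simp
  ring

/-- The values of `l (exp ((p + 1) v))` along solutions converging to `0` are constant. -/
theorem banach_const {p : ℝ} (hp : p + 1 ≠ 0) (hp1 : p ≠ 1) (P : A →L[ℝ] A) (l : A →L[ℝ] ℝ)
    (hP1 : P 1 = 1) (hsym : ∀ f g, l (P f * g) = l (f * P g)) (Pf : A →L[ℝ] A)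
    (hfin : FiniteDimensional ℝ (LinearMap.range (Pf : A →ₗ[ℝ] A)))
    (hnorm : ‖p • (P - Pf)‖ < 1) {v : ℕ → A} (hv : Tendsto v atTop (𝓝 0))
    (hsol : ∀ᶠ n in atTop, exp (v n) = P (exp (p • v n))) :
    ∀ᶠ n in atTop, l (exp ((p + 1) • v n)) = l 1 := by
  set Θ : A → A := fun v => exp v - P (exp (p • v)) + p • Pf v with hΘdef
  have hΘ : AnalyticAt ℝ Θ 0 := by
    have h1 : AnalyticAt ℝ (fun v : A => exp v) 0 := exp_analytic (𝕂 := ℝ) 0
    have h2 : AnalyticAt ℝ (fun v : A => P (exp (p • v))) 0 :=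
      (P.analyticAt _).fun_comp (analyticAt_exp_smul _ 0)
    have h3 : AnalyticAt ℝ (fun v : A => p • Pf v) 0 :=
      analyticAt_const.fun_smul (Pf.analyticAt 0)
    exact (h1.fun_sub h2).fun_add h3
  have hΘ0 : Θ 0 = 0 := by
    simp [hΘdef, hP1]
  have hder : fderiv ℝ Θ 0 = 1 - p • (P - Pf) := by
    have h1 : HasFDerivAt (fun v : A => exp v) (1 : A →L[ℝ] A) 0 := hasFDerivAt_exp_zero
    have h2 : HasFDerivAt (fun v : A => P (exp (p • v)))
        (P.comp ((p • exp (p • (0 : A))) • (1 : A →L[ℝ] A))) 0 :=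
      P.hasFDerivAt.comp 0 (hasFDerivAt_exp_smul _ 0)
    have h3 : HasFDerivAt (fun v : A => p • Pf v) (p • Pf) 0 := Pf.hasFDerivAt.const_smul p
    have h4 : HasFDerivAt Θ _ 0 := (h1.fun_sub h2).fun_add h3
    rw [h4.fderiv]
    ext h
    simp
    rw [smul_sub]
    abel
  have hunit : IsUnit (1 - p • (P - Pf)) := isUnit_one_sub_of_norm_lt_one hnorm
  obtain ⟨u, hu⟩ := hunit
  obtain ⟨Ψ, hΨ, hΨinv⟩ := exists_local_inverse hΘ (ContinuousLinearEquiv.ofUnit u)
    (by rw [hder, ← hu]; rfl)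
  rw [hΘ0] at hΨ
  have hΨ0 : Ψ 0 = 0 := by
    have := hΨinv.self_of_nhds
    rwa [hΘ0] at this
  set W := LinearMap.range (Pf : A →ₗ[ℝ] A) with hW
  let f : W → ℝ := fun w => JJ p P l (Ψ (w : A))
  have hΨW : AnalyticAt ℝ (fun w : W => Ψ (w : A)) 0 :=
    AnalyticAt.comp_of_eq (g := Ψ) (f := fun w : W => (w : A)) hΨ (W.subtypeL.analyticAt 0) rfl
  have hf : AnalyticAt ℝ f 0 :=
    AnalyticAt.comp_of_eq (g := JJ p P l) (f := fun w : W => Ψ (w : A))
      (analyticAt_JJ p P l 0) hΨW (by simp [hΨ0])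
  let w : ℕ → W := fun n => ⟨p • Pf (v n), W.smul_mem p ⟨v n, rfl⟩⟩
  have hw : Tendsto w atTop (𝓝 0) := by
    rw [tendsto_subtype_rng]
    have h1 : Tendsto (fun n => p • Pf (v n)) atTop (𝓝 (p • Pf 0)) :=
      ((Pf.continuous.tendsto 0).comp hv).const_smul p
    simpa using h1
  have hinv : ∀ᶠ n in atTop, Ψ (w n : A) = v n := by
    filter_upwards [hsol, hv.eventually hΨinv] with n h1 h2
    have h3 : Θ (v n) = (w n : A) := by
      simp only [hΘdef, w]
      rw [h1, sub_self, zero_add]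
    rwa [h3] at h2
  have hcrit : ∀ᶠ n in atTop, fderiv ℝ f (w n) = 0 := by
    filter_upwards [hinv, hsol, hw.eventually (hΨW.eventually_analyticAt)] with n h1 h2 h3
    have h4 : HasFDerivAt (JJ p P l) (0 : A →L[ℝ] ℝ) (Ψ (w n : A)) := by
      rw [h1, ← fderiv_JJ hp hsym h2]
      exact (analyticAt_JJ p P l (v n)).differentiableAt.hasFDerivAt
    have h5 : HasFDerivAt f ((0 : A →L[ℝ] ℝ).comp (fderiv ℝ (fun w : W => Ψ (w : A)) (w n))) (w n) :=
      HasFDerivAt.comp (g := JJ p P l) (f := fun w : W => Ψ (w : A)) (w n) h4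
        h3.differentiableAt.hasFDerivAt
    rw [h5.fderiv, ContinuousLinearMap.zero_comp]
  have hval : ∀ v : A, exp v = P (exp (p • v)) →
      JJ p P l v = (p / (p + 1) - 1 / 2) * l (exp ((p + 1) • v)) := by
    intro v hv
    unfold JJ
    rw [← hv, mul_comm (exp v), ← exp_add_one_smul]
    ring
  have hcoef : p / (p + 1) - 1 / 2 ≠ 0 := by
    intro h
    apply hp1
    field_simp at h
    linarith
  filter_upwards [critical_value_const hf hw hcrit, hinv, hsol] with n h1 h2 h3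
  have h4 : f (w n) = JJ p P l (v n) := by
    simp only [f]
    rw [h2]
  have h5 : f 0 = JJ p P l 0 := by
    simp [f, hΨ0]
  rw [h4, h5, hval _ h3, hval 0 (by simp [hP1])] at h1
  have h6 := mul_left_cancel₀ hcoef h1
  rw [h6]
  simp

end Main

end Pool.Agent.MP_5de7bf_an
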