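import Pool.Agent.Lib.MP_5de7bf_an.Weier

/-!
# Ultrafilter germs of analytic functions: definitions, the generic case, elimination
-/

set_option autoImplicit false

namespace Pool.Agent.MP_5de7bf_an

open Filter Topology

section Basic

variable {V : Type*} [NormedAddCommGroup V] [NormedSpace ℝ V]
variable {W : Type*} [NormedAddCommGroup W] [NormedSpace ℝ W]

/-- An analytic vector field which is tangent to the ideal of germs of analytic functions which
vanish along `U`. -/
def Tangent (U : Filter V) (ξ : V → V) : Prop :=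
  AnalyticAt ℝ ξ 0 ∧ ∀ g : V → ℝ, AnalyticAt ℝ g 0 → (∀ᶠ x in U, g x = 0) →
    ∀ᶠ x in U, fderiv ℝ g x (ξ x) = 0

/-- A quotient of analytic germs killed by all tangent fields is constant along `U`. -/
def ClaimB (V : Type*) [NormedAddCommGroup V] [NormedSpace ℝ V] : Prop :=
  ∀ U : Ultrafilter V, (U : Filter V) ≤ 𝓝 0 → ∀ a b : V → ℝ, AnalyticAt ℝ a 0 →
    AnalyticAt ℝ b 0 → (∀ᶠ x in (U : Filter V), b x ≠ 0) →
    (∀ ξ, Tangent (U : Filter V) ξ → ∀ᶠ x in (U : Filter V),
      b x * fderiv ℝ a x (ξ x) = a x * fderiv ℝ b x (ξ x)) →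
    ∃ c : ℝ, ∀ᶠ x in (U : Filter V), a x = c * b x

lemma analyticAt_clm_apply {L : V → (W →L[ℝ] ℝ)} {u : V → W} {x : V} (hL : AnalyticAt ℝ L x)
    (hu : AnalyticAt ℝ u x) : AnalyticAt ℝ (fun y => L y (u y)) x := by
  have h3 := (ContinuousLinearMap.analyticAt_bilinear (ContinuousLinearMap.id ℝ (W →L[ℝ] ℝ))
      (L x, u x))
  exact h3.comp_of_eq (hL.prod hu) rfl

/-- The generic case of `ClaimB`: no nonzero germ vanishes along `U`. -/
lemma claimB_generic (U : Ultrafilter V) (hU : (U : Filter V) ≤ 𝓝 0)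
    (hgen : ∀ g : V → ℝ, AnalyticAt ℝ g 0 → (∀ᶠ x in (U : Filter V), g x = 0) →
      ∀ᶠ x in 𝓝 0, g x = 0)
    {a b : V → ℝ} (ha : AnalyticAt ℝ a 0) (hb : AnalyticAt ℝ b 0)
    (hb0 : ∀ᶠ x in (U : Filter V), b x ≠ 0)
    (hab : ∀ ξ, Tangent (U : Filter V) ξ → ∀ᶠ x in (U : Filter V),
      b x * fderiv ℝ a x (ξ x) = a x * fderiv ℝ b x (ξ x)) :
    ∃ c : ℝ, ∀ᶠ x in (U : Filter V), a x = c * b x := by
  obtain ⟨r, hr, hball⟩ : ∃ r > 0, ∀ x ∈ Metric.ball (0 : V) r,
      AnalyticAt ℝ a x ∧ AnalyticAt ℝ b x := by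
    have := ha.eventually_analyticAt.and hb.eventually_analyticAt
    rwa [Metric.eventually_nhds_iff_ball] at this
  have hpre : IsPreconnected (Metric.ball (0 : V) r) := (convex_ball _ _).isPreconnected
  have h0 : (0 : V) ∈ Metric.ball (0 : V) r := Metric.mem_ball_self hr
  have haB : AnalyticOnNhd ℝ a (Metric.ball 0 r) := fun x hx => (hball x hx).1
  have hbB : AnalyticOnNhd ℝ b (Metric.ball 0 r) := fun x hx => (hball x hx).2
  -- the Wronskians vanish on the ball
  have hW : ∀ v : V, ∀ x ∈ Metric.ball (0 : V) r, b x * fderiv ℝ a x v = a x * fderiv ℝ b x v := by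
    intro v
    have h1 : Tangent (U : Filter V) (fun _ => v) := by
      refine ⟨analyticAt_const, fun g hg hgU => ?_⟩
      have h2 := hgen g hg hgU
      have h3 : ∀ᶠ x in 𝓝 (0 : V), fderiv ℝ g x = 0 := by
        have h4 : g =ᶠ[𝓝 0] fun _ => (0 : ℝ) := h2
        filter_upwards [h4.fderiv (𝕜 := ℝ)] with x hx
        rw [hx]
        simp
      refine hU ?_
      filter_upwards [h3] with x hx
      rw [hx]
      simp
    have h2 := hab _ h1
    have hA : ∀ x ∈ Metric.ball (0 : V) r, AnalyticAt ℝ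
        (fun x => b x * fderiv ℝ a x v - a x * fderiv ℝ b x v) x := fun x hx =>
      ((hball x hx).2.mul (analyticAt_clm_apply (hball x hx).1.fderiv analyticAt_const)).sub
        ((hball x hx).1.mul (analyticAt_clm_apply (hball x hx).2.fderiv analyticAt_const))
    have h3 := hgen _ (hA 0 h0) (h2.mono fun x hx => sub_eq_zero.mpr hx)
    intro x hx
    have h4 := AnalyticOnNhd.eqOn_zero_of_preconnected_of_eventuallyEq_zero
      (fun x hx => hA x hx) hpre h0 h3 hx
    exact sub_eq_zero.mp h4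
  -- a point where `b` does not vanish
  obtain ⟨x₀, hx₀, hbx₀⟩ : ∃ x ∈ Metric.ball (0 : V) r, b x ≠ 0 := by
    have h1 : ∀ᶠ x in (U : Filter V), x ∈ Metric.ball (0 : V) r := hU (Metric.ball_mem_nhds _ hr)
    obtain ⟨x, hx1, hx2⟩ := (h1.and hb0).exists
    exact ⟨x, hx1, hx2⟩
  obtain ⟨s, hs, hsb⟩ : ∃ s > 0, ∀ x ∈ Metric.ball x₀ s, x ∈ Metric.ball (0 : V) r ∧ b x ≠ 0 := by
    have h1 : ∀ᶠ x in 𝓝 x₀, x ∈ Metric.ball (0 : V) r := Metric.isOpen_ball.mem_nhds hx₀
    have h2 : ∀ᶠ x in 𝓝 x₀, b x ≠ 0 := (hball x₀ hx₀).2.continuousAt.eventually_ne hbx₀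
    have := h1.and h2
    rwa [Metric.eventually_nhds_iff_ball] at this
  set c := a x₀ / b x₀ with hc
  have hconst : ∀ x ∈ Metric.ball x₀ s, a x / b x = c := by
    have hd : ∀ x ∈ Metric.ball x₀ s, HasFDerivAt (fun y => a y / b y) (0 : V →L[ℝ] ℝ) x := by
      intro x hx
      obtain ⟨hx1, hx2⟩ := hsb x hx
      have h1 := (hball x hx1).1.differentiableAt.hasFDerivAt
      have h2 := (hball x hx1).2.differentiableAt.hasFDerivAt
      have h3 := h1.mul ((hasDerivAt_inv hx2).comp_hasFDerivAt x h2)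
      have h4 : (fun y => a y / b y) = a * ((fun y => y⁻¹) ∘ b) := by
        funext y
        simp [div_eq_mul_inv]
      rw [h4]
      refine h3.congr_fderiv (ContinuousLinearMap.ext fun v => ?_)
      have h5 := hW v x hx1
      simp
      field_simp
      linarith
    intro x hx
    exact Metric.isOpen_ball.is_const_of_fderiv_eq_zero (convex_ball _ _).isPreconnected
      (fun y hy => (hd y hy).differentiableAt.differentiableWithinAt)
      (fun y hy => (hd y hy).fderiv) hx (Metric.mem_ball_self hs)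
  refine ⟨c, ?_⟩
  have h1 : Set.EqOn a (fun x => c * b x) (Metric.ball 0 r) := by
    refine haB.eqOn_of_preconnected_of_eventuallyEq
      (fun x hx => analyticAt_const.mul (hbB x hx)) hpre hx₀ ?_
    filter_upwards [Metric.ball_mem_nhds x₀ hs] with x hx
    rw [← hconst x hx, div_mul_cancel₀ _ (hsb x hx).2]
  refine hU ?_
  filter_upwards [Metric.ball_mem_nhds (0 : V) hr] with x hx
  exact h1 hx

/-- A nonzero analytic germ is nonzero along some line. -/
lemma exists_direction {g : V → ℝ} (hg : AnalyticAt ℝ g 0) (h : ¬∀ᶠ x in 𝓝 0, g x = 0) :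
    ∃ v : V, ¬∀ᶠ t in 𝓝 (0 : ℝ), g (t • v) = 0 := by
  by_contra hcon
  push Not at hcon
  apply h
  obtain ⟨r, hr, hball⟩ : ∃ r > 0, ∀ x ∈ Metric.ball (0 : V) r, AnalyticAt ℝ g x := by
    have := hg.eventually_analyticAt
    rwa [Metric.eventually_nhds_iff_ball] at this
  filter_upwards [Metric.ball_mem_nhds (0 : V) hr] with v hv
  have hconv : Convex ℝ ((fun t : ℝ => t • v) ⁻¹' (Metric.ball (0 : V) r)) :=
    (convex_ball (0 : V) r).is_linear_preimage (IsLinearMap.mk (fun x y => add_smul x y v)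
      (fun c x => by simp [mul_smul]))
  have h1 : AnalyticOnNhd ℝ (fun t : ℝ => g (t • v))
      ((fun t : ℝ => t • v) ⁻¹' (Metric.ball (0 : V) r)) := by
    intro t ht
    have h2 : AnalyticAt ℝ (fun t : ℝ => t • v) t := analyticAt_id.smul analyticAt_const
    exact (hball _ ht).comp_of_eq h2 rfl
  have h3 := h1.eqOn_zero_of_preconnected_of_eventuallyEq_zero hconv.isPreconnected
    (z₀ := 0) (by simpa using hr) (hcon v) (x := 1) (by simpa using hv)
  simpa using h3

end Basic

section Dep

variable {X : Type*} [NormedAddCommGroup X] [NormedSpace ℝ X]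

/-- `m + 1` vectors of length `m` with analytic entries are linearly dependent along `U`. -/
lemma exists_dep (U : Ultrafilter X) (m : ℕ) (r : Fin (m + 1) → Fin m → X → ℝ)
    (hr : ∀ k j, AnalyticAt ℝ (r k j) 0) :
    ∃ c : Fin (m + 1) → X → ℝ, (∀ k, AnalyticAt ℝ (c k) 0) ∧
      (∃ k, ¬∀ᶠ x in (U : Filter X), c k x = 0) ∧
      ∀ j, ∀ᶠ x in (U : Filter X), ∑ k, c k x * r k j x = 0 := by
  induction m with
  | zero =>
    refine ⟨fun _ _ => 1, fun _ => analyticAt_const, ⟨0, ?_⟩, fun j => j.elim0⟩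
    simpa using U.neBot.ne
  | succ m ih =>
    by_cases hall : ∀ k, ∀ᶠ x in (U : Filter X), r k (Fin.last m) x = 0
    · obtain ⟨c, hc1, ⟨k, hk⟩, hc3⟩ := ih (fun k j => r k.castSucc j.castSucc)
        (fun k j => hr _ _)
      refine ⟨Fin.snoc (α := fun _ => X → ℝ) c (fun _ => 0), ?_, ⟨k.castSucc, ?_⟩, ?_⟩
      · intro i
        refine Fin.lastCases ?_ (fun i => ?_) i
        · rw [Fin.snoc_last]; exact analyticAt_const
        · rw [Fin.snoc_castSucc]; exact hc1 i
      · rw [Fin.snoc_castSucc]; exact hk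
      · intro j
        refine Fin.lastCases ?_ (fun j => ?_) j
        · have h1 : ∀ᶠ x in (U : Filter X), ∀ k, r k (Fin.last m) x = 0 :=
            eventually_all.mpr hall
          filter_upwards [h1] with x hx
          simp [hx]
        · filter_upwards [hc3 j] with x hx
          rw [Fin.sum_univ_castSucc]
          simp only [Fin.snoc_castSucc, Fin.snoc_last, zero_mul, add_zero]
          exact hx
    · push Not at hall
      obtain ⟨p, hp⟩ := hall
      obtain ⟨c, hc1, ⟨k, hk⟩, hc3⟩ := ih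
        (fun k j x => r p (Fin.last m) x * r (p.succAbove k) j.castSucc x -
          r (p.succAbove k) (Fin.last m) x * r p j.castSucc x)
        (fun k j => ((hr _ _).mul (hr _ _)).sub ((hr _ _).mul (hr _ _)))
      refine ⟨p.insertNth (α := fun _ => X → ℝ)
        (fun x => -∑ i, c i x * r (p.succAbove i) (Fin.last m) x)
        (fun i x => c i x * r p (Fin.last m) x), ?_, ⟨p.succAbove k, ?_⟩, ?_⟩
      · intro i
        rcases Fin.eq_self_or_eq_succAbove p i with h | ⟨i', h⟩
        · subst h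
          rw [Fin.insertNth_apply_same]
          exact (Finset.analyticAt_fun_sum _ (fun i _ => (hc1 i).mul (hr _ _))).neg
        · subst h
          rw [Fin.insertNth_apply_succAbove]
          exact (hc1 i').mul (hr _ _)
      · rw [Fin.insertNth_apply_succAbove]
        intro hcon
        have h2 : ∀ᶠ x in (U : Filter X), r p (Fin.last m) x ≠ 0 := hp
        have h3 : ∀ᶠ x in (U : Filter X), c k x ≠ 0 := Ultrafilter.eventually_not.mpr hk
        obtain ⟨x, hx1, hx2, hx3⟩ := (hcon.and (h2.and h3)).exists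
        exact mul_ne_zero hx3 hx2 hx1
      · intro j
        refine Fin.lastCases ?_ (fun j => ?_) j
        · refine Eventually.of_forall fun x => ?_
          rw [Fin.sum_univ_succAbove _ p]
          simp only [Fin.insertNth_apply_same, Fin.insertNth_apply_succAbove]
          rw [neg_mul, Finset.sum_mul, neg_add_eq_zero]
          refine Finset.sum_congr rfl (fun i _ => ?_)
          ring
        · filter_upwards [hc3 j] with x hx
          rw [Fin.sum_univ_succAbove _ p]
          simp only [Fin.insertNth_apply_same, Fin.insertNth_apply_succAbove]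
          rw [neg_mul, Finset.sum_mul, neg_add_eq_sub, ← Finset.sum_sub_distrib]
          rw [← hx]
          refine Finset.sum_congr rfl (fun i _ => ?_)
          ring

end Dep

end Pool.Agent.MP_5de7bf_an
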