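import Pool.Agent.Lib.MP_5de7bf_an.Crit1

/-!
# Polynomial relations over analytic germs and lifting of tangent fields
-/

set_option autoImplicit false

namespace Pool.Agent.MP_5de7bf_an

open Filter Topology

section Rel

variable {X : Type*} [NormedAddCommGroup X] [NormedSpace ℝ X]

/-- A homogeneous relation of degree `D - 1` between `a` and `b`, with coefficients depending on
the first variable only. -/
def Rel (U : Filter (X × ℝ)) (a b : X × ℝ → ℝ) (D : ℕ) (c : ℕ → X → ℝ) : Prop :=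
  ∀ᶠ z in U, ∑ k ∈ Finset.range D, c k z.1 * a z ^ k * b z ^ (D - 1 - k) = 0

lemma rel_min (U : Ultrafilter (X × ℝ)) {a b : X × ℝ → ℝ}
    (hb : ∀ᶠ z in (U : Filter (X × ℝ)), b z ≠ 0) {N : ℕ}
    (hmin : ∀ D < N, ∀ c : ℕ → X → ℝ, (∀ k, AnalyticAt ℝ (c k) 0) →
      Rel (U : Filter (X × ℝ)) a b (D + 1) c → ∀ᶠ z in (U : Filter (X × ℝ)), c D z.1 = 0) :
    ∀ D ≤ N, ∀ c : ℕ → X → ℝ, (∀ k, AnalyticAt ℝ (c k) 0) →
      Rel (U : Filter (X × ℝ)) a b D c →
        ∀ k < D, ∀ᶠ z in (U : Filter (X × ℝ)), c k z.1 = 0 := by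
  intro D
  induction D with
  | zero => intro _ c _ _ k hk; exact absurd hk (Nat.not_lt_zero k)
  | succ D ih =>
    intro hD c hc hrel k hk
    have h1 := hmin D (Nat.lt_of_succ_le hD) c hc hrel
    rcases Nat.lt_succ_iff_lt_or_eq.mp hk with hk | rfl
    · refine ih (Nat.le_of_succ_le hD) c hc ?_ k hk
      unfold Rel at hrel ⊢
      filter_upwards [h1, hrel, hb] with z hz1 hz2 hz3
      rw [Finset.sum_range_succ, hz1, zero_mul, zero_mul, add_zero] at hz2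
      have h2 : b z * ∑ k ∈ Finset.range D, c k z.1 * a z ^ k * b z ^ (D - 1 - k) = 0 := by
        rw [← hz2, Finset.mul_sum]
        refine Finset.sum_congr rfl (fun j hj => ?_)
        have hj' := Finset.mem_range.mp hj
        have h3 : D + 1 - 1 - j = (D - 1 - j) + 1 := by omega
        rw [h3, pow_succ]
        ring
      exact (mul_eq_zero.mp h2).resolve_left hz3
    · exact h1

lemma exists_min (U : Ultrafilter (X × ℝ)) {a b : X × ℝ → ℝ}
    (hb : ∀ᶠ z in (U : Filter (X × ℝ)), b z ≠ 0)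
    (hex : ∃ (D : ℕ) (c : ℕ → X → ℝ), (∀ k, AnalyticAt ℝ (c k) 0) ∧
      Rel (U : Filter (X × ℝ)) a b D c ∧ ∃ k < D, ¬∀ᶠ z in (U : Filter (X × ℝ)), c k z.1 = 0) :
    ∃ (N : ℕ) (c : ℕ → X → ℝ), (∀ k, AnalyticAt ℝ (c k) 0) ∧
      Rel (U : Filter (X × ℝ)) a b (N + 1) c ∧ (∀ᶠ z in (U : Filter (X × ℝ)), c N z.1 ≠ 0) ∧
      ∀ D ≤ N, ∀ c : ℕ → X → ℝ, (∀ k, AnalyticAt ℝ (c k) 0) →
        Rel (U : Filter (X × ℝ)) a b D c →
          ∀ k < D, ∀ᶠ z in (U : Filter (X × ℝ)), c k z.1 = 0 := by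
  classical
  let Q : ℕ → Prop := fun N => ∃ c : ℕ → X → ℝ, (∀ k, AnalyticAt ℝ (c k) 0) ∧
      Rel (U : Filter (X × ℝ)) a b (N + 1) c ∧ ∀ᶠ z in (U : Filter (X × ℝ)), c N z.1 ≠ 0
  have hQ : ∃ N, Q N := by
    by_contra hcon
    push Not at hcon
    obtain ⟨D, c, hc, hrel, k, hk, hk2⟩ := hex
    apply hk2
    refine rel_min U hb (N := D) (fun D' _ c' hc' hrel' => ?_) D le_rfl c hc hrel k hk
    by_contra h
    exact hcon D' ⟨c', hc', hrel', Ultrafilter.eventually_not.mpr h⟩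
  obtain ⟨c, hc, hrel, hne⟩ := Nat.find_spec hQ
  refine ⟨Nat.find hQ, c, hc, hrel, hne, ?_⟩
  refine rel_min U hb (fun D hD c' hc' hrel' => ?_)
  by_contra h
  exact Nat.find_min hQ hD ⟨c', hc', hrel', Ultrafilter.eventually_not.mpr h⟩

end Rel

section Pol

variable {X : Type*} [NormedAddCommGroup X] [NormedSpace ℝ X]

/-- A polynomial in the last variable. -/
def pol (c : ℕ → X → ℝ) (D : ℕ) (z : X × ℝ) : ℝ := ∑ k ∈ Finset.range D, c k z.1 * z.2 ^ k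

/-- The derivative of a polynomial in the last variable. -/
def dpol (c : ℕ → X → ℝ) (D : ℕ) (z : X × ℝ) : ℝ :=
  ∑ k ∈ Finset.range D, c k z.1 * (k * z.2 ^ (k - 1))

/-- The derivative of a polynomial in the other variables, along `w`. -/
noncomputable def xpol (c : ℕ → X → ℝ) (D : ℕ) (z : X × ℝ) (w : X) : ℝ :=
  ∑ k ∈ Finset.range D, fderiv ℝ (c k) z.1 w * z.2 ^ k

lemma analyticAt_comp_fst {c : X → ℝ} (hc : AnalyticAt ℝ c 0) :
    AnalyticAt ℝ (fun z : X × ℝ => c z.1) 0 :=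
  AnalyticAt.comp_of_eq (g := c) (f := fun z : X × ℝ => z.1) hc analyticAt_fst rfl

lemma analyticAt_pol {c : ℕ → X → ℝ} (hc : ∀ k, AnalyticAt ℝ (c k) 0) (D : ℕ) :
    AnalyticAt ℝ (pol c D) 0 :=
  Finset.analyticAt_fun_sum _ (fun k _ => (analyticAt_comp_fst (hc k)).mul (analyticAt_snd.pow k))

lemma analyticAt_dpol {c : ℕ → X → ℝ} (hc : ∀ k, AnalyticAt ℝ (c k) 0) (D : ℕ) :
    AnalyticAt ℝ (dpol c D) 0 :=
  Finset.analyticAt_fun_sum _ (fun k _ => (analyticAt_comp_fst (hc k)).mul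
    (analyticAt_const.mul (analyticAt_snd.pow _)))

lemma analyticAt_xpol {c : ℕ → X → ℝ} (hc : ∀ k, AnalyticAt ℝ (c k) 0) (D : ℕ) {ξ : X → X}
    (hξ : AnalyticAt ℝ ξ 0) : AnalyticAt ℝ (fun z : X × ℝ => xpol c D z (ξ z.1)) 0 :=
  Finset.analyticAt_fun_sum _ (fun k _ =>
    (analyticAt_comp_fst (c := fun x => fderiv ℝ (c k) x (ξ x))
      (analyticAt_clm_apply (hc k).fderiv hξ)).mul (analyticAt_snd.pow k))

lemma fderiv_pol {c : ℕ → X → ℝ} {D : ℕ} {z : X × ℝ}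
    (hc : ∀ k < D, DifferentiableAt ℝ (c k) z.1) (y : X × ℝ) :
    fderiv ℝ (pol c D) z y = xpol c D z y.1 + dpol c D z * y.2 := by
  have h1 : ∀ k ∈ Finset.range D, HasFDerivAt (fun z : X × ℝ => c k z.1 * z.2 ^ k)
      (c k z.1 • ((k * z.2 ^ (k - 1)) • ContinuousLinearMap.snd ℝ X ℝ) +
        z.2 ^ k • ((fderiv ℝ (c k) z.1).comp (ContinuousLinearMap.fst ℝ X ℝ))) z := by
    intro k hk
    have h2 : HasFDerivAt (fun z : X × ℝ => c k z.1)
        ((fderiv ℝ (c k) z.1).comp (ContinuousLinearMap.fst ℝ X ℝ)) z :=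
      (hc k (Finset.mem_range.mp hk)).hasFDerivAt.comp z hasFDerivAt_fst
    have h3 : HasFDerivAt (fun z : X × ℝ => z.2 ^ k)
        ((k * z.2 ^ (k - 1)) • ContinuousLinearMap.snd ℝ X ℝ) z :=
      (hasDerivAt_pow k z.2).comp_hasFDerivAt z hasFDerivAt_snd
    exact h2.mul h3
  have h4 : HasFDerivAt (pol c D) (∑ k ∈ Finset.range D,
      (c k z.1 • ((k * z.2 ^ (k - 1)) • ContinuousLinearMap.snd ℝ X ℝ) +
        z.2 ^ k • ((fderiv ℝ (c k) z.1).comp (ContinuousLinearMap.fst ℝ X ℝ)))) z :=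
    HasFDerivAt.fun_sum h1
  rw [h4.fderiv]
  unfold xpol dpol
  rw [Finset.sum_mul, ← Finset.sum_add_distrib]
  simp only [sum_apply]
  refine Finset.sum_congr rfl (fun k _ => ?_)
  simp
  ring

/-- Multiplication by a power of the last variable. -/
def sh (n : ℕ) (c : ℕ → X → ℝ) (k : ℕ) : X → ℝ := if n ≤ k then c (k - n) else fun _ => 0

omit [NormedAddCommGroup X] [NormedSpace ℝ X] in
lemma pol_sh (n D : ℕ) (c : ℕ → X → ℝ) (z : X × ℝ) :
    pol (sh n c) (n + D) z = z.2 ^ n * pol c D z := by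
  unfold pol
  rw [Finset.sum_range_add, Finset.mul_sum]
  have h1 : ∑ x ∈ Finset.range n, sh n c x z.1 * z.2 ^ x = 0 := by
    refine Finset.sum_eq_zero (fun k hk => ?_)
    have := Finset.mem_range.mp hk
    simp [sh, Nat.not_le.mpr this]
  rw [h1, zero_add]
  refine Finset.sum_congr rfl (fun k _ => ?_)
  simp only [sh, le_add_iff_nonneg_right, zero_le, if_true, Nat.add_sub_cancel_left]
  rw [pow_add]
  ring

lemma analyticAt_sh {c : ℕ → X → ℝ} (hc : ∀ k, AnalyticAt ℝ (c k) 0) (n k : ℕ) :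
    AnalyticAt ℝ (sh n c k) 0 := by
  unfold sh
  split_ifs
  · exact hc _
  · exact analyticAt_const

omit [NormedAddCommGroup X] [NormedSpace ℝ X] in
lemma pol_rel (U : Filter (X × ℝ)) (c : ℕ → X → ℝ) (D : ℕ) :
    Rel U (fun z => z.2) (fun _ => 1) D c ↔ ∀ᶠ z in U, pol c D z = 0 := by
  unfold Rel pol
  simp

end Pol

end Pool.Agent.MP_5de7bf_an
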