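import Pool.Agent.Lib.MP_5de7bf_an.Crit2

/-!
# Lifting tangent fields along a Weierstrass covering
-/

set_option autoImplicit false

namespace Pool.Agent.MP_5de7bf_an

open Filter Topology

section Lift

variable {X : Type*} [NormedAddCommGroup X] [NormedSpace ℝ X]

/-- The lift of the field `η` to the zero set of the polynomial with coefficients `cv`. -/
noncomputable def liftF (cv : ℕ → X → ℝ) (d : ℕ) (η : X → X) (z : X × ℝ) : X × ℝ :=
  (dpol cv (d + 1) z • η z.1, -xpol cv (d + 1) z (η z.1))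

lemma analyticAt_liftF {cv : ℕ → X → ℝ} (hcv : ∀ k, AnalyticAt ℝ (cv k) 0) (d : ℕ) {η : X → X}
    (hη : AnalyticAt ℝ η 0) : AnalyticAt ℝ (liftF cv d η) 0 :=
  ((analyticAt_dpol hcv _).smul (AnalyticAt.comp_of_eq (g := η) (f := fun z : X × ℝ => z.1) hη
    analyticAt_fst rfl)).prod (analyticAt_xpol hcv _ hη).neg

lemma xpol_smul (c : ℕ → X → ℝ) (D : ℕ) (z : X × ℝ) (s : ℝ) (w : X) :
    xpol c D z (s • w) = s * xpol c D z w := by
  unfold xpol
  rw [Finset.mul_sum]
  refine Finset.sum_congr rfl (fun k _ => ?_)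
  rw [map_smul, smul_eq_mul, mul_assoc]

lemma fderiv_pol_liftF (cv : ℕ → X → ℝ) (d : ℕ) (η : X → X) {c : ℕ → X → ℝ} {D : ℕ} {z : X × ℝ}
    (hc : ∀ k < D, DifferentiableAt ℝ (c k) z.1) :
    fderiv ℝ (pol c D) z (liftF cv d η z) =
      dpol cv (d + 1) z * xpol c D z (η z.1) - dpol c D z * xpol cv (d + 1) z (η z.1) := by
  rw [fderiv_pol hc]
  unfold liftF
  simp only
  rw [xpol_smul]
  ring

lemma fderiv_mul_apply {E : Type*} [NormedAddCommGroup E] [NormedSpace ℝ E] {F G : E → ℝ} {z : E}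
    (hF : DifferentiableAt ℝ F z) (hG : DifferentiableAt ℝ G z) (y : E) :
    fderiv ℝ (fun z => F z * G z) z y = F z * fderiv ℝ G z y + G z * fderiv ℝ F z y := by
  rw [(hF.hasFDerivAt.fun_mul hG.hasFDerivAt).fderiv]
  simp

lemma fderiv_add_apply {E : Type*} [NormedAddCommGroup E] [NormedSpace ℝ E] {F G : E → ℝ} {z : E}
    (hF : DifferentiableAt ℝ F z) (hG : DifferentiableAt ℝ G z) (y : E) :
    fderiv ℝ (fun z => F z + G z) z y = fderiv ℝ F z y + fderiv ℝ G z y := by
  rw [(hF.hasFDerivAt.fun_add hG.hasFDerivAt).fderiv]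
  simp

lemma diff_of_analytic {E : Type*} [NormedAddCommGroup E] [NormedSpace ℝ E] {F : E → ℝ}
    (hF : AnalyticAt ℝ F 0) : ∀ᶠ z in 𝓝 (0 : E), DifferentiableAt ℝ F z :=
  hF.eventually_analyticAt.mono fun _ h => h.differentiableAt

variable (U : Ultrafilter (X × ℝ)) (hU : (U : Filter (X × ℝ)) ≤ 𝓝 0)

include hU in
lemma diff_coeff {c : ℕ → X → ℝ} (hc : ∀ k, AnalyticAt ℝ (c k) 0) (D : ℕ) :
    ∀ᶠ z in (U : Filter (X × ℝ)), ∀ k < D, DifferentiableAt ℝ (c k) z.1 := by
  have h1 : ∀ᶠ z in 𝓝 (0 : X × ℝ), ∀ k ∈ Finset.range D, DifferentiableAt ℝ (c k) z.1 := by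
    rw [Finset.eventually_all]
    intro k _
    exact (continuous_fst.tendsto' (0 : X × ℝ) (0 : X) rfl).eventually (diff_of_analytic (hc k))
  filter_upwards [hU h1] with z hz k hk
  exact hz k (Finset.mem_range.mpr hk)

include hU in
/-- The lifted field kills the polynomials vanishing along `U`. -/
lemma lift_pol {cv : ℕ → X → ℝ} (hcv : ∀ k, AnalyticAt ℝ (cv k) 0) {d : ℕ}
    (hv : ∀ᶠ z in (U : Filter (X × ℝ)), pol cv (d + 1) z = 0)
    (hvd : ∀ᶠ z in (U : Filter (X × ℝ)), cv d z.1 ≠ 0)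
    (hmin : ∀ D ≤ d, ∀ c : ℕ → X → ℝ, (∀ k, AnalyticAt ℝ (c k) 0) →
      (∀ᶠ z in (U : Filter (X × ℝ)), pol c D z = 0) →
        ∀ k < D, ∀ᶠ z in (U : Filter (X × ℝ)), c k z.1 = 0)
    {η : X → X} (hη : Tangent ((U.map Prod.fst : Ultrafilter X) : Filter X) η) :
    ∀ D : ℕ, ∀ c : ℕ → X → ℝ, (∀ k, AnalyticAt ℝ (c k) 0) →
      (∀ᶠ z in (U : Filter (X × ℝ)), pol c D z = 0) →
        ∀ᶠ z in (U : Filter (X × ℝ)), fderiv ℝ (pol c D) z (liftF cv d η z) = 0 := by
  intro D
  induction D with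
  | zero =>
    intro c hc h
    refine Eventually.of_forall fun z => ?_
    have h1 : pol c 0 = fun _ : X × ℝ => (0 : ℝ) := by
      funext z
      simp [pol]
    rw [h1]
    simp
  | succ D ih =>
    intro c hc h
    by_cases hD : D + 1 ≤ d
    · -- small degree: all coefficients vanish
      have h1 : ∀ᶠ z in (U : Filter (X × ℝ)), ∀ k ∈ Finset.range (D + 1), c k z.1 = 0 := by
        rw [Finset.eventually_all]
        intro k hk
        exact hmin (D + 1) hD c hc h k (Finset.mem_range.mp hk)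
      have h2 : ∀ᶠ z in (U : Filter (X × ℝ)), ∀ k ∈ Finset.range (D + 1),
          fderiv ℝ (c k) z.1 (η z.1) = 0 := by
        rw [Finset.eventually_all]
        intro k hk
        have h3 : ∀ᶠ x in ((U.map Prod.fst : Ultrafilter X) : Filter X), c k x = 0 := by
          rw [Ultrafilter.coe_map, eventually_map]
          exact hmin (D + 1) hD c hc h k (Finset.mem_range.mp hk)
        have h4 := hη.2 (c k) (hc k) h3
        rw [Ultrafilter.coe_map, eventually_map] at h4
        exact h4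
      filter_upwards [h1, h2, diff_coeff U hU hc (D + 1)] with z hz1 hz2 hz3
      rw [fderiv_pol_liftF cv d η hz3]
      have h5 : xpol c (D + 1) z (η z.1) = 0 := by
        unfold xpol
        exact Finset.sum_eq_zero fun k hk => by rw [hz2 k hk, zero_mul]
      have h6 : dpol c (D + 1) z = 0 := by
        unfold dpol
        exact Finset.sum_eq_zero fun k hk => by rw [hz1 k hk, zero_mul]
      rw [h5, h6]
      ring
    · -- pseudo-division step
      have hdD : d ≤ D := by omega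
      let c1 : ℕ → X → ℝ := fun k x => cv d x * c k x - c D x * sh (D - d) cv k x
      have hc1 : ∀ k, AnalyticAt ℝ (c1 k) 0 := fun k =>
        ((hcv d).mul (hc k)).sub ((hc D).mul (analyticAt_sh hcv _ _))
      have hid : ∀ z : X × ℝ, cv d z.1 * pol c (D + 1) z =
          pol c1 D z + (c D z.1 * z.2 ^ (D - d)) * pol cv (d + 1) z := by
        intro z
        have h1 := pol_sh (D - d) (d + 1) cv z
        have h2 : D - d + (d + 1) = D + 1 := by omega
        rw [h2] at h1
        rw [mul_assoc, ← h1]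
        unfold pol
        rw [Finset.sum_range_succ, Finset.sum_range_succ (fun k => sh (D - d) cv k z.1 * z.2 ^ k)]
        have h3 : sh (D - d) cv D = cv d := by
          unfold sh
          rw [if_pos (Nat.sub_le _ _)]
          congr 1
          omega
        rw [h3, mul_add, mul_add, Finset.mul_sum, Finset.mul_sum, ← add_assoc,
          ← Finset.sum_add_distrib]
        congr 1
        · refine Finset.sum_congr rfl (fun k _ => ?_)
          simp only [c1]
          ring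
        · ring
      have hfun : (fun z : X × ℝ => cv d z.1 * pol c (D + 1) z) =
          fun z => pol c1 D z + (c D z.1 * z.2 ^ (D - d)) * pol cv (d + 1) z := funext hid
      have h1 : ∀ᶠ z in (U : Filter (X × ℝ)), pol c1 D z = 0 := by
        filter_upwards [h, hv] with z hz1 hz2
        have := hid z
        rw [hz1, hz2, mul_zero, mul_zero, add_zero] at this
        exact this.symm
      have h2 := ih c1 hc1 h1
      have hA1 := hU (diff_of_analytic (analyticAt_comp_fst (hcv d)))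
      have hA2 := hU (diff_of_analytic (analyticAt_pol hc (D + 1)))
      have hA3 := hU (diff_of_analytic (analyticAt_pol hc1 D))
      have hA4 : ∀ᶠ z in (U : Filter (X × ℝ)),
          DifferentiableAt ℝ (fun z : X × ℝ => c D z.1 * z.2 ^ (D - d)) z :=
        hU (diff_of_analytic ((analyticAt_comp_fst (hc D)).mul
          ((analyticAt_snd (𝕜 := ℝ) (p := (0 : X × ℝ))).pow (D - d))))
      have hA5 := hU (diff_of_analytic (analyticAt_pol hcv (d + 1)))
      filter_upwards [h, hv, hvd, h2, hA1, hA2, hA3, hA4, hA5, diff_coeff U hU hcv (d + 1)] with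
        z hz1 hz2 hz3 hz4 hz5 hz6 hz7 hz8 hz9 hz10
      have h3 := congrArg (fun F => fderiv ℝ F z (liftF cv d η z)) hfun
      rw [fderiv_mul_apply hz5 hz6, fderiv_add_apply hz7 (hz8.fun_mul hz9),
        fderiv_mul_apply hz8 hz9, hz1, hz2, hz4, fderiv_pol_liftF cv d η hz10] at h3
      have h4 : cv d z.1 * fderiv ℝ (pol c (D + 1)) z (liftF cv d η z) = 0 := by
        linarith
      exact (mul_eq_zero.mp h4).resolve_left hz3

/-- The Weierstrass division theorem, with coefficients indexed by natural numbers. -/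
lemma weierstrass_nat [FiniteDimensional ℝ X] {g : X × ℝ → ℝ} (hg : AnalyticAt ℝ g 0) {m : ℕ}
    {e : ℝ → ℝ} (he : AnalyticAt ℝ e 0) (he0 : e 0 ≠ 0)
    (hge : ∀ᶠ t in 𝓝 (0 : ℝ), g (0, t) = t ^ m * e t)
    {f : X × ℝ → ℝ} (hf : AnalyticAt ℝ f 0) :
    ∃ (q : X × ℝ → ℝ) (r : ℕ → X → ℝ), AnalyticAt ℝ q 0 ∧ (∀ k, AnalyticAt ℝ (r k) 0) ∧
      (∀ᶠ z in 𝓝 (0 : X × ℝ), f z = q z * g z + pol r m z) ∧
      ((∀ z, f z = z.2 ^ m) → q 0 ≠ 0) := by
  obtain ⟨q, r, hq, hr, h1, h2⟩ := weierstrass hg he he0 hge hf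
  refine ⟨q, fun k => if h : k < m then r ⟨k, h⟩ else fun _ => 0, hq, ?_, ?_, h2⟩
  · intro k
    by_cases h : k < m
    · simp only [h, dif_pos]; exact hr _
    · simp only [h, dif_neg, not_false_iff]; exact analyticAt_const
  · filter_upwards [h1] with z hz
    rw [hz]
    congr 1
    unfold pol
    rw [Finset.sum_range]
    refine Finset.sum_congr rfl (fun k _ => ?_)
    simp

include hU in
/-- The lifted field is tangent. -/
lemma tangent_liftF [FiniteDimensional ℝ X] {g : X × ℝ → ℝ} (hg : AnalyticAt ℝ g 0)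
    (hgU : ∀ᶠ z in (U : Filter (X × ℝ)), g z = 0) {m : ℕ}
    {e : ℝ → ℝ} (he : AnalyticAt ℝ e 0) (he0 : e 0 ≠ 0)
    (hge : ∀ᶠ t in 𝓝 (0 : ℝ), g (0, t) = t ^ m * e t)
    {cv : ℕ → X → ℝ} (hcv : ∀ k, AnalyticAt ℝ (cv k) 0) {d : ℕ}
    (hv : ∀ᶠ z in (U : Filter (X × ℝ)), pol cv (d + 1) z = 0)
    (hvd : ∀ᶠ z in (U : Filter (X × ℝ)), cv d z.1 ≠ 0)
    (hmin : ∀ D ≤ d, ∀ c : ℕ → X → ℝ, (∀ k, AnalyticAt ℝ (c k) 0) →
      (∀ᶠ z in (U : Filter (X × ℝ)), pol c D z = 0) →
        ∀ k < D, ∀ᶠ z in (U : Filter (X × ℝ)), c k z.1 = 0)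
    {η : X → X} (hη : Tangent ((U.map Prod.fst : Ultrafilter X) : Filter X) η) :
    Tangent (U : Filter (X × ℝ)) (liftF cv d η) := by
  have hpol := lift_pol U hU hcv hv hvd hmin hη
  -- the function `g` itself
  have hgD : ∀ᶠ z in (U : Filter (X × ℝ)), fderiv ℝ g z (liftF cv d η z) = 0 := by
    obtain ⟨q, r, hq, hr, h1, h2⟩ := weierstrass_nat hg he he0 hge
      (f := fun z => z.2 ^ m) (analyticAt_snd.pow m)
    have hq0 := h2 (fun z => rfl)
    let cw : ℕ → X → ℝ := fun k => if k = m then fun _ => 1 else fun x => -r k x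
    have hcw : ∀ k, AnalyticAt ℝ (cw k) 0 := by
      intro k
      by_cases h : k = m
      · simp only [cw, h, if_true]; exact analyticAt_const
      · simp only [cw, h, if_false]; exact (hr k).neg
    have hcwpol : ∀ z : X × ℝ, pol cw (m + 1) z = z.2 ^ m - pol r m z := by
      intro z
      unfold pol
      rw [Finset.sum_range_succ]
      have h3 : ∑ k ∈ Finset.range m, cw k z.1 * z.2 ^ k =
          -∑ k ∈ Finset.range m, r k z.1 * z.2 ^ k := by
        rw [← Finset.sum_neg_distrib]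
        refine Finset.sum_congr rfl (fun k hk => ?_)
        have : k ≠ m := (Finset.mem_range.mp hk).ne
        simp [cw, this]
      rw [h3]
      simp [cw]
      ring
    have h4 : ∀ᶠ z in 𝓝 (0 : X × ℝ), pol cw (m + 1) z = q z * g z := by
      filter_upwards [h1] with z hz
      rw [hcwpol, hz]
      ring
    have h5 : ∀ᶠ z in (U : Filter (X × ℝ)), pol cw (m + 1) z = 0 := by
      filter_upwards [hU h4, hgU] with z hz1 hz2
      rw [hz1, hz2, mul_zero]
    have h6 := hpol (m + 1) cw hcw h5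
    have h7 : ∀ᶠ z in 𝓝 (0 : X × ℝ), fderiv ℝ (pol cw (m + 1)) z =
        fderiv ℝ (fun z => q z * g z) z := by
      have h8 : pol cw (m + 1) =ᶠ[𝓝 0] fun z => q z * g z := h4
      exact h8.fderiv (𝕜 := ℝ)
    have h8 : ∀ᶠ z in 𝓝 (0 : X × ℝ), q z ≠ 0 := hq.continuousAt.eventually_ne hq0
    filter_upwards [h6, hU h7, hU h8, hgU, hU (diff_of_analytic hq), hU (diff_of_analytic hg)]
      with z hz1 hz2 hz3 hz4 hz5 hz6
    rw [hz2, fderiv_mul_apply hz5 hz6, hz4, zero_mul, add_zero] at hz1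
    exact (mul_eq_zero.mp hz1).resolve_left hz3
  refine ⟨analyticAt_liftF hcv d hη.1, fun f hf hfU => ?_⟩
  obtain ⟨q, r, hq, hr, h1, -⟩ := weierstrass_nat hg he he0 hge hf
  have h2 : ∀ᶠ z in (U : Filter (X × ℝ)), pol r m z = 0 := by
    filter_upwards [hU h1, hgU, hfU] with z hz1 hz2 hz3
    rw [hz3, hz2, mul_zero, zero_add] at hz1
    exact hz1.symm
  have h3 := hpol m r hr h2
  have h4 : ∀ᶠ z in 𝓝 (0 : X × ℝ), fderiv ℝ f z =
      fderiv ℝ (fun z => q z * g z + pol r m z) z := by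
    have h8 : f =ᶠ[𝓝 0] fun z => q z * g z + pol r m z := h1
    exact h8.fderiv (𝕜 := ℝ)
  filter_upwards [h3, hU h4, hgU, hgD, hU (diff_of_analytic hq), hU (diff_of_analytic hg),
    hU (diff_of_analytic (analyticAt_pol hr m))] with z hz1 hz2 hz3 hz4 hz5 hz6 hz7
  rw [hz2, fderiv_add_apply (hz5.fun_mul hz6) hz7, fderiv_mul_apply hz5 hz6, hz1, hz3, hz4]
  ring

end Lift

end Pool.Agent.MP_5de7bf_an
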