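import Pool.Agent.Lib.MP_5de7bf_an.Crit3

/-!
# The induction step and the constancy of critical values
-/

set_option autoImplicit false

namespace Pool.Agent.MP_5de7bf_an

open Filter Topology

section Step

variable {X : Type*} [NormedAddCommGroup X] [NormedSpace ℝ X]

lemma mul_fderiv_pow {E : Type*} [NormedAddCommGroup E] [NormedSpace ℝ E] {a b : E → ℝ} {z y : E}
    (ha : DifferentiableAt ℝ a z) (h : b z * fderiv ℝ a z y = a z * fderiv ℝ b z y) (k : ℕ) :
    b z * fderiv ℝ (fun z => a z ^ k) z y = k * a z ^ k * fderiv ℝ b z y := by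
  induction k with
  | zero => simp
  | succ k ih =>
    have h1 : (fun z => a z ^ (k + 1)) = fun z => a z ^ k * a z := by
      funext z; rw [pow_succ]
    rw [h1, fderiv_mul_apply (ha.fun_pow k) ha, pow_succ]
    push_cast
    have h2 : b z * (a z ^ k * fderiv ℝ a z y + a z * fderiv ℝ (fun z => a z ^ k) z y) =
        a z ^ k * (b z * fderiv ℝ a z y) + a z * (b z * fderiv ℝ (fun z => a z ^ k) z y) := by
      ring
    rw [h2, h, ih]
    ring

lemma fderiv_comp_fst {c : X → ℝ} {z : X × ℝ} (hc : DifferentiableAt ℝ c z.1) (y : X × ℝ) :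
    fderiv ℝ (fun z : X × ℝ => c z.1) z y = fderiv ℝ c z.1 y.1 := by
  have h2 : HasFDerivAt (fun z : X × ℝ => c z.1)
      ((fderiv ℝ c z.1).comp (ContinuousLinearMap.fst ℝ X ℝ)) z :=
    hc.hasFDerivAt.comp z hasFDerivAt_fst
  rw [h2.fderiv]
  rfl

lemma fderiv_rel {a b : X × ℝ → ℝ} {z y : X × ℝ} {c : ℕ → X → ℝ} {M : ℕ}
    (ha : DifferentiableAt ℝ a z) (hb : DifferentiableAt ℝ b z)
    (hc : ∀ k < M + 1, DifferentiableAt ℝ (c k) z.1)
    (h : b z * fderiv ℝ a z y = a z * fderiv ℝ b z y) :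
    b z * fderiv ℝ (fun z => ∑ k ∈ Finset.range (M + 1), c k z.1 * a z ^ k * b z ^ (M + 1 - 1 - k))
      z y = b z * (∑ k ∈ Finset.range (M + 1), fderiv ℝ (c k) z.1 y.1 * a z ^ k *
        b z ^ (M + 1 - 1 - k)) + M * fderiv ℝ b z y *
        ∑ k ∈ Finset.range (M + 1), c k z.1 * a z ^ k * b z ^ (M + 1 - 1 - k) := by
  have hdc : ∀ k < M + 1, DifferentiableAt ℝ (fun z : X × ℝ => c k z.1) z := fun k hk =>
    DifferentiableAt.comp z (hc k hk) differentiableAt_fst
  have hterm : ∀ k ∈ Finset.range (M + 1), DifferentiableAt ℝ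
      (fun z : X × ℝ => c k z.1 * a z ^ k * b z ^ (M + 1 - 1 - k)) z := fun k hk =>
    ((hdc k (Finset.mem_range.mp hk)).fun_mul (ha.fun_pow k)).fun_mul (hb.fun_pow _)
  rw [fderiv_fun_sum hterm]
  simp only [sum_apply]
  rw [Finset.mul_sum, Finset.mul_sum, Finset.mul_sum, ← Finset.sum_add_distrib]
  refine Finset.sum_congr rfl (fun k hk => ?_)
  have hk' := Finset.mem_range.mp hk
  have h1 := mul_fderiv_pow ha h k
  have h2 := mul_fderiv_pow (a := b) (b := b) (y := y) hb rfl (M + 1 - 1 - k)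
  rw [fderiv_mul_apply ((hdc k hk').fun_mul (ha.fun_pow k)) (hb.fun_pow _),
    fderiv_mul_apply (hdc k hk') (ha.fun_pow k), fderiv_comp_fst (hc k hk')]
  have h3 : ((M + 1 - 1 - k : ℕ) : ℝ) = M - k := by
    rw [Nat.add_sub_cancel, Nat.cast_sub (Nat.lt_succ_iff.mp hk')]
  rw [h3] at h2
  set P := fderiv ℝ (fun z => a z ^ k) z y
  set Q := fderiv ℝ (fun z => b z ^ (M + 1 - 1 - k)) z y
  calc _ = c k z.1 * a z ^ k * (b z * Q) + b z ^ (M + 1 - 1 - k) * (c k z.1 * (b z * P) +
        b z * (a z ^ k * fderiv ℝ (c k) z.1 y.1)) := by ring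
    _ = _ := by
      rw [h1, h2]
      ring

/-- Existence of a nontrivial relation. -/
lemma exists_rel [FiniteDimensional ℝ X] (U : Ultrafilter (X × ℝ))
    (hU : (U : Filter (X × ℝ)) ≤ 𝓝 0) {g : X × ℝ → ℝ} (hg : AnalyticAt ℝ g 0)
    (hgU : ∀ᶠ z in (U : Filter (X × ℝ)), g z = 0) {m : ℕ}
    {e : ℝ → ℝ} (he : AnalyticAt ℝ e 0) (he0 : e 0 ≠ 0)
    (hge : ∀ᶠ t in 𝓝 (0 : ℝ), g (0, t) = t ^ m * e t)
    {a b : X × ℝ → ℝ} (ha : AnalyticAt ℝ a 0) (hb : AnalyticAt ℝ b 0) :
    ∃ (D : ℕ) (c : ℕ → X → ℝ), (∀ k, AnalyticAt ℝ (c k) 0) ∧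
      Rel (U : Filter (X × ℝ)) a b D c ∧
        ∃ k < D, ¬∀ᶠ z in (U : Filter (X × ℝ)), c k z.1 = 0 := by
  have h1 : ∀ k : ℕ, ∃ r : ℕ → X → ℝ, (∀ j, AnalyticAt ℝ (r j) 0) ∧
      ∀ᶠ z in (U : Filter (X × ℝ)), a z ^ k * b z ^ (m - k) = pol r m z := by
    intro k
    obtain ⟨q, r, hq, hr, h1, -⟩ := weierstrass_nat hg he he0 hge
      (f := fun z => a z ^ k * b z ^ (m - k)) ((ha.pow k).mul (hb.pow (m - k)))
    refine ⟨r, hr, ?_⟩
    filter_upwards [hU h1, hgU] with z hz1 hz2
    rw [hz1, hz2, mul_zero, zero_add]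
  choose r hr hrel using h1
  obtain ⟨c, hc1, ⟨k, hk⟩, hc3⟩ := exists_dep (U.map Prod.fst) m (fun k j => r k j)
    (fun k j => hr _ _)
  refine ⟨m + 1, fun k => if h : k < m + 1 then c ⟨k, h⟩ else fun _ => 0, ?_, ?_, k, k.2, ?_⟩
  · intro k
    by_cases h : k < m + 1
    · simp only [h, dif_pos]; exact hc1 _
    · simp only [h, dif_neg, not_false_iff]; exact analyticAt_const
  · have h2 : ∀ᶠ z in (U : Filter (X × ℝ)), ∀ j : Fin m, ∑ k, c k z.1 * r k j z.1 = 0 := by
      rw [eventually_all]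
      intro j
      have := hc3 j
      rw [Ultrafilter.coe_map, eventually_map] at this
      exact this
    have h3 : ∀ᶠ z in (U : Filter (X × ℝ)), ∀ k : Fin (m + 1),
        a z ^ (k : ℕ) * b z ^ (m - k) = pol (r k) m z := by
      rw [eventually_all]
      intro k
      exact hrel k
    filter_upwards [h2, h3] with z hz2 hz3
    rw [Finset.sum_range]
    have h4 : ∑ i : Fin (m + 1), (if h : (i : ℕ) < m + 1 then c ⟨i, h⟩ else fun _ => 0) z.1 *
        a z ^ (i : ℕ) * b z ^ (m + 1 - 1 - i) = ∑ i : Fin (m + 1), ∑ j ∈ Finset.range m,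
          (c i z.1 * r i j z.1) * z.2 ^ j := by
      refine Finset.sum_congr rfl (fun i _ => ?_)
      simp only [Fin.is_lt, dif_pos, Fin.eta, Nat.add_sub_cancel]
      rw [mul_assoc, hz3 i]
      unfold pol
      rw [Finset.mul_sum]
      refine Finset.sum_congr rfl (fun j _ => ?_)
      ring
    rw [h4, Finset.sum_comm]
    refine Finset.sum_eq_zero (fun j hj => ?_)
    rw [← Finset.sum_mul, hz2 ⟨j, Finset.mem_range.mp hj⟩, zero_mul]
  · simp only [Fin.is_lt, dif_pos, Fin.eta]
    intro h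
    apply hk
    rw [Ultrafilter.coe_map, eventually_map]
    exact h

/-- The induction step. -/
theorem claimB_step [FiniteDimensional ℝ X] (hIH : ClaimB X) (U : Ultrafilter (X × ℝ))
    (hU : (U : Filter (X × ℝ)) ≤ 𝓝 0) {g : X × ℝ → ℝ} (hg : AnalyticAt ℝ g 0)
    (hgU : ∀ᶠ z in (U : Filter (X × ℝ)), g z = 0)
    (hreg : ¬∀ᶠ t in 𝓝 (0 : ℝ), g (0, t) = 0)
    {a b : X × ℝ → ℝ} (ha : AnalyticAt ℝ a 0) (hb : AnalyticAt ℝ b 0)
    (hb0 : ∀ᶠ z in (U : Filter (X × ℝ)), b z ≠ 0)
    (hab : ∀ ξ, Tangent (U : Filter (X × ℝ)) ξ → ∀ᶠ z in (U : Filter (X × ℝ)),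
      b z * fderiv ℝ a z (ξ z) = a z * fderiv ℝ b z (ξ z)) :
    ∃ c : ℝ, ∀ᶠ z in (U : Filter (X × ℝ)), a z = c * b z := by
  classical
  -- the order in the last variable
  have hg1 : AnalyticAt ℝ (fun t : ℝ => g (0, t)) 0 :=
    AnalyticAt.comp_of_eq (g := g) (f := fun t : ℝ => ((0 : X), t)) hg
      (analyticAt_const.prod analyticAt_id) rfl
  obtain ⟨m, e, he, he0, hge⟩ := hg1.exists_eventuallyEq_pow_smul_nonzero_iff.mpr hreg
  simp only [sub_zero, smul_eq_mul] at hge
  have hU1 : ((U.map Prod.fst : Ultrafilter X) : Filter X) ≤ 𝓝 0 := by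
    rw [Ultrafilter.coe_map]
    exact (continuous_fst.tendsto' (0 : X × ℝ) (0 : X) rfl).mono_left hU
  -- minimal relation for the last variable
  have hone : ∀ᶠ z in (U : Filter (X × ℝ)), (fun _ : X × ℝ => (1 : ℝ)) z ≠ 0 :=
    Eventually.of_forall fun _ => one_ne_zero
  obtain ⟨d, cv, hcv, hv, hvd, hvmin⟩ := exists_min U hone
    (exists_rel U hU hg hgU he he0 hge (a := fun z => z.2) (b := fun _ => 1) analyticAt_snd
      analyticAt_const)
  rw [pol_rel] at hv
  simp only [pol_rel] at hvmin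
  -- the derivative in the last variable does not vanish
  have hdv : ∀ᶠ z in (U : Filter (X × ℝ)), dpol cv (d + 1) z ≠ 0 := by
    by_contra hcon
    have hcon' : ∀ᶠ z in (U : Filter (X × ℝ)), dpol cv (d + 1) z = 0 := by
      by_contra h
      exact hcon (Ultrafilter.eventually_not.mpr h)
    have h1 : ∀ z : X × ℝ, dpol cv (d + 1) z =
        pol (fun k x => (k + 1 : ℝ) * cv (k + 1) x) d z := by
      intro z
      unfold dpol pol
      rw [Finset.sum_range_succ']
      simp only [Nat.cast_zero, zero_mul, mul_zero, add_zero]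
      refine Finset.sum_congr rfl (fun k _ => ?_)
      push_cast
      ring
    rcases Nat.eq_zero_or_pos d with hd | hd
    · -- degree zero is impossible
      subst hd
      obtain ⟨z, hz1, hz2⟩ := (hv.and hvd).exists
      apply hz2
      simpa [pol] using hz1
    · have h2 := hvmin d le_rfl (fun k x => (k + 1 : ℝ) * cv (k + 1) x)
        (fun k => analyticAt_const.mul (hcv _)) (by
          filter_upwards [hcon'] with z hz
          rw [← h1, hz]) (d - 1) (by omega)
      obtain ⟨z, hz1, hz2⟩ := (h2.and hvd).exists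
      have h3 : d - 1 + 1 = d := by omega
      rw [h3] at hz1
      rcases mul_eq_zero.mp hz1 with h | h
      · have : (0 : ℝ) < ((d - 1 : ℕ) : ℝ) + 1 := by positivity
        linarith
      · exact hz2 h
  -- minimal relation between `a` and `b`
  obtain ⟨M, c, hc, hrel, hcM, hmin⟩ := exists_min U hb0
    (exists_rel U hU hg hgU he he0 hge ha hb)
  have hquot : ∀ k < M, ∃ γ : ℝ, ∀ᶠ x in ((U.map Prod.fst : Ultrafilter X) : Filter X),
      c k x = γ * c M x := by
    intro k hk
    refine hIH _ hU1 (c k) (c M) (hc k) (hc M) ?_ ?_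
    · rw [Ultrafilter.coe_map, eventually_map]
      exact hcM
    · intro η hη
      have hT := tangent_liftF U hU hg hgU he he0 hge hcv hv hvd hvmin hη
      have h1 := hab _ hT
      have hRan : AnalyticAt ℝ (fun z : X × ℝ => ∑ k ∈ Finset.range (M + 1),
          c k z.1 * a z ^ k * b z ^ (M + 1 - 1 - k)) 0 :=
        Finset.analyticAt_fun_sum _ (fun k _ =>
          ((analyticAt_comp_fst (hc k)).mul (ha.pow k)).mul (hb.pow _))
      have h2 := hT.2 _ hRan hrel
      -- the derived relation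
      have h3 : ∀ᶠ z in (U : Filter (X × ℝ)), ∑ k ∈ Finset.range (M + 1),
          fderiv ℝ (c k) z.1 (η z.1) * a z ^ k * b z ^ (M + 1 - 1 - k) = 0 := by
        filter_upwards [h1, h2, hrel, hb0, hdv, hU (diff_of_analytic ha),
          hU (diff_of_analytic hb), diff_coeff U hU hc (M + 1)] with
          z hz1 hz2 hz3 hz4 hz5 hz6 hz7 hz8
        have h4 := fderiv_rel hz6 hz7 hz8 hz1
        rw [hz2, hz3, mul_zero, mul_zero, add_zero] at h4
        have h5 := (mul_eq_zero.mp h4.symm).resolve_left hz4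
        have h6 : dpol cv (d + 1) z * ∑ k ∈ Finset.range (M + 1),
          fderiv ℝ (c k) z.1 (η z.1) * a z ^ k * b z ^ (M + 1 - 1 - k) = 0 := by
          rw [← h5, Finset.mul_sum]
          refine Finset.sum_congr rfl (fun k _ => ?_)
          simp only [liftF, map_smul, smul_eq_mul]
          ring
        exact (mul_eq_zero.mp h6).resolve_left hz5
      -- eliminate the leading coefficient
      let w : ℕ → X → ℝ := fun k x => c M x * fderiv ℝ (c k) x (η x) - c k x *
        fderiv ℝ (c M) x (η x)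
      have hw : ∀ k, AnalyticAt ℝ (w k) 0 := fun k =>
        ((hc M).mul (analyticAt_clm_apply (hc k).fderiv hη.1)).sub
          ((hc k).mul (analyticAt_clm_apply (hc M).fderiv hη.1))
      have h4 : Rel (U : Filter (X × ℝ)) a b M w := by
        unfold Rel
        filter_upwards [h3, hrel, hb0] with z hz1 hz2 hz3
        have h5 : ∑ k ∈ Finset.range (M + 1), w k z.1 * a z ^ k * b z ^ (M + 1 - 1 - k) = 0 := by
          have h6 : ∑ k ∈ Finset.range (M + 1), w k z.1 * a z ^ k * b z ^ (M + 1 - 1 - k) =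
              c M z.1 * (∑ k ∈ Finset.range (M + 1),
                fderiv ℝ (c k) z.1 (η z.1) * a z ^ k * b z ^ (M + 1 - 1 - k)) -
              fderiv ℝ (c M) z.1 (η z.1) * ∑ k ∈ Finset.range (M + 1),
                c k z.1 * a z ^ k * b z ^ (M + 1 - 1 - k) := by
            rw [Finset.mul_sum, Finset.mul_sum, ← Finset.sum_sub_distrib]
            refine Finset.sum_congr rfl (fun k _ => ?_)
            simp only [w]
            ring
          rw [h6, hz1, hz2]
          ring
        rw [Finset.sum_range_succ] at h5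
        have h7 : w M z.1 = 0 := by
          simp only [w]
          ring
        rw [h7, zero_mul, zero_mul, add_zero] at h5
        have h8 : b z * ∑ k ∈ Finset.range M, w k z.1 * a z ^ k * b z ^ (M - 1 - k) = 0 := by
          rw [← h5, Finset.mul_sum]
          refine Finset.sum_congr rfl (fun j hj => ?_)
          have hj' := Finset.mem_range.mp hj
          have h9 : M + 1 - 1 - j = (M - 1 - j) + 1 := by omega
          rw [h9, pow_succ]
          ring
        exact (mul_eq_zero.mp h8).resolve_left hz3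
      have h5 := hmin M le_rfl w hw h4 k hk
      rw [Ultrafilter.coe_map, eventually_map]
      filter_upwards [h5] with z hz
      exact sub_eq_zero.mp hz
  -- a real polynomial relation
  have hquot' : ∀ k, ∃ γ : ℝ, k < M → ∀ᶠ z in (U : Filter (X × ℝ)), c k z.1 = γ * c M z.1 := by
    intro k
    by_cases hk : k < M
    · obtain ⟨γ, hγ⟩ := hquot k hk
      refine ⟨γ, fun _ => ?_⟩
      rw [Ultrafilter.coe_map, eventually_map] at hγ
      exact hγ
    · exact ⟨0, fun h => absurd h hk⟩
  choose γ hγ using hquot'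
  let Q : Polynomial ℝ := Polynomial.X ^ M + ∑ k ∈ Finset.range M,
    Polynomial.C (γ k) * Polynomial.X ^ k
  have hQ : Q ≠ 0 := by
    intro h0
    have h1 : Q.coeff M = 1 := by
      simp only [Q, Polynomial.coeff_add, Polynomial.coeff_X_pow, if_true,
        Polynomial.finsetSum_coeff, Polynomial.coeff_C_mul]
      rw [Finset.sum_eq_zero, add_zero]
      intro k hk
      have := (Finset.mem_range.mp hk).ne'
      simp [this]
    rw [h0] at h1
    simp at h1
  have hroot : ∀ᶠ z in (U : Filter (X × ℝ)), ∃ y ∈ ((Q.roots.toFinset : Finset ℝ) : Set ℝ),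
      a z / b z = y := by
    have h1 : ∀ᶠ z in (U : Filter (X × ℝ)), ∀ k ∈ Finset.range M, c k z.1 = γ k * c M z.1 := by
      rw [Finset.eventually_all]
      intro k hk
      exact hγ k (Finset.mem_range.mp hk)
    filter_upwards [h1, hrel, hcM, hb0] with z hz1 hz2 hz3 hz4
    refine ⟨a z / b z, ?_, rfl⟩
    simp only [Finset.mem_coe, Multiset.mem_toFinset]
    rw [Polynomial.mem_roots hQ, Polynomial.IsRoot.def]
    simp only [Q, Polynomial.eval_add, Polynomial.eval_pow, Polynomial.eval_X,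
      Polynomial.eval_finsetSum, Polynomial.eval_mul, Polynomial.eval_C]
    have h2 : c M z.1 * b z ^ M * ((a z / b z) ^ M + ∑ k ∈ Finset.range M,
        γ k * (a z / b z) ^ k) = 0 := by
      rw [← hz2, Finset.sum_range_succ, mul_add, add_comm, Finset.mul_sum]
      congr 1
      · refine Finset.sum_congr rfl (fun k hk => ?_)
        have hk' := Finset.mem_range.mp hk
        rw [hz1 k hk]
        have h3 : b z ^ M = b z ^ k * b z ^ (M + 1 - 1 - k) := by
          rw [← pow_add]
          congr 1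
          omega
        rw [h3, div_pow]
        field_simp
      · rw [Nat.add_sub_cancel, Nat.sub_self, pow_zero, mul_one, div_pow]
        field_simp
    exact (mul_eq_zero.mp h2).resolve_left (mul_ne_zero hz3 (pow_ne_zero _ hz4))
  rw [Ultrafilter.eventually_exists_mem_iff (Finset.finite_toSet _)] at hroot
  obtain ⟨y, -, hy⟩ := hroot
  refine ⟨y, ?_⟩
  filter_upwards [hy, hb0] with z hz1 hz2
  rw [← hz1, div_mul_cancel₀ _ hz2]

end Step

section Induction

variable {V : Type*} [NormedAddCommGroup V] [NormedSpace ℝ V]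
variable {W : Type*} [NormedAddCommGroup W] [NormedSpace ℝ W]

lemma analyticAt_comp_symm (e : V ≃L[ℝ] W) {a : V → ℝ} (ha : AnalyticAt ℝ a 0) :
    AnalyticAt ℝ (fun y => a (e.symm y)) 0 :=
  AnalyticAt.comp_of_eq (g := a) (f := fun y => e.symm y) ha
    ((e.symm : W →L[ℝ] V).analyticAt 0) (map_zero _)

lemma fderiv_comp_symm (e : V ≃L[ℝ] W) (a : V → ℝ) (x : V) (y : W) :
    fderiv ℝ (fun y => a (e.symm y)) (e x) y = fderiv ℝ a x (e.symm y) := by
  have h := e.symm.comp_right_fderiv (f := a) (x := e x)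
  have h2 : (a ∘ e.symm) = fun y => a (e.symm y) := rfl
  rw [← h2, h]
  simp

/-- Transport of the hypothesis of `ClaimB` along a linear equivalence. -/
lemma transport (e : V ≃L[ℝ] W) (U : Ultrafilter V) {a b : V → ℝ}
    (hab : ∀ ξ, Tangent (U : Filter V) ξ → ∀ᶠ x in (U : Filter V),
      b x * fderiv ℝ a x (ξ x) = a x * fderiv ℝ b x (ξ x)) :
    ∀ ξ, Tangent ((U.map e : Ultrafilter W) : Filter W) ξ →
      ∀ᶠ y in ((U.map e : Ultrafilter W) : Filter W),
        b (e.symm y) * fderiv ℝ (fun y => a (e.symm y)) y (ξ y) =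
          a (e.symm y) * fderiv ℝ (fun y => b (e.symm y)) y (ξ y) := by
  intro ξ hξ
  have h1 : Tangent (U : Filter V) (fun x => e.symm (ξ (e x))) := by
    refine ⟨?_, fun g hg hgU => ?_⟩
    · have h2 : AnalyticAt ℝ (fun x => ξ (e x)) 0 :=
        AnalyticAt.comp_of_eq (g := ξ) (f := fun x => e x) hξ.1
          ((e : V →L[ℝ] W).analyticAt 0) (map_zero _)
      exact ((e.symm : W →L[ℝ] V).analyticAt _).fun_comp h2
    · have h2 := hξ.2 (fun y => g (e.symm y)) (analyticAt_comp_symm e hg) (by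
        rw [Ultrafilter.coe_map, eventually_map]
        simpa using hgU)
      rw [Ultrafilter.coe_map, eventually_map] at h2
      filter_upwards [h2] with x hx
      rwa [fderiv_comp_symm] at hx
  rw [Ultrafilter.coe_map, eventually_map]
  filter_upwards [hab _ h1] with x hx
  rw [fderiv_comp_symm, fderiv_comp_symm, e.symm_apply_apply]
  exact hx

lemma claimB_of_equiv (e : V ≃L[ℝ] W) (h : ClaimB W) : ClaimB V := by
  intro U hU a b ha hb hb0 hab
  have hU1 : ((U.map e : Ultrafilter W) : Filter W) ≤ 𝓝 0 := by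
    rw [Ultrafilter.coe_map]
    exact (e.continuous.tendsto' (0 : V) (0 : W) (map_zero _)).mono_left hU
  obtain ⟨c, hc⟩ := h (U.map e) hU1 (fun y => a (e.symm y)) (fun y => b (e.symm y))
    (analyticAt_comp_symm e ha) (analyticAt_comp_symm e hb) (by
      rw [Ultrafilter.coe_map, eventually_map]
      simpa using hb0) (transport e U hab)
  refine ⟨c, ?_⟩
  rw [Ultrafilter.coe_map, eventually_map] at hc
  simpa using hc

lemma exists_equiv {n : ℕ} (hV : Module.finrank ℝ V = n + 1) {v : V} (hv : v ≠ 0) :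
    ∃ e : V ≃L[ℝ] (Fin n → ℝ) × ℝ, e.symm (0, 1) = v := by
  have : FiniteDimensional ℝ V := Module.finite_of_finrank_eq_succ hV
  obtain ⟨H, hH⟩ := Submodule.exists_isCompl (Submodule.span ℝ {v})
  have h1 : Module.finrank ℝ H = n := by
    have h2 := Submodule.finrank_add_eq_of_isCompl hH
    rw [finrank_span_singleton hv, hV] at h2
    omega
  let e1 : H ≃ₗ[ℝ] (Fin n → ℝ) := LinearEquiv.ofFinrankEq _ _ (by rw [h1]; simp)
  let e2 : ℝ ≃ₗ[ℝ] Submodule.span ℝ {v} := LinearEquiv.toSpanNonzeroSingleton ℝ V v hv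
  let e3 : ((Fin n → ℝ) × ℝ) ≃ₗ[ℝ] V :=
    (LinearEquiv.prodCongr e1.symm e2).trans
      ((LinearEquiv.prodComm ℝ H (Submodule.span ℝ {v})).trans
        (Submodule.prodEquivOfIsCompl _ _ hH))
  refine ⟨e3.symm.toContinuousLinearEquiv, ?_⟩
  change e3 (0, 1) = v
  simp [e3, e2]

lemma claimB_fin (n : ℕ) : ClaimB (Fin n → ℝ) := by
  induction n with
  | zero =>
    intro U hU a b ha hb hb0 hab
    refine claimB_generic U hU (fun g hg hgU => ?_) ha hb hb0 hab
    obtain ⟨x, hx⟩ := hgU.exists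
    refine Eventually.of_forall fun y => ?_
    rw [Subsingleton.elim y x, hx]
  | succ n ih =>
    intro U hU a b ha hb hb0 hab
    by_cases hgen : ∀ g : (Fin (n + 1) → ℝ) → ℝ, AnalyticAt ℝ g 0 →
        (∀ᶠ x in (U : Filter (Fin (n + 1) → ℝ)), g x = 0) → ∀ᶠ x in 𝓝 0, g x = 0
    · exact claimB_generic U hU hgen ha hb hb0 hab
    · push Not at hgen
      obtain ⟨g, hg, hgU, hg0⟩ := hgen
      obtain ⟨v, hv⟩ := exists_direction hg (by simpa using hg0)
      have hv0 : v ≠ 0 := by
        rintro rfl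
        apply hv
        simp only [smul_zero]
        have h1 : g 0 = 0 := by
          have h2 : Tendsto g (U : Filter (Fin (n + 1) → ℝ)) (𝓝 (g 0)) :=
            hg.continuousAt.mono_left hU
          have h3 : Tendsto g (U : Filter (Fin (n + 1) → ℝ)) (𝓝 0) :=
            (tendsto_congr' hgU).mpr tendsto_const_nhds
          exact tendsto_nhds_unique h2 h3
        simp [h1]
      obtain ⟨e, he⟩ := exists_equiv (n := n) (V := Fin (n + 1) → ℝ) (by simp) hv0
      have hU1 : ((U.map e : Ultrafilter ((Fin n → ℝ) × ℝ)) : Filter ((Fin n → ℝ) × ℝ)) ≤ 𝓝 0 := by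
        rw [Ultrafilter.coe_map]
        exact (e.continuous.tendsto' _ _ (map_zero _)).mono_left hU
      obtain ⟨c, hc⟩ := claimB_step ih (U.map e) hU1 (g := fun y => g (e.symm y))
        (analyticAt_comp_symm e hg) (by
          rw [Ultrafilter.coe_map, eventually_map]
          simpa using hgU) (by
          intro h
          apply hv
          filter_upwards [h] with t ht
          have h2 : e.symm (0, t) = t • v := by
            rw [← he, ← map_smul]
            simp
          rw [← h2, ht]) (analyticAt_comp_symm e ha) (analyticAt_comp_symm e hb) (by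
          rw [Ultrafilter.coe_map, eventually_map]
          simpa using hb0) (transport e U hab)
      refine ⟨c, ?_⟩
      rw [Ultrafilter.coe_map, eventually_map] at hc
      simpa using hc

theorem claimB [FiniteDimensional ℝ V] : ClaimB V :=
  claimB_of_equiv (ContinuousLinearEquiv.ofFinrankEq (by simp) :
    V ≃L[ℝ] (Fin (Module.finrank ℝ V) → ℝ)) (claimB_fin _)

/-- The critical values of a real analytic function do not accumulate. -/
theorem critical_value_const [FiniteDimensional ℝ V] {f : V → ℝ} (hf : AnalyticAt ℝ f 0)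
    {w : ℕ → V} (hw : Tendsto w atTop (𝓝 0)) (hcrit : ∀ᶠ n in atTop, fderiv ℝ f (w n) = 0) :
    ∀ᶠ n in atTop, f (w n) = f 0 := by
  by_contra hcon
  rw [not_eventually] at hcon
  have hne : (atTop ⊓ 𝓟 {n | ¬f (w n) = f 0}).NeBot := by
    rwa [← frequently_mem_iff_neBot] 
  obtain ⟨U, hU⟩ := Ultrafilter.exists_le (Filter.map w (atTop ⊓ 𝓟 {n | ¬f (w n) = f 0}))
  have hU0 : (U : Filter V) ≤ 𝓝 0 := hU.trans (hw.mono_left inf_le_left)
  have h1 : ∀ᶠ x in (U : Filter V), fderiv ℝ f x = 0 := by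
    refine hU ?_
    rw [mem_map]
    exact mem_inf_of_left hcrit
  have h2 : ∀ᶠ x in (U : Filter V), f x ≠ f 0 := by
    refine hU ?_
    rw [mem_map]
    exact mem_inf_of_right (mem_principal_self _)
  obtain ⟨c, hc⟩ := claimB U hU0 f (fun _ => 1) hf analyticAt_const
    (Eventually.of_forall fun _ => one_ne_zero) (fun ξ _ => by
      filter_upwards [h1] with x hx
      rw [hx]
      simp)
  have h3 : Tendsto f (U : Filter V) (𝓝 (f 0)) := hf.continuousAt.mono_left hU0
  have h4 : Tendsto f (U : Filter V) (𝓝 c) := by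
    refine (tendsto_congr' ?_).mpr tendsto_const_nhds
    filter_upwards [hc] with x hx
    rw [hx, mul_one]
  have h5 : f 0 = c := tendsto_nhds_unique h3 h4
  obtain ⟨x, hx1, hx2⟩ := (hc.and h2).exists
  apply hx2
  rw [hx1, h5, mul_one]

end Induction

end Pool.Agent.MP_5de7bf_an
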