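import Mathlib

/-!
# Abstract Dirichlet spaces: potentials, comparison
-/

set_option autoImplicit false
set_option linter.unusedSectionVars false

namespace Pool.Agent.MP_5de7bf_an

open Filter Topology MeasureTheory

variable {α : Type*} [MeasurableSpace α]

/-- An abstract Dirichlet space over a measure space: a Hilbert space `H` with a compact map into
`L²` such that truncations operate and a Sobolev inequality of exponent `s > 2` holds. -/
structure Dir (ν : Measure α) (H : Type*) [NormedAddCommGroup H] [InnerProductSpace ℝ H] where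
  emb : H →L[ℝ] Lp ℝ 2 ν
  compact : IsCompactOperator emb
  trunc : ∀ (X : H) (k : ℝ), 0 ≤ k → ∃ Y : H,
    (∀ᵐ x ∂ν, emb Y x = max (emb X x - k) 0) ∧ inner ℝ X Y = ‖Y‖ ^ 2
  s : ℝ
  hs : 2 < s
  C : ℝ
  hC : 0 < C
  sob_int : ∀ X, Integrable (fun x => |emb X x| ^ s) ν
  sob : ∀ X, ∫ x, |emb X x| ^ s ∂ν ≤ (C * ‖X‖) ^ s

namespace Dir

variable {ν : Measure α} {H : Type*} [NormedAddCommGroup H] [InnerProductSpace ℝ H]
  (D : Dir ν H)

/-- `X` is the potential of `f`. -/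
def Sol (X : H) (f : α → ℝ) : Prop := ∀ Y : H, inner ℝ X Y = ∫ x, f x * D.emb Y x ∂ν

/-- `f` is measurable and bounded by `M`. -/
def Bdd (ν : Measure α) (f : α → ℝ) (M : ℝ) : Prop :=
  AEStronglyMeasurable f ν ∧ ∀ᵐ x ∂ν, |f x| ≤ M

lemma aesm_emb (Y : H) : AEStronglyMeasurable (D.emb Y) ν := Lp.aestronglyMeasurable _

lemma memLp_emb (Y : H) : MemLp (D.emb Y) 2 ν := Lp.memLp _

lemma emb_add (X Y : H) : ∀ᵐ x ∂ν, D.emb (X + Y) x = D.emb X x + D.emb Y x := by
  rw [map_add]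
  exact Lp.coeFn_add _ _

lemma emb_sub (X Y : H) : ∀ᵐ x ∂ν, D.emb (X - Y) x = D.emb X x - D.emb Y x := by
  rw [map_sub]
  exact Lp.coeFn_sub _ _

lemma emb_neg (X : H) : ∀ᵐ x ∂ν, D.emb (-X) x = -D.emb X x := by
  rw [map_neg]
  exact Lp.coeFn_neg _

lemma emb_smul (c : ℝ) (X : H) : ∀ᵐ x ∂ν, D.emb (c • X) x = c * D.emb X x := by
  rw [map_smul]
  exact Lp.coeFn_smul _ _

section Finite

variable [IsFiniteMeasure ν]

lemma integrable_emb (Y : H) : Integrable (D.emb Y) ν :=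
  (D.memLp_emb Y).integrable (by norm_num)

lemma Bdd.memLp {f : α → ℝ} {M : ℝ} (hf : Bdd ν f M) : MemLp f 2 ν :=
  MemLp.of_bound hf.1 M hf.2

lemma Bdd.integrable_mul {f : α → ℝ} {M : ℝ} (hf : Bdd ν f M) (Y : H) :
    Integrable (fun x => f x * D.emb Y x) ν :=
  (D.integrable_emb Y).bdd_mul hf.1 hf.2

lemma Bdd.add {f g : α → ℝ} {M N : ℝ} (hf : Bdd ν f M) (hg : Bdd ν g N) :
    Bdd ν (fun x => f x + g x) (M + N) := by
  refine ⟨hf.1.add hg.1, ?_⟩
  filter_upwards [hf.2, hg.2] with x h1 h2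
  exact (abs_add_le _ _).trans (add_le_add h1 h2)

lemma Bdd.sub {f g : α → ℝ} {M N : ℝ} (hf : Bdd ν f M) (hg : Bdd ν g N) :
    Bdd ν (fun x => f x - g x) (M + N) := by
  refine ⟨hf.1.sub hg.1, ?_⟩
  filter_upwards [hf.2, hg.2] with x h1 h2
  exact (abs_sub _ _).trans (add_le_add h1 h2)

lemma Bdd.const_mul {f : α → ℝ} {M : ℝ} (hf : Bdd ν f M) (c : ℝ) :
    Bdd ν (fun x => c * f x) (|c| * M) := by
  refine ⟨hf.1.const_mul c, ?_⟩
  filter_upwards [hf.2] with x h1
  rw [abs_mul]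
  gcongr

lemma Bdd.const (c : ℝ) : Bdd ν (fun _ => c) |c| :=
  ⟨aestronglyMeasurable_const, Eventually.of_forall fun _ => le_rfl⟩

lemma Bdd.mono {f : α → ℝ} {M N : ℝ} (hf : Bdd ν f M) (h : M ≤ N) : Bdd ν f N :=
  ⟨hf.1, hf.2.mono fun _ hx => hx.trans h⟩

/-- Existence of potentials. -/
lemma exists_sol [CompleteSpace H] {f : α → ℝ} (hf : MemLp f 2 ν) : ∃ X : H, D.Sol X f := by
  refine ⟨ContinuousLinearMap.adjoint D.emb (hf.toLp f), fun Y => ?_⟩
  rw [ContinuousLinearMap.adjoint_inner_left, L2.inner_def]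
  refine integral_congr_ae ?_
  filter_upwards [hf.coeFn_toLp] with x hx
  rw [hx]
  simp [mul_comm]

lemma sol_unique {X X' : H} {f : α → ℝ} (h : D.Sol X f) (h' : D.Sol X' f) : X = X' := by
  refine ext_inner_right ℝ (fun Y => ?_)
  rw [h Y, h' Y]

lemma Sol.congr {X : H} {f g : α → ℝ} (h : D.Sol X f) (hfg : ∀ᵐ x ∂ν, f x = g x) :
    D.Sol X g := by
  intro Y
  rw [h Y]
  refine integral_congr_ae ?_
  filter_upwards [hfg] with x hx
  rw [hx]

lemma Sol.add {X X' : H} {f g : α → ℝ} {M N : ℝ} (hf : Bdd ν f M) (hg : Bdd ν g N)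
    (h : D.Sol X f) (h' : D.Sol X' g) : D.Sol (X + X') (fun x => f x + g x) := by
  intro Y
  rw [inner_add_left, h Y, h' Y, ← integral_add (hf.integrable_mul D Y) (hg.integrable_mul D Y)]
  refine integral_congr_ae (Eventually.of_forall fun x => ?_)
  simp only
  ring

lemma Sol.sub {X X' : H} {f g : α → ℝ} {M N : ℝ} (hf : Bdd ν f M) (hg : Bdd ν g N)
    (h : D.Sol X f) (h' : D.Sol X' g) : D.Sol (X - X') (fun x => f x - g x) := by
  intro Y
  rw [inner_sub_left, h Y, h' Y, ← integral_sub (hf.integrable_mul D Y) (hg.integrable_mul D Y)]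
  refine integral_congr_ae (Eventually.of_forall fun x => ?_)
  simp only
  ring

lemma Sol.const_smul {X : H} {f : α → ℝ} (c : ℝ) (h : D.Sol X f) :
    D.Sol (c • X) (fun x => c * f x) := by
  intro Y
  rw [real_inner_smul_left, h Y, ← integral_const_mul]
  refine integral_congr_ae (Eventually.of_forall fun x => ?_)
  simp only
  ring

lemma Sol.neg {X : H} {f : α → ℝ} (h : D.Sol X f) : D.Sol (-X) (fun x => -f x) := by
  have := Sol.const_smul D (-1) h
  simpa using this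

/-- `U` is superharmonic. -/
def Super (U : H) : Prop := ∀ Y : H, (∀ᵐ x ∂ν, 0 ≤ D.emb Y x) → 0 ≤ inner ℝ U Y

lemma Sol.super {X : H} {f : α → ℝ} (h : D.Sol X f) (hf : ∀ᵐ x ∂ν, 0 ≤ f x) : D.Super X := by
  intro Y hY
  rw [h Y]
  refine integral_nonneg_of_ae ?_
  filter_upwards [hf, hY] with x h1 h2
  exact mul_nonneg h1 h2

/-- The comparison lemma. -/
lemma comparison {U V : H} {f : α → ℝ} {c : ℝ} (hU : D.Super U) (hc : 0 ≤ c)
    (hV : D.Sol V f) (h : ∀ᵐ x ∂ν, 0 < f x → D.emb V x ≤ c * D.emb U x) :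
    ∀ᵐ x ∂ν, D.emb V x ≤ c * D.emb U x := by
  obtain ⟨Y, hY, hYn⟩ := D.trunc (V - c • U) 0 le_rfl
  have hZ : ∀ᵐ x ∂ν, D.emb (V - c • U) x = D.emb V x - c * D.emb U x := by
    filter_upwards [D.emb_sub V (c • U), D.emb_smul c U] with x h1 h2
    rw [h1, h2]
  have h1 : 0 ≤ inner ℝ U Y := hU Y (by
    filter_upwards [hY] with x hx
    rw [hx]
    exact le_max_right _ _)
  have h2 : inner ℝ V Y ≤ 0 := by
    rw [hV Y]
    refine integral_nonpos_of_ae ?_
    filter_upwards [hY, hZ, h] with x hx1 hx2 hx3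
    rw [hx1, hx2, sub_zero]
    simp only [Pi.zero_apply]
    rcases lt_or_ge 0 (f x) with h4 | h4
    · have := hx3 h4
      rw [max_eq_right (by linarith), mul_zero]
    · exact mul_nonpos_of_nonpos_of_nonneg h4 (le_max_right _ _)
  have h3 : ‖Y‖ ^ 2 ≤ 0 := by
    rw [← hYn, inner_sub_left, real_inner_smul_left]
    nlinarith [mul_nonneg hc h1]
  have h4 : Y = 0 := by
    have : ‖Y‖ = 0 := by
      have := sq_nonneg ‖Y‖
      nlinarith
    exact norm_eq_zero.mp this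
  rw [h4, map_zero] at hY
  filter_upwards [hY, hZ, Lp.coeFn_zero ℝ 2 ν] with x h5 h6 h7
  rw [h7, h6, sub_zero] at h5
  simp only [Pi.zero_apply] at h5
  have := le_max_left (D.emb V x - c * D.emb U x) 0
  linarith

lemma super_zero : D.Super (0 : H) := fun Y _ => by simp

/-- Positivity of potentials. -/
lemma Super.nonneg {X : H} (hX : D.Super X) : ∀ᵐ x ∂ν, 0 ≤ D.emb X x := by
  have h1 : D.Sol (0 : H) (fun _ => 0) := fun Y => by simp
  have h2 := D.comparison (U := X) (V := 0) (c := 1) hX zero_le_one h1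
    (Eventually.of_forall fun x hx => absurd hx (lt_irrefl _))
  filter_upwards [h2, Lp.coeFn_zero ℝ 2 ν] with x h3 h4
  rw [map_zero, h4] at h3
  simpa using h3

/-- Monotonicity of potentials. -/
lemma sol_mono {X X' : H} {f g : α → ℝ} {M N : ℝ} (hf : Bdd ν f M) (hg : Bdd ν g N)
    (h : D.Sol X f) (h' : D.Sol X' g) (hfg : ∀ᵐ x ∂ν, f x ≤ g x) :
    ∀ᵐ x ∂ν, D.emb X x ≤ D.emb X' x := by
  have h1 := Sol.sub D hg hf h' h
  have h2 := Super.nonneg D (Sol.super D h1 (by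
    filter_upwards [hfg] with x hx
    linarith))
  filter_upwards [h2, D.emb_sub X' X] with x h3 h4
  rw [h4] at h3
  linarith

end Finite

end Dir

end Pool.Agent.MP_5de7bf_an
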