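import Pool.Agent.Lib.MP_5de7bf_an.Dir9

/-!
# Abstract Dirichlet spaces: critical points by density
-/

set_option autoImplicit false
set_option linter.unusedSectionVars false

namespace Pool.Agent.MP_5de7bf_an

open Filter Topology MeasureTheory
open scoped ENNReal

lemma rpow_sub_one_mul {a q : ℝ} (ha : 0 ≤ a) (hq : 1 < q) : a ^ (q - 1) * a = a ^ q := by
  rcases ha.eq_or_lt with h | h
  · rw [← h, mul_zero, Real.zero_rpow (by linarith)]
  · have : q = (q - 1) + 1 := by ring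
    conv_rhs => rw [this, Real.rpow_add h, Real.rpow_one]

lemma young_aux {a b q : ℝ} (ha : 0 ≤ a) (hb : 0 ≤ b) (hq : 1 < q) :
    a ^ (q - 1) * b ≤ a ^ q + b ^ q := by
  have h1 := Real.rpow_nonneg ha q
  have h2 := Real.rpow_nonneg hb q
  have h3 := Real.rpow_nonneg ha (q - 1)
  rcases le_total b a with h | h
  · calc a ^ (q - 1) * b ≤ a ^ (q - 1) * a := by gcongr
      _ = a ^ q := rpow_sub_one_mul ha hq
      _ ≤ _ := by linarith
  · calc a ^ (q - 1) * b ≤ b ^ (q - 1) * b := by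
          have := Real.rpow_le_rpow ha h (by linarith : 0 ≤ q - 1)
          gcongr
      _ = b ^ q := rpow_sub_one_mul hb hq
      _ ≤ _ := by linarith

lemma abs_crit_aux {t q : ℝ} (hq : 1 < q) : |(|t| ^ (q - 2) * t)| = |t| ^ (q - 1) := by
  rw [abs_mul, abs_of_nonneg (Real.rpow_nonneg (abs_nonneg _) _)]
  rcases (abs_nonneg t).eq_or_lt with h | h
  · rw [← h, mul_zero, Real.zero_rpow (by linarith)]
  · have : q - 1 = (q - 2) + 1 := by ring
    rw [this, Real.rpow_add h, Real.rpow_one]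

variable {α : Type*} [MeasurableSpace α]

namespace Dir

variable {ν : Measure α} {H : Type*} [NormedAddCommGroup H] [InnerProductSpace ℝ H]
  (D : Dir ν H)

variable [IsFiniteMeasure ν]

lemma crit_pointwise {q : ℝ} (hq : 1 < q) (X Y : H) (x : α) :
    |(|D.emb X x| ^ (q - 2) * D.emb X x * D.emb Y x)| ≤
      |D.emb X x| ^ q + |D.emb Y x| ^ q := by
  rw [abs_mul, abs_crit_aux hq]
  exact young_aux (abs_nonneg _) (abs_nonneg _) hq

lemma crit_integrable {q : ℝ} (hq : 1 < q) (hqs : q ≤ D.s) (X Y : H) :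
    Integrable (fun x => |D.emb X x| ^ (q - 2) * D.emb X x * D.emb Y x) ν := by
  refine ((D.integrable_rpow (by linarith : 0 ≤ q) hqs X).add
    (D.integrable_rpow (by linarith : 0 ≤ q) hqs Y)).mono' ?_
    (Eventually.of_forall fun x => D.crit_pointwise hq X Y x)
  have h2 : AEMeasurable (fun x => |D.emb X x|) ν := (D.aesm_emb X).norm.aemeasurable
  exact ((h2.pow_const (q - 2)).aestronglyMeasurable.mul (D.aesm_emb X)).mul (D.aesm_emb Y)

/-- The linear functional of the critical point equation. -/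
noncomputable def critF (q : ℝ) (X Y : H) : ℝ :=
  ∫ x, |D.emb X x| ^ (q - 2) * D.emb X x * D.emb Y x ∂ν

lemma critF_smul (q : ℝ) (X : H) (c : ℝ) (Y : H) :
    D.critF q X (c • Y) = c * D.critF q X Y := by
  unfold critF
  rw [← integral_const_mul]
  refine integral_congr_ae ?_
  filter_upwards [D.emb_smul c Y] with x hx
  rw [hx]
  ring

lemma critF_sub {q : ℝ} (hq : 1 < q) (hqs : q ≤ D.s) (X Y Z : H) :
    D.critF q X (Y - Z) = D.critF q X Y - D.critF q X Z := by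
  unfold critF
  rw [← integral_sub (D.crit_integrable hq hqs X Y) (D.crit_integrable hq hqs X Z)]
  refine integral_congr_ae ?_
  filter_upwards [D.emb_sub Y Z] with x hx
  rw [hx]
  ring

lemma critF_bound {q : ℝ} (hq : 1 < q) (hqs : q ≤ D.s) (X : H) :
    ∃ K : ℝ, 0 ≤ K ∧ ∀ Y : H, |D.critF q X Y| ≤ K * ‖Y‖ := by
  have hK1 : 0 ≤ ∫ x, |D.emb X x| ^ q ∂ν :=
    integral_nonneg fun x => Real.rpow_nonneg (abs_nonneg _) _
  have hK2 : 0 ≤ ν.real Set.univ + D.C ^ D.s := by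
    have := Real.rpow_pos_of_pos D.hC D.s
    have h2 : 0 ≤ ν.real Set.univ := measureReal_nonneg
    linarith
  refine ⟨(∫ x, |D.emb X x| ^ q ∂ν) + (ν.real Set.univ + D.C ^ D.s), by linarith, fun Y => ?_⟩
  rcases eq_or_ne Y 0 with h0 | h0
  · have h1 : D.critF q X Y = 0 := by
      have := D.critF_smul q X 0 Y
      rw [zero_smul, zero_mul] at this
      rw [h0]
      exact this
    rw [h1, h0, abs_zero, norm_zero, mul_zero]
  · have hpos : 0 < ‖Y‖ := norm_pos_iff.mpr h0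
    set Z : H := ‖Y‖⁻¹ • Y with hZ
    have hZn : ‖Z‖ = 1 := by
      rw [hZ, norm_smul, norm_inv, norm_norm, inv_mul_cancel₀ hpos.ne']
    have hYZ : Y = ‖Y‖ • Z := by
      rw [hZ, smul_smul, mul_inv_cancel₀ hpos.ne', one_smul]
    have h1 : |D.critF q X Z| ≤
        (∫ x, |D.emb X x| ^ q ∂ν) + (ν.real Set.univ + D.C ^ D.s) := by
      have h2 : |D.critF q X Z| ≤ ∫ x, (|D.emb X x| ^ q + |D.emb Z x| ^ q) ∂ν := by
        have h5 : |D.critF q X Z| ≤
            ∫ x, ‖|D.emb X x| ^ (q - 2) * D.emb X x * D.emb Z x‖ ∂ν := by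
          unfold critF
          exact norm_integral_le_integral_norm (f := fun x =>
            |D.emb X x| ^ (q - 2) * D.emb X x * D.emb Z x)
        refine h5.trans ?_
        exact integral_mono (D.crit_integrable hq hqs X Z).norm
          ((D.integrable_rpow (by linarith : 0 ≤ q) hqs X).add
            (D.integrable_rpow (by linarith : 0 ≤ q) hqs Z)) (fun x => D.crit_pointwise hq X Z x)
      rw [integral_add (D.integrable_rpow (by linarith : 0 ≤ q) hqs X)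
        (D.integrable_rpow (by linarith : 0 ≤ q) hqs Z)] at h2
      have h3 := D.integral_rpow_le (by linarith : 0 < q) hqs Z
      rw [hZn, Real.one_rpow, one_mul] at h3
      linarith
    calc |D.critF q X Y| = ‖Y‖ * |D.critF q X Z| := by
          conv_lhs => rw [hYZ, D.critF_smul, abs_mul, abs_of_pos hpos]
      _ ≤ ‖Y‖ * ((∫ x, |D.emb X x| ^ q ∂ν) + (ν.real Set.univ + D.C ^ D.s)) := by gcongr
      _ = _ := mul_comm _ _

/-- The critical point equation may be tested on a dense set. -/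
theorem crit_of_dense {q : ℝ} (hq : 1 < q) (hqs : q ≤ D.s) {X : H}
    (h1 : ∫ x, |D.emb X x| ^ q ∂ν = 1)
    (h : ∀ (Y : H) (ε : ℝ), 0 < ε → ∃ Z : H, ‖Y - Z‖ < ε ∧
      inner ℝ X Z = ‖X‖ ^ 2 * ∫ x, |D.emb X x| ^ (q - 2) * D.emb X x * D.emb Z x ∂ν) :
    D.Crit q X := by
  refine ⟨h1, fun Y => ?_⟩
  obtain ⟨K, hK0, hK⟩ := D.critF_bound hq hqs X
  have key : ∀ ε : ℝ, 0 < ε → |inner ℝ X Y - ‖X‖ ^ 2 * D.critF q X Y| ≤
      (‖X‖ + ‖X‖ ^ 2 * K) * ε := by
    intro ε hε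
    obtain ⟨Z, hZ, hZe⟩ := h Y ε hε
    have h2 : inner ℝ X Y - ‖X‖ ^ 2 * D.critF q X Y =
        inner ℝ X (Y - Z) - ‖X‖ ^ 2 * D.critF q X (Y - Z) := by
      rw [inner_sub_right, D.critF_sub hq hqs, hZe]
      unfold critF
      ring
    rw [h2]
    have h3 : |inner ℝ X (Y - Z)| ≤ ‖X‖ * ‖Y - Z‖ := abs_real_inner_le_norm _ _
    have h4 := hK (Y - Z)
    calc |inner ℝ X (Y - Z) - ‖X‖ ^ 2 * D.critF q X (Y - Z)|
        ≤ |inner ℝ X (Y - Z)| + |‖X‖ ^ 2 * D.critF q X (Y - Z)| := abs_sub _ _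
      _ ≤ ‖X‖ * ‖Y - Z‖ + ‖X‖ ^ 2 * (K * ‖Y - Z‖) := by
          rw [abs_mul, abs_of_nonneg (by positivity : 0 ≤ ‖X‖ ^ 2)]
          gcongr
      _ = (‖X‖ + ‖X‖ ^ 2 * K) * ‖Y - Z‖ := by ring
      _ ≤ _ := by gcongr
  have h0 : |inner ℝ X Y - ‖X‖ ^ 2 * D.critF q X Y| ≤ 0 := by
    refine le_of_forall_pos_le_add (fun δ hδ => ?_)
    have h2 : 0 ≤ ‖X‖ + ‖X‖ ^ 2 * K := by positivity
    have h3 := key (δ / (‖X‖ + ‖X‖ ^ 2 * K + 1)) (by positivity)
    have h4 : (‖X‖ + ‖X‖ ^ 2 * K) * (δ / (‖X‖ + ‖X‖ ^ 2 * K + 1)) ≤ δ := by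
      rw [mul_div_assoc', div_le_iff₀ (by positivity)]
      nlinarith
    linarith
  have h2 : inner ℝ X Y - ‖X‖ ^ 2 * D.critF q X Y = 0 := abs_nonpos_iff.mp h0
  have h3 : inner ℝ X Y = ‖X‖ ^ 2 * D.critF q X Y := by linarith
  exact h3

end Dir

end Pool.Agent.MP_5de7bf_an
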