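import Pool.Agent.Lib.MP_5de7bf_an.Dir1

/-!
# Abstract Dirichlet spaces: level set iteration
-/

set_option autoImplicit false
set_option linter.unusedSectionVars false

namespace Pool.Agent.MP_5de7bf_an

open Filter Topology MeasureTheory

lemma pow_rpow_comm' {x : ℝ} (hx : 0 ≤ x) (n : ℕ) (y : ℝ) : (x ^ n) ^ y = (x ^ y) ^ n := by
  rw [← Real.rpow_natCast, ← Real.rpow_mul hx, mul_comm, Real.rpow_mul hx, Real.rpow_natCast]

/-- The numerical lemma behind the iteration. -/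
lemma dg_numeric {θ b B : ℝ} (hθ : 1 < θ) (hb : 1 < b) (hB : 0 ≤ B) {a : ℕ → ℝ}
    (ha : ∀ n, 0 ≤ a n) (h : ∀ n, a (n + 1) ≤ (B * b ^ (n + 1) * a n) ^ θ)
    (h0 : B ^ θ * (a 0) ^ (θ - 1) * b ^ (θ + θ / (θ - 1)) ≤ 1) (n : ℕ) :
    a n ≤ a 0 * (b ^ (-(θ / (θ - 1)))) ^ n := by
  have hb0 : 0 < b := by linarith
  set r := b ^ (-(θ / (θ - 1))) with hr
  have hr0 : 0 < r := Real.rpow_pos_of_pos hb0 _
  set β := b ^ θ with hβ
  have hβ0 : 0 < β := Real.rpow_pos_of_pos hb0 _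
  have hrθ : r ^ θ = r / β := by
    rw [hr, hβ, ← Real.rpow_mul hb0.le, ← Real.rpow_sub hb0]
    congr 1
    have : θ - 1 ≠ 0 := by linarith
    field_simp
    ring
  have h1 : B ^ θ * (a 0) ^ (θ - 1) * β ≤ r := by
    rw [Real.rpow_add hb0] at h0
    rw [hr, Real.rpow_neg hb0.le, ← one_div, le_div_iff₀ (Real.rpow_pos_of_pos hb0 _)]
    calc _ = B ^ θ * (a 0) ^ (θ - 1) * (b ^ θ * b ^ (θ / (θ - 1))) := by ring
      _ ≤ 1 := h0
  induction n with
  | zero => simp
  | succ n ih =>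
    have h2 : a (n + 1) ≤ (B * b ^ (n + 1) * (a 0 * r ^ n)) ^ θ := by
      refine (h n).trans ?_
      have h3 : 0 ≤ B * b ^ (n + 1) := by positivity
      refine Real.rpow_le_rpow (mul_nonneg h3 (ha n)) ?_ (by linarith)
      gcongr
    refine h2.trans ?_
    rw [Real.mul_rpow (by positivity) (mul_nonneg (ha 0) (by positivity)),
      Real.mul_rpow hB (by positivity), Real.mul_rpow (ha 0) (by positivity),
      pow_rpow_comm' hb0.le, pow_rpow_comm' hr0.le, hrθ, ← hβ]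
    have h4 : a 0 ^ θ = a 0 * a 0 ^ (θ - 1) := by
      rcases eq_or_lt_of_le (ha 0) with h5 | h5
      · rw [← h5, Real.zero_rpow (by linarith), zero_mul]
      · nth_rewrite 2 [← Real.rpow_one (a 0)]
        rw [← Real.rpow_add h5]
        congr 1
        ring
    rw [h4]
    calc B ^ θ * β ^ (n + 1) * (a 0 * a 0 ^ (θ - 1) * (r / β) ^ n)
        = (a 0 * r ^ n) * (B ^ θ * (a 0) ^ (θ - 1) * β) := by
          rw [div_pow, pow_succ]
          field_simp
      _ ≤ (a 0 * r ^ n) * r := by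
          have : 0 ≤ a 0 * r ^ n := mul_nonneg (ha 0) (by positivity)
          gcongr
      _ = a 0 * r ^ (n + 1) := by ring

variable {α : Type*} [MeasurableSpace α]

namespace Dir

variable {ν : Measure α} {H : Type*} [NormedAddCommGroup H] [InnerProductSpace ℝ H]
  (D : Dir ν H)

/-- The `s`-mass above the level `l`. -/
noncomputable def lev (X : H) (l : ℝ) : ℝ := ∫ x, (max (D.emb X x - l) 0) ^ D.s ∂ν

lemma lev_nonneg (X : H) (l : ℝ) : 0 ≤ D.lev X l :=
  integral_nonneg fun _ => Real.rpow_nonneg (le_max_right _ _) _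

lemma lev_integrable (X : H) {l : ℝ} (hl : 0 ≤ l) :
    Integrable (fun x => (max (D.emb X x - l) 0) ^ D.s) ν := by
  obtain ⟨Y, hY, -⟩ := D.trunc X l hl
  refine (D.sob_int Y).congr ?_
  filter_upwards [hY] with x hx
  rw [hx, abs_of_nonneg (le_max_right _ _)]

lemma lev_anti (X : H) {l l' : ℝ} (hl : 0 ≤ l) (hll : l ≤ l') : D.lev X l' ≤ D.lev X l := by
  refine integral_mono (D.lev_integrable X (hl.trans hll)) (D.lev_integrable X hl) (fun x => ?_)
  refine Real.rpow_le_rpow (le_max_right _ _) ?_ (by linarith [D.hs])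
  exact max_le_max (by linarith) le_rfl

lemma lev_le (X Y : H) {l : ℝ} (hY : ∀ᵐ x ∂ν, D.emb Y x = max (D.emb X x - l) 0) :
    D.lev X l ≤ (D.C ^ 2 * ‖Y‖ ^ 2) ^ (D.s / 2) := by
  have h1 : D.lev X l = ∫ x, |D.emb Y x| ^ D.s ∂ν := by
    refine integral_congr_ae ?_
    filter_upwards [hY] with x hx
    rw [hx, abs_of_nonneg (le_max_right _ _)]
  rw [h1]
  refine (D.sob Y).trans (le_of_eq ?_)
  rw [← mul_pow, ← Real.rpow_natCast, ← Real.rpow_mul (by have := D.hC; positivity)]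
  congr 1
  push_cast
  ring

lemma lev_zero_le (X : H) : D.lev X 0 ≤ (D.C * ‖X‖) ^ D.s := by
  refine le_trans ?_ (D.sob X)
  refine integral_mono (D.lev_integrable X le_rfl) (D.sob_int X) (fun x => ?_)
  refine Real.rpow_le_rpow (le_max_right _ _) ?_ (by linarith [D.hs])
  rw [sub_zero]
  exact max_le (le_abs_self _) (abs_nonneg _)

/-- The exponent constant. -/
noncomputable def Q : ℝ := (2 ^ (D.s - 1) : ℝ) ^ (D.s / 2 + (D.s / 2) / (D.s / 2 - 1))

lemma Q_pos : 0 < D.Q := Real.rpow_pos_of_pos (Real.rpow_pos_of_pos (by norm_num) _) _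

/-- The iteration. -/
lemma dg {X : H} {k B : ℝ} (hk : 0 < k) (hB : 0 ≤ B)
    (hstep : ∀ l l', 0 ≤ l → l < l' → l' ≤ k → ∀ Y : H,
      (∀ᵐ x ∂ν, D.emb Y x = max (D.emb X x - l') 0) →
        inner ℝ X Y ≤ B * (k / (l' - l)) ^ (D.s - 1) * D.lev X l)
    (hsmall : (D.C ^ 2 * B) ^ (D.s / 2) * (D.lev X 0) ^ (D.s / 2 - 1) * D.Q ≤ 1) :
    ∀ᵐ x ∂ν, D.emb X x ≤ k := by
  have hs := D.hs
  have hC := D.hC
  let K : ℕ → ℝ := fun n => k * (1 - (1 / 2) ^ n)
  have hK0 : ∀ n, 0 ≤ K n := fun n => by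
    have : ((1 : ℝ) / 2) ^ n ≤ 1 := pow_le_one₀ (by norm_num) (by norm_num)
    exact mul_nonneg hk.le (by linarith)
  have hKk : ∀ n, K n ≤ k := fun n => by
    have : (0 : ℝ) ≤ (1 / 2) ^ n := by positivity
    calc k * (1 - (1 / 2) ^ n) ≤ k * 1 := by gcongr; linarith
      _ = k := mul_one k
  have hKdiff : ∀ n, K (n + 1) - K n = k / 2 ^ (n + 1) := fun n => by
    simp only [K]
    rw [one_div_pow, one_div_pow, pow_succ]
    field_simp
    ring
  have hstep2 : ∀ n, D.lev X (K (n + 1)) ≤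
      ((D.C ^ 2 * B) * ((2 : ℝ) ^ (D.s - 1)) ^ (n + 1) * D.lev X (K n)) ^ (D.s / 2) := by
    intro n
    obtain ⟨Y, hY, hYn⟩ := D.trunc X (K (n + 1)) (hK0 _)
    refine (D.lev_le X Y hY).trans ?_
    refine Real.rpow_le_rpow (by positivity) ?_ (by linarith)
    rw [← hYn]
    have h1 := hstep (K n) (K (n + 1)) (hK0 n) (by
      have : 0 < k / 2 ^ (n + 1) := by positivity
      linarith [hKdiff n]) (hKk _) Y hY
    have h2 : k / (K (n + 1) - K n) = 2 ^ (n + 1) := by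
      rw [hKdiff]
      field_simp
    rw [h2, pow_rpow_comm' (by norm_num)] at h1
    calc D.C ^ 2 * inner ℝ X Y ≤ D.C ^ 2 * (B * ((2 : ℝ) ^ (D.s - 1)) ^ (n + 1) * D.lev X (K n)) := by
          gcongr
      _ = _ := by ring
  have hnum := dg_numeric (θ := D.s / 2) (b := (2 : ℝ) ^ (D.s - 1)) (B := D.C ^ 2 * B)
    (a := fun n => D.lev X (K n)) (by linarith)
    (Real.one_lt_rpow (by norm_num) (by linarith)) (by positivity) (fun n => D.lev_nonneg X _)
    hstep2 (by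
      have : K 0 = 0 := by simp [K]
      simp only [this]
      exact hsmall)
  have hr1 : ((2 : ℝ) ^ (D.s - 1)) ^ (-((D.s / 2) / (D.s / 2 - 1))) < 1 := by
    refine Real.rpow_lt_one_of_one_lt_of_neg (Real.one_lt_rpow (by norm_num) (by linarith)) ?_
    have : 0 < (D.s / 2) / (D.s / 2 - 1) := div_pos (by linarith) (by linarith)
    linarith
  have hr0 : 0 ≤ ((2 : ℝ) ^ (D.s - 1)) ^ (-((D.s / 2) / (D.s / 2 - 1))) := by positivity
  have hlim : Tendsto (fun n : ℕ => D.lev X (K 0) *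
      (((2 : ℝ) ^ (D.s - 1)) ^ (-((D.s / 2) / (D.s / 2 - 1)))) ^ n) atTop (𝓝 0) := by
    have := (tendsto_pow_atTop_nhds_zero_of_lt_one hr0 hr1).const_mul (D.lev X (K 0))
    simpa using this
  have hlev : D.lev X k ≤ 0 := by
    refine ge_of_tendsto' hlim (fun n => ?_)
    exact (D.lev_anti X (hK0 n) (hKk n)).trans (hnum n)
  have hlev0 : D.lev X k = 0 := le_antisymm hlev (D.lev_nonneg X k)
  have h5 := (integral_eq_zero_iff_of_nonneg
    (fun x => Real.rpow_nonneg (le_max_right _ _) _) (D.lev_integrable X hk.le)).mp hlev0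
  filter_upwards [h5] with x hx
  simp only [Pi.zero_apply] at hx
  rw [Real.rpow_eq_zero (le_max_right _ _) (by linarith)] at hx
  have := le_max_left (D.emb X x - k) 0
  linarith

end Dir

end Pool.Agent.MP_5de7bf_an
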