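import Pool.Agent.Lib.MP_5de7bf_an.Dir2

/-!
# Abstract Dirichlet spaces: bounds for potentials and for positive solutions
-/

set_option autoImplicit false
set_option linter.unusedSectionVars false

namespace Pool.Agent.MP_5de7bf_an

open Filter Topology MeasureTheory

lemma level_pointwise {s u l l' : ℝ} (hs : 2 < s) (hll : l < l') :
    max (u - l') 0 ≤ (1 / (l' - l)) ^ (s - 1) * (max (u - l) 0) ^ s := by
  have hd : 0 < l' - l := by linarith
  rcases le_or_gt u l' with h | h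
  · rw [max_eq_right (by linarith)]
    exact mul_nonneg (Real.rpow_nonneg (by positivity) _) (Real.rpow_nonneg (le_max_right _ _) _)
  · rw [max_eq_left (by linarith), max_eq_left (by linarith)]
    have ht : l' - l ≤ u - l := by linarith
    have ht0 : 0 < u - l := by linarith
    have h1 : (1 : ℝ) ≤ ((u - l) / (l' - l)) ^ (s - 1) :=
      Real.one_le_rpow ((one_le_div hd).mpr ht) (by linarith)
    have h2 : (1 / (l' - l)) ^ (s - 1) * (u - l) ^ s = ((u - l) / (l' - l)) ^ (s - 1) * (u - l) := by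
      rw [Real.div_rpow zero_le_one hd.le, Real.div_rpow ht0.le hd.le, Real.one_rpow]
      have h3 : (u - l) ^ s = (u - l) ^ (s - 1) * (u - l) := by
        nth_rewrite 3 [← Real.rpow_one (u - l)]
        rw [← Real.rpow_add ht0]
        congr 1
        ring
      rw [h3]
      ring
    rw [h2]
    nlinarith

lemma level_pointwise_pow {s p u l l' k : ℝ} (hp : 1 < p) (hps : p + 1 < s) (hl : 0 ≤ l)
    (hll : l < l') (hk : l' ≤ k) :
    u ^ p * max (u - l') 0 ≤
      (k ^ (-(s - p - 1)) * (k / (l' - l)) ^ (s - 1)) * (max (u - l) 0) ^ s := by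
  have hd : 0 < l' - l := by linarith
  have hk0 : 0 < k := by linarith
  rcases le_or_gt u l' with h | h
  · rw [max_eq_right (by linarith), mul_zero]
    exact mul_nonneg (mul_nonneg (Real.rpow_nonneg hk0.le _) (Real.rpow_nonneg (by positivity) _))
      (Real.rpow_nonneg (le_max_right _ _) _)
  · rw [max_eq_left (by linarith), max_eq_left (by linarith)]
    set d := l' - l with hdd
    set t := u - l with ht
    have htd : d ≤ t := by linarith
    have ht0 : 0 < t := by linarith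
    have hu0 : 0 < u := by linarith
    have h1 : u ≤ k / d * t := by
      rw [div_mul_eq_mul_div, le_div_iff₀ hd]
      nlinarith
    have h2 : u ^ p ≤ (k / d) ^ p * t ^ p := by
      rw [← Real.mul_rpow (by positivity) ht0.le]
      exact Real.rpow_le_rpow hu0.le h1 (by linarith)
    have h3 : (1 : ℝ) ≤ (t / d) ^ (s - p - 1) :=
      Real.one_le_rpow ((one_le_div hd).mpr htd) (by linarith)
    have h4 : (k ^ (-(s - p - 1)) * (k / d) ^ (s - 1)) * t ^ s =
        ((k / d) ^ p * t ^ p) * t * (t / d) ^ (s - p - 1) := by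
      rw [Real.div_rpow hk0.le hd.le, Real.div_rpow hk0.le hd.le, Real.div_rpow ht0.le hd.le]
      have e1 : k ^ (-(s - p - 1)) * k ^ (s - 1) = k ^ p := by
        rw [← Real.rpow_add hk0]; congr 1; ring
      have e2 : t ^ p * t * t ^ (s - p - 1) = t ^ s := by
        nth_rewrite 2 [← Real.rpow_one t]
        rw [← Real.rpow_add ht0, ← Real.rpow_add ht0]; congr 1; ring
      have e3 : d ^ p * d ^ (s - p - 1) = d ^ (s - 1) := by
        rw [← Real.rpow_add hd]; congr 1; ring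
      have hdp : 0 < d ^ p := Real.rpow_pos_of_pos hd _
      have hds : 0 < d ^ (s - p - 1) := Real.rpow_pos_of_pos hd _
      rw [← e3, ← e2]
      field_simp
      rw [← e1]
    rw [h4]
    have h5 : 0 ≤ (k / d) ^ p * t ^ p := by positivity
    have h6 : u - l' ≤ t := by linarith
    calc u ^ p * (u - l') ≤ ((k / d) ^ p * t ^ p) * t :=
          mul_le_mul h2 h6 (by linarith) h5
      _ = ((k / d) ^ p * t ^ p) * t * 1 := by ring
      _ ≤ _ := by gcongr

variable {α : Type*} [MeasurableSpace α]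

namespace Dir

variable {ν : Measure α} {H : Type*} [NormedAddCommGroup H] [InnerProductSpace ℝ H]
  (D : Dir ν H)

/-- Positive solutions of the Lane-Emden equation `U = G (U ^ p)`. -/
def Pos (p : ℝ) (U : H) : Prop :=
  (∀ᵐ x ∂ν, 0 ≤ D.emb U x) ∧ D.Sol U (fun x => (D.emb U x) ^ p)

/-- The smallness condition of the iteration. -/
noncomputable def cond (B A : ℝ) : ℝ := (D.C ^ 2 * B) ^ (D.s / 2) * A ^ (D.s / 2 - 1) * D.Q

lemma cond_mono {B A A' : ℝ} (hB : 0 ≤ B) (hA : 0 ≤ A) (h : A ≤ A') : D.cond B A ≤ D.cond B A' := by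
  unfold cond
  have h1 := D.Q_pos
  have h2 := D.hC
  have h3 := D.hs
  have h4 : A ^ (D.s / 2 - 1) ≤ A' ^ (D.s / 2 - 1) := Real.rpow_le_rpow hA h (by linarith)
  have h5 : 0 ≤ (D.C ^ 2 * B) ^ (D.s / 2) := Real.rpow_nonneg (by positivity) _
  gcongr

lemma cond_tendsto_B {B : ℝ → ℝ} {l : Filter ℝ} (hB : Tendsto B l (𝓝 0)) (A : ℝ) :
    Tendsto (fun k => D.cond (B k) A) l (𝓝 0) := by
  have hs := D.hs
  unfold cond
  have h1 : Tendsto (fun k => D.C ^ 2 * B k) l (𝓝 0) := by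
    simpa using hB.const_mul (D.C ^ 2)
  have h2 : Tendsto (fun k => (D.C ^ 2 * B k) ^ (D.s / 2)) l (𝓝 0) := by
    have := h1.rpow_const (p := D.s / 2) (Or.inr (by linarith))
    rwa [Real.zero_rpow (by linarith)] at this
  simpa using (h2.mul_const (A ^ (D.s / 2 - 1))).mul_const D.Q

lemma cond_tendsto_A {A : ℝ → ℝ} {l : Filter ℝ} (hA : Tendsto A l (𝓝 0)) (B : ℝ) :
    Tendsto (fun k => D.cond B (A k)) l (𝓝 0) := by
  have hs := D.hs
  unfold cond
  have h2 : Tendsto (fun k => (A k) ^ (D.s / 2 - 1)) l (𝓝 0) := by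
    have := hA.rpow_const (p := D.s / 2 - 1) (Or.inr (by linarith))
    rwa [Real.zero_rpow (by linarith)] at this
  simpa using (h2.const_mul ((D.C ^ 2 * B) ^ (D.s / 2))).mul_const D.Q

section Finite

variable [IsFiniteMeasure ν]

lemma sup_of_bdd {X : H} {f : α → ℝ} {M A k : ℝ} (hf : Bdd ν f M) (hM : 0 ≤ M) (hX : D.Sol X f)
    (hk : 0 < k) (hA : D.lev X 0 ≤ A) (hcond : D.cond (M * k ^ (-(D.s - 1))) A ≤ 1) :
    ∀ᵐ x ∂ν, D.emb X x ≤ k := by
  have hs := D.hs
  have hB : 0 ≤ M * k ^ (-(D.s - 1)) := mul_nonneg hM (Real.rpow_nonneg hk.le _)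
  refine D.dg hk hB ?_ ((D.cond_mono hB (D.lev_nonneg _ _) hA).trans hcond)
  intro l l' hl hll hlk Y hY
  have hd : 0 < l' - l := by linarith
  have h1 : M * k ^ (-(D.s - 1)) * (k / (l' - l)) ^ (D.s - 1) = M * (1 / (l' - l)) ^ (D.s - 1) := by
    rw [Real.div_rpow hk.le hd.le, Real.div_rpow zero_le_one hd.le, Real.one_rpow,
      Real.rpow_neg hk.le]
    have : 0 < k ^ (D.s - 1) := Real.rpow_pos_of_pos hk _
    field_simp
  rw [h1, hX Y]
  unfold lev
  rw [← integral_const_mul]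
  refine integral_mono_ae (hf.integrable_mul D Y) ((D.lev_integrable X hl).const_mul _) ?_
  filter_upwards [hf.2, hY] with x h2 h3
  rw [h3]
  have h4 := level_pointwise (u := D.emb X x) hs hll
  have h5 : f x ≤ M := (le_abs_self _).trans h2
  have h6 : 0 ≤ max (D.emb X x - l') 0 := le_max_right _ _
  calc f x * max (D.emb X x - l') 0 ≤ M * max (D.emb X x - l') 0 := by gcongr
    _ ≤ M * ((1 / (l' - l)) ^ (D.s - 1) * (max (D.emb X x - l) 0) ^ D.s) := by gcongr
    _ = _ := by ring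

/-- The torsion function is bounded. -/
lemma exists_tau [CompleteSpace H] : ∃ τ : ℝ, 0 < τ ∧ ∀ (X : H) (f : α → ℝ) (M : ℝ), 0 ≤ M →
    Bdd ν f M → D.Sol X f → ∀ᵐ x ∂ν, |D.emb X x| ≤ M * τ := by
  have hs := D.hs
  have h1 : Bdd ν (fun _ : α => (1 : ℝ)) 1 := by
    have := Bdd.const (ν := ν) (1 : ℝ)
    rwa [abs_one] at this
  obtain ⟨X₁, hX₁⟩ := D.exists_sol h1.memLp
  have h2 : Tendsto (fun k : ℝ => (1 : ℝ) * k ^ (-(D.s - 1))) atTop (𝓝 0) := by
    simpa using tendsto_rpow_neg_atTop (y := D.s - 1) (by linarith)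
  have h3 := (D.cond_tendsto_B h2 (D.lev X₁ 0)).eventually (ge_mem_nhds (zero_lt_one (α := ℝ)))
  obtain ⟨k, hk1, hk2⟩ := (h3.and (eventually_gt_atTop (0 : ℝ))).exists
  have h4 := D.sup_of_bdd h1 zero_le_one hX₁ hk2 le_rfl hk1
  have h5 : ∀ (X : H) (f : α → ℝ) (M : ℝ), 0 ≤ M →
      Bdd ν f M → D.Sol X f → ∀ᵐ x ∂ν, D.emb X x ≤ M * k := by
    intro X f M hM hf hX
    have h6 : D.Sol (M • X₁) (fun _ => M * 1) := Sol.const_smul D M hX₁
    have h7 := D.sol_mono hf (h1.const_mul M) hX h6 (by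
      filter_upwards [hf.2] with x hx
      rw [mul_one]
      exact (le_abs_self _).trans hx)
    filter_upwards [h7, D.emb_smul M X₁, h4] with x h8 h9 h10
    rw [h9] at h8
    exact h8.trans (by gcongr)
  refine ⟨k, hk2, fun X f M hM hf hX => ?_⟩
  have h8 : Bdd ν (fun x => -f x) M := ⟨hf.1.neg, by simpa using hf.2⟩
  filter_upwards [h5 X f M hM hf hX, h5 (-X) _ M hM h8 (Sol.neg D hX), D.emb_neg X] with x h6 h7 h9
  rw [h9] at h7
  exact abs_le.mpr ⟨by linarith, h6⟩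

/-- Potentials of bounded functions with small norm are uniformly small. -/
lemma exists_small {M η : ℝ} (hM : 0 ≤ M) (hη : 0 < η) : ∃ δ : ℝ, 0 < δ ∧ ∀ (X : H) (f : α → ℝ),
    Bdd ν f M → D.Sol X f → ‖X‖ ≤ δ → ∀ᵐ x ∂ν, |D.emb X x| ≤ η := by
  have hs := D.hs
  have hC := D.hC
  have h1 : Tendsto (fun δ : ℝ => (D.C * δ) ^ D.s) (𝓝[>] 0) (𝓝 0) := by
    have h2 : Tendsto (fun δ : ℝ => D.C * δ) (𝓝[>] 0) (𝓝 0) := by
      have : Tendsto (fun δ : ℝ => D.C * δ) (𝓝 0) (𝓝 0) := by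
        have := (continuous_const.mul continuous_id).tendsto (0 : ℝ) (f := fun δ : ℝ => D.C * δ)
        simpa using this
      exact this.mono_left nhdsWithin_le_nhds
    have := h2.rpow_const (p := D.s) (Or.inr (by linarith))
    rwa [Real.zero_rpow (by linarith)] at this
  have h3 := (D.cond_tendsto_A h1 (M * η ^ (-(D.s - 1)))).eventually
    (ge_mem_nhds (zero_lt_one (α := ℝ)))
  obtain ⟨δ, hδ1, hδ2⟩ := (h3.and (self_mem_nhdsWithin (s := Set.Ioi (0 : ℝ)))).exists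
  have hδ0 : 0 < δ := hδ2
  have h5 : ∀ (X : H) (f : α → ℝ), Bdd ν f M → D.Sol X f → ‖X‖ ≤ δ →
      ∀ᵐ x ∂ν, D.emb X x ≤ η := by
    intro X f hf hX hXδ
    refine D.sup_of_bdd hf hM hX hη ((D.lev_zero_le X).trans ?_) hδ1
    exact Real.rpow_le_rpow (by positivity) (by gcongr) (by linarith)
  refine ⟨δ, hδ0, fun X f hf hX hXδ => ?_⟩
  have h8 : Bdd ν (fun x => -f x) M := ⟨hf.1.neg, by simpa using hf.2⟩
  filter_upwards [h5 X f hf hX hXδ, h5 (-X) _ h8 (Sol.neg D hX) (by rwa [norm_neg]),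
    D.emb_neg X] with x h6 h7 h9
  rw [h9] at h7
  exact abs_le.mpr ⟨by linarith, h6⟩

/-- Uniform bound for positive solutions. -/
lemma exists_bound {p : ℝ} (hp : 1 < p) (hps : p + 1 < D.s) (R : ℝ) : ∃ M : ℝ, 0 < M ∧
    ∀ U : H, D.Pos p U → ‖U‖ ≤ R → ∀ᵐ x ∂ν, D.emb U x ≤ M := by
  have hs := D.hs
  have hC := D.hC
  have h2 : Tendsto (fun k : ℝ => k ^ (-(D.s - p - 1))) atTop (𝓝 0) :=
    tendsto_rpow_neg_atTop (y := D.s - p - 1) (by linarith)
  have h3 := (D.cond_tendsto_B h2 ((D.C * R) ^ D.s)).eventually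
    (ge_mem_nhds (zero_lt_one (α := ℝ)))
  obtain ⟨k, hk1, hk2⟩ := (h3.and (eventually_gt_atTop (0 : ℝ))).exists
  refine ⟨k, hk2, fun U hU hUR => ?_⟩
  have hB : 0 ≤ k ^ (-(D.s - p - 1)) := Real.rpow_nonneg hk2.le _
  have hA : D.lev U 0 ≤ (D.C * R) ^ D.s :=
    (D.lev_zero_le U).trans (Real.rpow_le_rpow (by positivity) (by gcongr) (by linarith))
  refine D.dg hk2 hB ?_ ((D.cond_mono hB (D.lev_nonneg _ _) hA).trans hk1)
  intro l l' hl hll hlk Y hY
  rw [hU.2 Y]
  unfold lev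
  rw [← integral_const_mul]
  refine integral_mono_of_nonneg ?_ ((D.lev_integrable U hl).const_mul _) ?_
  · filter_upwards [hU.1, hY] with x h4 h5
    rw [h5]
    exact mul_nonneg (Real.rpow_nonneg h4 _) (le_max_right _ _)
  · filter_upwards [hY] with x h5
    rw [h5]
    exact level_pointwise_pow hp hps hl hll hlk

lemma Pos.bdd {p M : ℝ} (hp : 0 ≤ p) {U : H} (hU : D.Pos p U)
    (hM : ∀ᵐ x ∂ν, D.emb U x ≤ M) : Bdd ν (fun x => (D.emb U x) ^ p) (M ^ p) := by
  refine ⟨?_, ?_⟩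
  · exact ((D.aesm_emb U).aemeasurable.pow_const p).aestronglyMeasurable
  · filter_upwards [hU.1, hM] with x h1 h2
    rw [abs_of_nonneg (Real.rpow_nonneg h1 _)]
    exact Real.rpow_le_rpow h1 h2 hp

end Finite

end Dir

end Pool.Agent.MP_5de7bf_an
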