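import Pool.Agent.Lib.MP_5de7bf_an.Dir3

/-!
# Abstract Dirichlet spaces: the key estimate, ratios, compactness
-/

set_option autoImplicit false
set_option linter.unusedSectionVars false

namespace Pool.Agent.MP_5de7bf_an

open Filter Topology MeasureTheory

variable {α : Type*} [MeasurableSpace α]

namespace Dir

variable {ν : Measure α} {H : Type*} [NormedAddCommGroup H] [InnerProductSpace ℝ H]
  (D : Dir ν H)

/-- `τ` bounds the torsion function. -/
def Tau (τ : ℝ) : Prop := 0 < τ ∧ ∀ (X : H) (f : α → ℝ) (M : ℝ), 0 ≤ M →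
    Bdd ν f M → D.Sol X f → ∀ᵐ x ∂ν, |D.emb X x| ≤ M * τ

/-- `U ^ p` cut off above the level `ε`. -/
noncomputable def cut (p : ℝ) (U : H) (ε : ℝ) (x : α) : ℝ :=
  if D.emb U x ≤ ε then (D.emb U x) ^ p else 0

section Finite

variable [IsFiniteMeasure ν]

lemma cut_bdd {p : ℝ} (hp : 0 ≤ p) {U : H} (hU : D.Pos p U) {ε : ℝ} (hε : 0 ≤ ε) :
    Bdd ν (D.cut p U ε) (ε ^ p) := by
  refine ⟨?_, ?_⟩
  · have h1 : Measurable (fun t : ℝ => if t ≤ ε then t ^ p else 0) :=
      Measurable.ite measurableSet_Iic (measurable_id.pow_const p) measurable_const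
    exact (h1.comp_aemeasurable (D.aesm_emb U).aemeasurable).aestronglyMeasurable
  · filter_upwards [hU.1] with x h1
    unfold cut
    split_ifs with h
    · rw [abs_of_nonneg (Real.rpow_nonneg h1 _)]
      exact Real.rpow_le_rpow h1 h hp
    · rw [abs_zero]
      exact Real.rpow_nonneg hε _

lemma cut_nonneg {p : ℝ} {U : H} (hU : D.Pos p U) (ε : ℝ) : ∀ᵐ x ∂ν, 0 ≤ D.cut p U ε x := by
  filter_upwards [hU.1] with x h1
  unfold cut
  split_ifs with h
  · exact Real.rpow_nonneg h1 _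
  · exact le_rfl

lemma Pos.super {p : ℝ} {U : H} (hU : D.Pos p U) : D.Super U :=
  Sol.super D hU.2 (by
    filter_upwards [hU.1] with x h1
    exact Real.rpow_nonneg h1 _)

/-- One dyadic step. -/
lemma key_step {p : ℝ} (hp : 1 < p) {τ : ℝ} (hτ : D.Tau τ) {U : H} (hU : D.Pos p U) {ε : ℝ}
    (hε : 0 < ε) {V V' : H} (hV : D.Sol V (D.cut p U ε)) (hV' : D.Sol V' (D.cut p U (ε / 2))) :
    ∀ᵐ x ∂ν, D.emb V x ≤ 2 * τ * ε ^ (p - 1) * D.emb U x + D.emb V' x := by
  have hτ0 := hτ.1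
  have hb1 := D.cut_bdd (by linarith : 0 ≤ p) hU hε.le
  have hb2 := D.cut_bdd (by linarith : 0 ≤ p) hU (by linarith : 0 ≤ ε / 2)
  have h1 := Sol.sub D hb1 hb2 hV hV'
  have hg : ∀ x, D.cut p U ε x - D.cut p U (ε / 2) x =
      if D.emb U x ≤ ε ∧ ε / 2 < D.emb U x then (D.emb U x) ^ p else 0 := by
    intro x
    unfold cut
    rcases le_or_gt (D.emb U x) (ε / 2) with h | h
    · have h' : D.emb U x ≤ ε := by linarith
      rw [if_pos h, if_pos h', if_neg (fun hh => absurd hh.2 (not_lt.mpr h)), sub_self]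
    · rw [if_neg (not_le.mpr h), sub_zero]
      by_cases h' : D.emb U x ≤ ε
      · rw [if_pos h', if_pos ⟨h', h⟩]
      · rw [if_neg h', if_neg (fun hh => h' hh.1)]
  have hbd : Bdd ν (fun x => D.cut p U ε x - D.cut p U (ε / 2) x) (ε ^ p) := by
    refine ⟨hb1.1.sub hb2.1, ?_⟩
    filter_upwards [hU.1] with x hx
    rw [hg]
    split_ifs with h
    · rw [abs_of_nonneg (Real.rpow_nonneg hx _)]
      exact Real.rpow_le_rpow hx h.1 (by linarith)
    · rw [abs_zero]
      positivity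
  have h2 := hτ.2 _ _ _ (by positivity) hbd h1
  have h3 := D.comparison (c := 2 * τ * ε ^ (p - 1)) (Pos.super D hU) (by positivity) h1 (by
    filter_upwards [h2] with x hx hpos
    rw [hg] at hpos
    split_ifs at hpos with h
    · refine (le_abs_self _).trans (hx.trans ?_)
      have h4 : ε ^ p = ε ^ (p - 1) * ε := by
        nth_rewrite 3 [← Real.rpow_one ε]
        rw [← Real.rpow_add hε]
        congr 1
        ring
      rw [h4]
      have h5 : 0 < ε ^ (p - 1) := Real.rpow_pos_of_pos hε _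
      have h6 : ε ≤ 2 * D.emb U x := by linarith [h.2]
      calc ε ^ (p - 1) * ε * τ ≤ ε ^ (p - 1) * (2 * D.emb U x) * τ := by gcongr
        _ = _ := by ring
    · exact absurd hpos (lt_irrefl _))
  filter_upwards [h3, D.emb_sub V V'] with x h4 h5
  rw [h5] at h4
  linarith

/-- The constant of the key estimate. -/
noncomputable def KK (p τ : ℝ) : ℝ := 2 * τ / (1 - (1 / 2) ^ (p - 1))

lemma half_pow_lt {p : ℝ} (hp : 1 < p) : ((1 : ℝ) / 2) ^ (p - 1) < 1 :=
  Real.rpow_lt_one (by norm_num) (by norm_num) (by linarith)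

lemma KK_pos {p τ : ℝ} (hp : 1 < p) (hτ : 0 < τ) : 0 < KK p τ := by
  have := half_pow_lt hp
  unfold KK
  exact div_pos (by linarith) (by linarith)

/-- The key estimate: the part of `U ^ p` below the level `ε` has a potential which is at most
`K ε ^ (p - 1)` times `U`. -/
lemma key [CompleteSpace H] {p : ℝ} (hp : 1 < p) {τ : ℝ} (hτ : D.Tau τ) {U : H}
    (hU : D.Pos p U) {ε : ℝ}
    (hε : 0 < ε) {V : H} (hV : D.Sol V (D.cut p U ε)) :
    ∀ᵐ x ∂ν, D.emb V x ≤ KK p τ * ε ^ (p - 1) * D.emb U x := by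
  have hτ0 := hτ.1
  have hhalf := half_pow_lt hp
  have hK := KK_pos hp hτ0
  have hKid : 2 * τ = KK p τ * (1 - (1 / 2) ^ (p - 1)) := by
    unfold KK
    have : 1 - ((1 : ℝ) / 2) ^ (p - 1) ≠ 0 := by linarith
    field_simp
  have main : ∀ N : ℕ, ∀ ε : ℝ, 0 < ε → ∀ V V' : H, D.Sol V (D.cut p U ε) →
      D.Sol V' (D.cut p U (ε / 2 ^ N)) → ∀ᵐ x ∂ν,
        D.emb V x ≤ KK p τ * (ε ^ (p - 1) - (ε / 2 ^ N) ^ (p - 1)) * D.emb U x + D.emb V' x := by
    intro N
    induction N with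
    | zero =>
      intro ε hε V V' hV hV'
      rw [pow_zero, div_one] at hV' ⊢
      have := D.sol_unique hV hV'
      subst this
      exact Eventually.of_forall fun x => by simp
    | succ N ih =>
      intro ε hε V V' hV hV'
      obtain ⟨W, hW⟩ := D.exists_sol (D.cut_bdd (by linarith : 0 ≤ p) hU
        (by linarith : 0 ≤ ε / 2)).memLp
      have h1 := D.key_step hp hτ hU hε hV hW
      have h2 : ε / 2 / 2 ^ N = ε / 2 ^ (N + 1) := by
        rw [div_div, pow_succ']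
      have h3 := ih (ε / 2) (by linarith) W V' hW (by rwa [h2])
      rw [h2] at h3
      filter_upwards [h1, h3] with x h4 h5
      have h6 : (ε / 2) ^ (p - 1) = (1 / 2) ^ (p - 1) * ε ^ (p - 1) := by
        rw [← Real.mul_rpow (by norm_num) hε.le]
        congr 1
        ring
      rw [h6] at h5
      calc D.emb V x ≤ 2 * τ * ε ^ (p - 1) * D.emb U x + D.emb W x := h4
        _ ≤ 2 * τ * ε ^ (p - 1) * D.emb U x + (KK p τ * ((1 / 2) ^ (p - 1) * ε ^ (p - 1) -
            (ε / 2 ^ (N + 1)) ^ (p - 1)) * D.emb U x + D.emb V' x) := by gcongr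
        _ = _ := by
          rw [hKid]
          ring
  have h1 : ∀ N : ℕ, ∀ᵐ x ∂ν, D.emb V x ≤ KK p τ * ε ^ (p - 1) * D.emb U x +
      (ε / 2 ^ N) ^ p * τ := by
    intro N
    have hεN : 0 < ε / 2 ^ N := by positivity
    have hb := D.cut_bdd (by linarith : 0 ≤ p) hU hεN.le
    obtain ⟨W, hW⟩ := D.exists_sol hb.memLp
    have h2 := hτ.2 W _ _ (by positivity) hb hW
    filter_upwards [main N ε hε V W hV hW, h2, hU.1] with x h3 h4 h5
    refine h3.trans ?_
    have h6 : 0 < (ε / 2 ^ N) ^ (p - 1) := Real.rpow_pos_of_pos hεN _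
    have h7 : D.emb W x ≤ (ε / 2 ^ N) ^ p * τ := (le_abs_self _).trans h4
    have h8 : KK p τ * (ε ^ (p - 1) - (ε / 2 ^ N) ^ (p - 1)) * D.emb U x ≤
        KK p τ * ε ^ (p - 1) * D.emb U x := by
      have : 0 ≤ KK p τ * (ε / 2 ^ N) ^ (p - 1) * D.emb U x := by positivity
      linarith
    linarith
  filter_upwards [ae_all_iff.mpr h1] with x hx
  have h2 : Tendsto (fun N : ℕ => KK p τ * ε ^ (p - 1) * D.emb U x + (ε / 2 ^ N) ^ p * τ) atTop
      (𝓝 (KK p τ * ε ^ (p - 1) * D.emb U x + 0 * τ)) := by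
    refine Tendsto.const_add _ (Tendsto.mul_const _ ?_)
    have h3 : Tendsto (fun N : ℕ => ε / 2 ^ N) atTop (𝓝 0) := by
      have := (tendsto_pow_atTop_nhds_zero_of_lt_one (r := (1 / 2 : ℝ)) (by norm_num)
        (by norm_num)).const_mul ε
      rw [mul_zero] at this
      refine this.congr (fun N => ?_)
      rw [one_div_pow]
      ring
    have := h3.rpow_const (p := p) (Or.inr (by linarith))
    rwa [Real.zero_rpow (by linarith)] at this
  rw [zero_mul, add_zero] at h2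
  exact ge_of_tendsto' h2 hx

/-- Comparison of two close positive solutions. -/
lemma ratio [CompleteSpace H] {p : ℝ} (hp : 1 < p) {τ : ℝ} (hτ : D.Tau τ) {U W : H}
    (hU : D.Pos p U) (hW : D.Pos p W) {M : ℝ} (hUM : ∀ᵐ x ∂ν, D.emb U x ≤ M)
    (hWM : ∀ᵐ x ∂ν, D.emb W x ≤ M) {ε δ : ℝ} (hε : 0 < ε) (hδ0 : 0 ≤ δ) (hδ : δ ≤ ε)
    (hUW : ∀ᵐ x ∂ν, |D.emb U x - D.emb W x| ≤ δ) :
    ∀ᵐ x ∂ν, (1 - KK p τ * (2 * ε) ^ (p - 1)) * D.emb U x ≤ (1 + δ / ε) ^ p * D.emb W x := by
  have hp0 : 0 ≤ p := by linarith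
  have hbU := Pos.bdd D hp0 hU hUM
  have hbW := Pos.bdd D hp0 hW hWM
  have hbc := D.cut_bdd hp0 hU (by linarith : 0 ≤ 2 * ε)
  obtain ⟨V2, hV2⟩ := D.exists_sol hbc.memLp
  have h1 := Sol.sub D hbU hbc hU.2 hV2
  have h2 := Sol.const_smul D ((1 + δ / ε) ^ p) hW.2
  have h3 := D.sol_mono (hbU.sub hbc) (hbW.const_mul _) h1 h2 (by
    filter_upwards [hU.1, hW.1, hUW] with x h4 h5 h6
    unfold cut
    split_ifs with h
    · rw [sub_self]
      have : 0 ≤ (1 + δ / ε) ^ p := Real.rpow_nonneg (by positivity) _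
      exact mul_nonneg this (Real.rpow_nonneg h5 _)
    · rw [sub_zero]
      push Not at h
      have h7 := (abs_le.mp h6).2
      have h8 : ε ≤ D.emb W x := by linarith
      have h9 : D.emb U x ≤ (1 + δ / ε) * D.emb W x := by
        have h10 : δ ≤ δ / ε * D.emb W x := by
          rw [div_mul_eq_mul_div, le_div_iff₀ hε]
          gcongr
        linarith
      rw [← Real.mul_rpow (by positivity) h5]
      exact Real.rpow_le_rpow h4 h9 hp0)
  have h4 := D.key hp hτ hU (by linarith : 0 < 2 * ε) hV2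
  filter_upwards [h3, h4, D.emb_sub U V2, D.emb_smul ((1 + δ / ε) ^ p) W] with x h5 h6 h7 h8
  rw [h7, h8] at h5
  linarith

end Finite

end Dir

end Pool.Agent.MP_5de7bf_an
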