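import Pool.Agent.Lib.MP_5de7bf_an.Dir4

/-!
# Abstract Dirichlet spaces: compactness of the set of positive solutions
-/

set_option autoImplicit false
set_option linter.unusedSectionVars false

namespace Pool.Agent.MP_5de7bf_an

open Filter Topology MeasureTheory

lemma pow_lipschitz {p M x y : ℝ} (hp : 1 ≤ p) (hx : 0 ≤ x) (hxM : x ≤ M) (hy : 0 ≤ y)
    (hyM : y ≤ M) : |x ^ p - y ^ p| ≤ p * M ^ (p - 1) * |x - y| := by
  have h1 : ∀ t ∈ Set.Icc (0 : ℝ) M, HasDerivWithinAt (fun t : ℝ => t ^ p) (p * t ^ (p - 1))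
      (Set.Icc 0 M) t := fun t _ =>
    (Real.hasDerivAt_rpow_const (Or.inr hp)).hasDerivWithinAt
  have h2 : ∀ t ∈ Set.Icc (0 : ℝ) M, ‖p * t ^ (p - 1)‖ ≤ p * M ^ (p - 1) := by
    intro t ht
    rw [Real.norm_of_nonneg (mul_nonneg (by linarith) (Real.rpow_nonneg ht.1 _))]
    have := Real.rpow_le_rpow ht.1 ht.2 (by linarith : 0 ≤ p - 1)
    gcongr
  have h3 := (convex_Icc (0 : ℝ) M).norm_image_sub_le_of_norm_hasDerivWithin_le h1 h2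
    ⟨hy, hyM⟩ ⟨hx, hxM⟩
  simpa [Real.norm_eq_abs] using h3

variable {α : Type*} [MeasurableSpace α]

lemma integral_abs_mul_le {ν : Measure α} (a b : Lp ℝ 2 ν) :
    ∫ x, |a x| * |b x| ∂ν ≤ ‖a‖ * ‖b‖ := by
  have h1 := real_inner_le_norm (|a|) (|b|)
  rw [norm_abs_eq_norm, norm_abs_eq_norm, L2.inner_def] at h1
  refine le_trans (le_of_eq ?_) h1
  refine integral_congr_ae ?_
  filter_upwards [Lp.coeFn_abs a, Lp.coeFn_abs b] with x h2 h3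
  rw [h2, h3]
  simp [mul_comm]

namespace Dir

variable {ν : Measure α} {H : Type*} [NormedAddCommGroup H] [InnerProductSpace ℝ H]
  (D : Dir ν H)

section Finite

variable [IsFiniteMeasure ν]

lemma norm_sub_le_of_pos {p M : ℝ} (hp : 1 ≤ p) {U X : H} (hU : D.Pos p U)
    (hUM : ∀ᵐ x ∂ν, D.emb U x ≤ M) (w : Lp ℝ 2 ν) (hw0 : ∀ᵐ x ∂ν, 0 ≤ w x)
    (hwM : ∀ᵐ x ∂ν, w x ≤ M) (hX : D.Sol X (fun x => (w x) ^ p)) :
    ‖U - X‖ ≤ p * M ^ (p - 1) * ‖D.emb‖ * ‖D.emb U - w‖ := by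
  rcases eq_or_ne ν 0 with h0 | h0
  · have h1 : ∀ Y : H, inner ℝ (U - X) Y = 0 := by
      intro Y
      rw [inner_sub_left, hU.2 Y, hX Y]
      subst h0
      simp
    have h2 : U - X = 0 := by
      have := h1 (U - X)
      rwa [inner_self_eq_zero] at this
    have h3 : D.emb U - w = 0 := by
      apply Lp.ext
      subst h0
      simp [Filter.EventuallyEq]
    rw [h2, h3]
    simp
  have hM : 0 ≤ M := by
    have : NeBot (ae ν) := ae_neBot.mpr h0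
    obtain ⟨x, hx1, hx2⟩ := (hw0.and hwM).exists
    exact hx1.trans hx2
  have hp0 : 0 ≤ p := by linarith
  have hbU := Pos.bdd D hp0 hU hUM
  have hbw : Bdd ν (fun x => (w x) ^ p) (M ^ p) := by
    refine ⟨((Lp.aestronglyMeasurable w).aemeasurable.pow_const p).aestronglyMeasurable, ?_⟩
    filter_upwards [hw0, hwM] with x h1 h2
    rw [abs_of_nonneg (Real.rpow_nonneg h1 _)]
    exact Real.rpow_le_rpow h1 h2 hp0
  set Z := U - X with hZ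
  have hsol : D.Sol Z _ := Sol.sub D hbU hbw hU.2 hX
  have h1 : ‖Z‖ ^ 2 ≤ p * M ^ (p - 1) * (‖D.emb U - w‖ * ‖D.emb Z‖) := by
    rw [← real_inner_self_eq_norm_sq, hsol Z]
    have h2 := integral_abs_mul_le (D.emb U - w) (D.emb Z)
    have hL : 0 ≤ p * M ^ (p - 1) := mul_nonneg hp0 (Real.rpow_nonneg hM _)
    refine le_trans ?_ (mul_le_mul_of_nonneg_left h2 hL)
    rw [← integral_const_mul]
    have hint : Integrable (fun x => |(D.emb U - w) x| * |D.emb Z x|) ν := by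
      have h3 := L2.integrable_inner (𝕜 := ℝ) (|D.emb U - w|) (|D.emb Z|)
      refine h3.congr ?_
      filter_upwards [Lp.coeFn_abs (D.emb U - w), Lp.coeFn_abs (D.emb Z)] with x h4 h5
      rw [h4, h5]
      simp [mul_comm]
    refine integral_mono_ae ((hbU.sub hbw).integrable_mul D Z) (hint.const_mul _) ?_
    filter_upwards [hU.1, hUM, hw0, hwM, Lp.coeFn_sub (D.emb U) w] with x h3 h4 h5 h6 h7
    rw [h7]
    simp only [Pi.sub_apply]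
    have h8 := pow_lipschitz hp h3 h4 h5 h6
    calc ((D.emb U x) ^ p - (w x) ^ p) * D.emb Z x
        ≤ |(D.emb U x) ^ p - (w x) ^ p| * |D.emb Z x| := by
          rw [← abs_mul]; exact le_abs_self _
      _ ≤ (p * M ^ (p - 1) * |D.emb U x - w x|) * |D.emb Z x| := by gcongr
      _ = _ := by ring
  rcases eq_or_ne Z 0 with h2 | h2
  · rw [h2, norm_zero]
    have : 0 ≤ M ^ (p - 1) := Real.rpow_nonneg hM _
    positivity
  · have h3 : 0 < ‖Z‖ := norm_pos_iff.mpr h2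
    have h4 : ‖D.emb Z‖ ≤ ‖D.emb‖ * ‖Z‖ := D.emb.le_opNorm Z
    have hL : 0 ≤ p * M ^ (p - 1) := mul_nonneg hp0 (Real.rpow_nonneg hM _)
    have h5 : ‖Z‖ * ‖Z‖ ≤ (p * M ^ (p - 1) * ‖D.emb‖ * ‖D.emb U - w‖) * ‖Z‖ := by
      calc ‖Z‖ * ‖Z‖ = ‖Z‖ ^ 2 := by ring
        _ ≤ p * M ^ (p - 1) * (‖D.emb U - w‖ * ‖D.emb Z‖) := h1
        _ ≤ p * M ^ (p - 1) * (‖D.emb U - w‖ * (‖D.emb‖ * ‖Z‖)) := by gcongr
        _ = _ := by ring
    exact le_of_mul_le_mul_right h5 h3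

/-- Compactness of bounded sets of positive solutions. -/
lemma extract [CompleteSpace H] {p : ℝ} (hp : 1 < p) (hps : p + 1 < D.s) {R : ℝ} {U : ℕ → H}
    (hU : ∀ n, D.Pos p (U n)) (hR : ∀ n, ‖U n‖ ≤ R) :
    ∃ U₀ : H, D.Pos p U₀ ∧ ∃ φ : ℕ → ℕ, StrictMono φ ∧
      Tendsto (fun n => U (φ n)) atTop (𝓝 U₀) := by
  have hp0 : 0 ≤ p := by linarith
  obtain ⟨M, hM0, hM⟩ := D.exists_bound hp hps R
  have hcomp := D.compact.isCompact_closure_image_closedBall (𝕜₁ := ℝ) R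
  have hmem : ∀ n, D.emb (U n) ∈ closure (D.emb '' Metric.closedBall 0 R) := fun n =>
    subset_closure ⟨U n, by simpa using hR n, rfl⟩
  obtain ⟨w, -, φ, hφ, hlim⟩ := hcomp.tendsto_subseq hmem
  obtain ⟨ψ, hψ, hae⟩ := (tendstoInMeasure_of_tendsto_Lp hlim).exists_seq_tendsto_ae
  have hbounds : ∀ᵐ x ∂ν, 0 ≤ w x ∧ w x ≤ M := by
    have h1 : ∀ᵐ x ∂ν, ∀ n, 0 ≤ D.emb (U n) x ∧ D.emb (U n) x ≤ M := by
      rw [ae_all_iff]
      intro n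
      filter_upwards [(hU n).1, hM _ (hU n) (hR n)] with x h2 h3
      exact ⟨h2, h3⟩
    filter_upwards [h1, hae] with x h2 h3
    exact ⟨ge_of_tendsto' h3 fun n => (h2 _).1, le_of_tendsto' h3 fun n => (h2 _).2⟩
  have hw0 : ∀ᵐ x ∂ν, 0 ≤ w x := hbounds.mono fun _ h => h.1
  have hwM : ∀ᵐ x ∂ν, w x ≤ M := hbounds.mono fun _ h => h.2
  have hbw : Bdd ν (fun x => (w x) ^ p) (M ^ p) := by
    refine ⟨((Lp.aestronglyMeasurable w).aemeasurable.pow_const p).aestronglyMeasurable, ?_⟩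
    filter_upwards [hw0, hwM] with x h1 h2
    rw [abs_of_nonneg (Real.rpow_nonneg h1 _)]
    exact Real.rpow_le_rpow h1 h2 hp0
  obtain ⟨X, hX⟩ := D.exists_sol hbw.memLp
  have hlim2 : Tendsto (fun n => U (φ n)) atTop (𝓝 X) := by
    rw [tendsto_iff_norm_sub_tendsto_zero]
    have h1 : Tendsto (fun n => p * M ^ (p - 1) * ‖D.emb‖ * ‖D.emb (U (φ n)) - w‖) atTop
        (𝓝 (p * M ^ (p - 1) * ‖D.emb‖ * 0)) :=
      (tendsto_iff_norm_sub_tendsto_zero.mp hlim).const_mul _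
    rw [mul_zero] at h1
    refine squeeze_zero (fun _ => norm_nonneg _) (fun n => ?_) h1
    exact D.norm_sub_le_of_pos hp.le (hU _) (hM _ (hU _) (hR _)) w hw0 hwM hX
  have hembX : D.emb X = w :=
    tendsto_nhds_unique ((D.emb.continuous.tendsto X).comp hlim2) hlim
  refine ⟨X, ⟨?_, ?_⟩, φ, hφ, hlim2⟩
  · rw [hembX]; exact hw0
  · rw [hembX]; exact hX

/-- Uniform convergence. -/
lemma sup_conv [CompleteSpace H] {p : ℝ} (hp : 1 < p) {M : ℝ} (hM : 0 ≤ M) {U : ℕ → H}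
    {U₀ : H} (hU : ∀ n, D.Pos p (U n)) (hU₀ : D.Pos p U₀)
    (hUM : ∀ n, ∀ᵐ x ∂ν, D.emb (U n) x ≤ M) (hU₀M : ∀ᵐ x ∂ν, D.emb U₀ x ≤ M)
    (hlim : Tendsto U atTop (𝓝 U₀)) {η : ℝ} (hη : 0 < η) :
    ∀ᶠ n in atTop, ∀ᵐ x ∂ν, |D.emb (U n) x - D.emb U₀ x| ≤ η := by
  have hp0 : 0 ≤ p := by linarith
  obtain ⟨δ, hδ, h⟩ := D.exists_small (M := M ^ p + M ^ p) (η := η) (by positivity) hη
  have h1 : ∀ᶠ n in atTop, ‖U n - U₀‖ ≤ δ := by
    have := (tendsto_iff_norm_sub_tendsto_zero.mp hlim).eventually (ge_mem_nhds hδ)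
    exact this
  filter_upwards [h1] with n hn
  have hb1 := Pos.bdd D hp0 (hU n) (hUM n)
  have hb2 := Pos.bdd D hp0 hU₀ hU₀M
  have h2 := h _ _ (hb1.sub hb2) (Sol.sub D hb1 hb2 (hU n).2 hU₀.2) hn
  filter_upwards [h2, D.emb_sub (U n) U₀] with x h3 h4
  rwa [h4] at h3

/-- Convergence of ratios. -/
lemma ratio_conv [CompleteSpace H] {p : ℝ} (hp : 1 < p) {M : ℝ} (hM : 0 ≤ M) {U : ℕ → H}
    {U₀ : H} (hU : ∀ n, D.Pos p (U n)) (hU₀ : D.Pos p U₀)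
    (hUM : ∀ n, ∀ᵐ x ∂ν, D.emb (U n) x ≤ M) (hU₀M : ∀ᵐ x ∂ν, D.emb U₀ x ≤ M)
    (hlim : Tendsto U atTop (𝓝 U₀)) {η : ℝ} (hη : 0 < η) :
    ∀ᶠ n in atTop, ∀ᵐ x ∂ν, D.emb (U n) x ≤ (1 + η) * D.emb U₀ x ∧
      D.emb U₀ x ≤ (1 + η) * D.emb (U n) x := by
  obtain ⟨τ, hτ0, hτ'⟩ := D.exists_tau
  have hτ : D.Tau τ := ⟨hτ0, hτ'⟩
  set η' := η / (2 + η) with hη'
  have hη'0 : 0 < η' := by positivity
  have hη'1 : η' < 1 := by
    rw [hη', div_lt_one (by positivity)]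
    linarith
  have hηη : 1 + η' ≤ (1 + η) * (1 - η') := by
    have : η' * (2 + η) = η := by
      rw [hη']; field_simp
    nlinarith
  obtain ⟨ε, hε1, hε0⟩ : ∃ ε : ℝ, KK p τ * (2 * ε) ^ (p - 1) ≤ η' ∧ 0 < ε := by
    have h1 : Tendsto (fun ε : ℝ => KK p τ * (2 * ε) ^ (p - 1)) (𝓝 0) (𝓝 0) := by
      have h2 : Tendsto (fun ε : ℝ => 2 * ε) (𝓝 0) (𝓝 0) := by
        have := (continuous_const.mul continuous_id).tendsto (0 : ℝ) (f := fun δ : ℝ => 2 * δ)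
        simpa using this
      have h3 := h2.rpow_const (p := p - 1) (Or.inr (by linarith))
      rw [Real.zero_rpow (by linarith)] at h3
      simpa using h3.const_mul (KK p τ)
    have h4 : ∀ᶠ ε : ℝ in 𝓝[>] 0, KK p τ * (2 * ε) ^ (p - 1) ≤ η' :=
      (h1.mono_left nhdsWithin_le_nhds).eventually (ge_mem_nhds hη'0)
    obtain ⟨ε, h5, h6⟩ := (h4.and (self_mem_nhdsWithin (s := Set.Ioi (0 : ℝ)))).exists
    exact ⟨ε, h5, h6⟩
  obtain ⟨δ, hδ1, hδε, hδ0⟩ : ∃ δ : ℝ, (1 + δ / ε) ^ p ≤ 1 + η' ∧ δ ≤ ε ∧ 0 < δ := by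
    have h1 : Tendsto (fun δ : ℝ => (1 + δ / ε) ^ p) (𝓝 0) (𝓝 1) := by
      have h2 : Tendsto (fun δ : ℝ => 1 + δ / ε) (𝓝 0) (𝓝 1) := by
        have : Continuous (fun δ : ℝ => 1 + δ / ε) := by fun_prop
        exact this.tendsto' _ _ (by simp)
      have h3 := h2.rpow_const (p := p) (Or.inl one_ne_zero)
      rwa [Real.one_rpow] at h3
    have h4 : ∀ᶠ δ : ℝ in 𝓝[>] 0, (1 + δ / ε) ^ p ≤ 1 + η' :=
      (h1.mono_left nhdsWithin_le_nhds).eventually (ge_mem_nhds (by linarith : 1 < 1 + η'))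
    have h5 : ∀ᶠ δ : ℝ in 𝓝[>] 0, δ ≤ ε := nhdsWithin_le_nhds (ge_mem_nhds hε0)
    obtain ⟨δ, h6, h7, h8⟩ := (h4.and (h5.and (self_mem_nhdsWithin (s := Set.Ioi (0 : ℝ))))).exists
    exact ⟨δ, h6, h7, h8⟩
  filter_upwards [D.sup_conv hp hM hU hU₀ hUM hU₀M hlim hδ0] with n hn
  have hn' : ∀ᵐ x ∂ν, |D.emb U₀ x - D.emb (U n) x| ≤ δ := by
    filter_upwards [hn] with x hx
    rwa [abs_sub_comm]
  have h1 := D.ratio hp hτ (hU n) hU₀ (hUM n) hU₀M hε0 hδ0.le hδε hn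
  have h2 := D.ratio hp hτ hU₀ (hU n) hU₀M (hUM n) hε0 hδ0.le hδε hn'
  have h3 : ∀ a b : ℝ, 0 ≤ a → 0 ≤ b →
      (1 - KK p τ * (2 * ε) ^ (p - 1)) * a ≤ (1 + δ / ε) ^ p * b → a ≤ (1 + η) * b := by
    intro a b ha hb hab
    have h4 : (1 - η') * a ≤ (1 + η') * b := by
      calc (1 - η') * a ≤ (1 - KK p τ * (2 * ε) ^ (p - 1)) * a := by gcongr
        _ ≤ (1 + δ / ε) ^ p * b := hab
        _ ≤ (1 + η') * b := by gcongr
    have h5 : (1 - η') * a ≤ (1 - η') * ((1 + η) * b) := by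
      calc (1 - η') * a ≤ (1 + η') * b := h4
        _ ≤ ((1 + η) * (1 - η')) * b := by gcongr
        _ = _ := by ring
    exact le_of_mul_le_mul_left h5 (by linarith)
  filter_upwards [h1, h2, (hU n).1, hU₀.1] with x h4 h5 h6 h7
  exact ⟨h3 _ _ h6 h7 h4, h3 _ _ h7 h6 h5⟩

end Finite

end Dir

end Pool.Agent.MP_5de7bf_an
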