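import Pool.Agent.Lib.MP_5de7bf_an.Dir5
import Pool.Agent.Lib.MP_5de7bf_an.Avg
import Pool.Agent.Lib.MP_5de7bf_an.Banach

/-!
# Abstract Dirichlet spaces: the linearized operator on bounded functions
-/

set_option autoImplicit false
set_option linter.unusedSectionVars false

namespace Pool.Agent.MP_5de7bf_an

open Filter Topology MeasureTheory
open scoped ENNReal

variable {α : Type*} [MeasurableSpace α]

namespace Dir

variable {ν : Measure α} {H : Type*} [NormedAddCommGroup H] [InnerProductSpace ℝ H]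
  (D : Dir ν H)

/-- The set where `U` is positive. -/
def pset (U : H) : Set α := {x | 0 < D.emb U x}

lemma measurableSet_pset (U : H) : MeasurableSet (D.pset U) :=
  measurableSet_lt measurable_const (Lp.stronglyMeasurable _).measurable

/-- The measure `ν` restricted to the positivity set. -/
noncomputable def pms (U : H) : Measure α := ν.restrict (D.pset U)

/-- The weight `U ^ p g`. -/
noncomputable def wt (p : ℝ) (U : H) (g : Linf (D.pms U)) : α → ℝ :=
  (D.pset U).indicator fun x => (D.emb U x) ^ p * g x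

section Finite

variable [IsFiniteMeasure ν]

instance (U : H) : IsFiniteMeasure (D.pms U) := by unfold pms; infer_instance

lemma ae_pms {U : H} {P : α → Prop} : (∀ᵐ x ∂(D.pms U), P x) ↔ ∀ᵐ x ∂ν, 0 < D.emb U x → P x := by
  unfold pms
  exact ae_restrict_iff' (D.measurableSet_pset U)

lemma wt_bdd {p M : ℝ} (hp : 0 ≤ p) {U : H} (hU : D.Pos p U) (hUM : ∀ᵐ x ∂ν, D.emb U x ≤ M)
    (g : Linf (D.pms U)) : Bdd ν (D.wt p U g) (M ^ p * ‖g‖) := by
  refine ⟨?_, ?_⟩
  · rw [wt, aestronglyMeasurable_indicator_iff (D.measurableSet_pset U)]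
    have h1 : AEStronglyMeasurable (fun x => (D.emb U x) ^ p) ν :=
      ((D.aesm_emb U).aemeasurable.pow_const p).aestronglyMeasurable
    exact h1.restrict.mul g.aesm
  · filter_upwards [hU.1, hUM, D.ae_pms.mp (Linf.ae_le_norm g)] with x h1 h2 h3
    unfold wt
    by_cases hx : x ∈ D.pset U
    · rw [Set.indicator_of_mem hx, abs_mul, abs_of_nonneg (Real.rpow_nonneg h1 _)]
      have h4 := h3 hx
      have h5 := Real.rpow_le_rpow h1 h2 hp
      have h6 : 0 ≤ M ^ p := Real.rpow_nonneg (h1.trans h2) _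
      gcongr
    · rw [Set.indicator_of_notMem hx, abs_zero]
      have hM : 0 ≤ M := h1.trans h2
      have := Real.rpow_nonneg hM p
      positivity

lemma wt_add (p : ℝ) (U : H) (f g : Linf (D.pms U)) :
    ∀ᵐ x ∂ν, D.wt p U (f + g) x = D.wt p U f x + D.wt p U g x := by
  filter_upwards [D.ae_pms.mp (Linf.coeFn_add f g)] with x h3
  unfold wt
  by_cases hx : x ∈ D.pset U
  · rw [Set.indicator_of_mem hx, Set.indicator_of_mem hx, Set.indicator_of_mem hx, h3 hx]
    ring
  · rw [Set.indicator_of_notMem hx, Set.indicator_of_notMem hx, Set.indicator_of_notMem hx,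
      add_zero]

lemma wt_smul (p : ℝ) (U : H) (c : ℝ) (g : Linf (D.pms U)) :
    ∀ᵐ x ∂ν, D.wt p U (c • g) x = c * D.wt p U g x := by
  filter_upwards [D.ae_pms.mp (Linf.coeFn_smul c g)] with x h3
  unfold wt
  by_cases hx : x ∈ D.pset U
  · rw [Set.indicator_of_mem hx, Set.indicator_of_mem hx, h3 hx]
    ring
  · rw [Set.indicator_of_notMem hx, Set.indicator_of_notMem hx, mul_zero]

variable [CompleteSpace H] {p M : ℝ} (hp : 0 ≤ p) {U : H} (hU : D.Pos p U)
  (hUM : ∀ᵐ x ∂ν, D.emb U x ≤ M)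

/-- The potential of `U ^ p g`. -/
noncomputable def pot (g : Linf (D.pms U)) : H :=
  Classical.choose (D.exists_sol (D.wt_bdd hp hU hUM g).memLp)

lemma pot_spec (g : Linf (D.pms U)) : D.Sol (D.pot hp hU hUM g) (D.wt p U g) :=
  Classical.choose_spec (D.exists_sol (D.wt_bdd hp hU hUM g).memLp)

lemma pot_add (f g : Linf (D.pms U)) :
    D.pot hp hU hUM (f + g) = D.pot hp hU hUM f + D.pot hp hU hUM g := by
  refine D.sol_unique (D.pot_spec hp hU hUM (f + g)) ?_
  refine Sol.congr D (Sol.add D (D.wt_bdd hp hU hUM f) (D.wt_bdd hp hU hUM g)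
    (D.pot_spec hp hU hUM f) (D.pot_spec hp hU hUM g)) ?_
  filter_upwards [D.wt_add p U f g] with x hx
  exact hx.symm

lemma pot_smul (c : ℝ) (g : Linf (D.pms U)) :
    D.pot hp hU hUM (c • g) = c • D.pot hp hU hUM g := by
  refine D.sol_unique (D.pot_spec hp hU hUM (c • g)) ?_
  refine Sol.congr D (Sol.const_smul D c (D.pot_spec hp hU hUM g)) ?_
  filter_upwards [D.wt_smul p U c g] with x hx
  exact hx.symm

/-- General bound: if `|wt g| ≤ c * F` with `F` having potential `V`, then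
`|pot g| ≤ c * V`. -/
lemma abs_pot_le {g : Linf (D.pms U)} {F : α → ℝ} {N c : ℝ} {V : H} (hF : Bdd ν F N)
    (hV : D.Sol V F) (h : ∀ᵐ x ∂ν, |D.wt p U g x| ≤ c * F x) :
    ∀ᵐ x ∂ν, |D.emb (D.pot hp hU hUM g) x| ≤ c * D.emb V x := by
  have h1 := D.sol_mono (D.wt_bdd hp hU hUM g) (hF.const_mul c) (D.pot_spec hp hU hUM g)
    (Sol.const_smul D c hV) (h.mono fun x hx => (le_abs_self _).trans hx)
  have h2 := D.sol_mono (hF.const_mul (-c)) (D.wt_bdd hp hU hUM g)
    (Sol.const_smul D (-c) hV) (D.pot_spec hp hU hUM g) (h.mono fun x hx => by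
      have := (neg_abs_le (D.wt p U g x))
      linarith)
  filter_upwards [h1, h2, D.emb_smul c V, D.emb_smul (-c) V] with x h3 h4 h5 h6
  rw [h5] at h3
  rw [h6] at h4
  rw [abs_le]
  exact ⟨by linarith, h3⟩

omit [CompleteSpace H] in
include hU in
lemma abs_wt_le (g : Linf (D.pms U)) : ∀ᵐ x ∂ν, |D.wt p U g x| ≤ ‖g‖ * (D.emb U x) ^ p := by
  filter_upwards [hU.1, D.ae_pms.mp (Linf.ae_le_norm g)] with x h1 h3
  unfold wt
  have h4 : 0 ≤ (D.emb U x) ^ p := Real.rpow_nonneg h1 _
  by_cases hx : x ∈ D.pset U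
  · rw [Set.indicator_of_mem hx, abs_mul, abs_of_nonneg h4, mul_comm]
    have := h3 hx
    gcongr
  · rw [Set.indicator_of_notMem hx, abs_zero]
    positivity

lemma abs_pot_le_norm (g : Linf (D.pms U)) :
    ∀ᵐ x ∂ν, |D.emb (D.pot hp hU hUM g) x| ≤ ‖g‖ * D.emb U x :=
  D.abs_pot_le hp hU hUM (Pos.bdd D hp hU hUM) hU.2 (D.abs_wt_le hU g)

lemma memLp_ratio (g : Linf (D.pms U)) :
    MemLp (fun x => D.emb (D.pot hp hU hUM g) x / D.emb U x) ∞ (D.pms U) := by
  refine memLp_top_of_bound ?_ ‖g‖ ?_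
  · have h1 : AEMeasurable (fun x => D.emb (D.pot hp hU hUM g) x / D.emb U x) ν :=
      (D.aesm_emb _).aemeasurable.div (D.aesm_emb _).aemeasurable
    exact h1.restrict.aestronglyMeasurable
  · rw [ae_pms]
    filter_upwards [D.abs_pot_le_norm hp hU hUM g] with x h1 h2
    rw [Real.norm_eq_abs, abs_div, abs_of_pos h2, div_le_iff₀ h2]
    exact h1

/-- The linearized operator. -/
noncomputable def PP : Linf (D.pms U) →L[ℝ] Linf (D.pms U) :=
  LinearMap.mkContinuous
    { toFun := fun g => Linf.mk (fun x => D.emb (D.pot hp hU hUM g) x / D.emb U x)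
        (D.memLp_ratio hp hU hUM g)
      map_add' := fun f g => by
        refine Linf.ext_ae ?_
        have h1 := Linf.coeFn_mk _ (D.memLp_ratio hp hU hUM (f + g))
        have h2 := Linf.coeFn_mk _ (D.memLp_ratio hp hU hUM f)
        have h3 := Linf.coeFn_mk _ (D.memLp_ratio hp hU hUM g)
        have h4 : ∀ᵐ x ∂(D.pms U), D.emb (D.pot hp hU hUM f + D.pot hp hU hUM g) x =
          D.emb (D.pot hp hU hUM f) x + D.emb (D.pot hp hU hUM g) x :=
          ae_restrict_of_ae (D.emb_add _ _)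
        filter_upwards [h1, h2, h3, h4, Linf.coeFn_add (Linf.mk _ (D.memLp_ratio hp hU hUM f))
          (Linf.mk _ (D.memLp_ratio hp hU hUM g))] with x h5 h6 h7 h8 h9
        rw [h5, h9, h6, h7, D.pot_add, h8, add_div]
      map_smul' := fun c g => by
        refine Linf.ext_ae ?_
        have h1 := Linf.coeFn_mk _ (D.memLp_ratio hp hU hUM (c • g))
        have h3 := Linf.coeFn_mk _ (D.memLp_ratio hp hU hUM g)
        have h4 : ∀ᵐ x ∂(D.pms U), D.emb (c • D.pot hp hU hUM g) x =
          c * D.emb (D.pot hp hU hUM g) x :=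
          ae_restrict_of_ae (D.emb_smul _ _)
        filter_upwards [h1, h3, h4, Linf.coeFn_smul c
          (Linf.mk _ (D.memLp_ratio hp hU hUM g))] with x h5 h7 h8 h9
        simp only [RingHom.id_apply]
        rw [h5, h9, h7, D.pot_smul, h8, mul_div_assoc] }
    1 (fun g => by
      rw [one_mul]
      refine Linf.norm_le_of_ae (norm_nonneg _) ?_
      have h1 := Linf.coeFn_mk _ (D.memLp_ratio hp hU hUM g)
      filter_upwards [h1, D.ae_pms.mpr ((D.abs_pot_le_norm hp hU hUM g).mono fun x hx _ => hx),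
        D.ae_pms.mpr (Eventually.of_forall fun _ hx => hx)] with x h2 h3 h4
      simp only [LinearMap.coe_mk, AddHom.coe_mk]
      rw [h2, abs_div, abs_of_pos h4, div_le_iff₀ h4]
      exact h3)

lemma coeFn_PP (g : Linf (D.pms U)) :
    ∀ᵐ x ∂(D.pms U), D.PP hp hU hUM g x = D.emb (D.pot hp hU hUM g) x / D.emb U x :=
  Linf.coeFn_mk _ (D.memLp_ratio hp hU hUM g)

lemma norm_PP_le_of {g : Linf (D.pms U)} {c : ℝ} (hc : 0 ≤ c)
    (h : ∀ᵐ x ∂ν, |D.emb (D.pot hp hU hUM g) x| ≤ c * D.emb U x) : ‖D.PP hp hU hUM g‖ ≤ c := by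
  refine Linf.norm_le_of_ae hc ?_
  filter_upwards [D.coeFn_PP hp hU hUM g, D.ae_pms.mpr (h.mono fun x hx _ => hx),
    D.ae_pms.mpr (Eventually.of_forall fun x hx => hx)] with x h2 h3 h4
  rw [h2, abs_div, abs_of_pos h4, div_le_iff₀ h4]
  exact h3

/-- If `wt g = V ^ p` for a positive solution `V`, then `pot g = V`. -/
lemma pot_eq {g : Linf (D.pms U)} {V : H} (hV : D.Pos p V)
    (h : ∀ᵐ x ∂ν, D.wt p U g x = (D.emb V x) ^ p) : D.pot hp hU hUM g = V :=
  D.sol_unique (D.pot_spec hp hU hUM g) (Sol.congr D hV.2 (h.mono fun x hx => hx.symm))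

lemma PP_one (hp' : 0 < p) : D.PP hp hU hUM 1 = 1 := by
  have h1 : D.pot hp hU hUM 1 = U := by
    refine D.pot_eq hp hU hUM hU ?_
    filter_upwards [hU.1, D.ae_pms.mp (Linf.coeFn_one (μ := D.pms U))] with x h1 h2
    unfold wt
    by_cases hx : x ∈ D.pset U
    · rw [Set.indicator_of_mem hx, h2 hx, mul_one]
    · rw [Set.indicator_of_notMem hx]
      have h3 : D.emb U x = 0 := le_antisymm (not_lt.mp hx) h1
      rw [h3, Real.zero_rpow hp'.ne']
  refine Linf.ext_ae ?_
  filter_upwards [D.coeFn_PP hp hU hUM 1, Linf.coeFn_one (μ := D.pms U),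
    D.ae_pms.mpr (Eventually.of_forall fun x hx => hx)] with x h2 h3 h4
  rw [h2, h3, h1, div_self h4.ne']

/-- The weighted integral. -/
noncomputable def ell (p : ℝ) (U : H) (hint : Integrable (fun x => (D.emb U x) ^ (p + 1)) (D.pms U)) :
    Linf (D.pms U) →L[ℝ] ℝ :=
  LinearMap.mkContinuous
    { toFun := fun g => ∫ x, (D.emb U x) ^ (p + 1) * g x ∂(D.pms U)
      map_add' := fun f g => by
        rw [← integral_add (hint.mul_bdd f.aesm (Linf.ae_le_norm f))
          (hint.mul_bdd g.aesm (Linf.ae_le_norm g))]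
        refine integral_congr_ae ?_
        filter_upwards [Linf.coeFn_add f g] with x hx
        rw [hx, mul_add]
      map_smul' := fun c g => by
        simp only [RingHom.id_apply, smul_eq_mul]
        rw [← integral_const_mul]
        refine integral_congr_ae ?_
        filter_upwards [Linf.coeFn_smul c g] with x hx
        rw [hx]
        ring }
    (∫ x, |(D.emb U x) ^ (p + 1)| ∂(D.pms U)) (fun g => by
      simp only [LinearMap.coe_mk, AddHom.coe_mk]
      refine (norm_integral_le_integral_norm _).trans ?_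
      rw [← integral_mul_const]
      refine integral_mono_ae (hint.mul_bdd g.aesm (Linf.ae_le_norm g)).norm
        (hint.abs.mul_const _) ?_
      filter_upwards [Linf.ae_le_norm g] with x hx
      rw [norm_mul, Real.norm_eq_abs, Real.norm_eq_abs]
      gcongr)

lemma ell_apply (hint : Integrable (fun x => (D.emb U x) ^ (p + 1)) (D.pms U))
    (g : Linf (D.pms U)) :
    D.ell p U hint g = ∫ x, (D.emb U x) ^ (p + 1) * g x ∂(D.pms U) := rfl

lemma ell_mul (hint : Integrable (fun x => (D.emb U x) ^ (p + 1)) (D.pms U))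
    (f g : Linf (D.pms U)) :
    D.ell p U hint (D.PP hp hU hUM f * g) =
      inner ℝ (D.pot hp hU hUM g) (D.pot hp hU hUM f) := by
  rw [ell_apply, D.pot_spec hp hU hUM g (D.pot hp hU hUM f)]
  have h1 : ∫ x, D.wt p U g x * D.emb (D.pot hp hU hUM f) x ∂ν =
      ∫ x, (D.emb U x) ^ p * g x * D.emb (D.pot hp hU hUM f) x ∂(D.pms U) := by
    unfold pms
    rw [← integral_indicator (D.measurableSet_pset U)]
    congr 1
    funext x
    unfold wt
    by_cases hx : x ∈ D.pset U
    · rw [Set.indicator_of_mem hx, Set.indicator_of_mem hx]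
      rfl
    · rw [Set.indicator_of_notMem hx, Set.indicator_of_notMem hx, zero_mul]
  rw [h1]
  refine integral_congr_ae ?_
  filter_upwards [Linf.coeFn_mul (D.PP hp hU hUM f) g, D.coeFn_PP hp hU hUM f,
    D.ae_pms.mpr (Eventually.of_forall fun x hx => hx)] with x h2 h3 h4
  rw [h2, h3, Real.rpow_add h4, Real.rpow_one]
  field_simp

lemma ell_symm (hint : Integrable (fun x => (D.emb U x) ^ (p + 1)) (D.pms U))
    (f g : Linf (D.pms U)) :
    D.ell p U hint (D.PP hp hU hUM f * g) = D.ell p U hint (f * D.PP hp hU hUM g) := by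
  rw [mul_comm f, ell_mul, ell_mul, real_inner_comm]

end Finite

end Dir

end Pool.Agent.MP_5de7bf_an
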