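import Pool.Agent.Lib.MP_5de7bf_an.Dir6

/-!
# Abstract Dirichlet spaces: compactness of the linearized operator
-/

set_option autoImplicit false
set_option linter.unusedSectionVars false

namespace Pool.Agent.MP_5de7bf_an

open Filter Topology MeasureTheory
open scoped ENNReal

variable {α : Type*} [MeasurableSpace α]

namespace Dir

variable {ν : Measure α} {H : Type*} [NormedAddCommGroup H] [InnerProductSpace ℝ H]
  (D : Dir ν H)

section Finite

variable [IsFiniteMeasure ν]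

/-- The norm of the constant function. -/
noncomputable def cone (ν : Measure α) [IsFiniteMeasure ν] : ℝ :=
  ‖((memLp_const (1 : ℝ)).toLp _ : Lp ℝ 2 ν)‖

lemma norm_sq_le {X : H} {f : α → ℝ} {M : ℝ} (hM : 0 ≤ M) (hf : Bdd ν f M) (hX : D.Sol X f) :
    ‖X‖ ^ 2 ≤ M * cone ν * ‖D.emb X‖ := by
  rw [← real_inner_self_eq_norm_sq, hX X]
  have h1 := integral_abs_mul_le ((memLp_const (1 : ℝ)).toLp _ : Lp ℝ 2 ν) (D.emb X)
  have h2 : ∫ x, |D.emb X x| ∂ν = ∫ x, |((memLp_const (1 : ℝ)).toLp _ : Lp ℝ 2 ν) x| *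
      |D.emb X x| ∂ν := by
    refine integral_congr_ae ?_
    filter_upwards [(memLp_const (μ := ν) (p := 2) (1 : ℝ)).coeFn_toLp] with x hx
    rw [hx]
    simp
  rw [← h2] at h1
  calc ∫ x, f x * D.emb X x ∂ν ≤ ∫ x, M * |D.emb X x| ∂ν := by
        refine integral_mono_ae (hf.integrable_mul D X) ((D.integrable_emb X).abs.const_mul M) ?_
        filter_upwards [hf.2] with x hx
        calc f x * D.emb X x ≤ |f x| * |D.emb X x| := by rw [← abs_mul]; exact le_abs_self _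
          _ ≤ M * |D.emb X x| := by gcongr
    _ = M * ∫ x, |D.emb X x| ∂ν := integral_const_mul _ _
    _ ≤ M * (cone ν * ‖D.emb X‖) := by gcongr; exact h1
    _ = _ := by ring

lemma cone_nonneg : 0 ≤ cone ν := norm_nonneg _

lemma norm_le_of_sol {X : H} {f : α → ℝ} {M : ℝ} (hM : 0 ≤ M) (hf : Bdd ν f M)
    (hX : D.Sol X f) : ‖X‖ ≤ M * cone ν * ‖D.emb‖ := by
  have h1 := D.norm_sq_le hM hf hX
  have h2 : ‖D.emb X‖ ≤ ‖D.emb‖ * ‖X‖ := D.emb.le_opNorm X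
  have h3 : 0 ≤ M * cone ν := mul_nonneg hM cone_nonneg
  rcases eq_or_ne X 0 with h0 | h0
  · rw [h0, norm_zero]
    positivity
  · have h4 : 0 < ‖X‖ := norm_pos_iff.mpr h0
    have h5 : ‖X‖ * ‖X‖ ≤ (M * cone ν * ‖D.emb‖) * ‖X‖ := by
      calc ‖X‖ * ‖X‖ = ‖X‖ ^ 2 := by ring
        _ ≤ M * cone ν * ‖D.emb X‖ := h1
        _ ≤ M * cone ν * (‖D.emb‖ * ‖X‖) := by gcongr
        _ = _ := by ring
    exact le_of_mul_le_mul_right h5 h4

lemma exists_small_sup [CompleteSpace H] {M θ : ℝ} (hM : 0 ≤ M) (hθ : 0 < θ) :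
    ∃ ρ : ℝ, 0 < ρ ∧ ∀ (X : H) (f : α → ℝ), Bdd ν f M → D.Sol X f → ‖D.emb X‖ ≤ ρ →
      ∀ᵐ x ∂ν, |D.emb X x| ≤ θ := by
  obtain ⟨δ, hδ, h⟩ := D.exists_small hM hθ
  have h3 : 0 ≤ M * cone ν := mul_nonneg hM cone_nonneg
  refine ⟨δ ^ 2 / (M * cone ν + 1), by positivity, fun X f hf hX hXρ => h X f hf hX ?_⟩
  have h1 := D.norm_sq_le hM hf hX
  have h2 : ‖X‖ ^ 2 ≤ δ ^ 2 := by
    calc ‖X‖ ^ 2 ≤ M * cone ν * ‖D.emb X‖ := h1
      _ ≤ M * cone ν * (δ ^ 2 / (M * cone ν + 1)) := by gcongr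
      _ ≤ (M * cone ν + 1) * (δ ^ 2 / (M * cone ν + 1)) := by gcongr; linarith
      _ = δ ^ 2 := by field_simp
  exact le_of_sq_le_sq h2 hδ.le

variable [CompleteSpace H] {p M : ℝ} (hp : 0 ≤ p) {U : H} (hU : D.Pos p U)
  (hUM : ∀ᵐ x ∂ν, D.emb U x ≤ M)

/-- The potential as a linear map. -/
noncomputable def potL : Linf (D.pms U) →ₗ[ℝ] H where
  toFun := D.pot hp hU hUM
  map_add' := D.pot_add hp hU hUM
  map_smul' := D.pot_smul hp hU hUM

lemma potL_apply (g : Linf (D.pms U)) : D.potL hp hU hUM g = D.pot hp hU hUM g := rfl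

/-- The set below level `ε`. -/
def low (U : H) (ε : ℝ) : Set α := {x | D.emb U x ≤ ε}

lemma measurableSet_low (U : H) (ε : ℝ) : MeasurableSet (D.low U ε) :=
  measurableSet_le (Lp.stronglyMeasurable _).measurable measurable_const

/-- The characteristic function of the set below level `ε`. -/
noncomputable def ee (U : H) (ε : ℝ) : Linf (D.pms U) :=
  Linf.chi (D.low U ε) (D.measurableSet_low U ε)

lemma coeFn_ee (U : H) (ε : ℝ) : ∀ᵐ x ∂(D.pms U), D.ee U ε x =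
    (D.low U ε).indicator (fun _ => (1 : ℝ)) x :=
  Linf.coeFn_mk _ ((memLp_top_const (1 : ℝ)).indicator (D.measurableSet_low U ε))

lemma norm_PP_low {τ : ℝ} (hτ : D.Tau τ) (hp1 : 1 < p) {ε : ℝ} (hε : 0 < ε)
    (g : Linf (D.pms U)) :
    ‖D.PP hp hU hUM (D.ee U ε * g)‖ ≤ KK p τ * ε ^ (p - 1) * ‖g‖ := by
  have hK := KK_pos hp1 hτ.1
  obtain ⟨V, hV⟩ := D.exists_sol (D.cut_bdd hp hU hε.le).memLp
  have h1 : ∀ᵐ x ∂ν, |D.wt p U (D.ee U ε * g) x| ≤ ‖g‖ * D.cut p U ε x := by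
    filter_upwards [hU.1, D.ae_pms.mp (Linf.ae_le_norm g),
      D.ae_pms.mp (Linf.coeFn_mul (D.ee U ε) g), D.ae_pms.mp (D.coeFn_ee U ε)] with x h1 h2 h3 h4
    have h5 : 0 ≤ (D.emb U x) ^ p := Real.rpow_nonneg h1 _
    unfold wt cut
    by_cases hx : x ∈ D.pset U
    · rw [Set.indicator_of_mem hx, h3 hx, h4 hx]
      by_cases hx2 : D.emb U x ≤ ε
      · rw [if_pos hx2, Set.indicator_of_mem (show x ∈ D.low U ε from hx2), one_mul, abs_mul,
          abs_of_nonneg h5, mul_comm]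
        have := h2 hx
        gcongr
      · rw [if_neg hx2, Set.indicator_of_notMem (show x ∉ D.low U ε from hx2)]
        simp
    · rw [Set.indicator_of_notMem hx, abs_zero]
      refine mul_nonneg (norm_nonneg _) ?_
      split_ifs
      · exact h5
      · exact le_rfl
  have h2 := D.abs_pot_le hp hU hUM (D.cut_bdd hp hU hε.le) hV h1
  have h3 := D.key hp1 hτ hU hε hV
  refine D.norm_PP_le_of hp hU hUM (by positivity) ?_
  filter_upwards [h2, h3] with x h4 h5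
  calc _ ≤ ‖g‖ * D.emb V x := h4
    _ ≤ ‖g‖ * (KK p τ * ε ^ (p - 1) * D.emb U x) := by gcongr
    _ = _ := by ring

lemma wt_high {ε : ℝ} (g : Linf (D.pms U)) :
    ∀ᵐ x ∂ν, D.wt p U ((1 - D.ee U ε) * g) x ≠ 0 → ε < D.emb U x := by
  filter_upwards [D.ae_pms.mp (Linf.coeFn_mul (1 - D.ee U ε) g),
    D.ae_pms.mp (Linf.coeFn_sub 1 (D.ee U ε)), D.ae_pms.mp (Linf.coeFn_one (μ := D.pms U)),
    D.ae_pms.mp (D.coeFn_ee U ε)] with x h1 h2 h3 h4 h5
  by_contra hx2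
  push Not at hx2
  apply h5
  unfold wt
  by_cases hx : x ∈ D.pset U
  · rw [Set.indicator_of_mem hx, h1 hx, h2 hx, h3 hx, h4 hx,
      Set.indicator_of_mem (show x ∈ D.low U ε from hx2)]
    ring
  · rw [Set.indicator_of_notMem hx]

lemma norm_high_le {ε : ℝ} (g : Linf (D.pms U)) : ‖(1 - D.ee U ε) * g‖ ≤ ‖g‖ := by
  refine Linf.norm_le_of_ae (norm_nonneg _) ?_
  filter_upwards [Linf.coeFn_mul (1 - D.ee U ε) g, Linf.coeFn_sub 1 (D.ee U ε),
    Linf.coeFn_one (μ := D.pms U), D.coeFn_ee U ε, Linf.ae_le_norm g] with x h1 h2 h3 h4 h5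
  rw [h1, h2, h3, h4]
  by_cases hx : x ∈ D.low U ε
  · rw [Set.indicator_of_mem hx]
    simp
  · rw [Set.indicator_of_notMem hx]
    simpa using h5

lemma norm_PP_high {ε θ : ℝ} (hε : 0 < ε) (hθ : 0 ≤ θ) (g : Linf (D.pms U))
    (h : ∀ᵐ x ∂ν, |D.emb (D.pot hp hU hUM ((1 - D.ee U ε) * g)) x| ≤ θ) :
    ‖D.PP hp hU hUM ((1 - D.ee U ε) * g)‖ ≤ θ / ε := by
  refine D.norm_PP_le_of hp hU hUM (by positivity) ?_
  set G := (1 - D.ee U ε) * g with hG
  have h1 := D.comparison (c := θ / ε) (Pos.super D hU) (by positivity) (D.pot_spec hp hU hUM G)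
    (by
      filter_upwards [h, D.wt_high (p := p) (ε := ε) g] with x h2 h3 h4
      have h5 := h3 h4.ne'
      refine (le_abs_self _).trans (h2.trans ?_)
      rw [div_mul_eq_mul_div, le_div_iff₀ hε]
      gcongr)
  have h1' := D.comparison (c := θ / ε) (Pos.super D hU) (by positivity)
    (Sol.neg D (D.pot_spec hp hU hUM G))
    (by
      filter_upwards [h, D.wt_high (p := p) (ε := ε) g, D.emb_neg (D.pot hp hU hUM G)]
        with x h2 h3 h6 h4
      have h5 := h3 (by intro h0; rw [hG] at h4; rw [h0] at h4; simp at h4)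
      rw [h6]
      refine (neg_le_abs _).trans (h2.trans ?_)
      rw [div_mul_eq_mul_div, le_div_iff₀ hε]
      gcongr)
  filter_upwards [h1, h1', D.emb_neg (D.pot hp hU hUM G)] with x h2 h3 h4
  rw [h4] at h3
  rw [abs_le]
  constructor <;> linarith

/-- Total boundedness of the image of the unit ball. -/
lemma PP_tb (hp1 : 1 < p) (hM : 0 ≤ M) {η : ℝ} (hη : 0 < η) :
    ∃ T : Finset (Linf (D.pms U)), ∀ g, ‖g‖ ≤ 1 → ∃ h ∈ T, ‖D.PP hp hU hUM g - h‖ ≤ η := by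
  classical
  obtain ⟨τ, hτ0, hτ'⟩ := D.exists_tau
  have hτ : D.Tau τ := ⟨hτ0, hτ'⟩
  have hK := KK_pos hp1 hτ0
  obtain ⟨ε, hε1, hε0⟩ : ∃ ε : ℝ, KK p τ * ε ^ (p - 1) ≤ η / 4 ∧ 0 < ε := by
    have h1 : Tendsto (fun ε : ℝ => KK p τ * ε ^ (p - 1)) (𝓝 0) (𝓝 0) := by
      have h3 := (tendsto_id (α := ℝ) (x := 𝓝 0)).rpow_const (p := p - 1) (Or.inr (by linarith))
      rw [Real.zero_rpow (by linarith)] at h3
      simpa using h3.const_mul (KK p τ)
    have h4 : ∀ᶠ ε : ℝ in 𝓝[>] 0, KK p τ * ε ^ (p - 1) ≤ η / 4 :=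
      (h1.mono_left nhdsWithin_le_nhds).eventually (ge_mem_nhds (by positivity))
    obtain ⟨ε, h5, h6⟩ := (h4.and (self_mem_nhdsWithin (s := Set.Ioi (0 : ℝ)))).exists
    exact ⟨ε, h5, h6⟩
  set θ := ε * (η / 2) with hθ
  have hθ0 : 0 < θ := by positivity
  have hM' : 0 ≤ M ^ p * 2 := by positivity
  obtain ⟨ρ, hρ0, hρ⟩ := D.exists_small_sup hM' hθ0
  -- the compact set
  let S : Set (Lp ℝ 2 ν) := {y | ∃ g : Linf (D.pms U), ‖g‖ ≤ 1 ∧
    y = D.emb (D.pot hp hU hUM ((1 - D.ee U ε) * g))}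
  set R := M ^ p * 1 * cone ν * ‖D.emb‖ with hR
  have hSsub : S ⊆ closure (D.emb '' Metric.closedBall 0 R) := by
    rintro y ⟨g, hg, rfl⟩
    refine subset_closure ⟨_, ?_, rfl⟩
    rw [mem_closedBall_zero_iff]
    have hb := (D.wt_bdd hp hU hUM ((1 - D.ee U ε) * g)).mono (N := M ^ p * 1) (by
      have := (D.norm_high_le (ε := ε) g).trans hg
      have h2 : 0 ≤ M ^ p := Real.rpow_nonneg hM _
      gcongr)
    exact D.norm_le_of_sol (by positivity) hb (D.pot_spec hp hU hUM _)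
  have hStb : TotallyBounded S :=
    ((D.compact.isCompact_closure_image_closedBall (𝕜₁ := ℝ) R).totallyBounded).subset hSsub
  obtain ⟨t, htS, htfin, htcov⟩ := Metric.finite_approx_of_totallyBounded hStb ρ hρ0
  have hchoice : ∀ y : Lp ℝ 2 ν, ∃ g : Linf (D.pms U), y ∈ t → ‖g‖ ≤ 1 ∧
      y = D.emb (D.pot hp hU hUM ((1 - D.ee U ε) * g)) := by
    intro y
    by_cases hy : y ∈ t
    · obtain ⟨g, hg⟩ := htS hy
      exact ⟨g, fun _ => hg⟩
    · exact ⟨0, fun h => absurd h hy⟩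
  choose G hG using hchoice
  refine ⟨htfin.toFinset.image (fun y => D.PP hp hU hUM (G y)), fun g hg => ?_⟩
  have hgS : D.emb (D.pot hp hU hUM ((1 - D.ee U ε) * g)) ∈ S := ⟨g, hg, rfl⟩
  have h1 := htcov hgS
  simp only [Set.mem_iUnion, Metric.mem_ball, exists_prop] at h1
  obtain ⟨y, hy, hdist⟩ := h1
  obtain ⟨hGy, hGy2⟩ := hG y hy
  refine ⟨D.PP hp hU hUM (G y), ?_, ?_⟩
  · rw [Finset.mem_image]
    exact ⟨y, htfin.mem_toFinset.mpr hy, rfl⟩
  · have hd : ‖g - G y‖ ≤ 2 := (norm_sub_le _ _).trans (by linarith)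
    have h2 : D.PP hp hU hUM g - D.PP hp hU hUM (G y) =
        D.PP hp hU hUM (D.ee U ε * (g - G y)) +
          D.PP hp hU hUM ((1 - D.ee U ε) * (g - G y)) := by
      rw [← map_sub, ← map_add]
      congr 1
      ring
    have h3 := D.norm_PP_low hp hU hUM hτ hp1 hε0 (g - G y)
    have h4 : D.pot hp hU hUM ((1 - D.ee U ε) * (g - G y)) =
        D.pot hp hU hUM ((1 - D.ee U ε) * g) - D.pot hp hU hUM ((1 - D.ee U ε) * G y) := by
      rw [mul_sub, ← potL_apply, ← potL_apply, ← potL_apply, map_sub]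
    have h5 : ‖D.emb (D.pot hp hU hUM ((1 - D.ee U ε) * (g - G y)))‖ ≤ ρ := by
      rw [h4, map_sub, ← hGy2, ← dist_eq_norm]
      exact hdist.le
    have hb := (D.wt_bdd hp hU hUM ((1 - D.ee U ε) * (g - G y))).mono (N := M ^ p * 2) (by
      have := (D.norm_high_le (ε := ε) (g - G y)).trans hd
      have h2 : 0 ≤ M ^ p := Real.rpow_nonneg hM _
      gcongr)
    have h6 := hρ _ _ hb (D.pot_spec hp hU hUM _) h5
    have h7 := D.norm_PP_high hp hU hUM hε0 hθ0.le (g - G y) h6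
    rw [h2]
    refine (norm_add_le _ _).trans ?_
    have h8 : θ / ε = η / 2 := by
      rw [hθ]; field_simp
    rw [h8] at h7
    have h9 : KK p τ * ε ^ (p - 1) * ‖g - G y‖ ≤ η / 4 * 2 := by gcongr
    linarith

end Finite

end Dir

end Pool.Agent.MP_5de7bf_an
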