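import Pool.Agent.Lib.MP_5de7bf_an.Dir7

/-!
# Abstract Dirichlet spaces: the energies of positive solutions are eventually constant
-/

set_option autoImplicit false
set_option linter.unusedSectionVars false

namespace Pool.Agent.MP_5de7bf_an

open Filter Topology MeasureTheory
open scoped ENNReal

variable {α : Type*} [MeasurableSpace α]

namespace Dir

variable {ν : Measure α} {H : Type*} [NormedAddCommGroup H] [InnerProductSpace ℝ H]
  (D : Dir ν H)

section Finite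

variable [IsFiniteMeasure ν]

/-- The logarithmic ratio. -/
noncomputable def lrf (U V : H) : α → ℝ := fun x => Real.log (D.emb V x / D.emb U x)

lemma lrf_aesm (U V : H) : AEStronglyMeasurable (D.lrf U V) (D.pms U) := by
  have h1 : AEMeasurable (fun x => D.emb V x / D.emb U x) ν :=
    (D.aesm_emb _).aemeasurable.div (D.aesm_emb _).aemeasurable
  exact (Real.measurable_log.comp_aemeasurable h1.restrict).aestronglyMeasurable

open Classical in
/-- The logarithmic ratio as an element of the algebra. -/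
noncomputable def lr (U V : H) : Linf (D.pms U) :=
  if h : MemLp (D.lrf U V) ∞ (D.pms U) then Linf.mk (D.lrf U V) h else 0

/-- Comparability with constant `1 + η`. -/
def Comp (U V : H) (η : ℝ) : Prop :=
  ∀ᵐ x ∂ν, D.emb V x ≤ (1 + η) * D.emb U x ∧ D.emb U x ≤ (1 + η) * D.emb V x

lemma Comp.lrf_le {U V : H} {η : ℝ} (hη : 0 < η) (h : D.Comp U V η) :
    ∀ᵐ x ∂(D.pms U), |D.lrf U V x| ≤ η := by
  rw [ae_pms]
  filter_upwards [h] with x hx hpos
  have h1 : 0 < D.emb V x := by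
    have := hx.2
    by_contra h2
    have h3 : (1 + η) * D.emb V x ≤ 0 :=
      mul_nonpos_of_nonneg_of_nonpos (by linarith) (not_lt.mp h2)
    linarith
  unfold lrf
  have h2 : D.emb V x / D.emb U x ≤ 1 + η := by
    rw [div_le_iff₀ hpos]
    exact hx.1
  have h3 : (1 + η)⁻¹ ≤ D.emb V x / D.emb U x := by
    rw [le_div_iff₀ hpos, inv_mul_le_iff₀ (by linarith)]
    exact hx.2
  have h4 : 0 < D.emb V x / D.emb U x := div_pos h1 hpos
  have h5 : Real.log (1 + η) ≤ η := by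
    have := Real.log_le_sub_one_of_pos (show 0 < 1 + η by linarith)
    linarith
  rw [abs_le]
  constructor
  · have h6 := Real.log_le_log (by positivity) h3
    rw [Real.log_inv] at h6
    linarith
  · exact (Real.log_le_log h4 h2).trans h5

lemma Comp.memLp {U V : H} {η : ℝ} (hη : 0 < η) (h : D.Comp U V η) :
    MemLp (D.lrf U V) ∞ (D.pms U) :=
  memLp_top_of_bound (D.lrf_aesm U V) η (by simpa using Comp.lrf_le D hη h)

lemma Comp.coeFn_lr {U V : H} {η : ℝ} (hη : 0 < η) (h : D.Comp U V η) :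
    ∀ᵐ x ∂(D.pms U), D.lr U V x = D.lrf U V x := by
  unfold lr
  rw [dif_pos (Comp.memLp D hη h)]
  exact Linf.coeFn_mk _ _

lemma Comp.norm_lr {U V : H} {η : ℝ} (hη : 0 < η) (h : D.Comp U V η) :
    ‖D.lr U V‖ ≤ η := by
  refine Linf.norm_le_of_ae hη.le ?_
  filter_upwards [Comp.coeFn_lr D hη h, Comp.lrf_le D hη h] with x h1 h2
  rw [h1]
  exact h2

lemma Comp.exp_lr {U V : H} {η : ℝ} (hη : 0 < η) (h : D.Comp U V η) (r : ℝ) :
    ∀ᵐ x ∂(D.pms U), 0 < D.emb U x ∧ 0 < D.emb V x ∧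
      (NormedSpace.exp (r • D.lr U V)) x = (D.emb V x / D.emb U x) ^ r := by
  have h0 : ∀ᵐ x ∂(D.pms U), 0 < D.emb U x ∧ 0 < D.emb V x := by
    rw [ae_pms]
    filter_upwards [h] with x hx hpos
    refine ⟨hpos, ?_⟩
    have := hx.2
    by_contra h2
    have h3 : (1 + η) * D.emb V x ≤ 0 :=
      mul_nonpos_of_nonneg_of_nonpos (by linarith) (not_lt.mp h2)
    linarith
  filter_upwards [h0, Comp.coeFn_lr D hη h, Linf.coeFn_smul r (D.lr U V),
    Linf.coeFn_exp (r • D.lr U V)] with x h1 h2 h3 h4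
  refine ⟨h1.1, h1.2, ?_⟩
  rw [h4, h3, h2, lrf, Real.rpow_def_of_pos (div_pos h1.2 h1.1), mul_comm]

variable [CompleteSpace H]

lemma Comp.sol {p M : ℝ} (hp : 0 < p) {U V : H} (hU : D.Pos p U) (hV : D.Pos p V)
    (hUM : ∀ᵐ x ∂ν, D.emb U x ≤ M) {η : ℝ} (hη : 0 < η) (h : D.Comp U V η) :
    NormedSpace.exp (D.lr U V) = D.PP hp.le hU hUM (NormedSpace.exp (p • D.lr U V)) := by
  have h1 : D.pot hp.le hU hUM (NormedSpace.exp (p • D.lr U V)) = V := by
    refine D.pot_eq hp.le hU hUM hV ?_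
    filter_upwards [D.ae_pms.mp (Comp.exp_lr D hη h p), hU.1, hV.1, h] with x h1 h2 h3 h4
    unfold wt
    by_cases hx : x ∈ D.pset U
    · obtain ⟨h5, h6, h7⟩ := h1 hx
      rw [Set.indicator_of_mem hx, h7, Real.div_rpow h3 h2,
        mul_div_cancel₀ _ (Real.rpow_pos_of_pos h5 p).ne']
    · rw [Set.indicator_of_notMem hx]
      have h5 : D.emb U x = 0 := le_antisymm (not_lt.mp hx) h2
      have h6 : D.emb V x = 0 := by
        have := h4.1
        rw [h5, mul_zero] at this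
        exact le_antisymm this h3
      rw [h6, Real.zero_rpow hp.ne']
  refine Linf.ext_ae ?_
  have h2 := Comp.exp_lr D hη h 1
  rw [one_smul] at h2
  filter_upwards [D.coeFn_PP hp.le hU hUM (NormedSpace.exp (p • D.lr U V)), h2] with x h3 h4
  rw [h3, h1, h4.2.2, Real.rpow_one]

lemma integrable_pow {p M : ℝ} (hp : 0 ≤ p) {U : H} (hU : D.Pos p U)
    (hUM : ∀ᵐ x ∂ν, D.emb U x ≤ M) : Integrable (fun x => (D.emb U x) ^ (p + 1)) ν := by
  have h1 : AEStronglyMeasurable (fun x => (D.emb U x) ^ (p + 1)) ν :=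
    ((D.aesm_emb U).aemeasurable.pow_const _).aestronglyMeasurable
  refine Integrable.of_bound h1 (M ^ (p + 1)) ?_
  filter_upwards [hU.1, hUM] with x h1 h2
  rw [Real.norm_of_nonneg (Real.rpow_nonneg h1 _)]
  exact Real.rpow_le_rpow h1 h2 (by linarith)

lemma Comp.ell {p : ℝ} (hp : 0 < p) {U V : H} (hU : D.Pos p U) (hV : D.Pos p V)
    {η : ℝ} (hη : 0 < η) (h : D.Comp U V η)
    (hint : Integrable (fun x => (D.emb U x) ^ (p + 1)) (D.pms U)) :
    D.ell p U hint (NormedSpace.exp ((p + 1) • D.lr U V)) = ∫ x, (D.emb V x) ^ (p + 1) ∂ν := by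
  rw [ell_apply]
  have h1 : ∫ x, (D.emb U x) ^ (p + 1) * (NormedSpace.exp ((p + 1) • D.lr U V)) x ∂(D.pms U) =
      ∫ x, (D.emb V x) ^ (p + 1) ∂(D.pms U) := by
    refine integral_congr_ae ?_
    filter_upwards [Comp.exp_lr D hη h (p + 1)] with x hx
    obtain ⟨h5, h6, h7⟩ := hx
    rw [h7, Real.div_rpow h6.le h5.le, mul_div_cancel₀ _ (Real.rpow_pos_of_pos h5 _).ne']
  rw [h1]
  unfold pms
  rw [← integral_indicator (D.measurableSet_pset U)]
  refine integral_congr_ae ?_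
  filter_upwards [hU.1, hV.1, h] with x h2 h3 h4
  by_cases hx : x ∈ D.pset U
  · rw [Set.indicator_of_mem hx]
  · rw [Set.indicator_of_notMem hx]
    have h5 : D.emb U x = 0 := le_antisymm (not_lt.mp hx) h2
    have h6 : D.emb V x = 0 := by
      have := h4.1
      rw [h5, mul_zero] at this
      exact le_antisymm this h3
    rw [h6, Real.zero_rpow (by linarith)]

/-- Along a subsequence, energies of bounded positive solutions are eventually constant. -/
theorem energy_const {p : ℝ} (hp : 1 < p) (hps : p + 1 < D.s) {R : ℝ} {U : ℕ → H}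
    (hU : ∀ n, D.Pos p (U n)) (hR : ∀ n, ‖U n‖ ≤ R) :
    ∃ φ : ℕ → ℕ, StrictMono φ ∧ ∃ E : ℝ, ∀ᶠ n in atTop,
      ∫ x, (D.emb (U (φ n)) x) ^ (p + 1) ∂ν = E := by
  have hp0 : 0 < p := by linarith
  obtain ⟨U₀, hU₀, φ, hφ, hlim⟩ := D.extract hp hps hU hR
  obtain ⟨M, hM0, hM⟩ := D.exists_bound hp hps (max R ‖U₀‖)
  have hUM : ∀ n, ∀ᵐ x ∂ν, D.emb (U (φ n)) x ≤ M := fun n =>
    hM _ (hU _) ((hR _).trans (le_max_left _ _))
  have hU₀M : ∀ᵐ x ∂ν, D.emb U₀ x ≤ M := hM _ hU₀ (le_max_right _ _)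
  have hcomp : ∀ η : ℝ, 0 < η → ∀ᶠ n in atTop, D.Comp U₀ (U (φ n)) η := fun η hη =>
    D.ratio_conv hp hM0.le (fun n => hU (φ n)) hU₀ hUM hU₀M hlim hη
  refine ⟨φ, hφ, ?_⟩
  set v : ℕ → Linf (D.pms U₀) := fun n => D.lr U₀ (U (φ n)) with hv
  have hv0 : Tendsto v atTop (𝓝 0) := by
    rw [tendsto_zero_iff_norm_tendsto_zero, Metric.tendsto_atTop']
    intro ε hε
    obtain ⟨N, hN⟩ := eventually_atTop.mp (hcomp (ε / 2) (by positivity))
    refine ⟨N, fun n hn => ?_⟩
    rw [Real.dist_eq, sub_zero, abs_of_nonneg (norm_nonneg _)]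
    exact (Comp.norm_lr D (by positivity) (hN n hn.le)).trans_lt (by linarith)
  obtain ⟨Pf, hPf, hPn⟩ := exists_finite_rank (D.PP hp0.le hU₀ hU₀M)
    (fun η hη => D.PP_tb hp0.le hU₀ hU₀M hp hM0.le hη) (η := 1 / (2 * p)) (by positivity)
  have hint : Integrable (fun x => (D.emb U₀ x) ^ (p + 1)) (D.pms U₀) :=
    (D.integrable_pow hp0.le hU₀ hU₀M).restrict
  have hnorm : ‖p • (D.PP hp0.le hU₀ hU₀M - Pf)‖ < 1 := by
    rw [norm_smul, Real.norm_of_nonneg hp0.le]
    calc p * ‖D.PP hp0.le hU₀ hU₀M - Pf‖ ≤ p * (1 / (2 * p)) := by gcongr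
      _ = 1 / 2 := by field_simp
      _ < 1 := by norm_num
  have hb := banach_const (p := p) (by linarith) (by linarith) (D.PP hp0.le hU₀ hU₀M)
    (D.ell p U₀ hint) (D.PP_one hp0.le hU₀ hU₀M hp0) (D.ell_symm hp0.le hU₀ hU₀M hint) Pf hPf
    hnorm hv0 (by
      filter_upwards [hcomp 1 one_pos] with n hn
      exact Comp.sol D hp0 hU₀ (hU _) hU₀M one_pos hn)
  refine ⟨D.ell p U₀ hint 1, ?_⟩
  filter_upwards [hb, hcomp 1 one_pos] with n h1 h2
  rw [← h1]
  exact (Comp.ell D hp0 hU₀ (hU _) one_pos h2 hint).symm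

end Finite

end Dir

end Pool.Agent.MP_5de7bf_an
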