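import Pool.Agent.Lib.MP_5de7bf_an.Dir8

/-!
# Abstract Dirichlet spaces: isolation of the least critical value
-/

set_option autoImplicit false
set_option linter.unusedSectionVars false

namespace Pool.Agent.MP_5de7bf_an

open Filter Topology MeasureTheory
open scoped ENNReal

variable {α : Type*} [MeasurableSpace α]

namespace Dir

variable {ν : Measure α} {H : Type*} [NormedAddCommGroup H] [InnerProductSpace ℝ H]
  (D : Dir ν H)

/-- The values of the energy on the unit sphere of `L^q`. -/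
def vals (q : ℝ) : Set ℝ := {t | ∃ X : H, ∫ x, |D.emb X x| ^ q ∂ν = 1 ∧ t = ‖X‖ ^ 2}

/-- Constrained critical points. -/
def Crit (q : ℝ) (X : H) : Prop :=
  ∫ x, |D.emb X x| ^ q ∂ν = 1 ∧ ∀ Y, inner ℝ X Y =
    ‖X‖ ^ 2 * ∫ x, |D.emb X x| ^ (q - 2) * D.emb X x * D.emb Y x ∂ν

section Finite

variable [IsFiniteMeasure ν]

lemma rpow_le_one_add {t q s : ℝ} (ht : 0 ≤ t) (hq : 0 ≤ q) (hqs : q ≤ s) :
    t ^ q ≤ 1 + t ^ s := by
  rcases le_total t 1 with h | h
  · have := Real.rpow_le_one ht h hq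
    have := Real.rpow_nonneg ht s
    linarith
  · have := Real.rpow_le_rpow_of_exponent_le h hqs
    linarith

lemma integrable_rpow {q : ℝ} (hq : 0 ≤ q) (hqs : q ≤ D.s) (X : H) :
    Integrable (fun x => |D.emb X x| ^ q) ν := by
  have h1 : AEStronglyMeasurable (fun x => |D.emb X x| ^ q) ν := by
    have h2 : AEMeasurable (fun x => |D.emb X x|) ν := (D.aesm_emb X).norm.aemeasurable
    exact (h2.pow_const q).aestronglyMeasurable
  refine ((integrable_const (1 : ℝ)).add (D.sob_int X)).mono' h1 ?_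
  refine Eventually.of_forall fun x => ?_
  rw [Real.norm_of_nonneg (Real.rpow_nonneg (abs_nonneg _) _)]
  exact rpow_le_one_add (abs_nonneg _) hq hqs

lemma integral_smul_rpow {q : ℝ} (c : ℝ) (X : H) :
    ∫ x, |D.emb (c • X) x| ^ q ∂ν = |c| ^ q * ∫ x, |D.emb X x| ^ q ∂ν := by
  rw [← integral_const_mul]
  refine integral_congr_ae ?_
  filter_upwards [D.emb_smul c X] with x hx
  rw [hx, abs_mul, Real.mul_rpow (abs_nonneg _) (abs_nonneg _)]

lemma integral_rpow_le {q : ℝ} (hq : 0 < q) (hqs : q ≤ D.s) (X : H) :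
    ∫ x, |D.emb X x| ^ q ∂ν ≤ ‖X‖ ^ q * (ν.real Set.univ + D.C ^ D.s) := by
  rcases eq_or_ne X 0 with h0 | h0
  · subst h0
    have h1 : ∫ x, |D.emb (0 : H) x| ^ q ∂ν = 0 := by
      rw [map_zero]
      rw [← integral_zero α ℝ (μ := ν)]
      refine integral_congr_ae ?_
      filter_upwards [Lp.coeFn_zero ℝ 2 ν] with x hx
      rw [hx]
      simp [hq.ne']
    rw [h1, norm_zero, Real.zero_rpow hq.ne', zero_mul]
  · have hpos : 0 < ‖X‖ := norm_pos_iff.mpr h0
    set Z : H := ‖X‖⁻¹ • X with hZ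
    have hZn : ‖Z‖ = 1 := by
      rw [hZ, norm_smul, norm_inv, norm_norm, inv_mul_cancel₀ hpos.ne']
    have hXZ : X = ‖X‖ • Z := by
      rw [hZ, smul_smul, mul_inv_cancel₀ hpos.ne', one_smul]
    have h1 : ∫ x, |D.emb Z x| ^ q ∂ν ≤ ν.real Set.univ + D.C ^ D.s := by
      calc ∫ x, |D.emb Z x| ^ q ∂ν ≤ ∫ x, (1 + |D.emb Z x| ^ D.s) ∂ν := by
            refine integral_mono (D.integrable_rpow hq.le hqs Z)
              ((integrable_const _).add (D.sob_int Z)) (fun x => ?_)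
            exact rpow_le_one_add (abs_nonneg _) hq.le hqs
        _ = ν.real Set.univ + ∫ x, |D.emb Z x| ^ D.s ∂ν := by
            rw [integral_add (integrable_const _) (D.sob_int Z)]
            simp
        _ ≤ ν.real Set.univ + D.C ^ D.s := by
            have := D.sob Z
            rw [hZn, mul_one] at this
            linarith
    rw [hXZ, D.integral_smul_rpow, abs_of_pos hpos, ← hXZ]
    have := Real.rpow_nonneg hpos.le q
    gcongr

lemma vals_bddBelow (q : ℝ) : BddBelow (D.vals q) :=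
  ⟨0, by rintro t ⟨X, _, rfl⟩; positivity⟩

lemma sInf_le_of {q : ℝ} {X : H} (hX : ∫ x, |D.emb X x| ^ q ∂ν = 1) :
    sInf (D.vals q) ≤ ‖X‖ ^ 2 := csInf_le (D.vals_bddBelow q) ⟨X, hX, rfl⟩

lemma sInf_pos {q : ℝ} (hq : 0 < q) (hqs : q ≤ D.s) (hne : (D.vals q).Nonempty) :
    0 < sInf (D.vals q) := by
  set K := ν.real Set.univ + D.C ^ D.s with hK
  have hK0 : 0 < K := by
    have := Real.rpow_pos_of_pos D.hC D.s
    have h2 : 0 ≤ ν.real Set.univ := measureReal_nonneg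
    linarith
  have h1 : (K⁻¹ ^ (1 / q)) ^ 2 ≤ sInf (D.vals q) := by
    refine le_csInf hne ?_
    rintro t ⟨X, hX, rfl⟩
    have h2 := D.integral_rpow_le hq hqs X
    rw [hX, ← hK] at h2
    have h3 : K⁻¹ ≤ ‖X‖ ^ q := by
      rwa [← div_le_iff₀ hK0, one_div] at h2
    have h4 : K⁻¹ ^ (1 / q) ≤ ‖X‖ := by
      have h5 := Real.rpow_le_rpow (by positivity) h3 (by positivity : 0 ≤ 1 / q)
      rwa [← Real.rpow_mul (norm_nonneg _), mul_one_div_cancel hq.ne', Real.rpow_one] at h5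
    gcongr
  have h2 : 0 < (K⁻¹ ^ (1 / q)) ^ 2 := by positivity
  linarith

lemma general_le {q : ℝ} (hq : 0 < q) (X : H) :
    sInf (D.vals q) * (∫ x, |D.emb X x| ^ q ∂ν) ^ (2 / q) ≤ ‖X‖ ^ 2 := by
  set I := ∫ x, |D.emb X x| ^ q ∂ν with hI
  have hI0 : 0 ≤ I := integral_nonneg fun x => Real.rpow_nonneg (abs_nonneg _) _
  rcases hI0.eq_or_lt with h0 | h0
  · rw [← h0, Real.zero_rpow (by positivity), mul_zero]
    positivity
  · set c := I ^ (-(1 / q)) with hc
    have hc0 : 0 < c := Real.rpow_pos_of_pos h0 _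
    have h1 : ∫ x, |D.emb (c • X) x| ^ q ∂ν = 1 := by
      rw [D.integral_smul_rpow, ← hI, abs_of_pos hc0, hc, ← Real.rpow_mul h0.le]
      have : -(1 / q) * q = -1 := by field_simp
      rw [this, Real.rpow_neg_one, inv_mul_cancel₀ h0.ne']
    have h2 := D.sInf_le_of h1
    rw [norm_smul, mul_pow, Real.norm_of_nonneg hc0.le] at h2
    have h3 : c ^ 2 * I ^ (2 / q) = 1 := by
      rw [hc, ← Real.rpow_natCast, ← Real.rpow_mul h0.le, ← Real.rpow_add h0]
      have : -(1 / q) * ((2 : ℕ) : ℝ) + 2 / q = 0 := by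
        push_cast
        field_simp
        norm_num
      rw [this, Real.rpow_zero]
    have h4 : 0 ≤ I ^ (2 / q) := Real.rpow_nonneg h0.le _
    calc sInf (D.vals q) * I ^ (2 / q) ≤ c ^ 2 * ‖X‖ ^ 2 * I ^ (2 / q) := by gcongr
      _ = (c ^ 2 * I ^ (2 / q)) * ‖X‖ ^ 2 := by ring
      _ = ‖X‖ ^ 2 := by rw [h3, one_mul]

lemma Crit.neg {q : ℝ} {X : H} (hX : D.Crit q X) : D.Crit q (-X) := by
  refine ⟨?_, fun Y => ?_⟩
  · rw [← hX.1]
    refine integral_congr_ae ?_
    filter_upwards [D.emb_neg X] with x hx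
    rw [hx, abs_neg]
  · rw [inner_neg_left, hX.2 Y, norm_neg, ← mul_neg, ← integral_neg]
    congr 1
    refine integral_congr_ae ?_
    filter_upwards [D.emb_neg X] with x hx
    rw [hx, abs_neg]
    ring

/-- The positive part inequality. -/
lemma Crit.pos_part {q : ℝ} (hq : 2 < q) {X : H} (hX : D.Crit q X) :
    sInf (D.vals q) * (∫ x, (max (D.emb X x) 0) ^ q ∂ν) ^ (2 / q) ≤
      ‖X‖ ^ 2 * ∫ x, (max (D.emb X x) 0) ^ q ∂ν := by
  obtain ⟨Y, hY, hYn⟩ := D.trunc X 0 le_rfl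
  have h1 : ∫ x, |D.emb Y x| ^ q ∂ν = ∫ x, (max (D.emb X x) 0) ^ q ∂ν := by
    refine integral_congr_ae ?_
    filter_upwards [hY] with x hx
    rw [hx, sub_zero, abs_of_nonneg (le_max_right _ _)]
  have h2 : ∫ x, |D.emb X x| ^ (q - 2) * D.emb X x * D.emb Y x ∂ν =
      ∫ x, (max (D.emb X x) 0) ^ q ∂ν := by
    refine integral_congr_ae ?_
    filter_upwards [hY] with x hx
    rw [hx, sub_zero]
    rcases le_or_gt (D.emb X x) 0 with h | h
    · rw [max_eq_right h, mul_zero, Real.zero_rpow (by linarith)]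
    · rw [max_eq_left h.le, abs_of_pos h]
      have : q = (q - 2) + 1 + 1 := by ring
      conv_rhs => rw [this, Real.rpow_add h, Real.rpow_add h, Real.rpow_one]
  have h3 := D.general_le (by linarith : 0 < q) Y
  rw [h1, ← hYn, hX.2 Y, h2] at h3
  exact h3

/-- Critical points of low energy have constant sign. -/
lemma Crit.sign {q : ℝ} (hq : 2 < q) (hqs : q < D.s) {X : H} (hX : D.Crit q X)
    (hlow : ‖X‖ ^ 2 < 2 ^ (1 - 2 / q) * sInf (D.vals q)) :
    (∀ᵐ x ∂ν, 0 ≤ D.emb X x) ∨ (∀ᵐ x ∂ν, 0 ≤ D.emb (-X) x) := by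
  set a := ∫ x, (max (D.emb X x) 0) ^ q ∂ν with ha
  set b := ∫ x, (max (-D.emb X x) 0) ^ q ∂ν with hb
  have hq0 : 0 < q := by linarith
  have hb' : ∫ x, (max (D.emb (-X) x) 0) ^ q ∂ν = b := by
    refine integral_congr_ae ?_
    filter_upwards [D.emb_neg X] with x hx
    rw [hx]
  have h1 := Crit.pos_part D hq hX
  have h2 := Crit.pos_part D hq (Crit.neg D hX)
  rw [hb', norm_neg] at h2
  rw [← ha] at h1
  have hinta : Integrable (fun x => (max (D.emb X x) 0) ^ q) ν := by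
    refine (D.integrable_rpow hq0.le hqs.le X).mono'
      (((D.aesm_emb X).aemeasurable.max aemeasurable_const).pow_const q).aestronglyMeasurable
      (Eventually.of_forall fun x => ?_)
    rw [Real.norm_of_nonneg (Real.rpow_nonneg (le_max_right _ _) _)]
    exact Real.rpow_le_rpow (le_max_right _ _) (max_le (le_abs_self _) (abs_nonneg _)) hq0.le
  have hintb : Integrable (fun x => (max (-D.emb X x) 0) ^ q) ν := by
    refine (D.integrable_rpow hq0.le hqs.le X).mono'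
      (((D.aesm_emb X).aemeasurable.neg.max aemeasurable_const).pow_const q).aestronglyMeasurable
      (Eventually.of_forall fun x => ?_)
    rw [Real.norm_of_nonneg (Real.rpow_nonneg (le_max_right _ _) _)]
    exact Real.rpow_le_rpow (le_max_right _ _) (max_le (neg_le_abs _) (abs_nonneg _)) hq0.le
  have hab : a + b = 1 := by
    rw [ha, hb, ← integral_add hinta hintb, ← hX.1]
    refine integral_congr_ae (Eventually.of_forall fun x => ?_)
    simp only
    rcases le_total (D.emb X x) 0 with h | h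
    · rw [max_eq_right h, max_eq_left (by linarith), abs_of_nonpos h, Real.zero_rpow hq0.ne',
        zero_add]
    · rw [max_eq_left h, max_eq_right (by linarith), abs_of_nonneg h, Real.zero_rpow hq0.ne',
        add_zero]
  have ha0 : 0 ≤ a := integral_nonneg fun x => Real.rpow_nonneg (le_max_right _ _) _
  have hb0 : 0 ≤ b := integral_nonneg fun x => Real.rpow_nonneg (le_max_right _ _) _
  have hexp : 0 < 1 - 2 / q := by
    have : 2 / q < 1 := by rw [div_lt_one hq0]; exact hq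
    linarith
  have key : ∀ t : ℝ, 0 < t → t ≤ 1 / 2 →
      sInf (D.vals q) * t ^ (2 / q) ≤ ‖X‖ ^ 2 * t → False := by
    intro t ht ht2 h
    have h3 : t = t ^ (2 / q) * t ^ (1 - 2 / q) := by
      rw [← Real.rpow_add ht]
      have : 2 / q + (1 - 2 / q) = 1 := by ring
      rw [this, Real.rpow_one]
    have h4 : 0 < t ^ (2 / q) := Real.rpow_pos_of_pos ht _
    have h5 : sInf (D.vals q) ≤ ‖X‖ ^ 2 * t ^ (1 - 2 / q) := by
      have h6 : sInf (D.vals q) * t ^ (2 / q) ≤ (‖X‖ ^ 2 * t ^ (1 - 2 / q)) * t ^ (2 / q) := by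
        calc sInf (D.vals q) * t ^ (2 / q) ≤ ‖X‖ ^ 2 * t := h
          _ = (‖X‖ ^ 2 * t ^ (1 - 2 / q)) * t ^ (2 / q) := by
            conv_lhs => rw [h3]
            ring
      exact le_of_mul_le_mul_right h6 h4
    have h6 : t ^ (1 - 2 / q) ≤ (1 / 2) ^ (1 - 2 / q) := Real.rpow_le_rpow ht.le ht2 hexp.le
    have h7 : ((1 : ℝ) / 2) ^ (1 - 2 / q) * 2 ^ (1 - 2 / q) = 1 := by
      rw [← Real.mul_rpow (by norm_num) (by norm_num)]
      norm_num
    have h8 : 0 < (2 : ℝ) ^ (1 - 2 / q) := by positivity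
    have h9 : sInf (D.vals q) ≤ ‖X‖ ^ 2 * (1 / 2) ^ (1 - 2 / q) :=
      h5.trans (by gcongr)
    have h10 : 2 ^ (1 - 2 / q) * sInf (D.vals q) ≤ ‖X‖ ^ 2 := by
      calc 2 ^ (1 - 2 / q) * sInf (D.vals q)
          ≤ 2 ^ (1 - 2 / q) * (‖X‖ ^ 2 * (1 / 2) ^ (1 - 2 / q)) := by gcongr
        _ = ‖X‖ ^ 2 * (((1 : ℝ) / 2) ^ (1 - 2 / q) * 2 ^ (1 - 2 / q)) := by ring
        _ = ‖X‖ ^ 2 := by rw [h7, mul_one]
    linarith
  have hzero : ∀ f : α → ℝ, Integrable (fun x => (max (f x) 0) ^ q) ν →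
      ∫ x, (max (f x) 0) ^ q ∂ν = 0 → ∀ᵐ x ∂ν, f x ≤ 0 := by
    intro f hf hf0
    rw [integral_eq_zero_iff_of_nonneg (fun x => Real.rpow_nonneg (le_max_right _ _) _) hf] at hf0
    filter_upwards [hf0] with x hx
    simp only [Pi.zero_apply] at hx
    rw [Real.rpow_eq_zero (le_max_right _ _) hq0.ne'] at hx
    rw [← hx]
    exact le_max_left _ _
  rcases ha0.eq_or_lt with h | h
  · right
    filter_upwards [hzero _ hinta h.symm, D.emb_neg X] with x h3 h4
    rw [h4]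
    linarith
  · rcases hb0.eq_or_lt with h' | h'
    · left
      filter_upwards [hzero _ hintb h'.symm] with x h3
      linarith
    · exfalso
      rcases le_total a b with h3 | h3
      · exact key a h (by linarith) h1
      · exact key b h' (by linarith) h2

/-- Nonnegative critical points rescale to positive solutions. -/
lemma Crit.pos {q : ℝ} (hq : 2 < q) {X : H} (hX : D.Crit q X)
    (hX0 : ∀ᵐ x ∂ν, 0 ≤ D.emb X x) (hn : 0 < ‖X‖ ^ 2) :
    D.Pos (q - 1) ((‖X‖ ^ 2) ^ (1 / (q - 2)) • X) := by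
  set μ := ‖X‖ ^ 2 with hμ
  set c := μ ^ (1 / (q - 2)) with hc
  have hc0 : 0 < c := Real.rpow_pos_of_pos hn _
  refine ⟨?_, fun Y => ?_⟩
  · filter_upwards [hX0, D.emb_smul c X] with x h1 h2
    rw [h2]
    positivity
  · rw [real_inner_smul_left, hX.2 Y, ← hμ, ← integral_const_mul, ← integral_const_mul]
    refine integral_congr_ae ?_
    filter_upwards [hX0, D.emb_smul c X] with x h1 h2
    rw [h2, Real.mul_rpow hc0.le h1, abs_of_nonneg h1]
    have h3 : c ^ (q - 1) = c * μ := by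
      have h4 : q - 1 = (q - 2) + 1 := by ring
      rw [h4, Real.rpow_add hc0, Real.rpow_one, hc, ← Real.rpow_mul hn.le,
        one_div_mul_cancel (by linarith), Real.rpow_one, mul_comm]
    have h5 : (D.emb X x) ^ (q - 2) * D.emb X x = (D.emb X x) ^ (q - 1) := by
      rcases h1.eq_or_lt with h6 | h6
      · rw [← h6, mul_zero, Real.zero_rpow (by linarith)]
      · have h4 : q - 1 = (q - 2) + 1 := by ring
        rw [h4, Real.rpow_add h6, Real.rpow_one]
    rw [h5, h3]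
    ring

variable [CompleteSpace H]

/-- Isolation of the least critical value. -/
theorem isolated {q : ℝ} (hq : 2 < q) (hqs : q < D.s) :
    ∃ ε : ℝ, 0 < ε ∧ ∀ X : H, D.Crit q X → ‖X‖ ^ 2 < sInf (D.vals q) + ε →
      ‖X‖ ^ 2 = sInf (D.vals q) := by
  rcases (D.vals q).eq_empty_or_nonempty with he | hne
  · refine ⟨1, one_pos, fun X hX _ => ?_⟩
    exfalso
    have : ‖X‖ ^ 2 ∈ D.vals q := ⟨X, hX.1, rfl⟩
    rw [he] at this
    exact this
  have hq0 : 0 < q := by linarith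
  set l := sInf (D.vals q) with hl
  have hl0 : 0 < l := D.sInf_pos hq0 hqs.le hne
  have hexp : 0 < 1 - 2 / q := by
    have : 2 / q < 1 := by rw [div_lt_one hq0]; exact hq
    linarith
  set ε₀ := (2 ^ (1 - 2 / q) - 1) * l with hε₀
  have hε₀0 : 0 < ε₀ := by
    have : (1 : ℝ) < 2 ^ (1 - 2 / q) := Real.one_lt_rpow (by norm_num) hexp
    have h2 : 0 < (2 : ℝ) ^ (1 - 2 / q) - 1 := by linarith
    positivity
  by_contra hcon
  push Not at hcon
  have hseq : ∀ n : ℕ, ∃ X : H, D.Crit q X ∧ (∀ᵐ x ∂ν, 0 ≤ D.emb X x) ∧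
      ‖X‖ ^ 2 < l + ε₀ / (n + 1) ∧ l < ‖X‖ ^ 2 := by
    intro n
    obtain ⟨X, hX, hXlt, hXne⟩ := hcon (ε₀ / (n + 1)) (by positivity)
    have h1 : l < ‖X‖ ^ 2 := lt_of_le_of_ne (D.sInf_le_of hX.1) (Ne.symm hXne)
    have h2 : ε₀ / (n + 1) ≤ ε₀ := div_le_self hε₀0.le (by
      have : (0 : ℝ) ≤ n := Nat.cast_nonneg n
      linarith)
    have h3 : ‖X‖ ^ 2 < 2 ^ (1 - 2 / q) * l := by
      have : 2 ^ (1 - 2 / q) * l = l + ε₀ := by rw [hε₀]; ring
      rw [this]
      linarith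
    rcases Crit.sign D hq hqs hX h3 with h4 | h4
    · exact ⟨X, hX, h4, hXlt, h1⟩
    · exact ⟨-X, Crit.neg D hX, h4, by rwa [norm_neg], by rwa [norm_neg]⟩
  choose X hX hX0 hXlt hXgt using hseq
  have hXpos : ∀ n, 0 < ‖X n‖ ^ 2 := fun n => hl0.trans (hXgt n)
  set U : ℕ → H := fun n => (‖X n‖ ^ 2) ^ (1 / (q - 2)) • X n with hUdef
  have hU : ∀ n, D.Pos (q - 1) (U n) := fun n => Crit.pos D hq (hX n) (hX0 n) (hXpos n)
  have hXle : ∀ n, ‖X n‖ ^ 2 ≤ l + ε₀ := by
    intro n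
    have h2 : ε₀ / (n + 1) ≤ ε₀ := div_le_self hε₀0.le (by
      have : (0 : ℝ) ≤ n := Nat.cast_nonneg n
      linarith)
    linarith [hXlt n]
  have hR : ∀ n, ‖U n‖ ≤ (l + ε₀) ^ (1 / (q - 2)) * (1 + (l + ε₀)) := by
    intro n
    rw [hUdef]
    simp only
    rw [norm_smul, Real.norm_of_nonneg (Real.rpow_nonneg (hXpos n).le _)]
    have h1 : (‖X n‖ ^ 2) ^ (1 / (q - 2)) ≤ (l + ε₀) ^ (1 / (q - 2)) :=
      Real.rpow_le_rpow (hXpos n).le (hXle n) (by
        have : 0 < q - 2 := by linarith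
        positivity)
    have h2 : ‖X n‖ ≤ 1 + (l + ε₀) := by
      have := hXle n
      nlinarith [sq_nonneg (‖X n‖ - 1)]
    have h3 : 0 ≤ (l + ε₀) ^ (1 / (q - 2)) := Real.rpow_nonneg (by linarith) _
    gcongr
  obtain ⟨φ, hφ, E, hE⟩ := D.energy_const (p := q - 1) (by linarith) (by linarith) hU hR
  have hen : ∀ n, ∫ x, (D.emb (U n) x) ^ (q - 1 + 1) ∂ν = (‖X n‖ ^ 2) ^ (q / (q - 2)) := by
    intro n
    have h1 : ∫ x, (D.emb (U n) x) ^ (q - 1 + 1) ∂ν = ∫ x, |D.emb (U n) x| ^ q ∂ν := by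
      refine integral_congr_ae ?_
      filter_upwards [(hU n).1] with x hx
      rw [abs_of_nonneg hx, sub_add_cancel]
    rw [h1, hUdef]
    simp only
    rw [D.integral_smul_rpow, (hX n).1, mul_one,
      abs_of_nonneg (Real.rpow_nonneg (hXpos n).le _), ← Real.rpow_mul (hXpos n).le]
    congr 1
    field_simp
  have hexp2 : 0 < q / (q - 2) := by
    have : 0 < q - 2 := by linarith
    positivity
  have hlim : Tendsto (fun n => ‖X n‖ ^ 2) atTop (𝓝 l) := by
    have h1 : Tendsto (fun n : ℕ => l + ε₀ / ((n : ℝ) + 1)) atTop (𝓝 l) := by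
      have h2 := (tendsto_const_div_atTop_nhds_zero_nat ε₀)
      have h3 := (tendsto_add_atTop_iff_nat 1).mpr h2
      have h4 := h3.const_add l
      simpa using h4
    exact tendsto_of_tendsto_of_tendsto_of_le_of_le tendsto_const_nhds h1
      (fun n => (hXgt n).le) (fun n => (hXlt n).le)
  have hlim2 : Tendsto (fun n => (‖X (φ n)‖ ^ 2) ^ (q / (q - 2))) atTop
      (𝓝 (l ^ (q / (q - 2)))) :=
    (hlim.comp hφ.tendsto_atTop).rpow_const (Or.inr hexp2.le)
  have hlim3 : Tendsto (fun n => (‖X (φ n)‖ ^ 2) ^ (q / (q - 2))) atTop (𝓝 E) := by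
    refine tendsto_const_nhds.congr' ?_
    filter_upwards [hE] with n hn
    rw [← hn, hen]
  have hEl : E = l ^ (q / (q - 2)) := tendsto_nhds_unique hlim3 hlim2
  obtain ⟨n, hn⟩ := hE.exists
  rw [hen, hEl] at hn
  have := Real.rpow_lt_rpow hl0.le (hXgt (φ n)) hexp2
  linarith

end Finite

end Dir

end Pool.Agent.MP_5de7bf_an
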