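import Mathlib

/-!
# Substitution of commuting elements of a Banach algebra in a real analytic function

`exists_funCalc`: a function `f` on a normed space, analytic at `0`, can be applied to
tuples of small elements of a Banach algebra; eigenfunctionals are mapped as expected.
-/

set_option autoImplicit false

namespace Pool.Agent.MP_5de7bf_an

open Filter Topology

section FunCalc

variable {ι : Type*} [Fintype ι]
variable {E : Type*} [NormedAddCommGroup E] [NormedSpace ℝ E]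
variable {Y : Type*} [NormedAddCommGroup Y] [NormedSpace ℝ Y]
variable {A : Type*} [NormedRing A] [NormedAlgebra ℝ A]

/-- The monomial `y ↦ π (i 0) y * π (i 1) y * ...`. -/
noncomputable def fcMono (π : ι → (Y →L[ℝ] A)) (n : ℕ) (i : Fin n → ι) :
    ContinuousMultilinearMap ℝ (fun _ : Fin n => Y) A :=
  (ContinuousMultilinearMap.mkPiAlgebraFin ℝ n A).compContinuousLinearMap (fun j => π (i j))

omit [Fintype ι] in
lemma fcMono_apply (π : ι → (Y →L[ℝ] A)) (n : ℕ) (i : Fin n → ι) (y : Fin n → Y) :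
    fcMono π n i y = (List.ofFn (fun j => π (i j) (y j))).prod := by
  simp [fcMono]

omit [Fintype ι] in
lemma norm_fcMono_le (π : ι → (Y →L[ℝ] A)) {κ : ℝ} (hκ : 0 ≤ κ) (hπ : ∀ i, ‖π i‖ ≤ κ) (n : ℕ)
    (i : Fin n → ι) :
    ‖fcMono π n i‖ ≤ max 1 ‖(1 : A)‖ * κ ^ n := by
  refine (ContinuousMultilinearMap.norm_compContinuousLinearMap_le _ _).trans ?_
  have h4 : ∏ j : Fin n, ‖π (i j)‖ ≤ κ ^ n := by
    calc ∏ j : Fin n, ‖π (i j)‖ ≤ ∏ _j : Fin n, κ :=
          Finset.prod_le_prod (fun _ _ => norm_nonneg _) (fun j _ => hπ _)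
      _ = κ ^ n := by simp
  exact mul_le_mul ContinuousMultilinearMap.norm_mkPiAlgebraFin_le h4
          (Finset.prod_nonneg fun _ _ => norm_nonneg _) (by positivity)

/-- The `n`-th term of the power series on `Y` obtained from `p`. -/
noncomputable def fcTerm (b : ι → E) (p : FormalMultilinearSeries ℝ E ℝ) (π : ι → (Y →L[ℝ] A)) :
    FormalMultilinearSeries ℝ Y A := fun n =>
  ∑ i : Fin n → ι, (p n (fun j => b (i j))) • fcMono π n i

lemma fcTerm_apply (b : ι → E) (p : FormalMultilinearSeries ℝ E ℝ) (π : ι → (Y →L[ℝ] A)) (n : ℕ)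
    (y : Fin n → Y) :
    fcTerm b p π n y = ∑ i : Fin n → ι, (p n (fun j => b (i j))) •
      (List.ofFn (fun j => π (i j) (y j))).prod := by
  simp only [← fcMono_apply]
  simp [fcTerm]

lemma norm_fcTerm_le (b : ι → E) (p : FormalMultilinearSeries ℝ E ℝ) (π : ι → (Y →L[ℝ] A))
    {C r β κ : ℝ} (hC : 0 ≤ C)
    (hr : 0 ≤ r) (hβ : 0 ≤ β) (hb : ∀ i, ‖b i‖ ≤ β) (hp : ∀ n, ‖p n‖ ≤ C * r ^ n)
    (hκ : 0 ≤ κ) (hπ : ∀ i, ‖π i‖ ≤ κ) (n : ℕ) :
    ‖fcTerm b p π n‖ ≤ C * (r * β * κ * Fintype.card ι) ^ n * max 1 ‖(1 : A)‖ := by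
  have h0 : ‖fcTerm b p π n‖ ≤ ∑ i : Fin n → ι, ‖(p n (fun j => b (i j))) • fcMono π n i‖ := by
    unfold fcTerm
    exact norm_sum_le _ _
  refine h0.trans ?_
  have h1 : ∀ i : Fin n → ι, ‖(p n (fun j => b (i j))) • fcMono π n i‖
      ≤ C * (r * β) ^ n * (max 1 ‖(1 : A)‖ * κ ^ n) := by
    intro i
    rw [norm_smul]
    have h2 : ‖p n (fun j => b (i j))‖ ≤ C * (r * β) ^ n := by
      refine ((p n).le_opNorm _).trans ?_
      rw [mul_pow, ← mul_assoc]
      refine mul_le_mul (hp n) ?_ (Finset.prod_nonneg fun _ _ => norm_nonneg _) (by positivity)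
      calc ∏ j : Fin n, ‖b (i j)‖ ≤ ∏ _j : Fin n, β :=
            Finset.prod_le_prod (fun _ _ => norm_nonneg _) (fun j _ => hb _)
        _ = β ^ n := by simp
    exact mul_le_mul h2 (norm_fcMono_le π hκ hπ n i) (norm_nonneg _) (by positivity)
  calc _ ≤ ∑ _i : Fin n → ι, C * (r * β) ^ n * (max 1 ‖(1 : A)‖ * κ ^ n) :=
        Finset.sum_le_sum fun i _ => h1 i
    _ = _ := by
      rw [Finset.sum_const, Finset.card_univ, Fintype.card_fun, Fintype.card_fin, nsmul_eq_mul,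
        mul_pow _ (Fintype.card ι : ℝ), mul_pow _ κ]
      push_cast
      ring

lemma fcTerm_radius_pos (b : ι → E) (p : FormalMultilinearSeries ℝ E ℝ) (hp : 0 < p.radius)
    (π : ι → (Y →L[ℝ] A)) :
    0 < (fcTerm b p π).radius := by
  obtain ⟨C, r, hC, hr, h⟩ := p.le_mul_pow_of_radius_pos hp
  obtain ⟨β, hβ, hb⟩ : ∃ β : ℝ, 0 < β ∧ ∀ i, ‖b i‖ ≤ β := by
    refine ⟨∑ i, ‖b i‖ + 1, by positivity, fun i => ?_⟩
    have h3 : ‖b i‖ ≤ ∑ i, ‖b i‖ :=
      Finset.single_le_sum (f := fun i => ‖b i‖) (fun i _ => norm_nonneg _) (Finset.mem_univ i)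
    linarith
  obtain ⟨κ, hκ, hπ⟩ : ∃ κ : ℝ, 0 < κ ∧ ∀ i, ‖π i‖ ≤ κ := by
    refine ⟨∑ i, ‖π i‖ + 1, by positivity, fun i => ?_⟩
    have h3 : ‖π i‖ ≤ ∑ i, ‖π i‖ :=
      Finset.single_le_sum (f := fun i => ‖π i‖) (fun i _ => norm_nonneg _) (Finset.mem_univ i)
    linarith
  set K : ℝ := r * β * κ * (Fintype.card ι) + 1 with hK
  have hKpos : 0 < K := by positivity
  have hKi : 0 ≤ K⁻¹ := by positivity
  have : ((K⁻¹.toNNReal : NNReal) : ENNReal) ≤ (fcTerm b p π).radius := by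
    refine FormalMultilinearSeries.le_radius_of_bound _ (C * max 1 ‖(1 : A)‖) (fun n => ?_)
    rw [Real.coe_toNNReal _ hKi]
    have h1 := norm_fcTerm_le b p π hC.le hr.le hβ.le hb h hκ.le hπ n
    have h2 : (r * β * κ * (Fintype.card ι)) ^ n ≤ K ^ n :=
      pow_le_pow_left₀ (by positivity) (by linarith) n
    calc ‖fcTerm b p π n‖ * (K⁻¹) ^ n
        ≤ (C * K ^ n * max 1 ‖(1 : A)‖) * (K⁻¹) ^ n := by
          gcongr
          refine h1.trans ?_
          gcongr
      _ = C * max 1 ‖(1 : A)‖ := by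
          rw [inv_pow]
          field_simp
  refine lt_of_lt_of_le ?_ this
  rw [ENNReal.coe_pos]
  exact Real.toNNReal_pos.mpr (inv_pos.mpr hKpos)

lemma eigen_list_prod (ψ : A →L[ℝ] ℝ) {n : ℕ} (T : Fin n → A) (c : Fin n → ℝ)
    (h : ∀ j a, ψ (T j * a) = c j * ψ a) :
    ψ ((List.ofFn T).prod) = (∏ j, c j) * ψ 1 := by
  induction n with
  | zero => simp
  | succ n ih =>
    rw [List.ofFn_succ, List.prod_cons, h 0,
      ih (fun j => T j.succ) (fun j => c j.succ) (fun j m => h j.succ m), Fin.prod_univ_succ,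
      mul_assoc]

/-- Substitution of small elements of a Banach algebra in a function analytic at `0`. -/
theorem exists_funCalc [CompleteSpace A] (b : ι → E) {f : E → ℝ} (hf : AnalyticAt ℝ f 0)
    (π : ι → (Y →L[ℝ] A)) :
    ∃ F : Y → A, AnalyticAt ℝ F 0 ∧
      ∃ r : ℝ, 0 < r ∧ ∀ y : Y, ‖y‖ < r → ∀ c : ι → ℝ, ‖∑ i, c i • b i‖ < r →
        ∀ ψ : A →L[ℝ] ℝ, (∀ i a, ψ (π i y * a) = c i * ψ a) →
          ψ (F y) = f (∑ i, c i • b i) * ψ 1 := by
  classical
  obtain ⟨p, R, hp⟩ := hf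
  have hrad := fcTerm_radius_pos b p (hp.radius_pos) π
  have hF := (fcTerm b p π).hasFPowerSeriesOnBall hrad
  refine ⟨(fcTerm b p π).sum, hF.analyticAt, ?_⟩
  obtain ⟨r₀, hr₀, hr₀'⟩ := ENNReal.lt_iff_exists_nnreal_btwn.1
    (lt_min hrad hp.r_pos)
  refine ⟨r₀, by exact_mod_cast hr₀, fun y hy c hc ψ hψ => ?_⟩
  have hy' : y ∈ Metric.eball (0 : Y) (fcTerm b p π).radius := by
    rw [Metric.mem_eball, edist_dist, dist_zero_right]
    refine lt_trans ?_ (lt_of_lt_of_le hr₀' (min_le_left _ _))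
    rw [← ENNReal.ofReal_coe_nnreal]
    exact (ENNReal.ofReal_lt_ofReal_iff_of_nonneg (norm_nonneg _)).mpr hy
  have hc' : (∑ i, c i • b i) ∈ Metric.eball (0 : E) R := by
    rw [Metric.mem_eball, edist_dist, dist_zero_right]
    refine lt_trans ?_ (lt_of_lt_of_le hr₀' (min_le_right _ _))
    rw [← ENNReal.ofReal_coe_nnreal]
    exact (ENNReal.ofReal_lt_ofReal_iff_of_nonneg (norm_nonneg _)).mpr hc
  have h1 := hF.hasSum hy'
  have h2 := hp.hasSum hc'
  rw [zero_add] at h1 h2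
  have h3 : HasSum (fun n => ψ (fcTerm b p π n (fun _ => y)))
      (ψ ((fcTerm b p π).sum y)) := by
    have := ψ.hasSum h1
    simpa using this
  have h4 : HasSum (fun n => ψ (fcTerm b p π n (fun _ => y)))
      (f (∑ i, c i • b i) * ψ 1) := by
    have h5 := h2.mul_right (ψ 1)
    have h6 : (fun n => ψ (fcTerm b p π n (fun _ => y))) =
        fun n => (p n) (fun _ => ∑ i, c i • b i) * ψ 1 := by
      funext n
      have h7 : (p n) (fun _ => ∑ i, c i • b i) =
          ∑ i : Fin n → ι, (∏ j, c (i j)) * p n (fun j => b (i j)) := by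
        have h8 := (p n).toMultilinearMap.map_sum (fun (_ : Fin n) i => c i • b i)
        simp only [MultilinearMap.map_smul_univ] at h8
        exact h8
      rw [fcTerm_apply, h7, Finset.sum_mul]
      simp only [map_sum, map_smul, smul_eq_mul]
      refine Finset.sum_congr rfl (fun i _ => ?_)
      rw [eigen_list_prod ψ (fun j => π (i j) y) (fun j => c (i j)) (fun j m => hψ _ m)]
      ring
    rw [h6]
    exact h5
  exact h3.unique h4

end FunCalc

end Pool.Agent.MP_5de7bf_an
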