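import Mathlib

/-!
# The Banach algebra of essentially bounded functions
-/

set_option autoImplicit false

namespace Pool.Agent.MP_5de7bf_an

open Filter Topology MeasureTheory
open scoped ENNReal

section Ring

variable {α : Type*} [MeasurableSpace α] {μ : Measure α}

/-- Essentially bounded functions modulo null sets. -/
def Linf (μ : Measure α) : Type _ := Lp ℝ ∞ μ

namespace Linf

/-- The class of measurable functions. -/
noncomputable def val (f : Linf μ) : α →ₘ[μ] ℝ := Subtype.val (f : Lp ℝ ∞ μ)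

lemma val_injective : Function.Injective (val : Linf μ → (α →ₘ[μ] ℝ)) := Subtype.val_injective

noncomputable instance : CoeFun (Linf μ) (fun _ => α → ℝ) := ⟨fun f => (f.val : α → ℝ)⟩

/-- The underlying element of `Lp`. -/
def toLp' (f : Linf μ) : Lp ℝ ∞ μ := f

lemma memLp (f : Linf μ) : MemLp f ∞ μ := Lp.memLp (toLp' f)

lemma aesm (f : Linf μ) : AEStronglyMeasurable f μ := (memLp f).1

/-- Constructor. -/
noncomputable def mk (f : α → ℝ) (hf : MemLp f ∞ μ) : Linf μ := hf.toLp f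

lemma coeFn_mk (f : α → ℝ) (hf : MemLp f ∞ μ) : ∀ᵐ x ∂μ, mk f hf x = f x := hf.coeFn_toLp

lemma ext_ae {f g : Linf μ} (h : ∀ᵐ x ∂μ, f x = g x) : f = g := by
  apply val_injective
  exact AEEqFun.ext h

noncomputable instance : AddCommGroup (Linf μ) := inferInstanceAs (AddCommGroup (Lp ℝ ∞ μ))

lemma mem_of_memLp {g : α →ₘ[μ] ℝ} (h : MemLp g ∞ μ) : g ∈ Lp ℝ ∞ μ := Lp.mem_Lp_iff_memLp.mpr h

noncomputable instance : Mul (Linf μ) :=
  ⟨fun f g => (⟨f.val * g.val, mem_of_memLp
    (((memLp f).mul (p := ∞) (q := ∞) (r := ∞) (memLp g)).ae_eq (by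
      filter_upwards [AEEqFun.coeFn_mul f.val g.val] with x hx
      rw [hx]
      simp [mul_comm]))⟩ : Lp ℝ ∞ μ)⟩

noncomputable instance : One (Linf μ) :=
  ⟨(⟨1, mem_of_memLp (((memLp_top_const (1 : ℝ)) : MemLp (fun _ : α => (1 : ℝ)) ∞ μ).ae_eq (by
      filter_upwards [AEEqFun.coeFn_one (α := α) (μ := μ) (β := ℝ)] with x hx
      rw [hx]
      rfl))⟩ : Lp ℝ ∞ μ)⟩

lemma val_mul (f g : Linf μ) : (f * g).val = f.val * g.val := rfl
lemma val_one : (1 : Linf μ).val = 1 := rfl
lemma val_add (f g : Linf μ) : (f + g).val = f.val + g.val := rfl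
lemma val_zero : (0 : Linf μ).val = 0 := rfl

lemma coeFn_mul (f g : Linf μ) : ∀ᵐ x ∂μ, (f * g) x = f x * g x := AEEqFun.coeFn_mul f.val g.val

lemma coeFn_one : ∀ᵐ x ∂μ, (1 : Linf μ) x = 1 := AEEqFun.coeFn_one

lemma coeFn_add (f g : Linf μ) : ∀ᵐ x ∂μ, (f + g) x = f x + g x := AEEqFun.coeFn_add f.val g.val

lemma coeFn_zero : ∀ᵐ x ∂μ, (0 : Linf μ) x = 0 := AEEqFun.coeFn_zero

noncomputable instance : CommRing (Linf μ) :=
  { (inferInstance : AddCommGroup (Linf μ)) with
    mul := fun f g => f * g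
    one := 1
    left_distrib := fun a b c => ext_ae (by
      filter_upwards [coeFn_mul a (b + c), coeFn_add b c, coeFn_add (a * b) (a * c),
        coeFn_mul a b, coeFn_mul a c] with x h1 h2 h3 h4 h5
      rw [h1, h2, h3, h4, h5, mul_add])
    right_distrib := fun a b c => ext_ae (by
      filter_upwards [coeFn_mul (a + b) c, coeFn_add a b, coeFn_add (a * c) (b * c),
        coeFn_mul a c, coeFn_mul b c] with x h1 h2 h3 h4 h5
      rw [h1, h2, h3, h4, h5, add_mul])
    zero_mul := fun a => ext_ae (by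
      filter_upwards [coeFn_mul 0 a, coeFn_zero (μ := μ)] with x h1 h2
      rw [h1, h2, zero_mul])
    mul_zero := fun a => ext_ae (by
      filter_upwards [coeFn_mul a 0, coeFn_zero (μ := μ)] with x h1 h2
      rw [h1, h2, mul_zero])
    mul_assoc := fun a b c => val_injective (mul_assoc a.val b.val c.val)
    one_mul := fun a => val_injective (one_mul a.val)
    mul_one := fun a => val_injective (mul_one a.val)
    mul_comm := fun a b => val_injective (mul_comm a.val b.val) }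

noncomputable instance : Norm (Linf μ) := inferInstanceAs (Norm (Lp ℝ ∞ μ))

lemma ae_le_norm (f : Linf μ) : ∀ᵐ x ∂μ, |f x| ≤ ‖f‖ := by
  have h1 : ∀ᵐ x ∂μ, ‖f x‖ₑ ≤ eLpNormEssSup f μ := ae_le_eLpNormEssSup
  have h2 : ‖f‖ = (eLpNorm f ∞ μ).toReal := rfl
  filter_upwards [h1] with x hx
  rw [h2, eLpNorm_exponent_top]
  have h3 : eLpNormEssSup f μ ≠ ∞ := by
    have := (memLp f).2
    rw [eLpNorm_exponent_top] at this
    exact this.ne
  have h4 := ENNReal.toReal_mono h3 hx
  simpa using h4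

lemma norm_le_of_ae {f : Linf μ} {c : ℝ} (hc : 0 ≤ c) (h : ∀ᵐ x ∂μ, |f x| ≤ c) : ‖f‖ ≤ c := by
  have h2 : ‖f‖ = (eLpNorm f ∞ μ).toReal := rfl
  rw [h2, eLpNorm_exponent_top]
  refine ENNReal.toReal_le_of_le_ofReal hc ?_
  exact eLpNormEssSup_le_of_ae_bound h

noncomputable instance : MetricSpace (Linf μ) := inferInstanceAs (MetricSpace (Lp ℝ ∞ μ))

instance : CompleteSpace (Linf μ) := inferInstanceAs (CompleteSpace (Lp ℝ ∞ μ))

lemma dist_eq' (f g : Linf μ) : dist f g = ‖-f + g‖ := rfl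

noncomputable instance : NormedCommRing (Linf μ) :=
  { (inferInstance : CommRing (Linf μ)), (inferInstance : MetricSpace (Linf μ)),
    (inferInstance : Norm (Linf μ)) with
    dist_eq := fun f g => dist_eq' f g
    norm_mul_le := fun f g => by
      refine norm_le_of_ae (mul_nonneg ?_ ?_) ?_
      · exact ENNReal.toReal_nonneg
      · exact ENNReal.toReal_nonneg
      · filter_upwards [coeFn_mul f g, ae_le_norm f, ae_le_norm g] with x h1 h2 h3
        rw [h1, abs_mul]
        exact mul_le_mul h2 h3 (abs_nonneg _) ((abs_nonneg _).trans h2) }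

noncomputable instance : Module ℝ (Linf μ) := inferInstanceAs (Module ℝ (Lp ℝ ∞ μ))

lemma coeFn_smul (c : ℝ) (f : Linf μ) : ∀ᵐ x ∂μ, (c • f) x = c * f x :=
  AEEqFun.coeFn_smul c f.val

noncomputable instance : Algebra ℝ (Linf μ) :=
  Algebra.ofModule
    (fun r x y => ext_ae (by
      filter_upwards [coeFn_mul (r • x) y, coeFn_smul r x, coeFn_smul r (x * y), coeFn_mul x y]
        with z h1 h2 h3 h4
      rw [h1, h2, h3, h4, mul_assoc]))
    (fun r x y => ext_ae (by
      filter_upwards [coeFn_mul x (r • y), coeFn_smul r y, coeFn_smul r (x * y), coeFn_mul x y]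
        with z h1 h2 h3 h4
      rw [h1, h2, h3, h4]
      ring))

noncomputable instance : NormedAlgebra ℝ (Linf μ) :=
  { (inferInstance : Algebra ℝ (Linf μ)) with
    norm_smul_le := fun r x => by
      refine norm_le_of_ae (mul_nonneg (norm_nonneg _) (norm_nonneg _)) ?_
      filter_upwards [coeFn_smul r x, ae_le_norm x] with z h1 h2
      rw [h1, abs_mul]
      gcongr
      exact le_of_eq (Real.norm_eq_abs r).symm }

lemma coeFn_sub (f g : Linf μ) : ∀ᵐ x ∂μ, (f - g) x = f x - g x := by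
  have h : f - g = f + (-1 : ℝ) • g := by
    rw [neg_one_smul, sub_eq_add_neg]
  filter_upwards [coeFn_add f ((-1 : ℝ) • g), coeFn_smul (-1) g] with x h1 h2
  rw [h, h1, h2]
  ring

lemma coeFn_pow (f : Linf μ) (n : ℕ) : ∀ᵐ x ∂μ, (f ^ n) x = f x ^ n := by
  induction n with
  | zero =>
    filter_upwards [coeFn_one (μ := μ)] with x hx
    rw [pow_zero, pow_zero, hx]
  | succ n ih =>
    filter_upwards [coeFn_mul (f ^ n) f, ih] with x h1 h2
    rw [pow_succ, h1, h2, pow_succ]

lemma coeFn_sum {ι : Type*} (s : Finset ι) (f : ι → Linf μ) :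
    ∀ᵐ x ∂μ, (∑ i ∈ s, f i) x = ∑ i ∈ s, f i x := by
  classical
  induction s using Finset.induction with
  | empty =>
    filter_upwards [coeFn_zero (μ := μ)] with x hx
    simp [hx]
  | insert a s ha ih =>
    filter_upwards [coeFn_add (f a) (∑ i ∈ s, f i), ih] with x h1 h2
    rw [Finset.sum_insert ha, Finset.sum_insert ha, h1, h2]

/-- Convergence in norm implies pointwise convergence almost everywhere. -/
lemma tendsto_ae {f : ℕ → Linf μ} {g : Linf μ} (h : Tendsto f atTop (𝓝 g)) :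
    ∀ᵐ x ∂μ, Tendsto (fun n => f n x) atTop (𝓝 (g x)) := by
  have h1 : ∀ᵐ x ∂μ, ∀ n, |(f n - g) x| ≤ ‖f n - g‖ := by
    rw [ae_all_iff]
    exact fun n => ae_le_norm _
  have h2 : ∀ᵐ x ∂μ, ∀ n, (f n - g) x = f n x - g x := by
    rw [ae_all_iff]
    exact fun n => coeFn_sub _ _
  have h3 := tendsto_iff_norm_sub_tendsto_zero.mp h
  filter_upwards [h1, h2] with x h4 h5
  rw [tendsto_iff_norm_sub_tendsto_zero]
  refine squeeze_zero (fun _ => norm_nonneg _) (fun n => ?_) h3
  rw [Real.norm_eq_abs, ← h5 n]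
  exact h4 n

/-- The exponential is computed pointwise. -/
lemma coeFn_exp (v : Linf μ) : ∀ᵐ x ∂μ, (NormedSpace.exp v) x = Real.exp (v x) := by
  have h1 := (NormedSpace.exp_series_hasSum_exp' (𝕂 := ℝ) v).tendsto_sum_nat
  have h2 : ∀ᵐ x ∂μ, ∀ N : ℕ, (∑ n ∈ Finset.range N, ((n.factorial : ℝ)⁻¹) • v ^ n) x =
      ∑ n ∈ Finset.range N, ((n.factorial : ℝ)⁻¹) * v x ^ n := by
    rw [ae_all_iff]
    intro N
    have h3 : ∀ᵐ x ∂μ, ∀ n : ℕ, (((n.factorial : ℝ)⁻¹) • v ^ n) x = ((n.factorial : ℝ)⁻¹) * v x ^ n := by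
      rw [ae_all_iff]
      intro n
      filter_upwards [coeFn_smul ((n.factorial : ℝ)⁻¹) (v ^ n), coeFn_pow v n] with x h4 h5
      rw [h4, h5]
    filter_upwards [coeFn_sum (Finset.range N) (fun n => ((n.factorial : ℝ)⁻¹) • v ^ n), h3]
      with x h4 h5
    rw [h4]
    exact Finset.sum_congr rfl fun n _ => h5 n
  filter_upwards [tendsto_ae h1, h2] with x h3 h4
  have h5 := (NormedSpace.exp_series_hasSum_exp' (𝕂 := ℝ) (v x)).tendsto_sum_nat
  rw [← Real.exp_eq_exp_ℝ] at h5
  refine tendsto_nhds_unique h3 ?_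
  refine h5.congr (fun N => ?_)
  rw [h4 N]
  rfl

end Linf

end Ring

end Pool.Agent.MP_5de7bf_an
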