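import Pool.Agent.Lib.MP_5de7bf_an.Sob7

/-!
# Finiteness of low eigenvalues, with definitions written out
-/

set_option autoImplicit false
set_option linter.unusedSectionVars false

namespace Pool.Agent.MP_5de7bf_an

open Filter Topology MeasureTheory
open scoped ENNReal NNReal Gradient

variable {α : Type*} [MeasurableSpace α]

namespace Dir

variable {ν : Measure α} {H : Type*} [NormedAddCommGroup H] [InnerProductSpace ℝ H]
  (D : Dir ν H)

variable [IsFiniteMeasure ν]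

/-- The equation with a multiplier may be tested on a dense set, and the multiplier is the
energy. -/
theorem crit_of_dense_mult {q : ℝ} (hq : 1 < q) (hqs : q ≤ D.s) {X : H} {lam : ℝ}
    (h1 : ∫ x, |D.emb X x| ^ q ∂ν = 1)
    (h : ∀ (Y : H) (ε : ℝ), 0 < ε → ∃ Z : H, ‖Y - Z‖ < ε ∧
      inner ℝ X Z = lam * ∫ x, |D.emb X x| ^ (q - 2) * D.emb X x * D.emb Z x ∂ν) :
    D.Crit q X ∧ lam = ‖X‖ ^ 2 := by
  obtain ⟨K, hK0, hK⟩ := D.critF_bound hq hqs X
  have hall : ∀ Y : H, inner ℝ X Y = lam * D.critF q X Y := by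
    intro Y
    have key : ∀ ε : ℝ, 0 < ε → |inner ℝ X Y - lam * D.critF q X Y| ≤
        (‖X‖ + |lam| * K) * ε := by
      intro ε hε
      obtain ⟨Z, hZ, hZe⟩ := h Y ε hε
      have h2 : inner ℝ X Y - lam * D.critF q X Y =
          inner ℝ X (Y - Z) - lam * D.critF q X (Y - Z) := by
        rw [inner_sub_right, D.critF_sub hq hqs, hZe]
        unfold critF
        ring
      rw [h2]
      have h3 : |inner ℝ X (Y - Z)| ≤ ‖X‖ * ‖Y - Z‖ := abs_real_inner_le_norm _ _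
      have h4 := hK (Y - Z)
      calc |inner ℝ X (Y - Z) - lam * D.critF q X (Y - Z)|
          ≤ |inner ℝ X (Y - Z)| + |lam * D.critF q X (Y - Z)| := abs_sub _ _
        _ ≤ ‖X‖ * ‖Y - Z‖ + |lam| * (K * ‖Y - Z‖) := by
            rw [abs_mul]
            gcongr
        _ = (‖X‖ + |lam| * K) * ‖Y - Z‖ := by ring
        _ ≤ _ := by gcongr
    have h0 : |inner ℝ X Y - lam * D.critF q X Y| ≤ 0 := by
      refine le_of_forall_pos_le_add (fun δ hδ => ?_)
      have h2 : 0 ≤ ‖X‖ + |lam| * K := by positivity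
      have h3 := key (δ / (‖X‖ + |lam| * K + 1)) (by positivity)
      have h4 : (‖X‖ + |lam| * K) * (δ / (‖X‖ + |lam| * K + 1)) ≤ δ := by
        rw [mul_div_assoc', div_le_iff₀ (by positivity)]
        nlinarith
      linarith
    have h2 : inner ℝ X Y - lam * D.critF q X Y = 0 := abs_nonpos_iff.mp h0
    linarith
  have hself : D.critF q X X = 1 := by
    rw [← h1]
    unfold critF
    refine integral_congr_ae (Eventually.of_forall fun x => ?_)
    simp only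
    rcases eq_or_ne (D.emb X x) 0 with h2 | h2
    · rw [h2, mul_zero, abs_zero, Real.zero_rpow (by linarith)]
    · have h3 : 0 < |D.emb X x| := abs_pos.mpr h2
      have h4 : q = (q - 2) + 1 + 1 := by ring
      conv_rhs => rw [h4, Real.rpow_add h3, Real.rpow_add h3, Real.rpow_one]
      rw [mul_assoc, mul_assoc, abs_mul_abs_self]
  have hlam : lam = ‖X‖ ^ 2 := by
    have h2 := hall X
    rw [hself, mul_one, real_inner_self_eq_norm_sq] at h2
    exact h2.symm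
  refine ⟨⟨h1, fun Y => ?_⟩, hlam⟩
  rw [hall Y, hlam]
  rfl

variable [CompleteSpace H]

/-- Below any bound there are only finitely many critical values of nonnegative critical
points. -/
theorem finite_pos {q : ℝ} (hq : 2 < q) (hqs : q < D.s) (R : ℝ) :
    {t : ℝ | t ≤ R ∧ ∃ X : H, D.Crit q X ∧ (∀ᵐ x ∂ν, 0 ≤ D.emb X x) ∧ t = ‖X‖ ^ 2}.Finite := by
  by_contra hcon
  have hinf : {t : ℝ | t ≤ R ∧ ∃ X : H, D.Crit q X ∧ (∀ᵐ x ∂ν, 0 ≤ D.emb X x) ∧
      t = ‖X‖ ^ 2}.Infinite := hcon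
  set f := hinf.natEmbedding with hf
  have hfs : ∀ n, (f n : ℝ) ≤ R ∧ ∃ X : H, D.Crit q X ∧ (∀ᵐ x ∂ν, 0 ≤ D.emb X x) ∧
      (f n : ℝ) = ‖X‖ ^ 2 := fun n => (f n).2
  choose hfR X hX hX0 hXf using hfs
  have hq0 : 0 < q := by linarith
  have hne : (D.vals q).Nonempty := ⟨‖X 0‖ ^ 2, X 0, (hX 0).1, rfl⟩
  have hl0 : 0 < sInf (D.vals q) := D.sInf_pos hq0 hqs.le hne
  have hXpos : ∀ n, 0 < ‖X n‖ ^ 2 := fun n => hl0.trans_le (D.sInf_le_of (hX n).1)
  have hR0 : 0 < R := (hXpos 0).trans_le (by rw [← hXf 0]; exact hfR 0)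
  set U : ℕ → H := fun n => (‖X n‖ ^ 2) ^ (1 / (q - 2)) • X n with hUdef
  have hU : ∀ n, D.Pos (q - 1) (U n) := fun n => Crit.pos D hq (hX n) (hX0 n) (hXpos n)
  have hXle : ∀ n, ‖X n‖ ^ 2 ≤ R := fun n => by rw [← hXf n]; exact hfR n
  have hR : ∀ n, ‖U n‖ ≤ R ^ (1 / (q - 2)) * (1 + R) := by
    intro n
    rw [hUdef]
    simp only
    rw [norm_smul, Real.norm_of_nonneg (Real.rpow_nonneg (hXpos n).le _)]
    have h1 : (‖X n‖ ^ 2) ^ (1 / (q - 2)) ≤ R ^ (1 / (q - 2)) :=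
      Real.rpow_le_rpow (hXpos n).le (hXle n) (by
        have : 0 < q - 2 := by linarith
        positivity)
    have h2 : ‖X n‖ ≤ 1 + R := by
      have := hXle n
      nlinarith [sq_nonneg (‖X n‖ - 1)]
    have h3 : 0 ≤ R ^ (1 / (q - 2)) := Real.rpow_nonneg hR0.le _
    gcongr
  obtain ⟨φ, hφ, E, hE⟩ := D.energy_const (p := q - 1) (by linarith) (by linarith) hU hR
  have hen : ∀ n, ∫ x, (D.emb (U n) x) ^ (q - 1 + 1) ∂ν = (‖X n‖ ^ 2) ^ (q / (q - 2)) := by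
    intro n
    have h1 : ∫ x, (D.emb (U n) x) ^ (q - 1 + 1) ∂ν = ∫ x, |D.emb (U n) x| ^ q ∂ν := by
      refine integral_congr_ae ?_
      filter_upwards [(hU n).1] with x hx
      rw [abs_of_nonneg hx, sub_add_cancel]
    rw [h1, hUdef]
    simp only
    rw [D.integral_smul_rpow, (hX n).1, mul_one,
      abs_of_nonneg (Real.rpow_nonneg (hXpos n).le _), ← Real.rpow_mul (hXpos n).le]
    congr 1
    field_simp
  have hexp2 : 0 < q / (q - 2) := by
    have : 0 < q - 2 := by linarith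
    positivity
  obtain ⟨n₀, hn₀⟩ := eventually_atTop.mp hE
  have h1 := hn₀ n₀ le_rfl
  have h2 := hn₀ (n₀ + 1) (Nat.le_succ _)
  rw [hen] at h1 h2
  have h3 : ‖X (φ n₀)‖ ^ 2 = ‖X (φ (n₀ + 1))‖ ^ 2 := by
    rcases lt_trichotomy (‖X (φ n₀)‖ ^ 2) (‖X (φ (n₀ + 1))‖ ^ 2) with h | h | h
    · have := Real.rpow_lt_rpow (hXpos _).le h hexp2
      linarith
    · exact h
    · have := Real.rpow_lt_rpow (hXpos _).le h hexp2
      linarith
  rw [← hXf, ← hXf] at h3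
  have h4 : φ n₀ = φ (n₀ + 1) := f.injective (Subtype.ext h3)
  have h5 : n₀ = n₀ + 1 := hφ.injective h4
  omega

/-- Only finitely many critical values lie below `2 ^ (1 - 2 / q)` times the least value. -/
theorem finite_low {q : ℝ} (hq : 2 < q) (hqs : q < D.s) :
    {t : ℝ | t ≤ 2 ^ (1 - 2 / q) * sInf (D.vals q) ∧ ∃ X : H, D.Crit q X ∧
      t = ‖X‖ ^ 2}.Finite := by
  refine ((D.finite_pos hq hqs (2 ^ (1 - 2 / q) * sInf (D.vals q))).union
    (Set.finite_singleton (2 ^ (1 - 2 / q) * sInf (D.vals q)))).subset ?_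
  rintro t ⟨ht, X, hX, rfl⟩
  rcases ht.eq_or_lt with h | h
  · right
    exact h
  · left
    refine ⟨ht, ?_⟩
    rcases Crit.sign D hq hqs hX h with h1 | h1
    · exact ⟨X, hX, h1, rfl⟩
    · exact ⟨-X, Crit.neg D hX, h1, by rw [norm_neg]⟩

end Dir

variable {N : ℕ} {Ω : Set (EuclideanSpace ℝ (Fin N))}

/-- A smooth function on `ℝ^N` with compact support contained in `Ω`. -/
def IsTestFunction (Ω : Set (EuclideanSpace ℝ (Fin N))) (φ : EuclideanSpace ℝ (Fin N) → ℝ) :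
    Prop :=
  ContDiff ℝ (⊤ : ℕ∞) φ ∧ HasCompactSupport φ ∧ tsupport φ ⊆ Ω

/-- `u` belongs to `H^1_0(Ω)` (extended by zero) and `G` is its weak gradient: both are limits in
`L²` of test functions and of their gradients. -/
def InH10 (Ω : Set (EuclideanSpace ℝ (Fin N))) (u : EuclideanSpace ℝ (Fin N) → ℝ)
    (G : EuclideanSpace ℝ (Fin N) → EuclideanSpace ℝ (Fin N)) : Prop :=
  MemLp u 2 volume ∧ MemLp G 2 volume ∧
    ∃ φ : ℕ → EuclideanSpace ℝ (Fin N) → ℝ, (∀ n, IsTestFunction Ω (φ n)) ∧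
      Tendsto (fun n => eLpNorm (fun x => φ n x - u x) 2 volume) atTop (𝓝 0) ∧
      Tendsto (fun n => eLpNorm (fun x => gradient (φ n) x - G x) 2 volume) atTop (𝓝 0)

/-- `u`, with weak gradient `G`, is a nonzero weak solution in `H^1_0(Ω)` of
`-Δ u = lam ‖u‖_q ^ (2 - q) |u| ^ (q - 2) u`. -/
def IsEigenfunction (Ω : Set (EuclideanSpace ℝ (Fin N))) (q lam : ℝ)
    (u : EuclideanSpace ℝ (Fin N) → ℝ)
    (G : EuclideanSpace ℝ (Fin N) → EuclideanSpace ℝ (Fin N)) : Prop :=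
  InH10 Ω u G ∧ ¬ (∀ᵐ x, u x = 0) ∧
    ∀ ψ : EuclideanSpace ℝ (Fin N) → ℝ, IsTestFunction Ω ψ →
      ∫ x, inner ℝ (G x) (gradient ψ x) =
        lam * (eLpNorm u (ENNReal.ofReal q) volume).toReal ^ (2 - q) *
          ∫ x, |u x| ^ (q - 2) * u x * ψ x

/-- The set of `q`-eigenvalues. -/
def qSpectrum (Ω : Set (EuclideanSpace ℝ (Fin N))) (q : ℝ) : Set ℝ :=
  {lam | ∃ u G, IsEigenfunction Ω q lam u G}

/-- The first `q`-eigenvalue: the least energy on the unit sphere of `L^q`. -/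
noncomputable def firstEigenvalue (Ω : Set (EuclideanSpace ℝ (Fin N))) (q : ℝ) : ℝ :=
  sInf {t : ℝ | ∃ u G, InH10 Ω u G ∧ eLpNorm u (ENNReal.ofReal q) volume = 1 ∧
    t = ∫ x, ‖G x‖ ^ 2}

namespace SobData

variable (S : SobData Ω)

include S in
lemma memLp_q' {q : ℝ} (hqs : q ≤ S.s) {u : EuclideanSpace ℝ (Fin N) → ℝ}
    {G : EuclideanSpace ℝ (Fin N) → EuclideanSpace ℝ (Fin N)} (h : Pair volume Ω u G) :
    eLpNorm u (ENNReal.ofReal q) volume ≠ ⊤ := by
  rw [← eLpNorm_restrict_of_ae_zero S.meas h.ae_zero]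
  exact (S.memLp_q hqs h).2.ne

/-- Eigenfunctions give critical points with energy equal to the eigenvalue. -/
lemma crit_of_eigen {q : ℝ} (hq : 2 < q) (hqs : q ≤ S.s) {lam : ℝ}
    {u : EuclideanSpace ℝ (Fin N) → ℝ}
    {G : EuclideanSpace ℝ (Fin N) → EuclideanSpace ℝ (Fin N)}
    (h : IsEigenfunction Ω q lam u G) :
    ∃ X : hsub Ω, S.dir.Crit q X ∧ lam = ‖X‖ ^ 2 ∧
      ((∀ᵐ x, 0 ≤ u x) → ∀ᵐ x ∂((volume : Measure (EuclideanSpace ℝ (Fin N))).restrict Ω),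
        0 ≤ S.dir.emb X x) := by
  have := S.finite_restrict
  obtain ⟨hp0, hne, heq⟩ := h
  have hp : Pair volume Ω u G := hp0
  have hq0 : 0 < q := by linarith
  set n := eLpNorm u (ENNReal.ofReal q) volume with hn
  have hntop : n ≠ ⊤ := S.memLp_q' hqs hp
  have hn0 : n ≠ 0 := by
    intro h0
    apply hne
    rw [hn, eLpNorm_eq_zero_iff hp.1.1 (by simpa using hq0)] at h0
    exact h0
  set c := n.toReal with hc
  have hc0 : 0 < c := ENNReal.toReal_pos hn0 hntop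
  have hp' : Pair volume Ω (fun x => c⁻¹ * u x) (fun x => c⁻¹ • G x) := hp.smul c⁻¹
  have hnorm : eLpNorm (fun x => c⁻¹ * u x) (ENNReal.ofReal q) volume = 1 := by
    have h1 : (fun x => c⁻¹ * u x) = c⁻¹ • u := by
      funext x
      simp
    rw [h1, eLpNorm_const_smul, ← hn]
    have h2 : ‖c⁻¹‖ₑ = n⁻¹ := by
      rw [Real.enorm_eq_ofReal (by positivity), ENNReal.ofReal_inv_of_pos hc0, hc,
        ENNReal.ofReal_toReal hntop]
    rw [h2, ENNReal.inv_mul_cancel hn0 hntop]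
  refine ⟨ofPair hp', ?_⟩
  have hmain := S.dir.crit_of_dense_mult (q := q) (by linarith) hqs (X := ofPair hp')
    (lam := lam) ?_ ?_
  · refine ⟨hmain.1, hmain.2, fun hpos => ?_⟩
    filter_upwards [S.emb_spec (pair_ofPair hp'), ae_restrict_of_ae hpos] with x h1 h2
    rw [dir_emb, h1]
    positivity
  · rw [dir_emb, S.int_congr _ (pair_ofPair hp')]
    exact (S.eLpNorm_one_iff hq0 hqs hp').mp hnorm
  · intro Y ε hε
    obtain ⟨ψ, hψ, Z, hZ, hZe, hlt⟩ := dense_test Y hε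
    refine ⟨Z, hlt, ?_⟩
    have h3 : inner ℝ (ofPair hp') Z = c⁻¹ * ∫ x, inner ℝ (G x) (gradient ψ x) := by
      rw [inner_eq, ← integral_const_mul]
      refine integral_congr_ae ?_
      filter_upwards [gfn_ofPair hp', hZe] with x h4 h5
      rw [h4, h5, real_inner_smul_left]
    have h5 : ∫ x, |S.dir.emb (ofPair hp') x| ^ (q - 2) * S.dir.emb (ofPair hp') x *
        S.dir.emb Z x ∂(volume.restrict Ω) =
        c⁻¹ * c ^ (2 - q) * ∫ x, |u x| ^ (q - 2) * u x * ψ x := by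
      have h6 : ∫ x, |S.dir.emb (ofPair hp') x| ^ (q - 2) * S.dir.emb (ofPair hp') x *
          S.dir.emb Z x ∂(volume.restrict Ω) =
          ∫ x in Ω, c⁻¹ * c ^ (2 - q) * (|u x| ^ (q - 2) * u x * ψ x) := by
        refine integral_congr_ae ?_
        filter_upwards [S.emb_spec (pair_ofPair hp'), S.emb_spec hZ] with x h7 h8
        rw [dir_emb, dir_emb, h7, h8, abs_mul, abs_of_pos (inv_pos.mpr hc0),
          Real.mul_rpow (inv_pos.mpr hc0).le (abs_nonneg _), Real.inv_rpow hc0.le,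
          ← Real.rpow_neg hc0.le, neg_sub]
        ring
      rw [h6, ← integral_const_mul]
      refine setIntegral_eq_integral_of_forall_compl_eq_zero (fun x hx => ?_)
      rw [hψ.eq_zero_of_notMem hx, mul_zero, mul_zero]
    rw [h3, h5, heq ψ hψ]
    ring

end SobData

theorem own_main (hN : 2 ≤ N) (hΩ : IsOpen Ω) (hΩb : Bornology.IsBounded Ω) {q : ℝ}
    (hq : 2 < q) (hqN : ((N : ℝ) - 2) * q < 2 * (N : ℝ)) :
    (∀ lam ∈ qSpectrum Ω q, 0 < firstEigenvalue Ω q ∧ firstEigenvalue Ω q ≤ lam) ∧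
    (∃ ε : ℝ, 0 < ε ∧ ∀ lam ∈ qSpectrum Ω q, |lam - firstEigenvalue Ω q| < ε →
      lam = firstEigenvalue Ω q) ∧
    {lam ∈ qSpectrum Ω q | lam ≤ 2 ^ (1 - 2 / q) * firstEigenvalue Ω q}.Finite ∧
    (∀ R : ℝ, {lam : ℝ | lam ≤ R ∧ ∃ u G, IsEigenfunction Ω q lam u G ∧
      ∀ᵐ x, 0 ≤ u x}.Finite) := by
  obtain ⟨S, hS⟩ := exists_sobData hN hΩ hΩb hq hqN
  have := S.finite_restrict
  have := S.complete
  have hq0 : 0 < q := by linarith
  have hfe : firstEigenvalue Ω q = sInf (S.dir.vals q) := by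
    rw [← S.vals_eq hq0 hS.le]
    rfl
  have h1 : ∀ lam ∈ qSpectrum Ω q, 0 < firstEigenvalue Ω q ∧ firstEigenvalue Ω q ≤ lam := by
    rintro lam ⟨u, G, h⟩
    obtain ⟨X, hX, hlam, -⟩ := S.crit_of_eigen hq hS.le h
    rw [hfe, hlam]
    exact ⟨S.dir.sInf_pos hq0 hS.le ⟨‖X‖ ^ 2, X, hX.1, rfl⟩, S.dir.sInf_le_of hX.1⟩
  have h3 : {lam ∈ qSpectrum Ω q | lam ≤ 2 ^ (1 - 2 / q) * firstEigenvalue Ω q}.Finite := by
    refine (S.dir.finite_low hq hS).subset ?_
    rintro lam ⟨⟨u, G, h⟩, hle⟩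
    obtain ⟨X, hX, hlam, -⟩ := S.crit_of_eigen hq hS.le h
    rw [hfe] at hle
    exact ⟨hle, X, hX, hlam⟩
  refine ⟨h1, ?_, h3, ?_⟩
  · rcases (qSpectrum Ω q).eq_empty_or_nonempty with he | ⟨lam₀, h₀⟩
    · refine ⟨1, one_pos, fun lam hlam => ?_⟩
      rw [he] at hlam
      exact absurd hlam (Set.notMem_empty _)
    · have hpos := (h1 lam₀ h₀).1
      have hexp : 0 < 1 - 2 / q := by
        have : 2 / q < 1 := by rw [div_lt_one hq0]; exact hq
        linarith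
      have hgt : firstEigenvalue Ω q < 2 ^ (1 - 2 / q) * firstEigenvalue Ω q := by
        have h4 : (1 : ℝ) < 2 ^ (1 - 2 / q) := Real.one_lt_rpow (by norm_num) hexp
        nlinarith
      set F := {lam ∈ qSpectrum Ω q | lam ≤ 2 ^ (1 - 2 / q) * firstEigenvalue Ω q} \
        {firstEigenvalue Ω q} with hF
      have hFfin : F.Finite := h3.subset Set.sdiff_subset
      have hmem : firstEigenvalue Ω q ∈ Fᶜ := by
        rw [hF]
        simp
      have hn1 : ∀ᶠ x in 𝓝 (firstEigenvalue Ω q), x ∉ F :=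
        hFfin.isClosed.isOpen_compl.mem_nhds hmem
      have hnhds : ∀ᶠ x in 𝓝 (firstEigenvalue Ω q), x ∉ F ∧
          x < 2 ^ (1 - 2 / q) * firstEigenvalue Ω q :=
        hn1.and (gt_mem_nhds hgt)
      obtain ⟨ε, hε, hball⟩ := Metric.eventually_nhds_iff.mp hnhds
      refine ⟨ε, hε, fun lam hlam hlt => ?_⟩
      obtain ⟨h5, h6⟩ := hball (y := lam) (by rwa [Real.dist_eq])
      by_contra hne
      exact h5 ⟨⟨hlam, h6.le⟩, hne⟩
  · intro R
    refine (S.dir.finite_pos hq hS R).subset ?_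
    rintro lam ⟨hle, u, G, h, hpos⟩
    obtain ⟨X, hX, hlam, hX0⟩ := S.crit_of_eigen hq hS.le h
    exact ⟨hle, X, hX, hX0 hpos, hlam⟩

end Pool.Agent.MP_5de7bf_an
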