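import Mathlib

/-!
# An abstract shift and the evaluation of generating functions
-/

set_option autoImplicit false

namespace Pool.Agent.MP_5de7bf_an

open Filter Topology

/-- A Banach space of sequences, in abstract form: `S` is the forward shift, `B` the backward
shift, `c` the coordinate of index `0` and `d` the sequence `1, 0, 0, ...`. -/
structure ShiftModel (M : Type*) [NormedAddCommGroup M] [NormedSpace ℝ M] where
  S : M →L[ℝ] M
  B : M →L[ℝ] M
  c : M →L[ℝ] ℝ
  d : M
  norm_B : ‖B‖ ≤ 1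
  BS : ∀ a, B (S a) = a
  Bd : B d = 0
  cS : ∀ a, c (S a) = 0
  cd : c d = 1
  SB : ∀ a, S (B a) = a - c a • d
  sep : ∀ a, (∀ k : ℕ, c ((B ^ k) a) = 0) → a = 0

namespace ShiftModel

variable {M : Type*} [NormedAddCommGroup M] [NormedSpace ℝ M] (σ : ShiftModel M)

/-- The generating function of a sequence. -/
noncomputable def ev (z : ℝ) : M →L[ℝ] ℝ :=
  σ.c.comp (Ring.inverse (1 - z • σ.B))

lemma isUnit_one_sub [CompleteSpace M] {z : ℝ} (hz : |z| < 1) : IsUnit (1 - z • σ.B) := by
  have h : ‖z • σ.B‖ < 1 := by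
    rw [norm_smul, Real.norm_eq_abs]
    calc |z| * ‖σ.B‖ ≤ |z| * 1 := by gcongr; exact σ.norm_B
      _ < 1 := by rwa [mul_one]
  exact isUnit_one_sub_of_norm_lt_one h

lemma ev_eq [CompleteSpace M] {z : ℝ} (hz : |z| < 1) (a : M) :
    σ.ev z a = σ.c a + z * σ.ev z (σ.B a) := by
  set T : M →L[ℝ] M := 1 - z • σ.B with hT
  have hu : IsUnit T := σ.isUnit_one_sub hz
  have h1 : Ring.inverse T * T = 1 := Ring.inverse_mul_cancel T hu
  have h3 : Ring.inverse T a = a + z • Ring.inverse T (σ.B a) := by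
    have h4 : a = T a + z • σ.B a := by
      rw [hT]; simp
    have h5 : Ring.inverse T (T a) = a := by
      have := congrArg (fun f : M →L[ℝ] M => f a) h1
      simpa using this
    calc Ring.inverse T a = Ring.inverse T (T a + z • σ.B a) := by rw [← h4]
      _ = a + z • Ring.inverse T (σ.B a) := by rw [map_add, map_smul, h5]
  have h9 : σ.ev z a = σ.c (Ring.inverse T a) := rfl
  have h10 : σ.ev z (σ.B a) = σ.c (Ring.inverse T (σ.B a)) := rfl
  rw [h9, h10, h3, map_add, map_smul, smul_eq_mul]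

lemma ev_S [CompleteSpace M] {z : ℝ} (hz : |z| < 1) (a : M) :
    σ.ev z (σ.S a) = z * σ.ev z a := by
  rw [σ.ev_eq hz, σ.cS, σ.BS, zero_add]

lemma ev_d [CompleteSpace M] {z : ℝ} (hz : |z| < 1) : σ.ev z σ.d = 1 := by
  rw [σ.ev_eq hz, σ.Bd, map_zero, mul_zero, add_zero, σ.cd]

lemma ev_S_pow [CompleteSpace M] {z : ℝ} (hz : |z| < 1) (k : ℕ) (a : M) :
    σ.ev z ((σ.S ^ k) a) = z ^ k * σ.ev z a := by
  induction k with
  | zero => simp
  | succ k ih =>
    rw [pow_succ', mul_apply_eq_comp, σ.ev_S hz, ih]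
    ring

lemma analyticAt_ev [CompleteSpace M] : AnalyticAt ℝ σ.ev 0 := by
  have h1 : AnalyticAt ℝ (fun z : ℝ => (1 - z • σ.B : M →L[ℝ] M)) 0 := by
    fun_prop
  have h2 : AnalyticAt ℝ Ring.inverse (1 : M →L[ℝ] M) := by
    have := analyticAt_inverse (𝕜 := ℝ) (1 : (M →L[ℝ] M)ˣ)
    simpa using this
  have h3 : AnalyticAt ℝ (fun z : ℝ => Ring.inverse (1 - z • σ.B : M →L[ℝ] M)) 0 :=
    AnalyticAt.comp_of_eq (g := Ring.inverse) (f := fun z : ℝ => (1 - z • σ.B : M →L[ℝ] M))
      h2 h1 (by simp)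
  exact ((ContinuousLinearMap.compL ℝ M M ℝ σ.c).analyticAt _).comp h3

lemma eventually_abs_lt_one : ∀ᶠ z : ℝ in 𝓝 0, |z| < 1 :=
  continuous_abs.continuousAt.eventually_lt continuousAt_const (by simp)

lemma eq_zero_of_ev [CompleteSpace M] {a : M} (h : ∀ᶠ z in 𝓝 (0 : ℝ), σ.ev z a = 0) : a = 0 := by
  have key : ∀ k : ℕ, ∀ᶠ z in 𝓝 (0 : ℝ), σ.ev z ((σ.B ^ k) a) = 0 := by
    intro k
    induction k with
    | zero => simpa using h
    | succ k ih =>
      set c := (σ.B ^ k) a with hc
      have h0 : σ.c c = 0 := by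
        have h2 := (eventually_abs_lt_one.and ih).self_of_nhds
        have h3 := σ.ev_eq h2.1 c
        rw [h2.2] at h3
        simpa using h3.symm
      have h4 : ∀ᶠ z in 𝓝[≠] (0 : ℝ), σ.ev z (σ.B c) = 0 := by
        rw [eventually_nhdsWithin_iff]
        filter_upwards [eventually_abs_lt_one, ih] with z hz1 hz2 hz3
        have h3 := σ.ev_eq hz1 c
        rw [hz2, h0, zero_add] at h3
        rcases mul_eq_zero.mp h3.symm with h | h
        · exact absurd h hz3
        · exact h
      have h5 : AnalyticAt ℝ (fun z => σ.ev z (σ.B c)) 0 :=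
        ((ContinuousLinearMap.apply ℝ ℝ (σ.B c)).analyticAt _).fun_comp σ.analyticAt_ev
      have h6 := (h5.frequently_zero_iff_eventually_zero).mp h4.frequently
      have h7 : (σ.B ^ (k + 1)) a = σ.B c := by
        rw [pow_succ', mul_apply_eq_comp]
      rw [h7]
      exact h6
  refine σ.sep a (fun k => ?_)
  have h1 := (key k).self_of_nhds
  have h2 : σ.ev 0 ((σ.B ^ k) a) = σ.c ((σ.B ^ k) a) := by
    rw [σ.ev_eq (by simp)]; simp
  rw [h2] at h1
  exact h1

/-- The head of a sequence: `(a 0, ..., a (m - 1))`. -/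
noncomputable def head (m : ℕ) (a : M) : Fin m → ℝ := fun k => σ.c ((σ.B ^ (k : ℕ)) a)

lemma head_tail (m : ℕ) (a : M) :
    (σ.S ^ m) ((σ.B ^ m) a) + ∑ k : Fin m, σ.head m a k • (σ.S ^ (k : ℕ)) σ.d = a := by
  induction m with
  | zero => simp
  | succ m ih =>
    rw [Fin.sum_univ_castSucc]
    simp only [head, Fin.val_castSucc, Fin.val_last] at ih ⊢
    have h1 : (σ.S ^ (m + 1)) ((σ.B ^ (m + 1)) a) =
        (σ.S ^ m) ((σ.B ^ m) a) - σ.c ((σ.B ^ m) a) • (σ.S ^ m) σ.d := by
      rw [pow_succ, pow_succ' σ.B, mul_apply_eq_comp, mul_apply_eq_comp, σ.SB, map_sub, map_smul]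
    rw [h1]
    calc _ = (σ.S ^ m) ((σ.B ^ m) a) +
          ∑ x : Fin m, σ.c ((σ.B ^ (x : ℕ)) a) • (σ.S ^ (x : ℕ)) σ.d := by abel
      _ = a := ih

end ShiftModel

section Model

open BoundedContinuousFunction

/-- The forward shift of a sequence, as a function. -/
def shiftFun (a : ℕ → ℝ) : ℕ → ℝ
  | 0 => 0
  | (n + 1) => a n

/-- The forward shift. -/
noncomputable def shiftS : (ℕ →ᵇ ℝ) →L[ℝ] (ℕ →ᵇ ℝ) :=
  LinearMap.mkContinuous
    { toFun := fun a => BoundedContinuousFunction.ofNormedAddCommGroupDiscrete (shiftFun a) ‖a‖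
        (fun n => by
          cases n with
          | zero => simp [shiftFun]
          | succ n => exact a.norm_coe_le_norm n)
      map_add' := fun a b => by
        ext n
        cases n <;> simp [shiftFun]
      map_smul' := fun c a => by
        ext n
        cases n <;> simp [shiftFun] }
    1 (fun a => by
      rw [one_mul]
      refine (BoundedContinuousFunction.norm_le (norm_nonneg _)).mpr (fun n => ?_)
      cases n with
      | zero => simp [shiftFun]
      | succ n => exact a.norm_coe_le_norm n)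

/-- The backward shift. -/
noncomputable def shiftB : (ℕ →ᵇ ℝ) →L[ℝ] (ℕ →ᵇ ℝ) :=
  LinearMap.mkContinuous
    { toFun := fun a => BoundedContinuousFunction.ofNormedAddCommGroupDiscrete
        (fun n => a (n + 1)) ‖a‖ (fun n => a.norm_coe_le_norm (n + 1))
      map_add' := fun a b => by
        ext n
        simp
      map_smul' := fun c a => by
        ext n
        simp }
    1 (fun a => by
      rw [one_mul]
      exact (BoundedContinuousFunction.norm_le (norm_nonneg _)).mpr
        (fun n => a.norm_coe_le_norm (n + 1)))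

/-- The sequence `1, 0, 0, ...`, as a function. -/
def deltaFun : ℕ → ℝ
  | 0 => 1
  | (_ + 1) => 0

lemma norm_deltaFun_le (n : ℕ) : ‖deltaFun n‖ ≤ 1 := by
  cases n <;> simp [deltaFun]

/-- The sequence `1, 0, 0, ...`. -/
noncomputable def deltaZero : ℕ →ᵇ ℝ :=
  BoundedContinuousFunction.ofNormedAddCommGroupDiscrete deltaFun 1 norm_deltaFun_le

/-- The space of bounded sequences is a model. -/
noncomputable def seqModel : ShiftModel (ℕ →ᵇ ℝ) where
  S := shiftS
  B := shiftB
  c := BoundedContinuousFunction.evalCLM ℝ 0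
  d := deltaZero
  norm_B := LinearMap.mkContinuous_norm_le _ zero_le_one _
  BS := fun a => by ext n; rfl
  Bd := by
    ext n
    rfl
  cS := fun a => rfl
  cd := rfl
  SB := fun a => by
    ext n
    cases n with
    | zero =>
      change (0 : ℝ) = a 0 - a 0 * 1
      simp
    | succ n =>
      change a (n + 1) = a (n + 1) - a 0 * 0
      simp
  sep := fun a h => by
    have key2 : ∀ (k : ℕ) (c : ℕ →ᵇ ℝ), ((shiftB ^ k) c) 0 = c k := by
      intro k
      induction k with
      | zero => intro c; simp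
      | succ k ih => intro c; rw [pow_succ, mul_apply_eq_comp, ih]; rfl
    ext k
    have := h k
    rw [BoundedContinuousFunction.evalCLM_apply, key2] at this
    simpa using this

end Model

end Pool.Agent.MP_5de7bf_an
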