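import Mathlib

/-!
# Pairs (function, weak gradient) in the closure of test functions
-/

set_option autoImplicit false
set_option linter.unusedSectionVars false

namespace Pool.Agent.MP_5de7bf_an

open Filter Topology MeasureTheory
open scoped ENNReal NNReal Gradient

section General

variable {α F : Type*} [MeasurableSpace α] [NormedAddCommGroup F] {μ : Measure α}

/-- Dominated convergence to zero in `L²`. -/
lemma tendsto_eLpNorm_two {f : ℕ → α → F} {b : α → ℝ} (hb : MemLp b 2 μ)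
    (hf : ∀ n, AEStronglyMeasurable (f n) μ) (h : ∀ n, ∀ᵐ x ∂μ, ‖f n x‖ ≤ b x)
    (hlim : ∀ᵐ x ∂μ, Tendsto (fun n => f n x) atTop (𝓝 0)) :
    Tendsto (fun n => eLpNorm (f n) 2 μ) atTop (𝓝 0) := by
  have h2 : ∀ n, eLpNorm (f n) 2 μ = (∫⁻ x, ‖f n x‖ₑ ^ (2 : ℝ) ∂μ) ^ (1 / (2 : ℝ)) := by
    intro n
    rw [eLpNorm_eq_lintegral_rpow_enorm_toReal (by norm_num) (by norm_num)]
    simp
  have h3 : Tendsto (fun n => ∫⁻ x, ‖f n x‖ₑ ^ (2 : ℝ) ∂μ) atTop (𝓝 (∫⁻ _, 0 ∂μ)) := by
    refine tendsto_lintegral_of_dominated_convergence' (fun x => ‖b x‖ₑ ^ (2 : ℝ)) ?_ ?_ ?_ ?_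
    · exact fun n => (hf n).enorm.pow_const _
    · intro n
      filter_upwards [h n] with x hx
      gcongr
      rw [enorm_le_iff_norm_le]
      exact hx.trans (le_abs_self _)
    · have := hb.2
      rw [eLpNorm_eq_lintegral_rpow_enorm_toReal (by norm_num) (by norm_num)] at this
      simp only [ENNReal.toReal_ofNat] at this
      intro h
      rw [h, ENNReal.top_rpow_of_pos (by norm_num)] at this
      exact lt_irrefl _ this
    · filter_upwards [hlim] with x hx
      have h4 : Tendsto (fun n => ‖f n x‖ₑ) atTop (𝓝 ‖(0 : F)‖ₑ) :=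
        (continuous_enorm.tendsto _).comp hx
      rw [enorm_zero] at h4
      have h5 := (ENNReal.continuous_rpow_const (y := (2 : ℝ))).tendsto 0
      have h6 := h5.comp h4
      rw [ENNReal.zero_rpow_of_pos (by norm_num)] at h6
      exact h6
  rw [lintegral_zero] at h3
  have h5 := (ENNReal.continuous_rpow_const (y := 1 / (2 : ℝ))).tendsto 0
  have h6 := h5.comp h3
  rw [ENNReal.zero_rpow_of_pos (by norm_num)] at h6
  refine h6.congr (fun n => ?_)
  rw [h2 n]
  rfl

/-- An `L²` convergent sequence has an a.e. convergent subsequence. -/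
lemma exists_subseq_ae {f : ℕ → α → F} {g : α → F} (hf : ∀ n, AEStronglyMeasurable (f n) μ)
    (hg : AEStronglyMeasurable g μ)
    (h : Tendsto (fun n => eLpNorm (fun x => f n x - g x) 2 μ) atTop (𝓝 0)) :
    ∃ φ : ℕ → ℕ, StrictMono φ ∧ ∀ᵐ x ∂μ, Tendsto (fun n => f (φ n) x) atTop (𝓝 (g x)) :=
  (tendstoInMeasure_of_tendsto_eLpNorm (p := 2) (by norm_num) hf hg h).exists_seq_tendsto_ae

end General

variable {E : Type*} [NormedAddCommGroup E] [InnerProductSpace ℝ E] [FiniteDimensional ℝ E]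

section Gradient

lemma norm_grad (f : E → ℝ) (x : E) : ‖∇ f x‖ = ‖fderiv ℝ f x‖ := by
  unfold gradient
  exact LinearIsometryEquiv.norm_map _ _

lemma grad_add {f g : E → ℝ} (hf : Differentiable ℝ f) (hg : Differentiable ℝ g) (x : E) :
    ∇ (fun x => f x + g x) x = ∇ f x + ∇ g x := by
  unfold gradient
  rw [fderiv_fun_add (hf x) (hg x), map_add]

lemma grad_smul {f : E → ℝ} (hf : Differentiable ℝ f) (c : ℝ) (x : E) :
    ∇ (fun x => c * f x) x = c • ∇ f x := by
  unfold gradient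
  rw [fderiv_const_mul (hf x)]
  exact map_smul _ _ _

lemma grad_comp {f : E → ℝ} {b : ℝ → ℝ} (hf : Differentiable ℝ f) (hb : Differentiable ℝ b)
    (x : E) : ∇ (fun x => b (f x)) x = deriv b (f x) • ∇ f x := by
  have h1 : HasFDerivAt (fun x => b (f x)) (deriv b (f x) • fderiv ℝ f x) x :=
    (hb (f x)).hasDerivAt.comp_hasFDerivAt x (hf x).hasFDerivAt
  unfold gradient
  rw [h1.fderiv]
  exact map_smul _ _ _

lemma continuous_grad {f : E → ℝ} (hf : ContDiff ℝ (⊤ : ℕ∞) f) : Continuous (∇ f) := by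
  have h1 : Continuous (fderiv ℝ f) := hf.continuous_fderiv (by simp)
  unfold gradient
  exact (LinearIsometryEquiv.continuous _).comp h1

lemma inner_grad (f : E → ℝ) (x z : E) : inner ℝ (∇ f x) z = fderiv ℝ f x z := by
  unfold gradient
  exact InnerProductSpace.toDual_symm_apply

end Gradient

/-- Test functions. -/
def Test (Ω : Set E) (φ : E → ℝ) : Prop :=
  ContDiff ℝ (⊤ : ℕ∞) φ ∧ HasCompactSupport φ ∧ tsupport φ ⊆ Ω

namespace Test

variable {Ω : Set E} {φ ψ : E → ℝ}

lemma differentiable (h : Test Ω φ) : Differentiable ℝ φ := h.1.differentiable (by simp)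

lemma continuous (h : Test Ω φ) : Continuous φ := h.1.continuous

lemma zero : Test Ω (fun _ : E => (0 : ℝ)) := by
  refine ⟨contDiff_const, ?_, ?_⟩
  · exact HasCompactSupport.zero
  · have : tsupport (fun _ : E => (0 : ℝ)) = ∅ := by
      rw [tsupport_eq_empty_iff]
      rfl
    rw [this]
    exact Set.empty_subset _

lemma add (h : Test Ω φ) (h' : Test Ω ψ) : Test Ω (fun x => φ x + ψ x) := by
  refine ⟨h.1.add h'.1, h.2.1.add h'.2.1, ?_⟩
  refine (closure_mono ?_).trans (?_ : closure (Function.support φ ∪ Function.support ψ) ⊆ Ω)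
  · exact Function.support_add _ _
  · rw [closure_union]
    exact Set.union_subset h.2.2 h'.2.2

lemma comp (h : Test Ω φ) {b : ℝ → ℝ} (hb : ContDiff ℝ (⊤ : ℕ∞) b) (hb0 : b 0 = 0) :
    Test Ω (fun x => b (φ x)) := by
  refine ⟨hb.comp h.1, h.2.1.comp_left hb0, ?_⟩
  refine (closure_mono ?_).trans h.2.2
  exact Function.support_comp_subset hb0 φ

lemma smul (h : Test Ω φ) (c : ℝ) : Test Ω (fun x => c * φ x) :=
  h.comp (b := fun t => c * t) (contDiff_const.mul contDiff_id) (mul_zero c)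

lemma hasCompactSupport_grad (h : Test Ω φ) : HasCompactSupport (∇ φ) := by
  have h1 : HasCompactSupport (fderiv ℝ φ) := h.2.1.fderiv ℝ
  exact h1.comp_left (g := fun l => (InnerProductSpace.toDual ℝ E).symm l) (map_zero _)

lemma continuous_grad (h : Test Ω φ) : Continuous (∇ φ) := MP_5de7bf_an.continuous_grad h.1

variable [MeasurableSpace E] [BorelSpace E] {μ : Measure E} [IsFiniteMeasureOnCompacts μ]

lemma memLp (h : Test Ω φ) : MemLp φ 2 μ := h.continuous.memLp_of_hasCompactSupport h.2.1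

lemma memLp_grad (h : Test Ω φ) : MemLp (∇ φ) 2 μ :=
  h.continuous_grad.memLp_of_hasCompactSupport h.hasCompactSupport_grad

lemma eq_zero_of_notMem (h : Test Ω φ) {x : E} (hx : x ∉ Ω) : φ x = 0 :=
  image_eq_zero_of_notMem_tsupport (fun h' => hx (h.2.2 h'))

end Test

variable [MeasurableSpace E] [BorelSpace E]

/-- `(u, G)` is a limit of `(φ, ∇φ)` with test functions `φ`. -/
def Pair (μ : Measure E) (Ω : Set E) (u : E → ℝ) (G : E → E) : Prop :=
  MemLp u 2 μ ∧ MemLp G 2 μ ∧ ∃ φ : ℕ → E → ℝ, (∀ n, Test Ω (φ n)) ∧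
    Tendsto (fun n => eLpNorm (fun x => φ n x - u x) 2 μ) atTop (𝓝 0) ∧
    Tendsto (fun n => eLpNorm (fun x => ∇ (φ n) x - G x) 2 μ) atTop (𝓝 0)

namespace Pair

variable {μ : Measure E} [IsFiniteMeasureOnCompacts μ] {Ω : Set E} {u v : E → ℝ} {G F : E → E}

lemma approx (h : Pair μ Ω u G) {ε : ℝ≥0∞} (hε : 0 < ε) : ∃ φ : E → ℝ, Test Ω φ ∧
    eLpNorm (fun x => φ x - u x) 2 μ < ε ∧ eLpNorm (fun x => ∇ φ x - G x) 2 μ < ε := by
  obtain ⟨_, _, φ, hφ, h1, h2⟩ := h
  obtain ⟨n, h3, h4⟩ := ((h1.eventually (gt_mem_nhds hε)).and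
    (h2.eventually (gt_mem_nhds hε))).exists
  exact ⟨φ n, hφ n, h3, h4⟩

lemma of_approx (hu : MemLp u 2 μ) (hG : MemLp G 2 μ)
    (h : ∀ ε : ℝ≥0∞, 0 < ε → ∃ φ : E → ℝ, Test Ω φ ∧
    eLpNorm (fun x => φ x - u x) 2 μ < ε ∧ eLpNorm (fun x => ∇ φ x - G x) 2 μ < ε) :
    Pair μ Ω u G := by
  refine ⟨hu, hG, ?_⟩
  have h1 : ∀ n : ℕ, (0 : ℝ≥0∞) < (n : ℝ≥0∞)⁻¹ := fun n =>
    ENNReal.inv_pos.mpr (ENNReal.natCast_ne_top n)
  choose φ hφ hφ1 hφ2 using fun n : ℕ => h _ (h1 n)
  refine ⟨φ, hφ, ?_, ?_⟩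
  · exact tendsto_of_tendsto_of_tendsto_of_le_of_le tendsto_const_nhds
      ENNReal.tendsto_inv_nat_nhds_zero (fun n => zero_le) (fun n => (hφ1 n).le)
  · exact tendsto_of_tendsto_of_tendsto_of_le_of_le tendsto_const_nhds
      ENNReal.tendsto_inv_nat_nhds_zero (fun n => zero_le) (fun n => (hφ2 n).le)

lemma of_test {φ : E → ℝ} (h : Test Ω φ) : Pair μ Ω φ (∇ φ) :=
  ⟨h.memLp, h.memLp_grad, fun _ => φ, fun _ => h, by simp, by simp⟩

lemma congr (h : Pair μ Ω u G) (hu : u =ᵐ[μ] v) (hG : G =ᵐ[μ] F) : Pair μ Ω v F := by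
  obtain ⟨h1, h2, φ, hφ, h3, h4⟩ := h
  refine ⟨h1.ae_eq hu, h2.ae_eq hG, φ, hφ, ?_, ?_⟩
  · refine h3.congr (fun n => eLpNorm_congr_ae ?_)
    filter_upwards [hu] with x hx
    rw [hx]
  · refine h4.congr (fun n => eLpNorm_congr_ae ?_)
    filter_upwards [hG] with x hx
    rw [hx]

lemma add (h : Pair μ Ω u G) (h' : Pair μ Ω v F) :
    Pair μ Ω (fun x => u x + v x) (fun x => G x + F x) := by
  obtain ⟨h1, h2, φ, hφ, h3, h4⟩ := h
  obtain ⟨h1', h2', ψ, hψ, h3', h4'⟩ := h'
  refine ⟨h1.add h1', h2.add h2', fun n x => φ n x + ψ n x, fun n => (hφ n).add (hψ n), ?_, ?_⟩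
  · have h5 := h3.add h3'
    rw [add_zero] at h5
    refine tendsto_of_tendsto_of_tendsto_of_le_of_le tendsto_const_nhds h5
      (fun n => zero_le) (fun n => ?_)
    refine le_trans (le_of_eq ?_) (eLpNorm_add_le
      ((hφ n).memLp.1.sub h1.1) ((hψ n).memLp.1.sub h1'.1) (by norm_num))
    congr 1
    funext x
    simp only [Pi.add_apply]
    ring
  · have h5 := h4.add h4'
    rw [add_zero] at h5
    refine tendsto_of_tendsto_of_tendsto_of_le_of_le tendsto_const_nhds h5
      (fun n => zero_le) (fun n => ?_)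
    refine le_trans (le_of_eq ?_) (eLpNorm_add_le
      ((hφ n).memLp_grad.1.sub h2.1) ((hψ n).memLp_grad.1.sub h2'.1) (by norm_num))
    congr 1
    funext x
    simp only [Pi.add_apply]
    rw [grad_add (hφ n).differentiable (hψ n).differentiable]
    abel

lemma smul (h : Pair μ Ω u G) (c : ℝ) :
    Pair μ Ω (fun x => c * u x) (fun x => c • G x) := by
  obtain ⟨h1, h2, φ, hφ, h3, h4⟩ := h
  refine ⟨h1.const_mul c, h2.const_smul c, fun n x => c * φ n x, fun n => (hφ n).smul c, ?_, ?_⟩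
  · have h5 := ENNReal.Tendsto.const_mul (a := ‖c‖ₑ) h3 (Or.inr (by simp))
    rw [mul_zero] at h5
    refine h5.congr (fun n => ?_)
    rw [← eLpNorm_const_smul]
    congr 1
    funext x
    simp only [Pi.smul_apply, smul_eq_mul]
    ring
  · have h5 := ENNReal.Tendsto.const_mul (a := ‖c‖ₑ) h4 (Or.inr (by simp))
    rw [mul_zero] at h5
    refine h5.congr (fun n => ?_)
    rw [← eLpNorm_const_smul]
    congr 1
    funext x
    simp only [Pi.smul_apply]
    rw [grad_smul (hφ n).differentiable, smul_sub]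

lemma sub (h : Pair μ Ω u G) (h' : Pair μ Ω v F) :
    Pair μ Ω (fun x => u x - v x) (fun x => G x - F x) := by
  refine (h.add (h'.smul (-1))).congr ?_ ?_
  · exact Eventually.of_forall fun x => by ring
  · exact Eventually.of_forall fun x => by
      simp only [neg_smul, one_smul]
      exact (sub_eq_add_neg _ _).symm

/-- The set of pairs is closed. -/
lemma of_tendsto {u : ℕ → E → ℝ} {G : ℕ → E → E} {u₀ : E → ℝ} {G₀ : E → E}
    (h : ∀ n, Pair μ Ω (u n) (G n)) (hu₀ : MemLp u₀ 2 μ) (hG₀ : MemLp G₀ 2 μ)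
    (hu : Tendsto (fun n => eLpNorm (fun x => u n x - u₀ x) 2 μ) atTop (𝓝 0))
    (hG : Tendsto (fun n => eLpNorm (fun x => G n x - G₀ x) 2 μ) atTop (𝓝 0)) :
    Pair μ Ω u₀ G₀ := by
  refine of_approx hu₀ hG₀ (fun ε hε => ?_)
  have hε2 : 0 < ε / 2 := ENNReal.half_pos hε.ne'
  obtain ⟨n, h3, h4⟩ := ((hu.eventually (gt_mem_nhds hε2)).and
    (hG.eventually (gt_mem_nhds hε2))).exists
  obtain ⟨φ, hφ, h5, h6⟩ := (h n).approx hε2
  refine ⟨φ, hφ, ?_, ?_⟩
  · calc eLpNorm (fun x => φ x - u₀ x) 2 μ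
        = eLpNorm ((fun x => φ x - u n x) + (fun x => u n x - u₀ x)) 2 μ := by
          congr 1
          funext x
          simp
      _ ≤ eLpNorm (fun x => φ x - u n x) 2 μ + eLpNorm (fun x => u n x - u₀ x) 2 μ :=
          eLpNorm_add_le (hφ.memLp.1.sub (h n).1.1) ((h n).1.1.sub hu₀.1) (by norm_num)
      _ < ε / 2 + ε / 2 := ENNReal.add_lt_add h5 h3
      _ = ε := ENNReal.add_halves ε
  · calc eLpNorm (fun x => ∇ φ x - G₀ x) 2 μ
        = eLpNorm ((fun x => ∇ φ x - G n x) + (fun x => G n x - G₀ x)) 2 μ := by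
          congr 1
          funext x
          simp
      _ ≤ eLpNorm (fun x => ∇ φ x - G n x) 2 μ + eLpNorm (fun x => G n x - G₀ x) 2 μ :=
          eLpNorm_add_le (hφ.memLp_grad.1.sub (h n).2.1.1) ((h n).2.1.1.sub hG₀.1) (by norm_num)
      _ < ε / 2 + ε / 2 := ENNReal.add_lt_add h6 h4
      _ = ε := ENNReal.add_halves ε

/-- Pairs vanish off `Ω`. -/
lemma ae_zero (h : Pair μ Ω u G) : ∀ᵐ x ∂μ, x ∉ Ω → u x = 0 := by
  obtain ⟨h1, _, φ, hφ, h3, _⟩ := h
  obtain ⟨ψ, _, hψ⟩ := exists_subseq_ae (fun n => (hφ n).memLp.1) h1.1 h3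
  filter_upwards [hψ] with x hx hxΩ
  have h4 : Tendsto (fun n => φ (ψ n) x) atTop (𝓝 0) := by
    refine tendsto_const_nhds.congr (fun n => ?_)
    exact ((hφ (ψ n)).eq_zero_of_notMem hxΩ).symm
  exact tendsto_nhds_unique hx h4

/-- The chain rule. -/
lemma comp (h : Pair μ Ω u G) {b : ℝ → ℝ} (hb : ContDiff ℝ (⊤ : ℕ∞) b) (hb0 : b 0 = 0) {C : ℝ}
    (hC : ∀ t, |deriv b t| ≤ C) : Pair μ Ω (fun x => b (u x)) (fun x => deriv b (u x) • G x) := by
  obtain ⟨h1, h2, φ, hφ, h3, h4⟩ := h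
  have hC0 : 0 ≤ C := (abs_nonneg _).trans (hC 0)
  have hlip : ∀ s t, |b s - b t| ≤ C * |s - t| := by
    intro s t
    have := Convex.norm_image_sub_le_of_norm_deriv_le (𝕜 := ℝ) (f := b) (s := Set.univ) (C := C)
      (x := t) (y := s) (fun x _ => (hb.differentiable (by simp)) x)
      (fun x _ => hC x) convex_univ (Set.mem_univ _) (Set.mem_univ _)
    simpa using this
  have hbc : Continuous b := hb.continuous
  have hdc : Continuous (deriv b) := hb.continuous_deriv (by simp)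
  have hm1 : MemLp (fun x => b (u x)) 2 μ := by
    refine (h1.norm.const_mul C).mono (hbc.comp_aestronglyMeasurable h1.1) ?_
    refine Eventually.of_forall fun x => ?_
    have := hlip (u x) 0
    rw [hb0, sub_zero, sub_zero] at this
    simp only [Real.norm_eq_abs]
    exact this.trans (le_abs_self _)
  have hm2 : MemLp (fun x => deriv b (u x) • G x) 2 μ := by
    refine (h2.norm.const_mul C).mono
      ((hdc.comp_aestronglyMeasurable h1.1).smul h2.1) ?_
    refine Eventually.of_forall fun x => ?_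
    have h5 := hC (u x)
    have h6 : 0 ≤ C * ‖G x‖ := by positivity
    rw [norm_smul, Real.norm_of_nonneg h6, Real.norm_eq_abs]
    gcongr
  obtain ⟨ψ, hψ, hψae⟩ := exists_subseq_ae (fun n => (hφ n).memLp.1) h1.1 h3
  have h3' := h3.comp hψ.tendsto_atTop
  have h4' := h4.comp hψ.tendsto_atTop
  refine ⟨hm1, hm2, fun n x => b (φ (ψ n) x), fun n => (hφ _).comp hb hb0, ?_, ?_⟩
  · have h5 := ENNReal.Tendsto.const_mul (a := ‖C‖ₑ) h3' (Or.inr (by simp))
    rw [mul_zero] at h5
    refine tendsto_of_tendsto_of_tendsto_of_le_of_le tendsto_const_nhds h5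
      (fun n => zero_le) (fun n => ?_)
    simp only [Function.comp_apply]
    rw [← eLpNorm_const_smul]
    refine eLpNorm_mono (fun x => ?_)
    simp only [Pi.smul_apply, smul_eq_mul, norm_mul, Real.norm_eq_abs, abs_of_nonneg hC0]
    exact hlip _ _
  · have h5 := ENNReal.Tendsto.const_mul (a := ‖C‖ₑ) h4' (Or.inr (by simp))
    rw [mul_zero] at h5
    have h6 : Tendsto (fun n => eLpNorm (fun x =>
        (deriv b (φ (ψ n) x) - deriv b (u x)) • G x) 2 μ) atTop (𝓝 0) := by
      refine tendsto_eLpNorm_two (h2.norm.const_mul (2 * C)) (fun n => ?_) (fun n => ?_) ?_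
      · exact ((hdc.comp_aestronglyMeasurable (hφ _).memLp.1).sub
          (hdc.comp_aestronglyMeasurable h1.1)).smul h2.1
      · refine Eventually.of_forall fun x => ?_
        rw [norm_smul, Real.norm_eq_abs]
        have h7 := hC (φ (ψ n) x)
        have h8 := hC (u x)
        have h9 : |deriv b (φ (ψ n) x) - deriv b (u x)| ≤ 2 * C :=
          (abs_sub _ _).trans (by linarith)
        gcongr
      · filter_upwards [hψae] with x hx
        have h7 : Tendsto (fun n => deriv b (φ (ψ n) x)) atTop (𝓝 (deriv b (u x))) :=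
          (hdc.tendsto _).comp hx
        have h8 := (h7.sub_const (deriv b (u x))).smul_const (G x)
        simpa using h8
    have h7 := h5.add h6
    rw [add_zero] at h7
    refine tendsto_of_tendsto_of_tendsto_of_le_of_le tendsto_const_nhds h7
      (fun n => zero_le) (fun n => ?_)
    calc eLpNorm (fun x => ∇ (fun x => b (φ (ψ n) x)) x - deriv b (u x) • G x) 2 μ
        = eLpNorm ((fun x => deriv b (φ (ψ n) x) • (∇ (φ (ψ n)) x - G x)) +
            (fun x => (deriv b (φ (ψ n) x) - deriv b (u x)) • G x)) 2 μ := by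
          congr 1
          funext x
          rw [grad_comp (hφ _).differentiable (hb.differentiable (by simp))]
          simp only [Pi.add_apply, smul_sub, sub_smul]
          abel
      _ ≤ eLpNorm (fun x => deriv b (φ (ψ n) x) • (∇ (φ (ψ n)) x - G x)) 2 μ +
            eLpNorm (fun x => (deriv b (φ (ψ n) x) - deriv b (u x)) • G x) 2 μ :=
          eLpNorm_add_le ((hdc.comp_aestronglyMeasurable (hφ _).memLp.1).smul
            ((hφ _).memLp_grad.1.sub h2.1))
            (((hdc.comp_aestronglyMeasurable (hφ _).memLp.1).sub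
              (hdc.comp_aestronglyMeasurable h1.1)).smul h2.1) (by norm_num)
      _ ≤ _ := by
          gcongr
          simp only [Function.comp_apply]
          rw [← eLpNorm_const_smul]
          refine eLpNorm_mono (fun x => ?_)
          simp only [Pi.smul_apply]
          rw [norm_smul, norm_smul, Real.norm_eq_abs, Real.norm_eq_abs, abs_of_nonneg hC0]
          have := hC (φ (ψ n) x)
          gcongr

end Pair

end Pool.Agent.MP_5de7bf_an
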