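import Pool.Agent.Lib.MP_5de7bf_an.Sob1

/-!
# Truncation of pairs
-/

set_option autoImplicit false
set_option linter.unusedSectionVars false

namespace Pool.Agent.MP_5de7bf_an

open Filter Topology MeasureTheory
open scoped ENNReal NNReal Gradient

/-- A smooth function vanishing on the negative axis and equal to the identity beyond `1`. -/
noncomputable def bta (t : ℝ) : ℝ := t * Real.smoothTransition t

lemma bta_contDiff : ContDiff ℝ (⊤ : ℕ∞) bta := contDiff_id.mul Real.smoothTransition.contDiff

lemma bta_of_nonpos {t : ℝ} (ht : t ≤ 0) : bta t = 0 := by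
  unfold bta
  rw [Real.smoothTransition.zero_of_nonpos ht, mul_zero]

lemma bta_of_one_le {t : ℝ} (ht : 1 ≤ t) : bta t = t := by
  unfold bta
  rw [Real.smoothTransition.one_of_one_le ht, mul_one]

lemma continuous_deriv_bta : Continuous (deriv bta) := bta_contDiff.continuous_deriv (by simp)

lemma deriv_bta_of_nonpos {t : ℝ} (ht : t ≤ 0) : deriv bta t = 0 := by
  have h1 : IsClosed {t : ℝ | deriv bta t = 0} :=
    isClosed_eq continuous_deriv_bta continuous_const
  have h2 : Set.Iio (0 : ℝ) ⊆ {t : ℝ | deriv bta t = 0} := by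
    intro s hs
    have h3 : bta =ᶠ[𝓝 s] fun _ => (0 : ℝ) := by
      filter_upwards [Iio_mem_nhds hs] with r hr
      exact bta_of_nonpos (le_of_lt hr)
    show deriv bta s = 0
    rw [h3.deriv_eq, deriv_const]
  have h3 : closure (Set.Iio (0 : ℝ)) ⊆ {t : ℝ | deriv bta t = 0} := h1.closure_subset_iff.mpr h2
  rw [closure_Iio] at h3
  exact h3 ht

lemma deriv_bta_of_one_lt {t : ℝ} (ht : 1 < t) : deriv bta t = 1 := by
  have h3 : bta =ᶠ[𝓝 t] fun s => s := by
    filter_upwards [Ioi_mem_nhds ht] with r hr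
    exact bta_of_one_le (le_of_lt hr)
  rw [h3.deriv_eq]
  exact deriv_id t

lemma exists_bound_deriv_bta : ∃ C : ℝ, ∀ t, |deriv bta t| ≤ C := by
  obtain ⟨C, hC⟩ := (isCompact_Icc (a := (0 : ℝ)) (b := 1)).exists_bound_of_continuousOn
    continuous_deriv_bta.continuousOn
  refine ⟨max C 1, fun t => ?_⟩
  rcases le_or_gt t 0 with h | h
  · rw [deriv_bta_of_nonpos h, abs_zero]
    exact le_max_of_le_right zero_le_one
  · rcases le_or_gt t 1 with h' | h'
    · exact le_max_of_le_left (hC t ⟨h.le, h'⟩)
    · rw [deriv_bta_of_one_lt h', abs_one]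
      exact le_max_right _ _

/-- Smooth approximations of `t ↦ (t - k)⁺`. -/
noncomputable def btn (k : ℝ) (n : ℕ) (t : ℝ) : ℝ := bta (((n : ℝ) + 1) * (t - k)) / ((n : ℝ) + 1)

lemma btn_contDiff (k : ℝ) (n : ℕ) : ContDiff ℝ (⊤ : ℕ∞) (btn k n) := by
  unfold btn
  refine ContDiff.div_const ?_ _
  exact bta_contDiff.comp (contDiff_const.mul (contDiff_id.sub contDiff_const))

lemma hasDerivAt_btn (k : ℝ) (n : ℕ) (t : ℝ) :
    HasDerivAt (btn k n) (deriv bta (((n : ℝ) + 1) * (t - k))) t := by
  have h1 : HasDerivAt (fun t : ℝ => ((n : ℝ) + 1) * (t - k)) ((n : ℝ) + 1) t := by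
    have := ((hasDerivAt_id t).sub_const k).const_mul ((n : ℝ) + 1)
    simpa using this
  have h2 : HasDerivAt bta (deriv bta (((n : ℝ) + 1) * (t - k))) (((n : ℝ) + 1) * (t - k)) :=
    ((bta_contDiff.differentiable (by simp)) _).hasDerivAt
  have h3 := (h2.comp t h1).div_const ((n : ℝ) + 1)
  have h4 : (0 : ℝ) < (n : ℝ) + 1 := by positivity
  rw [mul_div_assoc, div_self h4.ne', mul_one] at h3
  exact h3

lemma deriv_btn (k : ℝ) (n : ℕ) (t : ℝ) :
    deriv (btn k n) t = deriv bta (((n : ℝ) + 1) * (t - k)) := (hasDerivAt_btn k n t).deriv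

lemma btn_of_le {k : ℝ} {n : ℕ} {t : ℝ} (ht : t ≤ k) : btn k n t = 0 := by
  unfold btn
  rw [bta_of_nonpos, zero_div]
  exact mul_nonpos_of_nonneg_of_nonpos (by positivity) (by linarith)

/-- The step function. -/
noncomputable def stp (k : ℝ) : ℝ → ℝ := (Set.Ioi k).indicator fun _ => 1

lemma stp_measurable (k : ℝ) : Measurable (stp k) := measurable_const.indicator measurableSet_Ioi

lemma stp_of_lt {k t : ℝ} (h : k < t) : stp k t = 1 := Set.indicator_of_mem (by exact h) _

lemma stp_of_le {k t : ℝ} (h : t ≤ k) : stp k t = 0 := Set.indicator_of_notMem (by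
  rw [Set.mem_Ioi]; exact not_lt.mpr h) _

lemma abs_stp_le (k t : ℝ) : |stp k t| ≤ 1 := by
  rcases lt_or_ge k t with h | h
  · rw [stp_of_lt h, abs_one]
  · rw [stp_of_le h, abs_zero]
    exact zero_le_one

lemma stp_sq (k t : ℝ) : stp k t * stp k t = stp k t := by
  rcases lt_or_ge k t with h | h
  · rw [stp_of_lt h, one_mul]
  · rw [stp_of_le h, zero_mul]

lemma eventually_one_lt {k t : ℝ} (h : k < t) : ∀ᶠ n : ℕ in atTop, 1 < ((n : ℝ) + 1) * (t - k) := by
  have h1 : Tendsto (fun n : ℕ => ((n : ℝ) + 1) * (t - k)) atTop atTop := by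
    refine Tendsto.atTop_mul_const (by linarith) ?_
    exact tendsto_atTop_add_const_right _ _ tendsto_natCast_atTop_atTop
  exact h1.eventually (eventually_gt_atTop 1)

lemma tendsto_btn (k t : ℝ) : Tendsto (fun n => btn k n t) atTop (𝓝 (max (t - k) 0)) := by
  rcases lt_or_ge k t with h | h
  · rw [max_eq_left (by linarith)]
    refine tendsto_const_nhds.congr' ?_
    filter_upwards [eventually_one_lt h] with n hn
    unfold btn
    rw [bta_of_one_le hn.le]
    have h4 : (0 : ℝ) < (n : ℝ) + 1 := by positivity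
    field_simp
  · rw [max_eq_right (by linarith)]
    refine tendsto_const_nhds.congr (fun n => ?_)
    exact (btn_of_le h).symm

lemma tendsto_deriv_btn (k t : ℝ) :
    Tendsto (fun n => deriv (btn k n) t) atTop (𝓝 (stp k t)) := by
  rcases lt_or_ge k t with h | h
  · rw [stp_of_lt h]
    refine tendsto_const_nhds.congr' ?_
    filter_upwards [eventually_one_lt h] with n hn
    rw [deriv_btn, deriv_bta_of_one_lt hn]
  · rw [stp_of_le h]
    refine tendsto_const_nhds.congr (fun n => ?_)
    rw [deriv_btn, deriv_bta_of_nonpos]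
    exact mul_nonpos_of_nonneg_of_nonpos (by positivity) (by linarith)

variable {E : Type*} [NormedAddCommGroup E] [InnerProductSpace ℝ E] [FiniteDimensional ℝ E]
variable [MeasurableSpace E] [BorelSpace E]

namespace Pair

variable {μ : Measure E} [IsFiniteMeasureOnCompacts μ] {Ω : Set E} {u v : E → ℝ} {G F : E → E}

lemma trunc (h : Pair μ Ω u G) {k : ℝ} (hk : 0 ≤ k) :
    Pair μ Ω (fun x => max (u x - k) 0) (fun x => stp k (u x) • G x) := by
  obtain ⟨C, hC⟩ := exists_bound_deriv_bta
  have hC0 : 0 ≤ C := (abs_nonneg _).trans (hC 0)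
  have hCn : ∀ n t, |deriv (btn k n) t| ≤ C := fun n t => by
    rw [deriv_btn]
    exact hC _
  have hb0 : ∀ n, btn k n 0 = 0 := fun n => btn_of_le hk
  have hlip : ∀ n t, |btn k n t| ≤ C * |t| := by
    intro n t
    have := Convex.norm_image_sub_le_of_norm_deriv_le (𝕜 := ℝ) (f := btn k n) (s := Set.univ)
      (C := C) (x := 0) (y := t) (fun x _ => ((btn_contDiff k n).differentiable (by simp)) x)
      (fun x _ => hCn n x) convex_univ (Set.mem_univ _) (Set.mem_univ _)
    rw [hb0, sub_zero, sub_zero] at this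
    simpa using this
  have hmax : ∀ t : ℝ, |max (t - k) 0| ≤ |t| := by
    intro t
    rw [abs_of_nonneg (le_max_right _ _)]
    exact max_le (by linarith [le_abs_self t]) (abs_nonneg _)
  have hu := h.1
  have hG := h.2.1
  have hstp : AEStronglyMeasurable (fun x => stp k (u x)) μ :=
    ((stp_measurable k).comp_aemeasurable hu.1.aemeasurable).aestronglyMeasurable
  have hmaxm : AEStronglyMeasurable (fun x => max (u x - k) 0) μ :=
    ((hu.1.aemeasurable.sub_const k).max aemeasurable_const).aestronglyMeasurable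
  have hm1 : MemLp (fun x => max (u x - k) 0) 2 μ := by
    refine hu.mono hmaxm (Eventually.of_forall fun x => ?_)
    simp only [Real.norm_eq_abs]
    exact hmax _
  have hm2 : MemLp (fun x => stp k (u x) • G x) 2 μ := by
    refine hG.mono (hstp.smul hG.1) (Eventually.of_forall fun x => ?_)
    rw [norm_smul, Real.norm_eq_abs]
    exact mul_le_of_le_one_left (norm_nonneg _) (abs_stp_le _ _)
  refine of_tendsto (fun n => h.comp (btn_contDiff k n) (hb0 n) (hCn n)) hm1 hm2 ?_ ?_
  · refine tendsto_eLpNorm_two (hu.norm.const_mul (C + 1)) (fun n => ?_) (fun n => ?_) ?_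
    · exact ((btn_contDiff k n).continuous.comp_aestronglyMeasurable hu.1).sub hmaxm
    · refine Eventually.of_forall fun x => ?_
      rw [Real.norm_eq_abs, Real.norm_eq_abs]
      have h1 := hlip n (u x)
      have h2 := hmax (u x)
      have h3 := abs_sub (btn k n (u x)) (max (u x - k) 0)
      linarith
    · refine Eventually.of_forall fun x => ?_
      have h1 := (tendsto_btn k (u x)).sub_const (max (u x - k) 0)
      rwa [sub_self] at h1
  · refine tendsto_eLpNorm_two (hG.norm.const_mul (C + 1)) (fun n => ?_) (fun n => ?_) ?_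
    · exact ((((btn_contDiff k n).continuous_deriv (by simp)).comp_aestronglyMeasurable
        hu.1).smul hG.1).sub (hstp.smul hG.1)
    · refine Eventually.of_forall fun x => ?_
      rw [← sub_smul, norm_smul, Real.norm_eq_abs]
      have h1 := hCn n (u x)
      have h2 := abs_stp_le k (u x)
      have h3 := abs_sub (deriv (btn k n) (u x)) (stp k (u x))
      have h4 : |deriv (btn k n) (u x) - stp k (u x)| ≤ C + 1 := by linarith
      gcongr
    · refine Eventually.of_forall fun x => ?_
      have h1 := ((tendsto_deriv_btn k (u x)).sub_const (stp k (u x))).smul_const (G x)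
      rw [sub_self, zero_smul] at h1
      refine h1.congr (fun n => ?_)
      rw [sub_smul]

end Pair

end Pool.Agent.MP_5de7bf_an
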