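import Pool.Agent.Lib.MP_5de7bf_an.Sob2

/-!
# The Sobolev inequality for pairs
-/

set_option autoImplicit false
set_option linter.unusedSectionVars false

namespace Pool.Agent.MP_5de7bf_an

open Filter Topology MeasureTheory Module
open scoped ENNReal NNReal Gradient

lemma eLpNorm_restrict_of_ae_zero {α F : Type*} [MeasurableSpace α] [NormedAddCommGroup F]
    {μ : Measure α} {Ω : Set α} (hΩ : MeasurableSet Ω) {f : α → F}
    (h : ∀ᵐ x ∂μ, x ∉ Ω → f x = 0) (p : ℝ≥0∞) :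
    eLpNorm f p (μ.restrict Ω) = eLpNorm f p μ := by
  rw [← eLpNorm_indicator_eq_eLpNorm_restrict hΩ]
  refine eLpNorm_congr_ae ?_
  filter_upwards [h] with x hx
  by_cases hxΩ : x ∈ Ω
  · rw [Set.indicator_of_mem hxΩ]
  · rw [Set.indicator_of_notMem hxΩ, hx hxΩ]

variable {E : Type*} [NormedAddCommGroup E] [InnerProductSpace ℝ E] [FiniteDimensional ℝ E]

lemma Test.grad_eq_zero {Ω : Set E} {φ : E → ℝ} (h : Test Ω φ) {x : E} (hx : x ∉ Ω) :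
    ∇ φ x = 0 := by
  have h1 : x ∉ tsupport φ := fun h' => hx (h.2.2 h')
  have h2 : x ∉ tsupport (fderiv ℝ φ) := fun h' => h1 (tsupport_fderiv_subset ℝ h')
  unfold gradient
  rw [image_eq_zero_of_notMem_tsupport h2, map_zero]

variable [MeasurableSpace E] [BorelSpace E]
variable (μ : Measure E) [μ.IsAddHaarMeasure] {Ω : Set E}

lemma exists_exponent {n s : ℝ} (hn : 2 ≤ n) (hs : 2 ≤ s) (h : 1 / 2 - 1 / n < 1 / s) :
    ∃ p : ℝ≥0, 1 ≤ p ∧ (p : ℝ) < 2 ∧ (p : ℝ)⁻¹ - n⁻¹ ≤ s⁻¹ := by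
  set r := min 1 (1 / s + 1 / n) with hr
  have h0 : 0 < 1 / s := by positivity
  have h0' : 0 < 1 / n := by positivity
  have h1 : 1 / 2 < r := by
    rw [hr, lt_min_iff]
    exact ⟨by norm_num, by linarith⟩
  have h2 : r ≤ 1 := min_le_left _ _
  have h3 : r ≤ 1 / s + 1 / n := min_le_right _ _
  have hr0 : 0 < r := by linarith
  have hc : ((r⁻¹).toNNReal : ℝ) = r⁻¹ := Real.coe_toNNReal _ (by positivity)
  refine ⟨(r⁻¹).toNNReal, ?_, ?_, ?_⟩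
  · rw [← NNReal.coe_le_coe, hc, NNReal.coe_one]
    exact (one_le_inv₀ hr0).mpr h2
  · rw [hc, inv_lt_comm₀ hr0 (by norm_num)]
    simpa using h1
  · rw [hc, inv_inv]
    rw [one_div, one_div] at h3
    linarith

lemma sobolev_test (hn : 2 ≤ finrank ℝ E) (hΩb : Bornology.IsBounded Ω) (hΩm : MeasurableSet Ω)
    {s : ℝ} (hs : 2 ≤ s) (h : 1 / 2 - 1 / (finrank ℝ E : ℝ) < 1 / s) :
    ∃ C : ℝ≥0, ∀ φ : E → ℝ, Test Ω φ →
      eLpNorm φ (ENNReal.ofReal s) μ ≤ C * eLpNorm (∇ φ) 2 μ := by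
  obtain ⟨p, hp1, hp2, hp3⟩ := exists_exponent (n := (finrank ℝ E : ℝ)) (by exact_mod_cast hn) hs h
  have hfin : μ Ω ≠ ∞ := hΩb.measure_lt_top.ne
  have hp0 : (p : ℝ≥0∞) ≤ 2 := by
    have : p ≤ 2 := by
      rw [← NNReal.coe_le_coe]
      simpa using hp2.le
    exact_mod_cast this
  set e : ℝ := 1 / (p : ℝ≥0∞).toReal - 1 / (2 : ℝ≥0∞).toReal with he
  have he0 : 0 ≤ e := by
    rw [he]
    simp only [ENNReal.coe_toReal, ENNReal.toReal_ofNat]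
    have h1 : (1 : ℝ) ≤ p := by exact_mod_cast hp1
    have : 1 / (2 : ℝ) ≤ 1 / p := one_div_le_one_div_of_le (by linarith) hp2.le
    linarith
  set K : ℝ≥0∞ := (μ Ω) ^ e with hK
  have hKfin : K ≠ ∞ := ENNReal.rpow_ne_top_of_nonneg he0 hfin
  refine ⟨eLpNormLESNormFDerivOfLeConst ℝ μ Ω p s.toNNReal * K.toNNReal, fun φ hφ => ?_⟩
  have hsn : ((s.toNNReal : ℝ≥0) : ℝ) = s := Real.coe_toNNReal s (by linarith)
  have h1 : eLpNorm φ s.toNNReal μ ≤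
      eLpNormLESNormFDerivOfLeConst ℝ μ Ω p s.toNNReal * eLpNorm (fderiv ℝ φ) p μ := by
    refine eLpNorm_le_eLpNorm_fderiv_of_le μ (hφ.1.of_le (by simp)) ?_ hp1 ?_ ?_ hΩb
    · exact (subset_tsupport φ).trans hφ.2.2
    · have h2 : (p : ℝ) < finrank ℝ E := by
        have : (2 : ℝ) ≤ finrank ℝ E := by exact_mod_cast hn
        linarith
      exact_mod_cast h2
    · rw [hsn]
      push_cast
      exact hp3
  have h2 : eLpNorm (fderiv ℝ φ) p μ = eLpNorm (∇ φ) p μ :=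
    eLpNorm_congr_norm_ae (Eventually.of_forall fun x => (norm_grad φ x).symm)
  have h3 : ∀ᵐ x ∂μ, x ∉ Ω → ∇ φ x = 0 := Eventually.of_forall fun x hx => hφ.grad_eq_zero hx
  have h4 : eLpNorm (∇ φ) p μ ≤ eLpNorm (∇ φ) 2 μ * K := by
    rw [← eLpNorm_restrict_of_ae_zero hΩm h3, ← eLpNorm_restrict_of_ae_zero (p := 2) hΩm h3]
    refine (eLpNorm_le_eLpNorm_mul_rpow_measure_univ hp0
      (hφ.continuous_grad.aestronglyMeasurable)).trans ?_
    rw [Measure.restrict_apply_univ]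
  calc eLpNorm φ (ENNReal.ofReal s) μ = eLpNorm φ s.toNNReal μ := rfl
    _ ≤ _ := h1
    _ ≤ eLpNormLESNormFDerivOfLeConst ℝ μ Ω p s.toNNReal * (eLpNorm (∇ φ) 2 μ * K) := by
        rw [h2]
        gcongr
    _ = _ := by
        rw [ENNReal.coe_mul, ENNReal.coe_toNNReal hKfin]
        ring

/-- The Sobolev inequality for pairs. -/
lemma sobolev_pair (hn : 2 ≤ finrank ℝ E) (hΩb : Bornology.IsBounded Ω) (hΩm : MeasurableSet Ω)
    {s : ℝ} (hs : 2 ≤ s) (h : 1 / 2 - 1 / (finrank ℝ E : ℝ) < 1 / s) :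
    ∃ C : ℝ≥0, ∀ (u : E → ℝ) (G : E → E), Pair μ Ω u G →
      eLpNorm u (ENNReal.ofReal s) μ ≤ C * eLpNorm G 2 μ := by
  obtain ⟨C, hC⟩ := sobolev_test μ hn hΩb hΩm hs h
  refine ⟨C, fun u G hu => ?_⟩
  obtain ⟨h1, h2, φ, hφ, h3, h4⟩ := hu
  obtain ⟨ψ, hψ, hψae⟩ := exists_subseq_ae (fun n => (hφ n).memLp.1) h1.1 h3
  have h4' := h4.comp hψ.tendsto_atTop
  refine (Lp.eLpNorm_lim_le_liminf_eLpNorm (fun n => (hφ (ψ n)).memLp.1) u hψae).trans ?_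
  have h5 : Tendsto (fun n => (C : ℝ≥0∞) *
      (eLpNorm (fun x => ∇ (φ (ψ n)) x - G x) 2 μ + eLpNorm G 2 μ)) atTop
      (𝓝 ((C : ℝ≥0∞) * (0 + eLpNorm G 2 μ))) :=
    ENNReal.Tendsto.const_mul (h4'.add tendsto_const_nhds) (Or.inr (by simp))
  rw [zero_add] at h5
  rw [← h5.liminf_eq]
  refine liminf_le_liminf (Eventually.of_forall fun n => ?_)
  refine (hC _ (hφ _)).trans ?_
  gcongr
  have h6 : ∇ (φ (ψ n)) = (fun x => ∇ (φ (ψ n)) x - G x) + G := by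
    funext x
    simp
  conv_lhs => rw [h6]
  exact eLpNorm_add_le ((hφ _).memLp_grad.1.sub h2.1) h2.1 (by norm_num)

/-- The Poincaré inequality for pairs. -/
lemma poincare_pair (hn : 2 ≤ finrank ℝ E) (hΩb : Bornology.IsBounded Ω) (hΩm : MeasurableSet Ω)
    {s : ℝ} (hs : 2 ≤ s) (h : 1 / 2 - 1 / (finrank ℝ E : ℝ) < 1 / s) :
    ∃ C : ℝ≥0, ∀ (u : E → ℝ) (G : E → E), Pair μ Ω u G →
      eLpNorm u 2 μ ≤ C * eLpNorm G 2 μ := by
  obtain ⟨C, hC⟩ := sobolev_pair μ hn hΩb hΩm hs h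
  have hfin : μ Ω ≠ ∞ := hΩb.measure_lt_top.ne
  set e : ℝ := 1 / (2 : ℝ≥0∞).toReal - 1 / (ENNReal.ofReal s).toReal with he
  have he0 : 0 ≤ e := by
    rw [he, ENNReal.toReal_ofReal (by linarith)]
    simp only [ENNReal.toReal_ofNat]
    have : 1 / s ≤ 1 / 2 := one_div_le_one_div_of_le (by norm_num) hs
    linarith
  set K : ℝ≥0∞ := (μ Ω) ^ e with hK
  have hKfin : K ≠ ∞ := ENNReal.rpow_ne_top_of_nonneg he0 hfin
  refine ⟨C * K.toNNReal, fun u G hu => ?_⟩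
  have h3 := hu.ae_zero
  have h4 : eLpNorm u 2 μ ≤ eLpNorm u (ENNReal.ofReal s) μ * K := by
    rw [← eLpNorm_restrict_of_ae_zero hΩm h3, ← eLpNorm_restrict_of_ae_zero
      (p := ENNReal.ofReal s) hΩm h3]
    have h5 : (2 : ℝ≥0∞) ≤ ENNReal.ofReal s := by
      rw [show (2 : ℝ≥0∞) = ENNReal.ofReal 2 by simp]
      exact ENNReal.ofReal_le_ofReal hs
    refine (eLpNorm_le_eLpNorm_mul_rpow_measure_univ h5 hu.1.1.restrict).trans ?_
    rw [Measure.restrict_apply_univ]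
  calc eLpNorm u 2 μ ≤ eLpNorm u (ENNReal.ofReal s) μ * K := h4
    _ ≤ (C * eLpNorm G 2 μ) * K := by gcongr; exact hC u G hu
    _ = _ := by
        rw [ENNReal.coe_mul, ENNReal.coe_toNNReal hKfin]
        ring

end Pool.Agent.MP_5de7bf_an
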