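import Pool.Agent.Lib.MP_5de7bf_an.Sob3

/-!
# Translation estimate and cell averages
-/

set_option autoImplicit false
set_option linter.unusedSectionVars false

namespace Pool.Agent.MP_5de7bf_an

open Filter Topology MeasureTheory Module
open scoped ENNReal NNReal Gradient

lemma sq_lintegral_le {α : Type*} [MeasurableSpace α] {ν : Measure α} {g : α → ℝ≥0∞}
    (hg : AEMeasurable g ν) :
    (∫⁻ x, g x ∂ν) ^ 2 ≤ ν Set.univ * ∫⁻ x, g x ^ 2 ∂ν := by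
  have h := ENNReal.lintegral_mul_le_Lp_mul_Lq ν Real.HolderConjugate.two_two hg
    (aemeasurable_const (b := (1 : ℝ≥0∞)))
  simp only [Pi.mul_apply, mul_one, ENNReal.one_rpow, lintegral_const, one_mul] at h
  have h3 : ∀ a b : ℝ≥0∞, (a ^ (1 / (2 : ℝ)) * b ^ (1 / (2 : ℝ))) ^ 2 = b * a := by
    intro a b
    rw [mul_pow, ← ENNReal.rpow_natCast, ← ENNReal.rpow_natCast, ← ENNReal.rpow_mul,
      ← ENNReal.rpow_mul]
    norm_num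
    rw [mul_comm]
  calc (∫⁻ x, g x ∂ν) ^ 2 ≤ ((∫⁻ a, g a ^ (2 : ℝ) ∂ν) ^ (1 / (2 : ℝ)) *
        (ν Set.univ) ^ (1 / (2 : ℝ))) ^ 2 := by gcongr
    _ = ν Set.univ * ∫⁻ x, g x ^ 2 ∂ν := by
        rw [h3]
        simp

variable {E : Type*} [NormedAddCommGroup E] [InnerProductSpace ℝ E] [FiniteDimensional ℝ E]

lemma enorm_fderiv_apply_le (φ : E → ℝ) (y z : E) :
    ‖fderiv ℝ φ y z‖ₑ ≤ ‖∇ φ y‖ₑ * ‖z‖ₑ := by
  rw [← ofReal_norm, ← ofReal_norm, ← ofReal_norm, ← ENNReal.ofReal_mul (norm_nonneg _)]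
  refine ENNReal.ofReal_le_ofReal ?_
  rw [norm_grad]
  exact (fderiv ℝ φ y).le_opNorm z

lemma Test.enorm_sub_le {Ω : Set E} {φ : E → ℝ} (h : Test Ω φ) (x z : E) :
    ‖φ (x + z) - φ x‖ₑ ≤ ∫⁻ t in Set.Ioc (0 : ℝ) 1, ‖∇ φ (x + t • z)‖ₑ * ‖z‖ₑ := by
  have h1 : ∀ t : ℝ, HasDerivAt (fun t : ℝ => φ (x + t • z)) (fderiv ℝ φ (x + t • z) z) t := by
    intro t
    have h2 : HasDerivAt (fun t : ℝ => x + t • z) z t := by
      have := ((hasDerivAt_id t).smul_const z).const_add x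
      simpa using this
    exact (h.differentiable (x + t • z)).hasFDerivAt.comp_hasDerivAt t h2
  have hc : Continuous fun t : ℝ => fderiv ℝ φ (x + t • z) z := by
    have h3 : Continuous (fderiv ℝ φ) := h.1.continuous_fderiv (by simp)
    have h4 : Continuous fun t : ℝ => x + t • z := by fun_prop
    exact (h3.comp h4).clm_apply continuous_const
  have h2 : ∫ t in (0 : ℝ)..1, fderiv ℝ φ (x + t • z) z = φ (x + z) - φ x := by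
    rw [intervalIntegral.integral_eq_sub_of_hasDerivAt (fun t _ => h1 t)
      (hc.intervalIntegrable _ _)]
    simp
  rw [← h2, intervalIntegral.integral_of_le zero_le_one]
  refine (enorm_integral_le_lintegral_enorm _).trans ?_
  exact lintegral_mono (fun t => enorm_fderiv_apply_le _ _ _)

variable [MeasurableSpace E] [BorelSpace E]
variable (μ : Measure E) [μ.IsAddHaarMeasure] {Ω : Set E}

/-- The translation estimate. -/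
lemma Test.translation {φ : E → ℝ} (h : Test Ω φ) (z : E) :
    ∫⁻ x, ‖φ (x + z) - φ x‖ₑ ^ 2 ∂μ ≤ ‖z‖ₑ ^ 2 * ∫⁻ x, ‖∇ φ x‖ₑ ^ 2 ∂μ := by
  have hg := h.continuous_grad
  have h1 : ∀ x, ‖φ (x + z) - φ x‖ₑ ^ 2 ≤
      ∫⁻ t in Set.Ioc (0 : ℝ) 1, (‖∇ φ (x + t • z)‖ₑ * ‖z‖ₑ) ^ 2 := by
    intro x
    have h2 := sq_lintegral_le (ν := (volume : Measure ℝ).restrict (Set.Ioc (0 : ℝ) 1))
      (g := fun t => ‖∇ φ (x + t • z)‖ₑ * ‖z‖ₑ) (by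
        have h4 : Continuous fun t : ℝ => x + t • z := by fun_prop
        exact ((hg.comp h4).enorm.measurable.mul_const _).aemeasurable)
    rw [Measure.restrict_apply_univ, Real.volume_Ioc, sub_zero, ENNReal.ofReal_one, one_mul] at h2
    refine le_trans ?_ h2
    gcongr
    exact h.enorm_sub_le x z
  calc ∫⁻ x, ‖φ (x + z) - φ x‖ₑ ^ 2 ∂μ
      ≤ ∫⁻ x, (∫⁻ t in Set.Ioc (0 : ℝ) 1, (‖∇ φ (x + t • z)‖ₑ * ‖z‖ₑ) ^ 2) ∂μ :=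
        lintegral_mono h1
    _ = ∫⁻ t in Set.Ioc (0 : ℝ) 1, (∫⁻ x, (‖∇ φ (x + t • z)‖ₑ * ‖z‖ₑ) ^ 2 ∂μ) := by
        refine lintegral_lintegral_swap ?_
        have h4 : Continuous fun p : E × ℝ => p.1 + p.2 • z := by fun_prop
        exact (((hg.comp h4).enorm.measurable.mul_const _).pow_const 2).aemeasurable
    _ = ∫⁻ _ in Set.Ioc (0 : ℝ) 1, ‖z‖ₑ ^ 2 * ∫⁻ x, ‖∇ φ x‖ₑ ^ 2 ∂μ := by
        refine lintegral_congr fun t => ?_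
        have h5 : ∀ x, (‖∇ φ (x + t • z)‖ₑ * ‖z‖ₑ) ^ 2 = ‖z‖ₑ ^ 2 * ‖∇ φ (x + t • z)‖ₑ ^ 2 := by
          intro x
          rw [mul_pow, mul_comm]
        simp_rw [h5]
        have h6 : ∫⁻ x, ‖z‖ₑ ^ 2 * ‖∇ φ (x + t • z)‖ₑ ^ 2 ∂μ =
            ∫⁻ x, ‖z‖ₑ ^ 2 * ‖∇ φ x‖ₑ ^ 2 ∂μ :=
          lintegral_add_right_eq_self (μ := μ) (fun x => ‖z‖ₑ ^ 2 * ‖∇ φ x‖ₑ ^ 2) (t • z)
        rw [h6, lintegral_const_mul _ (hg.enorm.measurable.pow_const 2)]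
    _ = ‖z‖ₑ ^ 2 * ∫⁻ x, ‖∇ φ x‖ₑ ^ 2 ∂μ := by
        rw [setLIntegral_const, Real.volume_Ioc, sub_zero, ENNReal.ofReal_one, mul_one]

/-- The average of a function over a cell. -/
noncomputable def cav {ι : Type*} (c : E → ι) (v : ℝ≥0∞) (φ : E → ℝ) (k : ι) : ℝ :=
  v.toReal⁻¹ * ∫ y in c ⁻¹' {k}, φ y ∂μ

section Cells

variable {ι : Type*} {c : E → ι} (hc : ∀ k, MeasurableSet (c ⁻¹' {k})) {v : ℝ≥0∞}
  (hv : ∀ k, μ (c ⁻¹' {k}) = v) (hv0 : v ≠ 0) (hvt : v ≠ ∞) {B : Set E} (hB : MeasurableSet B)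
  (hcB : ∀ x y, c (x + y) = c x → y ∈ B)

include hc hv hv0 hvt hB hcB in
lemma Test.cell_pointwise {φ : E → ℝ} (h : Test Ω φ) (x : E) :
    ‖φ x - cav μ c v φ (c x)‖ₑ ^ 2 ≤ v⁻¹ * ∫⁻ z in B, ‖φ (x + z) - φ x‖ₑ ^ 2 ∂μ := by
  set A := c ⁻¹' {c x} with hA
  have hAm : MeasurableSet A := hc _
  have hAv : μ A = v := hv _
  have hint : Integrable φ μ := h.continuous.integrable_of_hasCompactSupport h.2.1
  have hv' : 0 < v.toReal := ENNReal.toReal_pos hv0 hvt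
  have h1 : φ x - cav μ c v φ (c x) = v.toReal⁻¹ * ∫ y in A, (φ x - φ y) ∂μ := by
    have hfin : IsFiniteMeasure (μ.restrict A) := by
      constructor
      rw [Measure.restrict_apply_univ, hAv]
      exact hvt.lt_top
    rw [integral_sub (integrable_const _) hint.restrict, integral_const, measureReal_def,
      Measure.restrict_apply_univ, hAv, smul_eq_mul, mul_sub, ← mul_assoc,
      inv_mul_cancel₀ hv'.ne', one_mul]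
    rfl
  have h2 : ‖v.toReal⁻¹‖ₑ = v⁻¹ := by
    rw [Real.enorm_eq_ofReal (by positivity), ENNReal.ofReal_inv_of_pos hv',
      ENNReal.ofReal_toReal hvt]
  have h3 : ‖φ x - cav μ c v φ (c x)‖ₑ ≤ v⁻¹ * ∫⁻ y in A, ‖φ x - φ y‖ₑ ∂μ := by
    rw [h1, enorm_mul, h2]
    gcongr
    exact enorm_integral_le_lintegral_enorm _
  have hm : Continuous fun y => ‖φ x - φ y‖ₑ := (continuous_const.sub h.continuous).enorm
  have h4 : (∫⁻ y in A, ‖φ x - φ y‖ₑ ∂μ) ^ 2 ≤ v * ∫⁻ y in A, ‖φ x - φ y‖ₑ ^ 2 ∂μ := by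
    have := sq_lintegral_le (ν := μ.restrict A) (g := fun y => ‖φ x - φ y‖ₑ)
      hm.measurable.aemeasurable
    rwa [Measure.restrict_apply_univ, hAv] at this
  have h5 : ∫⁻ y in A, ‖φ x - φ y‖ₑ ^ 2 ∂μ ≤ ∫⁻ z in B, ‖φ (x + z) - φ x‖ₑ ^ 2 ∂μ := by
    rw [← lintegral_indicator hAm, ← lintegral_indicator hB,
      ← lintegral_add_left_eq_self (μ := μ) (A.indicator fun y => ‖φ x - φ y‖ₑ ^ 2) x]
    refine lintegral_mono (fun z => ?_)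
    by_cases hz : x + z ∈ A
    · have hzB : z ∈ B := hcB x z hz
      rw [Set.indicator_of_mem hz, Set.indicator_of_mem hzB, enorm_sub_rev]
    · rw [Set.indicator_of_notMem hz]
      exact zero_le
  calc ‖φ x - cav μ c v φ (c x)‖ₑ ^ 2 ≤ (v⁻¹ * ∫⁻ y in A, ‖φ x - φ y‖ₑ ∂μ) ^ 2 := by gcongr
    _ = v⁻¹ ^ 2 * (∫⁻ y in A, ‖φ x - φ y‖ₑ ∂μ) ^ 2 := mul_pow _ _ _
    _ ≤ v⁻¹ ^ 2 * (v * ∫⁻ y in A, ‖φ x - φ y‖ₑ ^ 2 ∂μ) := by gcongr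
    _ = (v⁻¹ * v) * (v⁻¹ * ∫⁻ y in A, ‖φ x - φ y‖ₑ ^ 2 ∂μ) := by ring
    _ = v⁻¹ * ∫⁻ y in A, ‖φ x - φ y‖ₑ ^ 2 ∂μ := by
        rw [ENNReal.inv_mul_cancel hv0 hvt, one_mul]
    _ ≤ _ := by gcongr

include hc hv hv0 hvt hB hcB in
/-- The cell average estimate. -/
lemma Test.cell {φ : E → ℝ} (h : Test Ω φ) {δ : ℝ≥0∞} (hδ : ∀ z ∈ B, ‖z‖ₑ ≤ δ) :
    ∫⁻ x, ‖φ x - cav μ c v φ (c x)‖ₑ ^ 2 ∂μ ≤
      v⁻¹ * (μ B * (δ ^ 2 * ∫⁻ x, ‖∇ φ x‖ₑ ^ 2 ∂μ)) := by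
  have hm : Measurable (Function.uncurry fun x z : E => ‖φ (x + z) - φ x‖ₑ ^ 2) := by
    have h1 : Continuous fun p : E × E => φ (p.1 + p.2) - φ p.1 :=
      (h.continuous.comp (by fun_prop)).sub (h.continuous.comp continuous_fst)
    exact h1.enorm.measurable.pow_const 2
  calc ∫⁻ x, ‖φ x - cav μ c v φ (c x)‖ₑ ^ 2 ∂μ
      ≤ ∫⁻ x, v⁻¹ * ∫⁻ z in B, ‖φ (x + z) - φ x‖ₑ ^ 2 ∂μ ∂μ :=
        lintegral_mono (fun x => h.cell_pointwise μ hc hv hv0 hvt hB hcB x)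
    _ = v⁻¹ * ∫⁻ x, ∫⁻ z in B, ‖φ (x + z) - φ x‖ₑ ^ 2 ∂μ ∂μ :=
        lintegral_const_mul _ (Measurable.lintegral_prod_right' hm)
    _ = v⁻¹ * ∫⁻ z in B, ∫⁻ x, ‖φ (x + z) - φ x‖ₑ ^ 2 ∂μ ∂μ := by
        rw [lintegral_lintegral_swap hm.aemeasurable]
    _ ≤ v⁻¹ * ∫⁻ _ in B, (δ ^ 2 * ∫⁻ x, ‖∇ φ x‖ₑ ^ 2 ∂μ) ∂μ := by
        refine mul_le_mul' le_rfl ?_
        refine setLIntegral_mono measurable_const (fun z hz => ?_)
        refine (h.translation μ z).trans ?_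
        gcongr
        exact hδ z hz
    _ = v⁻¹ * (μ B * (δ ^ 2 * ∫⁻ x, ‖∇ φ x‖ₑ ^ 2 ∂μ)) := by
        rw [setLIntegral_const, mul_comm (μ B)]

end Cells

end Pool.Agent.MP_5de7bf_an
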