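import Pool.Agent.Lib.MP_5de7bf_an.Sob4

/-!
# Cells in Euclidean space and compact approximations
-/

set_option autoImplicit false
set_option linter.unusedSectionVars false

namespace Pool.Agent.MP_5de7bf_an

open Filter Topology MeasureTheory Module
open scoped ENNReal NNReal Gradient

section Cube

variable {N : ℕ}

/-- The cell index. -/
noncomputable def cix (N : ℕ) (h : ℝ) (x : EuclideanSpace ℝ (Fin N)) : Fin N → ℤ :=
  fun i => ⌊x i / h⌋

/-- The box of size `h`. -/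
def bx (N : ℕ) (h : ℝ) : Set (EuclideanSpace ℝ (Fin N)) := {z | ∀ i, |z i| < h}

lemma cix_preimage {h : ℝ} (hh : 0 < h) (k : Fin N → ℤ) :
    cix N h ⁻¹' {k} = (@WithLp.ofLp 2 (Fin N → ℝ)) ⁻¹'
      (Set.univ.pi fun i => Set.Ico ((k i : ℝ) * h) (((k i : ℝ) + 1) * h)) := by
  ext x
  simp only [cix, Set.mem_preimage, Set.mem_singleton_iff, Set.mem_pi, Set.mem_univ, true_implies,
    Set.mem_Ico, funext_iff]
  refine forall_congr' fun i => ?_
  rw [Int.floor_eq_iff, le_div_iff₀ hh, div_lt_iff₀ hh]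

lemma bx_preimage (h : ℝ) : bx N h = (@WithLp.ofLp 2 (Fin N → ℝ)) ⁻¹'
      (Set.univ.pi fun _ => Set.Ioo (-h) h) := by
  ext x
  simp only [bx, Set.mem_ofPred_eq, Set.mem_preimage, Set.mem_pi, Set.mem_univ, true_implies,
    Set.mem_Ioo, abs_lt]

lemma cix_measurable {h : ℝ} (hh : 0 < h) (k : Fin N → ℤ) :
    MeasurableSet (cix N h ⁻¹' {k}) := by
  rw [cix_preimage hh]
  exact (PiLp.volume_preserving_ofLp (Fin N)).measurable
    (MeasurableSet.univ_pi fun i => measurableSet_Ico)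

lemma bx_measurable (h : ℝ) : MeasurableSet (bx N h) := by
  rw [bx_preimage]
  exact (PiLp.volume_preserving_ofLp (Fin N)).measurable
    (MeasurableSet.univ_pi fun i => measurableSet_Ioo)

lemma cix_volume {h : ℝ} (hh : 0 < h) (k : Fin N → ℤ) :
    volume (cix N h ⁻¹' {k}) = ENNReal.ofReal h ^ N := by
  rw [cix_preimage hh, (PiLp.volume_preserving_ofLp (Fin N)).measure_preimage
    (MeasurableSet.univ_pi fun i => measurableSet_Ico).nullMeasurableSet, Real.volume_pi_Ico]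
  have : ∀ i, ((k i : ℝ) + 1) * h - (k i : ℝ) * h = h := fun i => by ring
  simp_rw [this]
  simp

lemma bx_volume (h : ℝ) :
    volume (bx N h) = 2 ^ N * ENNReal.ofReal h ^ N := by
  rw [bx_preimage, (PiLp.volume_preserving_ofLp (Fin N)).measure_preimage
    (MeasurableSet.univ_pi fun i => measurableSet_Ioo).nullMeasurableSet, Real.volume_pi_Ioo]
  have : h - -h = 2 * h := by ring
  simp_rw [this]
  rw [Finset.prod_const, Finset.card_univ, Fintype.card_fin, ENNReal.ofReal_mul (by norm_num),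
    mul_pow]
  simp

lemma cix_bx {h : ℝ} (hh : 0 < h) (x y : EuclideanSpace ℝ (Fin N))
    (hxy : cix N h (x + y) = cix N h x) : y ∈ bx N h := by
  intro i
  have h1 : ⌊(x + y) i / h⌋ = ⌊x i / h⌋ := congrFun hxy i
  have h2 := Int.abs_sub_lt_one_of_floor_eq_floor h1
  rw [← sub_div, PiLp.add_apply, add_sub_cancel_left, abs_div, abs_of_pos hh,
    div_lt_one hh] at h2
  exact h2

lemma bx_norm {h : ℝ} (hh : 0 < h) {z : EuclideanSpace ℝ (Fin N)} (hz : z ∈ bx N h) :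
    ‖z‖ ≤ N * h := by
  rcases Nat.eq_zero_or_pos N with h0 | h0
  · subst h0
    have : z = 0 := Subsingleton.elim _ _
    rw [this, norm_zero]
    simp
  have h1 : ‖z‖ ^ 2 ≤ (N * h) ^ 2 := by
    rw [EuclideanSpace.norm_sq_eq]
    calc ∑ i, ‖z i‖ ^ 2 ≤ ∑ _i : Fin N, h ^ 2 := by
          refine Finset.sum_le_sum fun i _ => ?_
          have := (hz i).le
          rw [Real.norm_eq_abs]
          gcongr
      _ = N * h ^ 2 := by simp
      _ ≤ (N * h) ^ 2 := by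
          have h2 : (1 : ℝ) ≤ N := by exact_mod_cast h0
          have h3 : 0 ≤ h ^ 2 := by positivity
          have h4 : (N : ℝ) ≤ N * N := by nlinarith
          calc (N : ℝ) * h ^ 2 ≤ (N * N) * h ^ 2 := by gcongr
            _ = (N * h) ^ 2 := by ring
  exact (sq_le_sq₀ (norm_nonneg _) (by positivity)).mp h1

/-- The cell average estimate on Euclidean space. -/
lemma cell_estimate {h : ℝ} (hh : 0 < h) {Ω : Set (EuclideanSpace ℝ (Fin N))}
    {φ : EuclideanSpace ℝ (Fin N) → ℝ} (hφ : Test Ω φ) :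
    ∫⁻ x, ‖φ x - cav volume (cix N h) (ENNReal.ofReal h ^ N) φ (cix N h x)‖ₑ ^ 2 ≤
      ENNReal.ofReal (2 ^ N * (N * h) ^ 2) * ∫⁻ x, ‖∇ φ x‖ₑ ^ 2 := by
  have h0 : ENNReal.ofReal h ≠ 0 := by simpa using hh
  have hv0 : ENNReal.ofReal h ^ N ≠ 0 := pow_ne_zero _ h0
  have hvt : ENNReal.ofReal h ^ N ≠ ∞ := ENNReal.pow_ne_top ENNReal.ofReal_ne_top
  have h1 := hφ.cell volume (cix_measurable hh) (cix_volume hh) hv0 hvt (bx_measurable h)
    (cix_bx hh) (δ := ENNReal.ofReal (N * h)) (fun z hz => by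
      rw [← ofReal_norm]
      exact ENNReal.ofReal_le_ofReal (bx_norm hh hz))
  refine h1.trans (le_of_eq ?_)
  have hC : ENNReal.ofReal (2 ^ N * (N * h) ^ 2) = 2 ^ N * ENNReal.ofReal (N * h) ^ 2 := by
    rw [ENNReal.ofReal_mul (by positivity), ENNReal.ofReal_pow (by positivity),
      ENNReal.ofReal_pow (by positivity), ENNReal.ofReal_ofNat]
  rw [bx_volume h, hC]
  set w := ENNReal.ofReal h ^ N
  calc w⁻¹ * (2 ^ N * w * (ENNReal.ofReal (N * h) ^ 2 * ∫⁻ x, ‖∇ φ x‖ₑ ^ 2))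
      = (w⁻¹ * w) * (2 ^ N * ENNReal.ofReal (N * h) ^ 2 * ∫⁻ x, ‖∇ φ x‖ₑ ^ 2) := by ring
    _ = _ := by rw [ENNReal.inv_mul_cancel hv0 hvt, one_mul]

/-- Finitely many cells meet a bounded set. -/
lemma exists_cells {h : ℝ} (hh : 0 < h) {Ω : Set (EuclideanSpace ℝ (Fin N))}
    (hΩ : Bornology.IsBounded Ω) : ∃ K : Finset (Fin N → ℤ), ∀ x ∈ Ω, cix N h x ∈ K := by
  obtain ⟨R, hR⟩ := hΩ.exists_norm_le
  set M : ℤ := ⌈R / h⌉ + 1 with hM
  refine ⟨Fintype.piFinset fun _ => Finset.Icc (-M) M, fun x hx => ?_⟩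
  rw [Fintype.mem_piFinset]
  intro i
  rw [Finset.mem_Icc]
  have h1 : |x i| ≤ R := by
    have := PiLp.norm_apply_le x i
    rw [Real.norm_eq_abs] at this
    exact this.trans (hR x hx)
  have h2 : |x i / h| ≤ R / h := by
    rw [abs_div, abs_of_pos hh]
    gcongr
  rw [abs_le] at h2
  have h3 : R / h ≤ ⌈R / h⌉ := Int.le_ceil _
  constructor
  · unfold cix
    rw [Int.le_floor]
    push_cast [hM]
    linarith
  · unfold cix
    have h4 : ⌊x i / h⌋ ≤ ⌈R / h⌉ := by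
      have h5 : ((⌊x i / h⌋ : ℤ) : ℝ) ≤ ((⌈R / h⌉ : ℤ) : ℝ) := (Int.floor_le _).trans (by linarith)
      exact_mod_cast h5
    linarith

end Cube

lemma eLpNorm_two_sq {α F : Type*} [MeasurableSpace α] [NormedAddCommGroup F] {μ : Measure α}
    (f : α → F) : eLpNorm f 2 μ ^ 2 = ∫⁻ x, ‖f x‖ₑ ^ 2 ∂μ := by
  rw [eLpNorm_eq_lintegral_rpow_enorm_toReal (by norm_num) (by norm_num)]
  simp only [ENNReal.toReal_ofNat]
  rw [← ENNReal.rpow_natCast, ← ENNReal.rpow_mul]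
  norm_num

section Op

variable {α : Type*} [MeasurableSpace α] {ν : Measure α} [IsFiniteMeasure ν] {ι : Type*}
  (c : α → ι) (hc : ∀ k, MeasurableSet (c ⁻¹' {k})) (v : ℝ) (K : Finset ι)

/-- The characteristic function of a cell. -/
noncomputable def cellInd (k : ι) : Lp ℝ 2 ν :=
  indicatorConstLp 2 (hc k) (measure_ne_top ν _) (1 : ℝ)

/-- The averaging operator. -/
noncomputable def avgOp : Lp ℝ 2 ν →L[ℝ] Lp ℝ 2 ν :=
  ∑ k ∈ K, (innerSL ℝ (cellInd (ν := ν) c hc k)).smulRight (v⁻¹ • cellInd (ν := ν) c hc k)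

lemma avgOp_compact : IsCompactOperator (avgOp (ν := ν) c hc v K) := by
  have h1 : avgOp (ν := ν) c hc v K ∈ compactOperator (RingHom.id ℝ) (Lp ℝ 2 ν) (Lp ℝ 2 ν) := by
    unfold avgOp
    refine Submodule.sum_mem _ (fun k _ => ?_)
    show IsCompactOperator _
    have h2 : IsCompactOperator (innerSL ℝ (cellInd (ν := ν) c hc k)) :=
      isCompactOperator_of_locallyCompactSpace_dom _
    exact h2.clm_comp (ContinuousLinearMap.toSpanSingleton ℝ (v⁻¹ • cellInd (ν := ν) c hc k))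
  exact h1

lemma avgOp_apply (f : Lp ℝ 2 ν) : ∀ᵐ x ∂ν, c x ∈ K →
    avgOp (ν := ν) c hc v K f x = v⁻¹ * ∫ y in c ⁻¹' {c x}, f y ∂ν := by
  classical
  have h1 : avgOp (ν := ν) c hc v K f =
      ∑ k ∈ K, (v⁻¹ * ∫ y in c ⁻¹' {k}, f y ∂ν) • cellInd (ν := ν) c hc k := by
    unfold avgOp
    rw [sum_apply]
    refine Finset.sum_congr rfl fun k _ => ?_
    rw [ContinuousLinearMap.smulRight_apply, innerSL_apply_apply, cellInd,
      L2.inner_indicatorConstLp_one, smul_smul, mul_comm]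
  have h2 : ∀ s : Finset ι, ∀ᵐ x ∂ν,
      (∑ k ∈ s, (v⁻¹ * ∫ y in c ⁻¹' {k}, f y ∂ν) • cellInd (ν := ν) c hc k) x =
      ∑ k ∈ s, (v⁻¹ * ∫ y in c ⁻¹' {k}, f y ∂ν) * (c ⁻¹' {k}).indicator (fun _ => (1 : ℝ)) x := by
    intro s
    induction s using Finset.induction with
    | empty =>
      filter_upwards [Lp.coeFn_zero ℝ 2 ν] with x hx
      simpa using hx
    | insert a s ha ih =>
      have h3 : cellInd (ν := ν) c hc a =ᵐ[ν] (c ⁻¹' {a}).indicator (fun _ => (1 : ℝ)) :=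
        indicatorConstLp_coeFn
      have h4 := Lp.coeFn_smul (v⁻¹ * ∫ y in c ⁻¹' {a}, f y ∂ν) (cellInd (ν := ν) c hc a)
      rw [Finset.sum_insert ha]
      have h5 := Lp.coeFn_add ((v⁻¹ * ∫ y in c ⁻¹' {a}, f y ∂ν) • cellInd (ν := ν) c hc a)
        (∑ k ∈ s, (v⁻¹ * ∫ y in c ⁻¹' {k}, f y ∂ν) • cellInd (ν := ν) c hc k)
      filter_upwards [ih, h3, h4, h5] with x h6 h7 h8 h9
      rw [h9, Pi.add_apply, h8, Pi.smul_apply, h7, h6, Finset.sum_insert ha, smul_eq_mul]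
  rw [h1]
  filter_upwards [h2 K] with x hx hxK
  rw [hx, Finset.sum_eq_single_of_mem (c x) hxK]
  · rw [Set.indicator_of_mem (by simp), mul_one]
  · intro k _ hk
    rw [Set.indicator_of_notMem (by simpa using hk.symm), mul_zero]

end Op

/-- Compact approximations of the identity on test functions. -/
lemma exists_compact_approx {N : ℕ} {Ω : Set (EuclideanSpace ℝ (Fin N))}
    (hΩb : Bornology.IsBounded Ω) (hΩm : MeasurableSet Ω) {ε : ℝ} (hε : 0 < ε) :
    ∃ T : Lp ℝ 2 ((volume : Measure (EuclideanSpace ℝ (Fin N))).restrict Ω) →L[ℝ]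
      Lp ℝ 2 ((volume : Measure (EuclideanSpace ℝ (Fin N))).restrict Ω), IsCompactOperator T ∧
      ∀ φ, Test Ω φ → ∀ f : Lp ℝ 2 ((volume : Measure (EuclideanSpace ℝ (Fin N))).restrict Ω),
        f =ᵐ[volume.restrict Ω] φ → ‖f - T f‖ ≤ ε * (eLpNorm (∇ φ) 2 volume).toReal := by
  have hfin : IsFiniteMeasure ((volume : Measure (EuclideanSpace ℝ (Fin N))).restrict Ω) := by
    constructor
    rw [Measure.restrict_apply_univ]
    exact hΩb.measure_lt_top
  have hsmall : ∃ h : ℝ, 0 < h ∧ 2 ^ N * (N * h) ^ 2 ≤ ε ^ 2 := by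
    have h1 : Tendsto (fun h : ℝ => 2 ^ N * (N * h) ^ 2) (𝓝[>] 0) (𝓝 0) := by
      have h2 : Continuous fun h : ℝ => 2 ^ N * (N * h) ^ 2 := by fun_prop
      have h3 := (h2.tendsto 0).mono_left (nhdsWithin_le_nhds (s := Set.Ioi 0))
      simpa using h3
    have h4 : ∀ᶠ h : ℝ in 𝓝[>] 0, 2 ^ N * (N * h) ^ 2 ≤ ε ^ 2 :=
      h1.eventually (ge_mem_nhds (by positivity))
    obtain ⟨h, h5, h6⟩ := (h4.and (self_mem_nhdsWithin (s := Set.Ioi (0 : ℝ)))).exists
    exact ⟨h, h6, h5⟩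
  obtain ⟨h, hh, hhε⟩ := hsmall
  obtain ⟨K, hK⟩ := exists_cells hh hΩb
  refine ⟨avgOp (cix N h) (cix_measurable hh) (ENNReal.ofReal h ^ N).toReal K,
    avgOp_compact _ _ _ _, fun φ hφ f hf => ?_⟩
  set T := avgOp (ν := (volume : Measure (EuclideanSpace ℝ (Fin N))).restrict Ω) (cix N h)
    (cix_measurable hh) (ENNReal.ofReal h ^ N).toReal K with hT
  have h1 : ∀ᵐ x ∂(volume : Measure (EuclideanSpace ℝ (Fin N))).restrict Ω,
      (f - T f) x = φ x - cav volume (cix N h) (ENNReal.ofReal h ^ N) φ (cix N h x) := by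
    filter_upwards [Lp.coeFn_sub f (T f), hf, avgOp_apply (cix N h) (cix_measurable hh)
      (ENNReal.ofReal h ^ N).toReal K f, ae_restrict_mem hΩm] with x h2 h3 h4 h5
    rw [h2, Pi.sub_apply, h3, h4 (hK x h5), cav]
    congr 2
    have h6 : ∫ y in cix N h ⁻¹' {cix N h x}, f y ∂(volume.restrict Ω) =
        ∫ y in cix N h ⁻¹' {cix N h x}, φ y ∂(volume.restrict Ω) :=
      integral_congr_ae (ae_restrict_of_ae hf)
    rw [h6, Measure.restrict_restrict (cix_measurable hh _)]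
    refine (setIntegral_eq_of_subset_of_ae_sdiff_eq_zero
      (cix_measurable hh _).nullMeasurableSet Set.inter_subset_left
      (Eventually.of_forall fun y hy => ?_)).symm
    exact hφ.eq_zero_of_notMem (fun hyΩ => hy.2 ⟨hy.1, hyΩ⟩)
  have hne : ∫⁻ x, ‖∇ φ x‖ₑ ^ 2 ≠ ∞ := by
    rw [← eLpNorm_two_sq]
    exact ENNReal.pow_ne_top hφ.memLp_grad.2.ne
  have h2 : eLpNorm (f - T f) 2 (volume.restrict Ω) ^ 2 ≤
      ENNReal.ofReal (ε ^ 2) * eLpNorm (∇ φ) 2 volume ^ 2 := by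
    rw [eLpNorm_two_sq, eLpNorm_two_sq]
    calc ∫⁻ x in Ω, ‖(f - T f) x‖ₑ ^ 2
        = ∫⁻ x in Ω, ‖φ x - cav volume (cix N h) (ENNReal.ofReal h ^ N) φ (cix N h x)‖ₑ ^ 2 := by
          refine lintegral_congr_ae ?_
          filter_upwards [h1] with x hx
          rw [hx]
      _ ≤ ∫⁻ x, ‖φ x - cav volume (cix N h) (ENNReal.ofReal h ^ N) φ (cix N h x)‖ₑ ^ 2 :=
          setLIntegral_le_lintegral _ _
      _ ≤ ENNReal.ofReal (2 ^ N * (N * h) ^ 2) * ∫⁻ x, ‖∇ φ x‖ₑ ^ 2 := cell_estimate hh hφ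
      _ ≤ _ := by gcongr
  have h3 : ‖f - T f‖ ^ 2 ≤ (ε * (eLpNorm (∇ φ) 2 volume).toReal) ^ 2 := by
    have h4 : ‖f - T f‖ ^ 2 = (eLpNorm (f - T f) 2 (volume.restrict Ω) ^ 2).toReal := by
      rw [ENNReal.toReal_pow, Lp.norm_def]
    have h5 : (ε * (eLpNorm (∇ φ) 2 volume).toReal) ^ 2 =
        (ENNReal.ofReal (ε ^ 2) * eLpNorm (∇ φ) 2 volume ^ 2).toReal := by
      rw [ENNReal.toReal_mul, ENNReal.toReal_pow, ENNReal.toReal_ofReal (by positivity), mul_pow]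
    rw [h4, h5]
    refine ENNReal.toReal_mono ?_ h2
    exact ENNReal.mul_ne_top ENNReal.ofReal_ne_top (ENNReal.pow_ne_top hφ.memLp_grad.2.ne)
  exact (sq_le_sq₀ (norm_nonneg _) (by positivity)).mp h3

end Pool.Agent.MP_5de7bf_an
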