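import Pool.Agent.Lib.MP_5de7bf_an.Sob5
import Pool.Agent.Lib.MP_5de7bf_an.Dir9

/-!
# The concrete Dirichlet space
-/

set_option autoImplicit false
set_option linter.unusedSectionVars false

namespace Pool.Agent.MP_5de7bf_an

open Filter Topology MeasureTheory Module
open scoped ENNReal NNReal Gradient

variable {N : ℕ}

/-- Data for the Sobolev and Poincaré inequalities. -/
structure SobData (Ω : Set (EuclideanSpace ℝ (Fin N))) where
  bdd : Bornology.IsBounded Ω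
  meas : MeasurableSet Ω
  s : ℝ
  hs : 2 < s
  C : ℝ≥0
  sob : ∀ (u : EuclideanSpace ℝ (Fin N) → ℝ) (G : EuclideanSpace ℝ (Fin N) →
    EuclideanSpace ℝ (Fin N)), Pair volume Ω u G →
      eLpNorm u (ENNReal.ofReal s) volume ≤ C * eLpNorm G 2 volume
  C' : ℝ≥0
  poi : ∀ (u : EuclideanSpace ℝ (Fin N) → ℝ) (G : EuclideanSpace ℝ (Fin N) →
    EuclideanSpace ℝ (Fin N)), Pair volume Ω u G →
      eLpNorm u 2 volume ≤ C' * eLpNorm G 2 volume

/-- The space of weak gradients. -/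
noncomputable def hsub (Ω : Set (EuclideanSpace ℝ (Fin N))) :
    Submodule ℝ (Lp (EuclideanSpace ℝ (Fin N)) 2 (volume : Measure (EuclideanSpace ℝ (Fin N)))) where
  carrier := {X | ∃ u : EuclideanSpace ℝ (Fin N) → ℝ, Pair volume Ω u X}
  add_mem' := by
    rintro X Y ⟨u, hu⟩ ⟨v, hv⟩
    exact ⟨fun x => u x + v x, (hu.add hv).congr (ae_eq_refl _) (Lp.coeFn_add X Y).symm⟩
  zero_mem' := by
    refine ⟨_, (Pair.of_test (μ := volume) (Test.zero (Ω := Ω))).congr (ae_eq_refl _) ?_⟩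
    filter_upwards [Lp.coeFn_zero (EuclideanSpace ℝ (Fin N)) 2
      (volume : Measure (EuclideanSpace ℝ (Fin N)))] with x hx
    rw [hx]
    simp [gradient]
  smul_mem' := by
    rintro c X ⟨u, hu⟩
    exact ⟨fun x => c * u x, (hu.smul c).congr (ae_eq_refl _) (Lp.coeFn_smul c X).symm⟩

variable {Ω : Set (EuclideanSpace ℝ (Fin N))}

lemma mem_hsub {X : Lp (EuclideanSpace ℝ (Fin N)) 2
    (volume : Measure (EuclideanSpace ℝ (Fin N)))} :
    X ∈ hsub Ω ↔ ∃ u : EuclideanSpace ℝ (Fin N) → ℝ, Pair volume Ω u X := Iff.rfl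

lemma Pair.toLp_mem {u : EuclideanSpace ℝ (Fin N) → ℝ}
    {G : EuclideanSpace ℝ (Fin N) → EuclideanSpace ℝ (Fin N)} (h : Pair volume Ω u G) :
    h.2.1.toLp G ∈ hsub Ω := ⟨u, h.congr (ae_eq_refl _) h.2.1.coeFn_toLp.symm⟩

namespace SobData

variable (S : SobData Ω)

include S in
lemma closed : IsClosed (hsub Ω : Set (Lp (EuclideanSpace ℝ (Fin N)) 2
    (volume : Measure (EuclideanSpace ℝ (Fin N))))) := by
  rw [← isSeqClosed_iff_isClosed]
  intro X X₀ hX hlim
  choose u hu using hX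
  set v : ℕ → Lp ℝ 2 (volume : Measure (EuclideanSpace ℝ (Fin N))) := fun n => (hu n).1.toLp (u n)
    with hv
  have hbound : ∀ n m, ‖v n - v m‖ ≤ S.C' * ‖X n - X m‖ := by
    intro n m
    have h1 := S.poi _ _ ((hu n).sub (hu m))
    have h2 : ‖v n - v m‖ = (eLpNorm (fun x => u n x - u m x) 2 volume).toReal := by
      rw [Lp.norm_def]
      congr 1
      refine eLpNorm_congr_ae ?_
      filter_upwards [Lp.coeFn_sub (v n) (v m), (hu n).1.coeFn_toLp, (hu m).1.coeFn_toLp]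
        with x h3 h4 h5
      rw [h3, Pi.sub_apply, hv]
      simp only
      rw [h4, h5]
    have h3 : ‖X n - X m‖ = (eLpNorm (fun x => X n x - X m x) 2 volume).toReal := by
      rw [Lp.norm_def]
      congr 1
      refine eLpNorm_congr_ae ?_
      filter_upwards [Lp.coeFn_sub (X n) (X m)] with x h3
      rw [h3, Pi.sub_apply]
    rw [h2, h3]
    have h4 : ((S.C' : ℝ≥0∞) * eLpNorm (fun x => X n x - X m x) 2 volume).toReal =
        S.C' * (eLpNorm (fun x => X n x - X m x) 2 volume).toReal := by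
      rw [ENNReal.toReal_mul, ENNReal.coe_toReal]
    rw [← h4]
    refine ENNReal.toReal_mono ?_ h1
    exact ENNReal.mul_ne_top ENNReal.coe_ne_top ((hu n).sub (hu m)).2.1.2.ne
  have hcauchy : CauchySeq v := by
    have h1 : CauchySeq X := hlim.cauchySeq
    rw [Metric.cauchySeq_iff] at h1 ⊢
    intro ε hε
    obtain ⟨n₀, hn₀⟩ := h1 (ε / (S.C' + 1)) (by positivity)
    refine ⟨n₀, fun m hm n hn => ?_⟩
    have h2 := hn₀ m hm n hn
    rw [dist_eq_norm] at h2 ⊢
    have h3 : (0 : ℝ) ≤ S.C' := S.C'.2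
    calc ‖v m - v n‖ ≤ S.C' * ‖X m - X n‖ := hbound m n
      _ ≤ (S.C' + 1) * ‖X m - X n‖ := by
          gcongr
          linarith
      _ < (S.C' + 1) * (ε / (S.C' + 1)) := by gcongr
      _ = ε := by field_simp
  obtain ⟨v₀, hv₀⟩ := cauchySeq_tendsto_of_complete hcauchy
  refine ⟨v₀, Pair.of_tendsto hu (Lp.memLp _) (Lp.memLp _) ?_ ?_⟩
  · have h1 := (Lp.tendsto_Lp_iff_tendsto_eLpNorm' v v₀).mp hv₀
    refine h1.congr (fun n => eLpNorm_congr_ae ?_)
    filter_upwards [(hu n).1.coeFn_toLp] with x h2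
    rw [Pi.sub_apply, h2]
  · exact (Lp.tendsto_Lp_iff_tendsto_eLpNorm' X X₀).mp hlim

include S in
lemma complete : CompleteSpace (hsub Ω) := S.closed.completeSpace_coe

include S in
lemma unique {u v : EuclideanSpace ℝ (Fin N) → ℝ}
    {G : EuclideanSpace ℝ (Fin N) → EuclideanSpace ℝ (Fin N)} (hu : Pair volume Ω u G)
    (hv : Pair volume Ω v G) : u =ᵐ[volume] v := by
  have h1 := S.poi _ _ (hu.sub hv)
  have h2 : eLpNorm (fun x => G x - G x) 2 volume = 0 := by simp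
  rw [h2, mul_zero, nonpos_iff_eq_zero, eLpNorm_eq_zero_iff (hu.sub hv).1.1 (by norm_num)] at h1
  filter_upwards [h1] with x hx
  simp only [Pi.zero_apply] at hx
  linarith

/-- The weak gradient. -/
noncomputable def gfn (X : hsub Ω) : EuclideanSpace ℝ (Fin N) → EuclideanSpace ℝ (Fin N) :=
  (X.1 : EuclideanSpace ℝ (Fin N) → EuclideanSpace ℝ (Fin N))

lemma gfn_memLp (X : hsub Ω) : MemLp (gfn X) 2 volume := Lp.memLp X.1

lemma gfn_add (X Y : hsub Ω) : ∀ᵐ x, gfn (X + Y) x = gfn X x + gfn Y x := Lp.coeFn_add X.1 Y.1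

lemma gfn_sub (X Y : hsub Ω) : ∀ᵐ x, gfn (X - Y) x = gfn X x - gfn Y x := Lp.coeFn_sub X.1 Y.1

lemma gfn_smul (c : ℝ) (X : hsub Ω) : ∀ᵐ x, gfn (c • X) x = c • gfn X x := Lp.coeFn_smul c X.1

lemma norm_eq (X : hsub Ω) : ‖X‖ = (eLpNorm (gfn X) 2 volume).toReal := by
  have h1 : ‖X‖ = ‖X.1‖ := Submodule.coe_norm X
  rw [h1]
  exact Lp.norm_def X.1

lemma inner_eq (X Y : hsub Ω) : inner ℝ X Y = ∫ x, inner ℝ (gfn X x) (gfn Y x) := by
  have h1 : inner ℝ X Y = inner ℝ X.1 Y.1 := Submodule.coe_inner _ X Y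
  rw [h1]
  exact L2.inner_def X.1 Y.1

lemma norm_sq_eq (X : hsub Ω) : ‖X‖ ^ 2 = ∫ x, ‖gfn X x‖ ^ 2 := by
  rw [← real_inner_self_eq_norm_sq, inner_eq]
  refine integral_congr_ae (Eventually.of_forall fun x => ?_)
  exact real_inner_self_eq_norm_sq _

/-- The element of the space given by a pair. -/
noncomputable def ofPair {u : EuclideanSpace ℝ (Fin N) → ℝ}
    {G : EuclideanSpace ℝ (Fin N) → EuclideanSpace ℝ (Fin N)} (h : Pair volume Ω u G) : hsub Ω :=
  ⟨h.2.1.toLp G, h.toLp_mem⟩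

lemma gfn_ofPair {u : EuclideanSpace ℝ (Fin N) → ℝ}
    {G : EuclideanSpace ℝ (Fin N) → EuclideanSpace ℝ (Fin N)} (h : Pair volume Ω u G) :
    ∀ᵐ x, gfn (ofPair h) x = G x := h.2.1.coeFn_toLp

lemma pair_ofPair {u : EuclideanSpace ℝ (Fin N) → ℝ}
    {G : EuclideanSpace ℝ (Fin N) → EuclideanSpace ℝ (Fin N)} (h : Pair volume Ω u G) :
    Pair volume Ω u (gfn (ofPair h)) := h.congr (ae_eq_refl _) (by
      filter_upwards [gfn_ofPair h] with x hx
      exact hx.symm)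

/-- The function with given weak gradient. -/
noncomputable def fn (X : hsub Ω) : EuclideanSpace ℝ (Fin N) → ℝ := Classical.choose X.2

lemma fn_spec (X : hsub Ω) : Pair volume Ω (fn X) (gfn X) := Classical.choose_spec X.2

/-- The function as an element of `L²`. -/
noncomputable def fnLp (X : hsub Ω) :
    Lp ℝ 2 ((volume : Measure (EuclideanSpace ℝ (Fin N))).restrict Ω) :=
  ((fn_spec X).1.restrict Ω).toLp (fn X)

lemma fnLp_ae (X : hsub Ω) :
    ∀ᵐ x ∂((volume : Measure (EuclideanSpace ℝ (Fin N))).restrict Ω), fnLp X x = fn X x :=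
  ((fn_spec X).1.restrict Ω).coeFn_toLp

include S in
lemma fnLp_spec {X : hsub Ω} {u : EuclideanSpace ℝ (Fin N) → ℝ} (hu : Pair volume Ω u (gfn X)) :
    ∀ᵐ x ∂((volume : Measure (EuclideanSpace ℝ (Fin N))).restrict Ω), fnLp X x = u x := by
  filter_upwards [fnLp_ae X, ae_restrict_of_ae (S.unique (fn_spec X) hu)] with x h1 h2
  rw [← h2]
  exact h1

include S in
lemma norm_fnLp_le (X : hsub Ω) : ‖fnLp X‖ ≤ S.C' * ‖X‖ := by
  have h1 := S.poi _ _ (fn_spec X)
  have h2 : eLpNorm (fnLp X) 2 (volume.restrict Ω) ≤ eLpNorm (fn X) 2 volume := by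
    rw [eLpNorm_congr_ae (fnLp_ae X)]
    exact eLpNorm_restrict_le _ _ _ _
  have h3 : ‖fnLp X‖ = (eLpNorm (fnLp X) 2 (volume.restrict Ω)).toReal := Lp.norm_def _
  have h5 : ((S.C' : ℝ≥0∞) * eLpNorm (gfn X) 2 volume).toReal = S.C' * ‖X‖ := by
    rw [ENNReal.toReal_mul, ENNReal.coe_toReal, norm_eq]
  rw [h3, ← h5]
  refine ENNReal.toReal_mono ?_ (h2.trans h1)
  exact ENNReal.mul_ne_top ENNReal.coe_ne_top (gfn_memLp X).2.ne

include S in
lemma fnLp_add (X Y : hsub Ω) : fnLp (X + Y) = fnLp X + fnLp Y := by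
  refine Lp.ext ?_
  have h1 : Pair volume Ω (fun x => fn X x + fn Y x) (gfn (X + Y)) := by
    refine ((fn_spec X).add (fn_spec Y)).congr (ae_eq_refl _) ?_
    filter_upwards [gfn_add X Y] with x hx
    exact hx.symm
  filter_upwards [S.fnLp_spec h1, Lp.coeFn_add (fnLp X) (fnLp Y), fnLp_ae X, fnLp_ae Y]
    with x h2 h3 h4 h5
  rw [h2, h3, Pi.add_apply, h4, h5]

include S in
lemma fnLp_smul (c : ℝ) (X : hsub Ω) : fnLp (c • X) = c • fnLp X := by
  refine Lp.ext ?_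
  have h1 : Pair volume Ω (fun x => c * fn X x) (gfn (c • X)) := by
    refine ((fn_spec X).smul c).congr (ae_eq_refl _) ?_
    filter_upwards [gfn_smul c X] with x hx
    exact hx.symm
  filter_upwards [S.fnLp_spec h1, Lp.coeFn_smul c (fnLp X), fnLp_ae X] with x h2 h3 h4
  rw [h2, h3, Pi.smul_apply, h4, smul_eq_mul]

/-- The embedding. -/
noncomputable def emb : hsub Ω →L[ℝ] Lp ℝ 2
    ((volume : Measure (EuclideanSpace ℝ (Fin N))).restrict Ω) :=
  LinearMap.mkContinuous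
    { toFun := fnLp
      map_add' := S.fnLp_add
      map_smul' := S.fnLp_smul }
    S.C' (fun X => S.norm_fnLp_le X)

lemma emb_apply (X : hsub Ω) : S.emb X = fnLp X := rfl

lemma emb_spec {X : hsub Ω} {u : EuclideanSpace ℝ (Fin N) → ℝ} (hu : Pair volume Ω u (gfn X)) :
    ∀ᵐ x ∂((volume : Measure (EuclideanSpace ℝ (Fin N))).restrict Ω), S.emb X x = u x :=
  S.fnLp_spec hu

/-- Approximation of elements by test gradients. -/
lemma dense_test (X : hsub Ω) {ε : ℝ} (hε : 0 < ε) : ∃ (φ : EuclideanSpace ℝ (Fin N) → ℝ)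
    (_ : Test Ω φ) (Y : hsub Ω), Pair volume Ω φ (gfn Y) ∧
      (∀ᵐ x, gfn Y x = ∇ φ x) ∧ ‖X - Y‖ < ε := by
  obtain ⟨φ, hφ, _, h2⟩ := (fn_spec X).approx (ENNReal.ofReal_pos.mpr hε)
  have hp : Pair volume Ω φ (∇ φ) := Pair.of_test hφ
  refine ⟨φ, hφ, ofPair hp, pair_ofPair hp, gfn_ofPair hp, ?_⟩
  have h3 : ‖X - ofPair hp‖ = (eLpNorm (fun x => ∇ φ x - gfn X x) 2 volume).toReal := by
    rw [norm_sub_rev, norm_eq]
    congr 1
    refine eLpNorm_congr_ae ?_
    filter_upwards [gfn_sub (ofPair hp) X, gfn_ofPair hp] with x h4 h5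
    rw [h4, h5]
  rw [h3]
  exact ENNReal.toReal_lt_of_lt_ofReal h2

lemma emb_compact : IsCompactOperator S.emb := by
  have hT : ∀ n : ℕ, ∃ T : Lp ℝ 2 ((volume : Measure (EuclideanSpace ℝ (Fin N))).restrict Ω) →L[ℝ]
      Lp ℝ 2 ((volume : Measure (EuclideanSpace ℝ (Fin N))).restrict Ω), IsCompactOperator T ∧
      ‖T.comp S.emb - S.emb‖ ≤ 1 / ((n : ℝ) + 1) := by
    intro n
    obtain ⟨T, hTc, hT⟩ := exists_compact_approx S.bdd S.meas (ε := 1 / ((n : ℝ) + 1))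
      (by positivity)
    refine ⟨T, hTc, ContinuousLinearMap.opNorm_le_bound _ (by positivity) (fun X => ?_)⟩
    have hclosed : IsClosed {X : hsub Ω | ‖(T.comp S.emb - S.emb) X‖ ≤ 1 / ((n : ℝ) + 1) * ‖X‖} :=
      isClosed_le (T.comp S.emb - S.emb).continuous.norm (continuous_const.mul continuous_norm)
    have hmem : X ∈ closure {X : hsub Ω | ‖(T.comp S.emb - S.emb) X‖ ≤
        1 / ((n : ℝ) + 1) * ‖X‖} := by
      rw [Metric.mem_closure_iff]
      intro ε hε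
      obtain ⟨φ, hφ, Y, hY, hYe, hlt⟩ := dense_test X hε
      refine ⟨Y, ?_, by rwa [dist_eq_norm]⟩
      have h1 := hT φ hφ (S.emb Y) (S.emb_spec hY)
      have h2 : ‖Y‖ = (eLpNorm (∇ φ) 2 volume).toReal := by
        rw [norm_eq, eLpNorm_congr_ae hYe]
      rw [← h2] at h1
      have h3 : (T.comp S.emb - S.emb) Y = -(S.emb Y - T (S.emb Y)) := by
        rw [neg_sub]
        rfl
      show ‖(T.comp S.emb - S.emb) Y‖ ≤ _
      rw [h3, norm_neg]
      exact h1
    exact hclosed.closure_subset hmem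
  choose T hTc hT using hT
  refine isCompactOperator_of_tendsto (F := fun n => (T n).comp S.emb) (l := atTop) ?_
    (Eventually.of_forall fun n => (hTc n).comp_clm S.emb)
  exact (tendsto_iff_norm_sub_tendsto_zero (E := hsub Ω →L[ℝ] Lp ℝ 2
    ((volume : Measure (EuclideanSpace ℝ (Fin N))).restrict Ω))).mpr
    (squeeze_zero (fun n => norm_nonneg ((T n).comp S.emb - S.emb)) hT
      tendsto_one_div_add_atTop_nhds_zero_nat)

end SobData

end Pool.Agent.MP_5de7bf_an
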