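import Pool.Agent.Lib.MP_5de7bf_an.Sob6
import Pool.Agent.Lib.MP_5de7bf_an.Dir10

/-!
# The final theorem in concrete form
-/

set_option autoImplicit false
set_option linter.unusedSectionVars false

namespace Pool.Agent.MP_5de7bf_an

open Filter Topology MeasureTheory Module
open scoped ENNReal NNReal Gradient

lemma integral_rpow_eq {α : Type*} [MeasurableSpace α] {μ : Measure α} {f : α → ℝ} {p : ℝ}
    (hp : 0 < p) (hf : MemLp f (ENNReal.ofReal p) μ) :
    ∫ x, |f x| ^ p ∂μ = (eLpNorm f (ENNReal.ofReal p) μ).toReal ^ p := by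
  have h0 : ENNReal.ofReal p ≠ 0 := by simpa using hp
  have h1 := hf.eLpNorm_eq_integral_rpow_norm h0 ENNReal.ofReal_ne_top
  rw [ENNReal.toReal_ofReal hp.le] at h1
  have h2 : 0 ≤ ∫ x, ‖f x‖ ^ p ∂μ := integral_nonneg fun x => Real.rpow_nonneg (norm_nonneg _) _
  rw [h1, ENNReal.toReal_ofReal (Real.rpow_nonneg h2 _), ← Real.rpow_mul h2,
    inv_mul_cancel₀ hp.ne', Real.rpow_one]
  rfl

variable {N : ℕ} {Ω : Set (EuclideanSpace ℝ (Fin N))}

namespace SobData

variable (S : SobData Ω)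

include S in
lemma finite_restrict :
    IsFiniteMeasure ((volume : Measure (EuclideanSpace ℝ (Fin N))).restrict Ω) := by
  constructor
  rw [Measure.restrict_apply_univ]
  exact S.bdd.measure_lt_top

include S in
lemma memLp_s {u : EuclideanSpace ℝ (Fin N) → ℝ}
    {G : EuclideanSpace ℝ (Fin N) → EuclideanSpace ℝ (Fin N)} (h : Pair volume Ω u G) :
    MemLp u (ENNReal.ofReal S.s) (volume.restrict Ω) := by
  have h1 := S.sob u G h
  have h2 : MemLp u (ENNReal.ofReal S.s) volume :=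
    ⟨h.1.1, h1.trans_lt (ENNReal.mul_lt_top ENNReal.coe_lt_top h.2.1.2)⟩
  exact h2.restrict Ω

include S in
lemma memLp_q {q : ℝ} (hqs : q ≤ S.s) {u : EuclideanSpace ℝ (Fin N) → ℝ}
    {G : EuclideanSpace ℝ (Fin N) → EuclideanSpace ℝ (Fin N)} (h : Pair volume Ω u G) :
    MemLp u (ENNReal.ofReal q) (volume.restrict Ω) := by
  have := S.finite_restrict
  exact (S.memLp_s h).mono_exponent (ENNReal.ofReal_le_ofReal hqs)

lemma int_congr (X : hsub Ω) {u : EuclideanSpace ℝ (Fin N) → ℝ}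
    (hu : Pair volume Ω u (gfn X)) (q : ℝ) :
    ∫ x, |S.emb X x| ^ q ∂(volume.restrict Ω) = ∫ x, |u x| ^ q ∂(volume.restrict Ω) := by
  refine integral_congr_ae ?_
  filter_upwards [S.emb_spec hu] with x hx
  rw [hx]

/-- The concrete Dirichlet space. -/
noncomputable def dir : Dir ((volume : Measure (EuclideanSpace ℝ (Fin N))).restrict Ω) (hsub Ω) where
  emb := S.emb
  compact := S.emb_compact
  trunc := fun X k hk => by
    have hp := (fn_spec X).trunc hk
    refine ⟨ofPair hp, ?_, ?_⟩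
    · filter_upwards [S.emb_spec (pair_ofPair hp), S.emb_spec (fn_spec X)] with x h1 h2
      rw [h1, h2]
    · rw [inner_eq, norm_sq_eq]
      refine integral_congr_ae ?_
      filter_upwards [gfn_ofPair hp] with x hx
      rw [hx, real_inner_smul_right, real_inner_self_eq_norm_sq, norm_smul, mul_pow,
        Real.norm_eq_abs, sq_abs, sq (stp k (fn X x)), stp_sq]
  s := S.s
  hs := S.hs
  C := (S.C : ℝ) + 1
  hC := by positivity
  sob_int := fun X => by
    have h1 := (S.memLp_s (fn_spec X)).integrable_norm_rpow (by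
      have := S.hs
      simp only [ne_eq, ENNReal.ofReal_eq_zero, not_le]
      linarith) ENNReal.ofReal_ne_top
    rw [ENNReal.toReal_ofReal (by have := S.hs; linarith)] at h1
    refine h1.congr ?_
    filter_upwards [S.emb_spec (fn_spec X)] with x hx
    rw [hx, Real.norm_eq_abs]
  sob := fun X => by
    have hs := S.hs
    rw [S.int_congr X (fn_spec X), integral_rpow_eq (by linarith) (S.memLp_s (fn_spec X))]
    refine Real.rpow_le_rpow ENNReal.toReal_nonneg ?_ (by linarith)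
    have h1 := S.sob _ _ (fn_spec X)
    have h2 : ((S.C : ℝ≥0∞) * eLpNorm (gfn X) 2 volume).toReal = S.C * ‖X‖ := by
      rw [ENNReal.toReal_mul, ENNReal.coe_toReal, norm_eq]
    have h3 : (eLpNorm (fn X) (ENNReal.ofReal S.s) (volume.restrict Ω)).toReal ≤ S.C * ‖X‖ := by
      rw [← h2]
      refine ENNReal.toReal_mono ?_ ((eLpNorm_restrict_le _ _ _ _).trans h1)
      exact ENNReal.mul_ne_top ENNReal.coe_ne_top (gfn_memLp X).2.ne
    have h4 : 0 ≤ ‖X‖ := norm_nonneg _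
    linarith

lemma dir_emb (X : hsub Ω) : S.dir.emb X = S.emb X := rfl

include S in
lemma eLpNorm_one_iff {q : ℝ} (hq : 0 < q) (hqs : q ≤ S.s) {u : EuclideanSpace ℝ (Fin N) → ℝ}
    {G : EuclideanSpace ℝ (Fin N) → EuclideanSpace ℝ (Fin N)} (h : Pair volume Ω u G) :
    eLpNorm u (ENNReal.ofReal q) volume = 1 ↔ ∫ x, |u x| ^ q ∂(volume.restrict Ω) = 1 := by
  rw [integral_rpow_eq hq (S.memLp_q hqs h), ← eLpNorm_restrict_of_ae_zero S.meas h.ae_zero]
  constructor
  · intro h1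
    rw [h1, ENNReal.toReal_one, Real.one_rpow]
  · intro h1
    have h2 : (eLpNorm u (ENNReal.ofReal q) (volume.restrict Ω)).toReal = 1 := by
      have h3 := congrArg (fun t : ℝ => t ^ q⁻¹) h1
      rw [← Real.rpow_mul ENNReal.toReal_nonneg, mul_inv_cancel₀ hq.ne', Real.rpow_one,
        Real.one_rpow] at h3
      exact h3
    exact (ENNReal.toReal_eq_one_iff _).mp h2

/-- The value sets agree. -/
lemma vals_eq {q : ℝ} (hq : 0 < q) (hqs : q ≤ S.s) :
    {t : ℝ | ∃ (u : EuclideanSpace ℝ (Fin N) → ℝ)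
        (G : EuclideanSpace ℝ (Fin N) → EuclideanSpace ℝ (Fin N)),
        Pair volume Ω u G ∧ eLpNorm u (ENNReal.ofReal q) volume = 1 ∧
        t = ∫ x, ‖G x‖ ^ 2} = S.dir.vals q := by
  ext t
  constructor
  · rintro ⟨u, G, hp, h1, rfl⟩
    refine ⟨ofPair hp, ?_, ?_⟩
    · rw [dir_emb, S.int_congr _ (pair_ofPair hp)]
      exact (S.eLpNorm_one_iff hq hqs hp).mp h1
    · rw [norm_sq_eq]
      refine integral_congr_ae ?_
      filter_upwards [gfn_ofPair hp] with x hx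
      rw [hx]
  · rintro ⟨X, h1, rfl⟩
    refine ⟨fn X, gfn X, fn_spec X, ?_, norm_sq_eq X⟩
    rw [S.eLpNorm_one_iff hq hqs (fn_spec X)]
    rw [dir_emb, S.int_congr _ (fn_spec X)] at h1
    exact h1

/-- Critical pairs give critical points. -/
lemma crit_of_pair {q : ℝ} (hq : 2 < q) (hqs : q ≤ S.s) {u : EuclideanSpace ℝ (Fin N) → ℝ}
    {G : EuclideanSpace ℝ (Fin N) → EuclideanSpace ℝ (Fin N)} (hp : Pair volume Ω u G)
    (h1 : eLpNorm u (ENNReal.ofReal q) volume = 1)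
    (h2 : ∀ ψ : EuclideanSpace ℝ (Fin N) → ℝ, ContDiff ℝ (⊤ : ℕ∞) ψ → HasCompactSupport ψ →
        tsupport ψ ⊆ Ω →
        ∫ x, inner ℝ (G x) (gradient ψ x) =
          (∫ x, ‖G x‖ ^ 2) * ∫ x, |u x| ^ (q - 2) * u x * ψ x) :
    S.dir.Crit q (ofPair hp) := by
  have := S.finite_restrict
  refine S.dir.crit_of_dense (by linarith) hqs ?_ (fun Y ε hε => ?_)
  · rw [dir_emb, S.int_congr _ (pair_ofPair hp)]
    exact (S.eLpNorm_one_iff (by linarith) hqs hp).mp h1
  · obtain ⟨ψ, hψ, Z, hZ, hZe, hlt⟩ := dense_test Y hε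
    refine ⟨Z, hlt, ?_⟩
    have h3 : inner ℝ (ofPair hp) Z = ∫ x, inner ℝ (G x) (gradient ψ x) := by
      rw [inner_eq]
      refine integral_congr_ae ?_
      filter_upwards [gfn_ofPair hp, hZe] with x h4 h5
      rw [h4, h5]
    have h4 : ‖ofPair hp‖ ^ 2 = ∫ x, ‖G x‖ ^ 2 := by
      rw [norm_sq_eq]
      refine integral_congr_ae ?_
      filter_upwards [gfn_ofPair hp] with x hx
      rw [hx]
    have h5 : ∫ x, |S.dir.emb (ofPair hp) x| ^ (q - 2) * S.dir.emb (ofPair hp) x *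
        S.dir.emb Z x ∂(volume.restrict Ω) = ∫ x, |u x| ^ (q - 2) * u x * ψ x := by
      have h6 : ∫ x, |S.dir.emb (ofPair hp) x| ^ (q - 2) * S.dir.emb (ofPair hp) x *
          S.dir.emb Z x ∂(volume.restrict Ω) =
          ∫ x in Ω, |u x| ^ (q - 2) * u x * ψ x := by
        refine integral_congr_ae ?_
        filter_upwards [S.emb_spec (pair_ofPair hp), S.emb_spec hZ] with x h7 h8
        rw [dir_emb, dir_emb, h7, h8]
      rw [h6]
      refine setIntegral_eq_integral_of_forall_compl_eq_zero (fun x hx => ?_)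
      rw [hψ.eq_zero_of_notMem hx, mul_zero]
    rw [h3, h4, h5]
    exact h2 ψ hψ.1 hψ.2.1 hψ.2.2

end SobData

/-- Existence of the Sobolev data with exponent beyond `q`. -/
lemma exists_sobData (hN : 2 ≤ N) (hΩ : IsOpen Ω) (hΩb : Bornology.IsBounded Ω) {q : ℝ}
    (hq : 2 < q) (hqN : ((N : ℝ) - 2) * q < 2 * (N : ℝ)) : ∃ S : SobData Ω, q < S.s := by
  have hN0 : (2 : ℝ) ≤ N := by exact_mod_cast hN
  have hfr : finrank ℝ (EuclideanSpace ℝ (Fin N)) = N := by simp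
  -- choose `s`
  have h1 : 1 / 2 - 1 / (N : ℝ) < 1 / q := by
    have h2 : 1 / q - (1 / 2 - 1 / (N : ℝ)) = (2 * N - (N - 2) * q) / (2 * N * q) := by
      field_simp
    have h3 : 0 < (2 * N - (N - 2) * q) / (2 * N * q) := by
      apply div_pos
      · linarith
      · positivity
    linarith
  obtain ⟨r, hr1, hr2⟩ : ∃ r : ℝ, max (1 / 2 - 1 / (N : ℝ)) 0 < r ∧ r < 1 / q :=
    exists_between (max_lt h1 (by positivity))
  have hr0 : 0 < r := (le_max_right _ _).trans_lt hr1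
  have hr3 : 1 / 2 - 1 / (N : ℝ) < r := (le_max_left _ _).trans_lt hr1
  have hs : q < 1 / r := by
    rw [lt_one_div (by linarith) hr0]
    exact hr2
  have hs1 : 1 / 2 - 1 / (finrank ℝ (EuclideanSpace ℝ (Fin N)) : ℝ) < 1 / (1 / r) := by
    rw [hfr, one_div_one_div]
    exact hr3
  obtain ⟨C, hC⟩ := sobolev_pair (volume : Measure (EuclideanSpace ℝ (Fin N)))
    (by rw [hfr]; exact hN) hΩb hΩ.measurableSet (s := 1 / r) (by linarith) hs1
  obtain ⟨C', hC'⟩ := poincare_pair (volume : Measure (EuclideanSpace ℝ (Fin N)))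
    (by rw [hfr]; exact hN) hΩb hΩ.measurableSet (s := 1 / r) (by linarith) hs1
  exact ⟨⟨hΩb, hΩ.measurableSet, 1 / r, by linarith, C, hC, C', hC'⟩, hs⟩

/-- The main theorem. -/
theorem main_isolated (hN : 2 ≤ N) (hΩ : IsOpen Ω) (hΩb : Bornology.IsBounded Ω) {q : ℝ}
    (hq : 2 < q) (hqN : ((N : ℝ) - 2) * q < 2 * (N : ℝ)) (l1 : ℝ)
    (hl1 : l1 = sInf {t : ℝ | ∃ (u : EuclideanSpace ℝ (Fin N) → ℝ)
        (G : EuclideanSpace ℝ (Fin N) → EuclideanSpace ℝ (Fin N)),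
        Pair volume Ω u G ∧ eLpNorm u (ENNReal.ofReal q) volume = 1 ∧ t = ∫ x, ‖G x‖ ^ 2}) :
    ∃ ε : ℝ, 0 < ε ∧ ∀ (u : EuclideanSpace ℝ (Fin N) → ℝ)
      (G : EuclideanSpace ℝ (Fin N) → EuclideanSpace ℝ (Fin N)), Pair volume Ω u G →
      eLpNorm u (ENNReal.ofReal q) volume = 1 →
      (∀ ψ : EuclideanSpace ℝ (Fin N) → ℝ, ContDiff ℝ (⊤ : ℕ∞) ψ → HasCompactSupport ψ →
        tsupport ψ ⊆ Ω →
        ∫ x, inner ℝ (G x) (gradient ψ x) =
          (∫ x, ‖G x‖ ^ 2) * ∫ x, |u x| ^ (q - 2) * u x * ψ x) →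
      (∫ x, ‖G x‖ ^ 2) < l1 + ε →
      (∫ x, ‖G x‖ ^ 2) = l1 := by
  obtain ⟨S, hS⟩ := exists_sobData hN hΩ hΩb hq hqN
  have := S.finite_restrict
  have := S.complete
  rw [S.vals_eq (by linarith) hS.le] at hl1
  obtain ⟨ε, hε, h⟩ := S.dir.isolated hq hS
  refine ⟨ε, hε, fun u G hp h1 h2 h3 => ?_⟩
  have h4 : ‖SobData.ofPair hp‖ ^ 2 = ∫ x, ‖G x‖ ^ 2 := by
    rw [SobData.norm_sq_eq]
    refine integral_congr_ae ?_
    filter_upwards [SobData.gfn_ofPair hp] with x hx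
    rw [hx]
  have h5 := h (SobData.ofPair hp) (S.crit_of_pair hq hS.le hp h1 h2) (by
    rw [h4, ← hl1]
    exact h3)
  rw [h4, ← hl1] at h5
  exact h5

end Pool.Agent.MP_5de7bf_an
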