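import Pool.Agent.Lib.MP_5de7bf_an.FunCalc
import Pool.Agent.Lib.MP_5de7bf_an.Shift

/-!
# The Weierstrass division theorem for real analytic functions
-/

set_option autoImplicit false

namespace Pool.Agent.MP_5de7bf_an

open Filter Topology

section

variable {M : Type*} [NormedAddCommGroup M] [NormedSpace ℝ M] [CompleteSpace M]
variable {X : Type*} [NormedAddCommGroup X] [NormedSpace ℝ X] [FiniteDimensional ℝ X]

/-- Analytic functions of `(x, t)` act on sequences, `t` acting as a multiple of the shift. -/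
lemma exists_op (σ : ShiftModel M) {f : X × ℝ → ℝ} (hf : AnalyticAt ℝ f 0) :
    ∃ F : X × ℝ → (M →L[ℝ] M), AnalyticAt ℝ F 0 ∧ ∃ r : ℝ, 0 < r ∧
      ∀ (x : X) (s : ℝ), ‖x‖ < r → |s| < r → ∀ z : ℝ, |z| < 1 → ∀ m : M,
        σ.ev z (F (x, s) m) = f (x, s * z) * σ.ev z m := by
  classical
  let bX := Module.finBasis ℝ X
  let b : (Fin (Module.finrank ℝ X)) ⊕ Unit → X × ℝ := Sum.elim (fun i => (bX i, 0))
    (fun _ => (0, 1))
  let cc : Fin (Module.finrank ℝ X) → (X →L[ℝ] ℝ) := fun i =>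
    LinearMap.toContinuousLinearMap (bX.coord i)
  let π : (Fin (Module.finrank ℝ X)) ⊕ Unit → (X × ℝ →L[ℝ] (M →L[ℝ] M)) := Sum.elim
    (fun i => ((cc i).comp (ContinuousLinearMap.fst ℝ X ℝ)).smulRight (1 : M →L[ℝ] M))
    (fun _ => (ContinuousLinearMap.snd ℝ X ℝ).smulRight σ.S)
  obtain ⟨F, hF, r, hr, h⟩ := exists_funCalc b hf π
  refine ⟨F, hF, r, hr, fun x s hx hs z hz m => ?_⟩
  have hsum : ∑ i, (Sum.elim (fun i => cc i x) (fun _ => s * z) :
      (Fin (Module.finrank ℝ X)) ⊕ Unit → ℝ) i • b i = (x, s * z) := by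
    rw [Fintype.sum_sum_type]
    have h1 : ∑ i, bX.coord i x • bX i = x := bX.sum_repr x
    have h2 : ∑ i, cc i x • b (Sum.inl i) = (x, 0) := by
      refine Prod.ext ?_ ?_
      · rw [Prod.fst_sum]
        simp [b, cc]
      · rw [Prod.snd_sum]
        simp [b]
    simp only [Sum.elim_inl, Sum.elim_inr]
    rw [h2]
    simp [b]
  have hy : ‖(x, s)‖ < r := by
    rw [Prod.norm_def]
    exact max_lt hx hs
  have hc : ‖(x, s * z)‖ < r := by
    rw [Prod.norm_def]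
    refine max_lt hx ?_
    simp only [Real.norm_eq_abs, abs_mul]
    calc |s| * |z| ≤ |s| * 1 := by gcongr
      _ < r := by rwa [mul_one]
  have h3 := h (x, s) hy (Sum.elim (fun i => cc i x) (fun _ => s * z))
    (by rw [hsum]; exact hc)
    ((σ.ev z).comp (ContinuousLinearMap.apply ℝ M m)) (by
      intro i a
      rcases i with i | i
      · simp [π]
      · simp [π, σ.ev_S hz]
        ring)
  rw [hsum] at h3
  simpa using h3

end

section Solve

variable {M N X : Type*} [NormedAddCommGroup M] [NormedSpace ℝ M] [CompleteSpace M]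
  [NormedAddCommGroup N] [NormedSpace ℝ N] [CompleteSpace N]
  [NormedAddCommGroup X] [NormedSpace ℝ X]

/-- Analytic dependence of the solution of a linear equation. -/
lemma solve_analytic {L : X → (N →L[ℝ] M)} (hL : AnalyticAt ℝ L 0)
    (hinj : Function.Injective (L 0)) (hsurj : Function.Surjective (L 0)) {w : X → M}
    (hw : AnalyticAt ℝ w 0) :
    ∃ u : X → N, AnalyticAt ℝ u 0 ∧ ∀ᶠ x in 𝓝 0, L x (u x) = w x := by
  let Λ : N ≃L[ℝ] M := ContinuousLinearEquiv.ofBijective (L 0)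
    (LinearMap.ker_eq_bot.mpr hinj) (LinearMap.range_eq_top.mpr hsurj)
  have hΛ : ∀ y, Λ.symm (L 0 y) = y := fun y =>
    ContinuousLinearEquiv.ofBijective_symm_apply_apply _ _ _ y
  let Ax : X → (N →L[ℝ] N) := fun x => (Λ.symm : M →L[ℝ] N).comp (L x)
  have hA : AnalyticAt ℝ Ax 0 :=
    ((ContinuousLinearMap.compL ℝ N M N (Λ.symm : M →L[ℝ] N)).analyticAt _).fun_comp hL
  have hA0 : Ax 0 = 1 := by
    ext y
    exact hΛ y
  have hunit : ∀ᶠ x in 𝓝 0, IsUnit (Ax x) := by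
    have h1 : {a : N →L[ℝ] N | IsUnit a} ∈ 𝓝 (Ax 0) := by
      rw [hA0]
      exact Units.nhds (1 : (N →L[ℝ] N)ˣ)
    exact hA.continuousAt h1
  have hinv : AnalyticAt ℝ (fun x => Ring.inverse (Ax x)) 0 := by
    refine AnalyticAt.comp_of_eq (g := Ring.inverse) (f := Ax) (y := (1 : N →L[ℝ] N)) ?_ hA hA0
    exact analyticAt_inverse (𝕜 := ℝ) (1 : (N →L[ℝ] N)ˣ)
  refine ⟨fun x => Ring.inverse (Ax x) (Λ.symm (w x)), ?_, ?_⟩
  · have h2 : AnalyticAt ℝ (fun x => Λ.symm (w x)) 0 :=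
      ((Λ.symm : M →L[ℝ] N).analyticAt _).fun_comp hw
    have h3 := (ContinuousLinearMap.analyticAt_bilinear (ContinuousLinearMap.id ℝ (N →L[ℝ] N))
      (Ring.inverse (Ax 0), Λ.symm (w 0)))
    exact h3.comp_of_eq (hinv.prod h2) rfl
  · filter_upwards [hunit] with x hx
    have h4 : Ax x * Ring.inverse (Ax x) = 1 := Ring.mul_inverse_cancel _ hx
    have h5 : Ax x (Ring.inverse (Ax x) (Λ.symm (w x))) = Λ.symm (w x) := by
      have := congrArg (fun f : N →L[ℝ] N => f (Λ.symm (w x))) h4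
      simpa using this
    exact Λ.symm.injective h5

end Solve

section Inj

variable {M : Type*} [NormedAddCommGroup M] [NormedSpace ℝ M] (σ : ShiftModel M)

lemma ShiftModel.inj (m : ℕ) (q : M) (r : Fin m → ℝ)
    (h : (σ.S ^ m) q + ∑ k : Fin m, r k • (σ.S ^ (k : ℕ)) σ.d = 0) : q = 0 ∧ r = 0 := by
  induction m generalizing q with
  | zero => 
    simp at h
    exact ⟨h, Subsingleton.elim _ _⟩
  | succ m ih =>
    rw [Fin.sum_univ_castSucc] at h
    simp only [Fin.val_castSucc, Fin.val_last] at h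
    have h1 : (σ.S ^ m) (σ.S q + r (Fin.last m) • σ.d) +
        ∑ k : Fin m, r k.castSucc • (σ.S ^ (k : ℕ)) σ.d = 0 := by
      rw [map_add, map_smul]
      rw [pow_succ, mul_apply_eq_comp] at h
      rw [← h]
      abel
    obtain ⟨h2, h3⟩ := ih _ _ h1
    have h4 : r (Fin.last m) = 0 := by
      have := congrArg σ.c h2
      rw [map_add, map_smul, σ.cS, σ.cd, map_zero] at this
      simpa using this
    have h5 : q = 0 := by
      have := congrArg σ.B h2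
      rw [map_add, map_smul, σ.BS, σ.Bd, map_zero] at this
      simpa using this
    refine ⟨h5, ?_⟩
    funext k
    refine Fin.lastCases ?_ (fun k => ?_) k
    · exact h4
    · exact congrFun h3 k

end Inj

section Main

variable {M : Type*} [NormedAddCommGroup M] [NormedSpace ℝ M] [CompleteSpace M]
variable {X : Type*} [NormedAddCommGroup X] [NormedSpace ℝ X] [FiniteDimensional ℝ X]

/-- The Weierstrass division theorem, relative to a sequence model. -/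
theorem weierstrass_aux (σ : ShiftModel M) {g : X × ℝ → ℝ} (hg : AnalyticAt ℝ g 0) {m : ℕ}
    {e : ℝ → ℝ} (he : AnalyticAt ℝ e 0) (he0 : e 0 ≠ 0)
    (hge : ∀ᶠ t in 𝓝 (0 : ℝ), g (0, t) = t ^ m * e t)
    {f : X × ℝ → ℝ} (hf : AnalyticAt ℝ f 0) :
    ∃ (q : X × ℝ → ℝ) (r : Fin m → X → ℝ), AnalyticAt ℝ q 0 ∧ (∀ k, AnalyticAt ℝ (r k) 0) ∧
      (∀ᶠ z in 𝓝 (0 : X × ℝ), f z = q z * g z + ∑ k, r k z.1 * z.2 ^ (k : ℕ)) ∧
      ((∀ z, f z = z.2 ^ m) → q 0 ≠ 0) := by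
  obtain ⟨G, hG, rg, hrg, hGe⟩ := exists_op σ hg
  obtain ⟨F, hF, rf, hrf, hFe⟩ := exists_op σ hf
  have he' : AnalyticAt ℝ (fun z : X × ℝ => e z.2) 0 :=
    AnalyticAt.comp_of_eq (g := e) (f := fun z : X × ℝ => z.2) he analyticAt_snd rfl
  obtain ⟨Eo, hEo, re, hre, hEe⟩ := exists_op σ he'
  -- the operator `Eo (0, s)` is invertible for small `s`
  have hE0 : Eo 0 = e 0 • (1 : M →L[ℝ] M) := by
    ext a
    rw [← sub_eq_zero]
    refine σ.eq_zero_of_ev ?_
    filter_upwards [ShiftModel.eventually_abs_lt_one] with z hz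
    have h1 := hEe 0 0 (by simpa using hre) (by simpa using hre) z hz a
    have h2 : (Eo 0) a = Eo (0, 0) a := rfl
    rw [map_sub, h2, h1]
    simp
  have hEunit : ∀ᶠ y in 𝓝 (0 : X × ℝ), IsUnit (Eo y) := by
    have h1 : {a : M →L[ℝ] M | IsUnit a} ∈ 𝓝 (Eo 0) := by
      have h2 : IsUnit (Eo 0) := by
        rw [hE0]
        refine ⟨⟨e 0 • (1 : M →L[ℝ] M), (e 0)⁻¹ • (1 : M →L[ℝ] M), ?_, ?_⟩, rfl⟩
        · rw [smul_mul_smul_comm, mul_inv_cancel₀ he0, one_smul, one_mul]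
        · rw [smul_mul_smul_comm, inv_mul_cancel₀ he0, one_smul, one_mul]
      exact Units.isOpen.mem_nhds h2
    exact hEo.continuousAt h1
  have hs : ∀ᶠ s in 𝓝 (0 : ℝ), IsUnit (Eo ((0 : X), s)) ∧ AnalyticAt ℝ G ((0 : X), s) ∧
      AnalyticAt ℝ F ((0 : X), s) ∧ |s| < rg ∧ |s| < rf ∧ |s| < re := by
    have hc : Tendsto (fun s : ℝ => ((0 : X), s)) (𝓝 0) (𝓝 (0 : X × ℝ)) := by
      have : Continuous (fun s : ℝ => ((0 : X), s)) := by fun_prop
      exact this.tendsto' _ _ rfl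
    have ha : ∀ r : ℝ, 0 < r → ∀ᶠ s : ℝ in 𝓝 0, |s| < r := fun r hr =>
      continuous_abs.continuousAt.eventually_lt continuousAt_const (by simpa using hr)
    exact (hc.eventually hEunit).and ((hc.eventually hG.eventually_analyticAt).and
      ((hc.eventually hF.eventually_analyticAt).and ((ha _ hrg).and ((ha _ hrf).and (ha _ hre)))))
  obtain ⟨ρ, ⟨hEu, hGρ, hFρ, hρg, hρf, hρe⟩, hρ⟩ :=
    ((hs.filter_mono nhdsWithin_le_nhds).and (self_mem_nhdsWithin (s := Set.Ioi (0 : ℝ)))).exists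
  have hρ0 : 0 < ρ := hρ
  -- identities at `x = 0`
  have hGid : ∀ a, G (0, ρ) a = (σ.S ^ m) (ρ ^ m • Eo (0, ρ) a) := by
    intro a
    rw [← sub_eq_zero]
    refine σ.eq_zero_of_ev ?_
    have hz' : ∀ᶠ z in 𝓝 (0 : ℝ), g (0, ρ * z) = (ρ * z) ^ m * e (ρ * z) := by
      have : Tendsto (fun z : ℝ => ρ * z) (𝓝 0) (𝓝 0) := by
        have : Continuous (fun z : ℝ => ρ * z) := by fun_prop
        exact this.tendsto' _ _ (by simp)
      exact this.eventually hge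
    filter_upwards [ShiftModel.eventually_abs_lt_one, hz'] with z hz hz2
    rw [map_sub, σ.ev_S_pow hz, map_smul, hGe 0 ρ (by simpa using hrg) hρg z hz,
      hEe 0 ρ (by simpa using hre) hρe z hz, hz2, smul_eq_mul]
    ring
  -- the linear system
  let Dm : (Fin m → ℝ) →L[ℝ] M :=
    ∑ k : Fin m, (ContinuousLinearMap.proj (R := ℝ) (φ := fun _ : Fin m => ℝ) k).smulRight
      ((σ.S ^ (k : ℕ)) σ.d)
  have hDm : ∀ r, Dm r = ∑ k : Fin m, r k • (σ.S ^ (k : ℕ)) σ.d := by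
    intro r
    simp [Dm]
  let L : X → (M × (Fin m → ℝ) →L[ℝ] M) := fun x =>
    (G (x, ρ)).comp (ContinuousLinearMap.fst ℝ M (Fin m → ℝ)) +
      Dm.comp (ContinuousLinearMap.snd ℝ M (Fin m → ℝ))
  have hLapp : ∀ x y, L x y = G (x, ρ) y.1 + ∑ k : Fin m, y.2 k • (σ.S ^ (k : ℕ)) σ.d := by
    intro x y
    simp [L, hDm]
  have hpair : AnalyticAt ℝ (fun x : X => (x, ρ)) 0 := analyticAt_id.prod analyticAt_const
  have hL : AnalyticAt ℝ L 0 := by
    have h1 : AnalyticAt ℝ (fun x : X => G (x, ρ)) 0 :=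
      AnalyticAt.comp_of_eq (g := G) (f := fun x : X => (x, ρ)) hGρ hpair rfl
    have h2 : AnalyticAt ℝ (fun x : X => (G (x, ρ)).comp
        (ContinuousLinearMap.fst ℝ M (Fin m → ℝ))) 0 :=
      (((ContinuousLinearMap.compL ℝ (M × (Fin m → ℝ)) M M).flip
        (ContinuousLinearMap.fst ℝ M (Fin m → ℝ))).analyticAt _).fun_comp h1
    exact h2.add analyticAt_const
  have hL0 : ∀ y, L 0 y = (σ.S ^ m) (ρ ^ m • Eo (0, ρ) y.1) +
      ∑ k : Fin m, y.2 k • (σ.S ^ (k : ℕ)) σ.d := by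
    intro y
    rw [hLapp, hGid]
  have hρm : ρ ^ m ≠ 0 := pow_ne_zero _ hρ0.ne'
  have hEinj : ∀ a, Eo (0, ρ) a = 0 → a = 0 := by
    intro a ha
    obtain ⟨u, hu⟩ := hEu
    have h1 : (↑u⁻¹ : M →L[ℝ] M) (Eo (0, ρ) a) = a := by
      rw [← hu, ← mul_apply_eq_comp, Units.inv_mul]
      rfl
    rw [← h1, ha, map_zero]
  have hEsurj : ∀ a, ∃ b, Eo (0, ρ) b = a := by
    intro a
    obtain ⟨u, hu⟩ := hEu
    refine ⟨(↑u⁻¹ : M →L[ℝ] M) a, ?_⟩
    rw [← hu, ← mul_apply_eq_comp, Units.mul_inv]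
    rfl
  have hinj : Function.Injective (L 0) := by
    rw [injective_iff_map_eq_zero]
    intro y hy
    rw [hL0] at hy
    obtain ⟨h1, h2⟩ := σ.inj m _ _ hy
    have h3 : y.1 = 0 := hEinj _ ((smul_eq_zero.mp h1).resolve_left hρm)
    exact Prod.ext h3 h2
  have hsurj : Function.Surjective (L 0) := by
    intro a
    obtain ⟨b, hb⟩ := hEsurj ((ρ ^ m)⁻¹ • (σ.B ^ m) a)
    refine ⟨(b, σ.head m a), ?_⟩
    rw [hL0]
    simp only
    rw [hb, smul_smul, mul_inv_cancel₀ hρm, one_smul]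
    exact σ.head_tail m a
  have hw : AnalyticAt ℝ (fun x : X => F (x, ρ) σ.d) 0 := by
    have h1 : AnalyticAt ℝ (fun x : X => F (x, ρ)) 0 :=
      AnalyticAt.comp_of_eq (g := F) (f := fun x : X => (x, ρ)) hFρ hpair rfl
    exact ((ContinuousLinearMap.apply ℝ M σ.d).analyticAt _).fun_comp h1
  obtain ⟨u, hu, hue⟩ := solve_analytic hL hinj hsurj hw
  have hu1 : AnalyticAt ℝ (fun x => (u x).1) 0 :=
    ((ContinuousLinearMap.fst ℝ M (Fin m → ℝ)).analyticAt _).fun_comp hu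
  have hu2 : ∀ k, AnalyticAt ℝ (fun x => (u x).2 k) 0 := fun k =>
    (((ContinuousLinearMap.proj (R := ℝ) (φ := fun _ : Fin m => ℝ) k).comp
      (ContinuousLinearMap.snd ℝ M (Fin m → ℝ))).analyticAt _).fun_comp hu
  refine ⟨fun z => σ.ev (z.2 / ρ) (u z.1).1, fun k x => (u x).2 k / ρ ^ (k : ℕ), ?_, ?_, ?_, ?_⟩
  · have h1 : AnalyticAt ℝ (fun z : X × ℝ => (u z.1).1) 0 :=
      AnalyticAt.comp_of_eq (g := fun x => (u x).1) (f := fun z : X × ℝ => z.1) hu1
        analyticAt_fst rfl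
    have h2 : AnalyticAt ℝ (fun z : X × ℝ => σ.ev (z.2 / ρ)) 0 := by
      refine AnalyticAt.comp_of_eq (g := σ.ev) (f := fun z : X × ℝ => z.2 / ρ) σ.analyticAt_ev
        ?_ (by simp)
      exact analyticAt_snd.div_const
    have h3 := (ContinuousLinearMap.analyticAt_bilinear (ContinuousLinearMap.id ℝ (M →L[ℝ] ℝ))
      (σ.ev ((0 : X × ℝ).2 / ρ), (u (0 : X × ℝ).1).1))
    exact h3.comp_of_eq (h2.prod h1) rfl
  · intro k
    exact (hu2 k).div_const
  · have hz1 : ∀ᶠ z in 𝓝 (0 : X × ℝ), |z.2 / ρ| < 1 := by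
      have : Continuous (fun z : X × ℝ => |z.2 / ρ|) := by fun_prop
      exact this.continuousAt.eventually_lt continuousAt_const (by simp)
    have hz2 : ∀ᶠ z in 𝓝 (0 : X × ℝ), L z.1 (u z.1) = F (z.1, ρ) σ.d :=
      (continuous_fst.tendsto' (0 : X × ℝ) (0 : X) rfl).eventually hue
    have hz3 : ∀ᶠ z in 𝓝 (0 : X × ℝ), ‖z.1‖ < rg := by
      have : Continuous (fun z : X × ℝ => ‖z.1‖) := by fun_prop
      exact this.continuousAt.eventually_lt continuousAt_const (by simpa using hrg)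
    have hz4 : ∀ᶠ z in 𝓝 (0 : X × ℝ), ‖z.1‖ < rf := by
      have : Continuous (fun z : X × ℝ => ‖z.1‖) := by fun_prop
      exact this.continuousAt.eventually_lt continuousAt_const (by simpa using hrf)
    filter_upwards [hz1, hz2, hz3, hz4] with z h1 h2 h3 h4
    have h5 : ρ * (z.2 / ρ) = z.2 := by field_simp
    have h6 := congrArg (σ.ev (z.2 / ρ)) h2
    rw [hLapp, map_add, map_sum, hGe z.1 ρ h3 hρg _ h1, hFe z.1 ρ h4 hρf _ h1, h5,
      σ.ev_d h1, mul_one] at h6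
    simp only [Prod.mk.eta] at h6
    rw [← h6, mul_comm]
    congr 1
    refine Finset.sum_congr rfl (fun k _ => ?_)
    rw [map_smul, σ.ev_S_pow h1, σ.ev_d h1, smul_eq_mul, mul_one, div_pow]
    field_simp
  · intro hfm
    have h1 : L 0 (u 0) = F (0, ρ) σ.d := hue.self_of_nhds
    have h2 : F (0, ρ) σ.d = (σ.S ^ m) (ρ ^ m • σ.d) := by
      rw [← sub_eq_zero]
      refine σ.eq_zero_of_ev ?_
      filter_upwards [ShiftModel.eventually_abs_lt_one] with z hz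
      rw [map_sub, σ.ev_S_pow hz, map_smul, hFe 0 ρ (by simpa using hrf) hρf z hz, hfm,
        σ.ev_d hz, smul_eq_mul]
      simp only
      ring
    have h3 : (σ.S ^ m) (ρ ^ m • Eo (0, ρ) (u 0).1 - ρ ^ m • σ.d) +
        ∑ k : Fin m, (u 0).2 k • (σ.S ^ (k : ℕ)) σ.d = 0 := by
      rw [map_sub, ← h2, ← h1, hL0]
      abel
    obtain ⟨h4, -⟩ := σ.inj m _ _ h3
    have h5 : Eo (0, ρ) (u 0).1 = σ.d := by
      rw [← smul_sub] at h4
      exact sub_eq_zero.mp ((smul_eq_zero.mp h4).resolve_left hρm)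
    have h6 := hEe 0 ρ (by simpa using hre) hρe 0 (by simp) (u 0).1
    rw [h5, σ.ev_d (by simp)] at h6
    intro h7
    have h8 : σ.ev 0 (u 0).1 = 0 := by simpa using h7
    rw [h8, mul_zero] at h6
    exact one_ne_zero h6

/-- The Weierstrass division theorem for real analytic functions. -/
theorem weierstrass {g : X × ℝ → ℝ} (hg : AnalyticAt ℝ g 0) {m : ℕ}
    {e : ℝ → ℝ} (he : AnalyticAt ℝ e 0) (he0 : e 0 ≠ 0)
    (hge : ∀ᶠ t in 𝓝 (0 : ℝ), g (0, t) = t ^ m * e t)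
    {f : X × ℝ → ℝ} (hf : AnalyticAt ℝ f 0) :
    ∃ (q : X × ℝ → ℝ) (r : Fin m → X → ℝ), AnalyticAt ℝ q 0 ∧ (∀ k, AnalyticAt ℝ (r k) 0) ∧
      (∀ᶠ z in 𝓝 (0 : X × ℝ), f z = q z * g z + ∑ k, r k z.1 * z.2 ^ (k : ℕ)) ∧
      ((∀ z, f z = z.2 ^ m) → q 0 ≠ 0) :=
  weierstrass_aux seqModel hg he he0 hge hf

end Main

end Pool.Agent.MP_5de7bf_an
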